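import Pool.Agent.Work.MP_e3f5d9_al_cx.Interface

/-!
# The inverse Boettcher map (blocks BOT1, BOT2, BOT3, BOT)
-/

set_option autoImplicit false

open Polynomial unitInterval Topology Metric Filter

namespace R4C
namespace BOT

/-! ### BOT1 -/

lemma sqrt_sq (x : ℂ) : Complex.sqrt x ^ 2 = x := by
  simp [Complex.sqrt]

lemma sqrt_re_nonneg (x : ℂ) : 0 ≤ (Complex.sqrt x).re := by
  rw [Complex.sqrt, Complex.cpow_inv_two_re]
  exact Real.sqrt_nonneg _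

/-- nested square roots -/
noncomputable def S (c : ℂ) : ℕ → ℂ → ℂ
  | 0, _ => 1
  | m + 1, u => Complex.sqrt (S c m (u ^ 2) - c * u ^ 2)

lemma S_zero (c : ℂ) (m : ℕ) : S c m 0 = 1 := by
  induction m with
  | zero => rfl
  | succ m ih => simp [S, ih]

lemma S_sq (c : ℂ) (m : ℕ) (u : ℂ) : S c (m + 1) u ^ 2 = S c m (u ^ 2) - c * u ^ 2 := by
  rw [S, sqrt_sq]

lemma S_re (c : ℂ) (m : ℕ) (u : ℂ) : 0 ≤ (S c m u).re := by
  cases m with
  | zero => simp [S]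
  | succ m => exact sqrt_re_nonneg _

lemma S_near (c : ℂ) {r : ℝ} (h1 : r ^ 2 ≤ 1 / 2) (m : ℕ) : ∀ u : ℂ, ‖u‖ ≤ r →
    ‖S c m u - 1‖ ≤ 2 * ‖c‖ * ‖u‖ ^ 2 := by
  induction m with
  | zero => intro u hu; simp [S]; positivity
  | succ m ih =>
    intro u hu
    have hu2 : ‖u‖ ^ 2 ≤ 1 / 2 := le_trans (pow_le_pow_left₀ (norm_nonneg _) hu 2) h1
    have h0 : ‖u ^ 2‖ ≤ r := by
      rw [norm_pow]
      have hr : 0 ≤ r := le_trans (norm_nonneg _) hu
      have hr1 : r ≤ 1 := by nlinarith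
      nlinarith [norm_nonneg u]
    have h2 := ih (u ^ 2) h0
    rw [norm_pow] at h2
    have h3 : (S c (m + 1) u - 1) * (S c (m + 1) u + 1) = (S c m (u ^ 2) - 1) - c * u ^ 2 := by
      have := S_sq c m u
      linear_combination this
    have h4 : 1 ≤ ‖S c (m + 1) u + 1‖ := by
      have h5 := Complex.abs_re_le_norm (S c (m + 1) u + 1)
      have h6 := S_re c (m + 1) u
      have h7 : (S c (m + 1) u + 1).re = (S c (m + 1) u).re + 1 := by simp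
      rw [h7] at h5
      have h8 := le_abs_self ((S c (m + 1) u).re + 1)
      linarith
    have h9 : ‖S c (m + 1) u - 1‖ ≤ ‖(S c m (u ^ 2) - 1) - c * u ^ 2‖ := by
      rw [← h3, norm_mul]
      nlinarith [norm_nonneg (S c (m + 1) u - 1)]
    have h10 : ‖(S c m (u ^ 2) - 1) - c * u ^ 2‖ ≤ 2 * ‖c‖ * (‖u‖ ^ 2) ^ 2 + ‖c‖ * ‖u‖ ^ 2 := by
      refine le_trans (norm_sub_le _ _) ?_
      rw [norm_mul, norm_pow]
      linarith
    have h11 : 2 * ‖c‖ * (‖u‖ ^ 2) ^ 2 ≤ ‖c‖ * ‖u‖ ^ 2 := by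
      have : ‖c‖ * ‖u‖ ^ 2 * (1 - 2 * ‖u‖ ^ 2) ≥ 0 := by
        apply mul_nonneg (by positivity); linarith
      nlinarith
    linarith

lemma S_near' (c : ℂ) {r : ℝ} (h1 : r ^ 2 ≤ 1 / 2) (h2 : ‖c‖ * r ^ 2 ≤ 1 / 8) (m : ℕ) (u : ℂ)
    (hu : ‖u‖ ≤ r) : ‖S c m u - 1‖ ≤ 1 / 4 := by
  refine le_trans (S_near c h1 m u hu) ?_
  have : ‖u‖ ^ 2 ≤ r ^ 2 := pow_le_pow_left₀ (norm_nonneg _) hu 2
  have h3 := mul_le_mul_of_nonneg_left this (norm_nonneg c)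
  linarith

lemma re_ge_of_near {x : ℂ} (h : ‖x - 1‖ ≤ 1 / 4) : 3 / 4 ≤ x.re := by
  have h1 := Complex.abs_re_le_norm (x - 1)
  have h2 : (x - 1).re = x.re - 1 := by simp
  rw [h2] at h1
  have h3 := neg_abs_le (x.re - 1)
  linarith

lemma sq_lt_one {r : ℝ} {u : ℂ} (h1 : r ≤ 1) (hu : ‖u‖ < r) : ‖u ^ 2‖ < r := by
  rw [norm_pow]
  nlinarith [norm_nonneg u]

lemma S_diff (c : ℂ) {r : ℝ} (hr : 0 < r) (h1 : r ^ 2 ≤ 1 / 2) (h2 : ‖c‖ * r ^ 2 ≤ 1 / 8) (m : ℕ) :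
    DifferentiableOn ℂ (S c m) (ball 0 r) := by
  have hr1 : r ≤ 1 := by nlinarith
  induction m with
  | zero => exact differentiableOn_const 1
  | succ m ih =>
    have h3 : DifferentiableOn ℂ (fun u => S c m (u ^ 2) - c * u ^ 2) (ball 0 r) := by
      apply DifferentiableOn.sub
      · apply ih.comp (by fun_prop)
        intro u hu
        rw [mem_ball_zero_iff] at hu ⊢
        exact sq_lt_one hr1 hu
      · fun_prop
    apply Complex.differentiableOn_sqrt.comp h3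
    intro u hu
    rw [mem_ball_zero_iff] at hu
    left
    have h4 : ‖S c m (u ^ 2) - 1‖ ≤ 1 / 4 :=
      S_near' c h1 h2 m _ (sq_lt_one hr1 hu).le
    have h5 := re_ge_of_near h4
    have h6 : ‖c * u ^ 2‖ ≤ 1 / 8 := by
      rw [norm_mul, norm_pow]
      have : ‖u‖ ^ 2 ≤ r ^ 2 := pow_le_pow_left₀ (norm_nonneg _) hu.le 2
      have h3 := mul_le_mul_of_nonneg_left this (norm_nonneg c)
      linarith
    have h7 := Complex.abs_re_le_norm (c * u ^ 2)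
    have h8 := le_abs_self (c * u ^ 2).re
    show 0 < (S c m (u ^ 2) - c * u ^ 2).re
    rw [Complex.sub_re]
    linarith

lemma S_step (c : ℂ) {r : ℝ} (hr : 0 < r) (h1 : r ^ 2 ≤ 1 / 2) (h2 : ‖c‖ * r ^ 2 ≤ 1 / 8) (m : ℕ) :
    ∀ u : ℂ, ‖u‖ < r → ‖S c (m + 1) u - S c m u‖ ≤ (2 / 3) ^ m := by
  have hr1 : r ≤ 1 := by nlinarith
  induction m with
  | zero =>
    intro u hu
    have := S_near' c h1 h2 1 u hu.le
    simp only [S] at this ⊢
    simp only [pow_zero]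
    linarith
  | succ m ih =>
    intro u hu
    have h3 : (S c (m + 1 + 1) u - S c (m + 1) u) * (S c (m + 1 + 1) u + S c (m + 1) u)
        = S c (m + 1) (u ^ 2) - S c m (u ^ 2) := by
      have h4 := S_sq c (m + 1) u
      have h5 := S_sq c m u
      linear_combination h4 - h5
    have h6 : 3 / 2 ≤ ‖S c (m + 1 + 1) u + S c (m + 1) u‖ := by
      have a1 := re_ge_of_near (S_near' c h1 h2 (m + 1 + 1) u hu.le)
      have a2 := re_ge_of_near (S_near' c h1 h2 (m + 1) u hu.le)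
      have a3 := Complex.abs_re_le_norm (S c (m + 1 + 1) u + S c (m + 1) u)
      rw [Complex.add_re] at a3
      have a4 := le_abs_self ((S c (m + 1 + 1) u).re + (S c (m + 1) u).re)
      linarith
    have h7 := ih (u ^ 2) (sq_lt_one hr1 hu)
    rw [← h3, norm_mul] at h7
    have h8 := mul_le_mul_of_nonneg_left h6 (norm_nonneg (S c (m + 1 + 1) u - S c (m + 1) u))
    rw [pow_succ]
    linarith

theorem stmt_BOT1 : Stmt_BOT1 := by
  intro c
  have hc := norm_nonneg c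
  set r : ℝ := 1 / (4 * (1 + ‖c‖)) with hr
  have hr0 : 0 < r := by positivity
  have h4 : r * (4 * (1 + ‖c‖)) = 1 := by rw [hr]; field_simp
  have hr1 : r ≤ 1 / 4 := by nlinarith
  have h1 : r ^ 2 ≤ 1 / 2 := by nlinarith
  have h2 : ‖c‖ * r ^ 2 ≤ 1 / 8 := by
    have h5 : ‖c‖ * r ≤ 1 / 4 := by nlinarith
    have h6 : ‖c‖ * r ^ 2 = (‖c‖ * r) * r := by ring
    rw [h6]
    nlinarith [mul_nonneg hc hr0.le]
  refine ⟨r, hr0, by linarith, fun u => 1 + ∑' m, (S c (m + 1) u - S c m u), ?_, ?_, ?_⟩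
  · apply DifferentiableOn.add (differentiableOn_const 1)
    apply Complex.differentiableOn_tsum_of_summable_norm
      (summable_geometric_of_lt_one (r := (2 / 3 : ℝ)) (by norm_num) (by norm_num))
    · intro m
      exact (S_diff c hr0 h1 h2 (m + 1)).sub (S_diff c hr0 h1 h2 m)
    · exact isOpen_ball
    · intro m u hu
      rw [mem_ball_zero_iff] at hu
      exact S_step c hr0 h1 h2 m u hu
  · simp [S_zero]
  · have key : ∀ u : ℂ, ‖u‖ < r → Tendsto (fun m => S c m u) atTop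
        (𝓝 (1 + ∑' m, (S c (m + 1) u - S c m u))) := by
      intro u hu
      have hs : Summable (fun m => S c (m + 1) u - S c m u) := by
        apply Summable.of_norm_bounded
          (summable_geometric_of_lt_one (r := (2 / 3 : ℝ)) (by norm_num) (by norm_num))
        intro m
        exact S_step c hr0 h1 h2 m u hu
      have h3 := hs.hasSum.tendsto_sum_nat
      have h4 : (fun n => ∑ i ∈ Finset.range n, (S c (i + 1) u - S c i u)) =
          fun n => S c n u - 1 := by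
        funext n
        rw [Finset.sum_range_sub (fun i => S c i u) n]
        rfl
      rw [h4] at h3
      have h5 := h3.const_add 1
      simpa using h5
    intro u hu
    rw [mem_ball_zero_iff] at hu
    have a1 := (key u hu).comp (tendsto_add_atTop_nat 1)
    have a2 := a1.pow 2
    have a3 := (key (u ^ 2) (sq_lt_one (by linarith) hu)).sub_const (c * u ^ 2)
    refine tendsto_nhds_unique a2 (a3.congr fun m => ?_)
    simp only [Function.comp]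
    rw [S_sq]

/-! ### General lemmas on solutions -/

lemma f_iter_succ (c : ℂ) (n : ℕ) (z : ℂ) : (f c)^[n + 1] z = (f c)^[n] (f c z) :=
  Function.iterate_succ_apply _ _ _

/-- holomorphic square roots on discs -/
lemma exists_root {g : ℂ → ℂ} {r : ℝ} (hr : 0 < r) (hg : DifferentiableOn ℂ g (ball 0 r))
    (h0 : g 0 = 1) (hne : ∀ u ∈ ball (0 : ℂ) r, g u ≠ 0) :
    ∃ s : ℂ → ℂ, DifferentiableOn ℂ s (ball 0 r) ∧ s 0 = 1 ∧
      ∀ u ∈ ball (0 : ℂ) r, s u ^ 2 = g u := by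
  have h1 : DifferentiableOn ℂ (fun u => deriv g u / g u) (ball 0 r) :=
    (hg.deriv isOpen_ball).div hg hne
  obtain ⟨h, hh0, hh⟩ := h1.isExactOn_ball.with_val_at 0 0
  have h2 : ∀ u ∈ ball (0 : ℂ) r, HasDerivAt (fun u => g u * Complex.exp (- h u)) 0 u := by
    intro u hu
    have a1 : HasDerivAt g (deriv g u) u :=
      (hg.differentiableAt (isOpen_ball.mem_nhds hu)).hasDerivAt
    have a2 := (hh u hu).neg.cexp
    refine (a1.mul a2).congr_deriv ?_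
    have := hne u hu
    have h5 : g u * (deriv g u / g u) = deriv g u := mul_div_cancel₀ _ this
    linear_combination (-Complex.exp (- h u)) * h5
  have h3 : ∀ u ∈ ball (0 : ℂ) r, g u * Complex.exp (- h u) = 1 := by
    intro u hu
    have h4 : DifferentiableOn ℂ (fun u => g u * Complex.exp (- h u)) (ball 0 r) :=
      fun v hv => (h2 v hv).differentiableAt.differentiableWithinAt
    have h5 := (convex_ball (0 : ℂ) r).is_const_of_fderivWithin_eq_zero h4 (fun v hv => by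
      rw [fderivWithin_of_isOpen isOpen_ball hv]
      have := (h2 v hv).hasFDerivAt.fderiv
      rw [this]
      ext; simp) hu (mem_ball_self hr)
    simp only [h0, hh0, neg_zero, Complex.exp_zero, mul_one] at h5
    exact h5
  refine ⟨fun u => Complex.exp (h u / 2), ?_, ?_, ?_⟩
  · intro u hu
    exact ((hh u hu).differentiableAt.div_const 2).cexp.differentiableWithinAt
  · simp [hh0]
  · intro u hu
    have h4 := h3 u hu
    rw [Complex.exp_neg] at h4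
    have h5 : g u = Complex.exp (h u) := by
      have := Complex.exp_ne_zero (h u)
      field_simp at h4
      exact h4
    rw [h5, ← Complex.exp_nat_mul]
    congr 1
    push_cast
    ring

/-- identity theorem on discs -/
lemma eqOn_ball {a b : ℂ → ℂ} {r : ℝ} (hr : 0 < r) (ha : DifferentiableOn ℂ a (ball 0 r))
    (hb : DifferentiableOn ℂ b (ball 0 r)) (h : ∀ᶠ u in 𝓝 (0 : ℂ), a u = b u) :
    Set.EqOn a b (ball 0 r) :=
  (ha.analyticOnNhd isOpen_ball).eqOn_of_preconnected_of_eventuallyEq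
    (hb.analyticOnNhd isOpen_ball) (convex_ball _ _).isPreconnected (mem_ball_self hr) h

lemma cont_at {a : ℂ → ℂ} {r : ℝ} (hr : 0 < r) (ha : DifferentiableOn ℂ a (ball 0 r)) :
    ContinuousAt a 0 :=
  (ha.differentiableAt (isOpen_ball.mem_nhds (mem_ball_self hr))).continuousAt

lemma eqOn_of_sq {a b : ℂ → ℂ} {r : ℝ} (hr : 0 < r) (ha : DifferentiableOn ℂ a (ball 0 r))
    (hb : DifferentiableOn ℂ b (ball 0 r)) (ha0 : a 0 = 1) (hb0 : b 0 = 1)
    (h : ∀ u ∈ ball (0 : ℂ) r, a u ^ 2 = b u ^ 2) : Set.EqOn a b (ball 0 r) := by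
  apply eqOn_ball hr ha hb
  have h1 : ContinuousAt (fun u => a u + b u) 0 := (cont_at hr ha).add (cont_at hr hb)
  have h2 : ∀ᶠ u in 𝓝 (0 : ℂ), a u + b u ≠ 0 := by
    apply h1.eventually_ne
    simp [ha0, hb0]
  filter_upwards [h2, isOpen_ball.mem_nhds (mem_ball_self hr)] with u h3 h4
  have h5 : (a u - b u) * (a u + b u) = 0 := by
    have := h u h4
    linear_combination this
  rcases mul_eq_zero.1 h5 with h6 | h6
  · exact sub_eq_zero.1 h6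
  · exact absurd h6 h3

lemma tendsto_pow_two_pow {u : ℂ} (hu : ‖u‖ < 1) :
    Tendsto (fun n : ℕ => u ^ 2 ^ n) atTop (𝓝 0) :=
  (tendsto_pow_atTop_nhds_zero_of_norm_lt_one hu).comp
    (tendsto_pow_atTop_atTop_of_one_lt (by norm_num))

lemma uniq {c : ℂ} {a b : ℂ → ℂ} {r : ℝ} (hr : 0 < r) (hr1 : r ≤ 1) (ha : PsiEq c a r)
    (hb : PsiEq c b r) : Set.EqOn a b (ball 0 r) := by
  obtain ⟨ha1, ha2, ha3⟩ := ha
  obtain ⟨hb1, hb2, hb3⟩ := hb
  apply eqOn_ball hr ha1 hb1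
  have h1 : ContinuousAt (fun u => ‖a u + b u‖) 0 := ((cont_at hr ha1).add (cont_at hr hb1)).norm
  have h2 : ∀ᶠ u in 𝓝 (0 : ℂ), 1 < ‖a u + b u‖ := by
    apply h1.eventually (lt_mem_nhds _)
    simp only [ha2, hb2]
    norm_num
  obtain ⟨ε, hε, h3⟩ := Metric.eventually_nhds_iff_ball.1 h2
  set δ := min ε r with hδ
  have hδ0 : 0 < δ := lt_min hε hr
  have h4 : ∀ u : ℂ, ‖u‖ < δ → ‖a u - b u‖ ≤ ‖a (u ^ 2) - b (u ^ 2)‖ := by
    intro u hu
    have h5 : u ∈ ball (0 : ℂ) r := by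
      rw [mem_ball_zero_iff]; exact lt_of_lt_of_le hu (min_le_right _ _)
    have h6 : (a u - b u) * (a u + b u) = a (u ^ 2) - b (u ^ 2) := by
      have := ha3 u h5
      have := hb3 u h5
      linear_combination ha3 u h5 - hb3 u h5
    have h7 : 1 < ‖a u + b u‖ := h3 u (by
      rw [mem_ball_zero_iff]; exact lt_of_lt_of_le hu (min_le_left _ _))
    rw [← h6, norm_mul]
    nlinarith [norm_nonneg (a u - b u)]
  have hδ1 : δ ≤ 1 := le_trans (min_le_right _ _) hr1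
  have h5 : ∀ (n : ℕ) (u : ℂ), ‖u‖ < δ → ‖a u - b u‖ ≤ ‖a (u ^ 2 ^ n) - b (u ^ 2 ^ n)‖ := by
    intro n
    induction n with
    | zero => intro u hu; simp
    | succ n ih =>
      intro u hu
      refine le_trans (h4 u hu) ?_
      have h6 := ih (u ^ 2) (sq_lt_one hδ1 hu)
      rw [← pow_mul, ← pow_succ'] at h6
      exact h6
  filter_upwards [ball_mem_nhds (0 : ℂ) hδ0] with u hu
  rw [mem_ball_zero_iff] at hu
  have h6 : Tendsto (fun n : ℕ => ‖a (u ^ 2 ^ n) - b (u ^ 2 ^ n)‖) atTop (𝓝 0) := by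
    have h7 := ((cont_at hr ha1).sub (cont_at hr hb1)).norm
    have h8 : Tendsto (fun u => ‖a u - b u‖) (𝓝 0) (𝓝 0) := by
      have := h7.tendsto
      simpa [ha2, hb2] using this
    exact h8.comp (tendsto_pow_two_pow (lt_of_lt_of_le hu hδ1))
  have h7 : ‖a u - b u‖ ≤ 0 := ge_of_tendsto' h6 fun n => h5 n u hu
  have h8 := norm_le_zero_iff.1 h7
  exact sub_eq_zero.1 h8

/-- the functional equation for `Ψ v / v` -/
lemma chi_step {c : ℂ} {Ψ : ℂ → ℂ} {r : ℝ} (h : PsiEq c Ψ r) {v : ℂ} (h0 : v ≠ 0)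
    (hv : ‖v‖ < r) : f c (Ψ v / v) = Ψ (v ^ 2) / v ^ 2 := by
  have h1 := h.2.2 v (by rwa [mem_ball_zero_iff])
  rw [f, div_pow, h1]
  field_simp
  ring

lemma chi_iter {c : ℂ} {Ψ : ℂ → ℂ} {r : ℝ} (hr1 : r ≤ 1) (h : PsiEq c Ψ r) (n : ℕ) :
    ∀ {v : ℂ}, v ≠ 0 → ‖v‖ < r → (f c)^[n] (Ψ v / v) = Ψ (v ^ 2 ^ n) / v ^ 2 ^ n := by
  induction n with
  | zero => intro v h0 hv; simp
  | succ n ih =>
    intro v h0 hv
    rw [f_iter_succ, chi_step h h0 hv, ih (pow_ne_zero 2 h0) (sq_lt_one hr1 hv), ← pow_mul,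
      ← pow_succ']

lemma chi_notMem {c : ℂ} {Ψ : ℂ → ℂ} {r : ℝ} (hr : 0 < r) (hr1 : r ≤ 1) (h : PsiEq c Ψ r) {v : ℂ}
    (h0 : v ≠ 0) (hv : ‖v‖ < r) : Ψ v / v ∉ K c := by
  rintro ⟨R, hR⟩
  have h1 := tendsto_pow_two_pow (lt_of_lt_of_le hv hr1)
  have h2 : Tendsto (fun n : ℕ => ‖Ψ (v ^ 2 ^ n)‖) atTop (𝓝 1) := by
    have := ((cont_at hr h.1).norm.tendsto).comp h1
    simpa [h.2.1, Function.comp_def] using this
  have h3 : Tendsto (fun n : ℕ => R * ‖v ^ 2 ^ n‖) atTop (𝓝 0) := by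
    have := h1.norm.const_mul R
    simpa using this
  have h4 : ∀ n : ℕ, ‖Ψ (v ^ 2 ^ n)‖ ≤ R * ‖v ^ 2 ^ n‖ := by
    intro n
    have h5 := hR n
    rw [chi_iter hr1 h n h0 hv, norm_div] at h5
    rwa [div_le_iff₀ (norm_pos_iff.2 (pow_ne_zero _ h0))] at h5
  have h5 := le_of_tendsto_of_tendsto' h2 h3 h4
  linarith

lemma c_mem_K {c : ℂ} (h : (0 : ℂ) ∈ K c) : c ∈ K c := by
  obtain ⟨R, hR⟩ := h
  refine ⟨R, fun n => ?_⟩
  have := hR (n + 1)
  rw [f_iter_succ] at this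
  simpa [f] using this

/-! ### BOT2 -/

lemma ext_step {c : ℂ} (hK : (0 : ℂ) ∈ K c) {Ψ : ℂ → ℂ} {r ρ : ℝ} (hr : 0 < r) (hr1 : r < 1)
    (hρ : 0 < ρ) (hρr : ρ ^ 2 ≤ r) (hrρ : r ≤ ρ) (h : PsiEq c Ψ r) :
    ∃ s, PsiEq c s ρ := by
  have hsq : ∀ u ∈ ball (0 : ℂ) ρ, u ^ 2 ∈ ball (0 : ℂ) r := by
    intro u hu
    rw [mem_ball_zero_iff] at hu ⊢
    rw [norm_pow]
    nlinarith [norm_nonneg u]
  have hg : DifferentiableOn ℂ (fun u => Ψ (u ^ 2) - c * u ^ 2) (ball 0 ρ) := by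
    apply DifferentiableOn.sub
    · exact h.1.comp (by fun_prop) hsq
    · fun_prop
  have h0 : Ψ (0 ^ 2) - c * 0 ^ 2 = 1 := by simp [h.2.1]
  have hne : ∀ u ∈ ball (0 : ℂ) ρ, Ψ (u ^ 2) - c * u ^ 2 ≠ 0 := by
    intro u hu h1
    by_cases hu0 : u = 0
    · rw [hu0, h0] at h1; exact one_ne_zero h1
    · have h2 : u ^ 2 ≠ 0 := pow_ne_zero 2 hu0
      have h3 : Ψ (u ^ 2) / u ^ 2 = c := by
        rw [div_eq_iff h2]; linear_combination h1
      have h4 := chi_notMem hr hr1.le h h2 (mem_ball_zero_iff.1 (hsq u hu))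
      rw [h3] at h4
      exact h4 (c_mem_K hK)
  obtain ⟨s, hs1, hs0, hs2⟩ := exists_root hρ hg h0 hne
  have hsub : ball (0 : ℂ) r ⊆ ball 0 ρ := ball_subset_ball hrρ
  have heq : Set.EqOn s Ψ (ball 0 r) := by
    apply eqOn_of_sq hr (hs1.mono hsub) h.1 hs0 h.2.1
    intro u hu
    rw [hs2 u (hsub hu), h.2.2 u hu]
  refine ⟨s, hs1, hs0, fun u hu => ?_⟩
  rw [hs2 u hu, heq (hsq u hu)]

lemma ext_all {c : ℂ} (hK : (0 : ℂ) ∈ K c) {r : ℝ} (hr : 0 < r) (hr1 : r < 1)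
    (h : ∃ Ψ, PsiEq c Ψ r) {ρ : ℝ} (hρ : 0 < ρ) (hρ1 : ρ < 1) : ∃ Ψ, PsiEq c Ψ ρ := by
  have h1 : ∀ n : ℕ, ∀ ρ : ℝ, 0 < ρ → ρ < 1 → ρ ^ 2 ^ n ≤ r → ∃ Ψ, PsiEq c Ψ ρ := by
    intro n
    induction n with
    | zero =>
      intro ρ h2 h3 h4
      rw [pow_zero, pow_one] at h4
      obtain ⟨Ψ, h5, h6, h7⟩ := h
      exact ⟨Ψ, h5.mono (ball_subset_ball h4), h6, fun u hu => h7 u (ball_subset_ball h4 hu)⟩
    | succ n ih =>
      intro ρ h2 h3 h4
      have h5 : ρ ^ 2 < 1 := by nlinarith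
      obtain ⟨Ψ, h6⟩ := ih (ρ ^ 2) (by positivity) h5 (by
        rw [← pow_mul, mul_comm, ← pow_succ]; exact h4)
      exact ext_step hK (by positivity) h5 h2 le_rfl (by nlinarith) h6
  have h2 : Tendsto (fun n : ℕ => ρ ^ 2 ^ n) atTop (𝓝 0) :=
    (tendsto_pow_atTop_nhds_zero_of_lt_one hρ.le hρ1).comp
      (tendsto_pow_atTop_atTop_of_one_lt (by norm_num))
  obtain ⟨n, hn⟩ := (h2.eventually (ge_mem_nhds hr)).exists
  exact h1 n ρ hρ hρ1 hn

theorem stmt_BOT2 : Stmt_BOT2 := by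
  rintro c hK ⟨r, hr, hr1, h⟩
  have h1 : ∀ ρ : ℝ, ∃ Ψ, 0 < ρ → ρ < 1 → PsiEq c Ψ ρ := by
    intro ρ
    by_cases h2 : 0 < ρ ∧ ρ < 1
    · obtain ⟨Ψ, h3⟩ := ext_all hK hr hr1 h h2.1 h2.2
      exact ⟨Ψ, fun _ _ => h3⟩
    · exact ⟨0, fun h3 h4 => absurd ⟨h3, h4⟩ h2⟩
  choose F hF using h1
  have hrad : ∀ u : ℂ, ‖u‖ < 1 → 0 < (1 + ‖u‖) / 2 ∧ (1 + ‖u‖) / 2 < 1 ∧ ‖u‖ < (1 + ‖u‖) / 2 := by
    intro u hu
    have := norm_nonneg u
    refine ⟨by linarith, by linarith, by linarith⟩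
  have hagree : ∀ ρ : ℝ, 0 < ρ → ρ < 1 → ∀ u : ℂ, ‖u‖ < ρ → F ((1 + ‖u‖) / 2) u = F ρ u := by
    intro ρ h2 h3 u hu
    have hu1 : ‖u‖ < 1 := by linarith
    obtain ⟨a1, a2, a3⟩ := hrad u hu1
    have b1 := hF _ a1 a2
    have b2 := hF ρ h2 h3
    set τ := min ρ ((1 + ‖u‖) / 2) with hτ
    have hτ0 : 0 < τ := lt_min h2 a1
    have hs1 : ball (0 : ℂ) τ ⊆ ball 0 ρ := ball_subset_ball (min_le_left _ _)
    have hs2 : ball (0 : ℂ) τ ⊆ ball 0 ((1 + ‖u‖) / 2) := ball_subset_ball (min_le_right _ _)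
    apply uniq hτ0 (le_trans (min_le_left _ _) h3.le)
      (⟨b1.1.mono hs2, b1.2.1, fun u hu => b1.2.2 u (hs2 hu)⟩ : PsiEq c (F ((1 + ‖u‖) / 2)) τ)
      (⟨b2.1.mono hs1, b2.2.1, fun u hu => b2.2.2 u (hs1 hu)⟩ : PsiEq c (F ρ) τ)
    rw [mem_ball_zero_iff]
    exact lt_min hu a3
  refine ⟨fun u => F ((1 + ‖u‖) / 2) u, ?_, ?_, ?_⟩
  · intro u hu
    rw [mem_ball_zero_iff] at hu
    obtain ⟨a1, a2, a3⟩ := hrad u hu
    apply DifferentiableAt.differentiableWithinAt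
    have h2 : ball (0 : ℂ) ((1 + ‖u‖) / 2) ∈ 𝓝 u :=
      isOpen_ball.mem_nhds (by rwa [mem_ball_zero_iff])
    apply ((hF _ a1 a2).1.differentiableAt h2).congr_of_eventuallyEq
    filter_upwards [h2] with v hv
    rw [mem_ball_zero_iff] at hv
    exact hagree _ a1 a2 v hv
  · have := hrad 0 (by simp)
    exact (hF _ this.1 this.2.1).2.1
  · intro u hu
    rw [mem_ball_zero_iff] at hu
    obtain ⟨a1, a2, a3⟩ := hrad u hu
    have h2 := (hF _ a1 a2).2.2 u (by rwa [mem_ball_zero_iff])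
    have h3 := hagree _ a1 a2 (u ^ 2) (lt_of_le_of_lt (by
      rw [norm_pow]
      nlinarith [norm_nonneg u]) a3)
    show F ((1 + ‖u‖) / 2) u ^ 2 = F ((1 + ‖u ^ 2‖) / 2) (u ^ 2) - c * u ^ 2
    rw [h3, h2]

/-! ### BOT3 -/

lemma even_of {c : ℂ} {Ψ : ℂ → ℂ} (h : PsiEq c Ψ 1) {u : ℂ} (hu : ‖u‖ < 1) : Ψ (-u) = Ψ u := by
  have h1 : Set.MapsTo (fun u : ℂ => -u) (ball 0 1) (ball 0 1) := by
    intro v hv
    rw [mem_ball_zero_iff] at hv ⊢
    rwa [norm_neg]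
  have h2 : DifferentiableOn ℂ (fun u => Ψ (-u)) (ball 0 1) := h.1.comp (by fun_prop) h1
  apply eqOn_of_sq (a := fun u => Ψ (-u)) one_pos h2 h.1 (by simp [h.2.1]) h.2.1 _
    (mem_ball_zero_iff.2 hu)
  intro v hv
  show Ψ (-v) ^ 2 = Ψ v ^ 2
  rw [h.2.2 _ (h1 hv), h.2.2 v hv, neg_sq]

lemma inv_lt {w : ℂ} (hw : 1 < ‖w‖) : ‖w⁻¹‖ < 1 := by
  rw [norm_inv]; exact inv_lt_one_of_one_lt₀ hw

lemma ne_of_one_lt {w : ℂ} (hw : 1 < ‖w‖) : w ≠ 0 := by
  rintro rfl; simp at hw; linarith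

lemma psi_eq (Ψ : ℂ → ℂ) (w : ℂ) : w * Ψ w⁻¹ = Ψ w⁻¹ / w⁻¹ := by
  rw [div_inv_eq_mul, mul_comm]

/-- `u / Ψ u` is a local homeomorphism at `0` -/
lemma loc {c : ℂ} {Ψ : ℂ → ℂ} (h : PsiEq c Ψ 1) : HasStrictDerivAt (fun u => u / Ψ u) 1 0 := by
  have h1 : AnalyticAt ℂ Ψ 0 := (h.1.analyticOnNhd isOpen_ball) 0 (mem_ball_self one_pos)
  have h2 : HasStrictDerivAt Ψ (deriv Ψ 0) 0 := h1.hasStrictDerivAt
  have h3 : Ψ 0 ≠ 0 := by rw [h.2.1]; exact one_ne_zero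
  refine ((hasStrictDerivAt_id (0 : ℂ)).div h2 h3).congr_deriv ?_
  simp [h.2.1]

lemma psi_sq {c : ℂ} {Ψ : ℂ → ℂ} (h : PsiEq c Ψ 1) {w : ℂ} (hw : 1 < ‖w‖) :
    w ^ 2 * Ψ (w ^ 2)⁻¹ = f c (w * Ψ w⁻¹) := by
  have h1 := chi_step h (inv_ne_zero (ne_of_one_lt hw)) (inv_lt hw)
  rw [psi_eq, psi_eq, h1, inv_pow]

lemma one_lt_sq {w : ℂ} (hw : 1 < ‖w‖) : 1 < ‖w ^ 2‖ := by
  rw [norm_pow]; nlinarith

lemma psi_odd {c : ℂ} {Ψ : ℂ → ℂ} (h : PsiEq c Ψ 1) {w : ℂ} (hw : 1 < ‖w‖) :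
    -w * Ψ (-w)⁻¹ = -(w * Ψ w⁻¹) := by
  rw [inv_neg, even_of h (inv_lt hw)]; ring

lemma psi_iter {c : ℂ} {Ψ : ℂ → ℂ} (h : PsiEq c Ψ 1) (n : ℕ) : ∀ {w : ℂ}, 1 < ‖w‖ →
    w ^ 2 ^ n * Ψ (w ^ 2 ^ n)⁻¹ = (f c)^[n] (w * Ψ w⁻¹) := by
  induction n with
  | zero => intro w hw; simp
  | succ n ih =>
    intro w hw
    rw [f_iter_succ, ← psi_sq h hw, ← ih (one_lt_sq hw), ← pow_mul, ← pow_succ']

lemma psi_notMem {c : ℂ} {Ψ : ℂ → ℂ} (h : PsiEq c Ψ 1) {w : ℂ} (hw : 1 < ‖w‖) :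
    w * Ψ w⁻¹ ∉ K c := by
  rw [psi_eq]
  exact chi_notMem one_pos le_rfl h (inv_ne_zero (ne_of_one_lt hw)) (inv_lt hw)

theorem stmt_BOT3 : Stmt_ELM → Stmt_BOT3 := by
  intro hELM c Ψ hK h
  obtain ⟨-, -, -, -, -, -, -, -, hinf, -, -⟩ := hELM c
  have hloc := loc h
  -- injectivity near infinity
  have hinj0 : ∃ R : ℝ, 1 < R ∧ ∀ w w' : ℂ, R < ‖w‖ → R < ‖w'‖ → w * Ψ w⁻¹ = w' * Ψ w'⁻¹ →
      w = w' := by
    have h1 := hloc.eventually_left_inverse one_ne_zero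
    obtain ⟨ε, hε, h2⟩ := Metric.eventually_nhds_iff_ball.1 h1
    refine ⟨max 1 ε⁻¹ + 1, by have := le_max_left 1 ε⁻¹; linarith, ?_⟩
    intro w w' hw hw' he
    have a1 : ∀ v : ℂ, max 1 ε⁻¹ + 1 < ‖v‖ → v⁻¹ ∈ ball (0 : ℂ) ε ∧ v ≠ 0 := by
      intro v hv
      have b1 : ε⁻¹ < ‖v‖ := by have := le_max_right 1 ε⁻¹; linarith
      have b2 : 1 < ‖v‖ := by have := le_max_left 1 ε⁻¹; linarith
      refine ⟨?_, ne_of_one_lt b2⟩
      rw [mem_ball_zero_iff, norm_inv]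
      exact inv_lt_of_inv_lt₀ hε b1
    have c1 := h2 _ (a1 w hw).1
    have c2 := h2 _ (a1 w' hw').1
    have c3 : w⁻¹ / Ψ w⁻¹ = w'⁻¹ / Ψ w'⁻¹ := by
      rw [psi_eq, psi_eq] at he
      have := congrArg (fun x => x⁻¹) he
      simpa only [inv_div] using this
    simp only [c3] at c1
    rw [c1] at c2
    exact inv_injective c2
  have hsqlim : ∀ w : ℂ, 1 < ‖w‖ → Tendsto (fun n : ℕ => ‖w ^ 2 ^ n‖) atTop atTop := by
    intro w hw
    have h1 : Tendsto (fun n : ℕ => ‖w‖ ^ 2 ^ n) atTop atTop :=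
      (tendsto_pow_atTop_atTop_of_one_lt hw).comp (tendsto_pow_atTop_atTop_of_one_lt (by norm_num))
    simpa [norm_pow] using h1
  have hdesc : ∀ (m : ℕ) (a b : ℂ), 1 < ‖a‖ → 1 < ‖b‖ → a * Ψ a⁻¹ = b * Ψ b⁻¹ →
      a ^ 2 ^ m = b ^ 2 ^ m → a = b := by
    intro m
    induction m with
    | zero => intro a b _ _ _ h1; simpa using h1
    | succ m ih =>
      intro a b ha hb h1 h2
      have h3 : a ^ 2 = b ^ 2 := by
        apply ih _ _ (one_lt_sq ha) (one_lt_sq hb)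
        · rw [psi_sq h ha, psi_sq h hb, h1]
        · rw [← pow_mul, ← pow_mul, ← pow_succ']; exact h2
      rcases sq_eq_sq_iff_eq_or_eq_neg.1 h3 with h4 | h4
      · exact h4
      · exfalso
        rw [h4, psi_odd h hb] at h1
        have h5 : b * Ψ b⁻¹ = 0 := by
          have : (2 : ℂ) * (b * Ψ b⁻¹) = 0 := by linear_combination -h1
          simpa using this
        have h6 := psi_notMem h hb
        rw [h5] at h6
        exact h6 hK
  refine ⟨?_, ?_, ?_, ?_, ?_, ?_⟩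
  · intro w hw
    have h1 : DifferentiableAt ℂ Ψ w⁻¹ :=
      h.1.differentiableAt (isOpen_ball.mem_nhds (mem_ball_zero_iff.2 (inv_lt hw)))
    have h2 : DifferentiableAt ℂ (fun w : ℂ => w⁻¹) w := differentiableAt_inv (ne_of_one_lt hw)
    exact (differentiableAt_id.mul (h1.comp w h2)).differentiableWithinAt
  · intro a ha b hb hab
    obtain ⟨R, -, hR⟩ := hinj0
    obtain ⟨n, hn1, hn2⟩ := (((hsqlim a ha).eventually_gt_atTop R).and
      ((hsqlim b hb).eventually_gt_atTop R)).exists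
    apply hdesc n a b ha hb hab
    apply hR _ _ hn1 hn2
    rw [psi_iter h n ha, psi_iter h n hb]
    exact congrArg _ hab
  · ext z
    constructor
    · rintro ⟨w, hw, rfl⟩
      exact psi_notMem h hw
    · intro hz
      -- onto a neighbourhood of infinity
      have h1 : ∀ᶠ y in 𝓝 (0 : ℂ), ∃ u ∈ ball (0 : ℂ) 1, u / Ψ u = y := by
        have h2 := hloc.map_nhds_eq one_ne_zero
        have h3 : (fun u => u / Ψ u) '' ball (0 : ℂ) 1 ∈ map (fun u => u / Ψ u) (𝓝 0) :=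
          image_mem_map (ball_mem_nhds 0 one_pos)
        rw [h2] at h3
        simp only [zero_div] at h3
        filter_upwards [h3] with y hy
        exact hy
      have h2 : Tendsto (fun n => ((f c)^[n] z)⁻¹) atTop (𝓝 0) := by
        rw [tendsto_zero_iff_norm_tendsto_zero]
        simp only [norm_inv]
        exact (hinf z hz).inv_tendsto_atTop
      obtain ⟨n, hn, hn0⟩ := ((h2.eventually h1).and
        ((hinf z hz).eventually_gt_atTop 0)).exists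
      have h3 : ∃ w : ℂ, 1 < ‖w‖ ∧ w * Ψ w⁻¹ = (f c)^[n] z := by
        obtain ⟨u, hu, h4⟩ := hn
        have h5 : (f c)^[n] z ≠ 0 := norm_pos_iff.1 hn0
        have h6 : u ≠ 0 := by
          rintro rfl
          rw [zero_div] at h4
          exact inv_ne_zero h5 h4.symm
        refine ⟨u⁻¹, ?_, ?_⟩
        · rw [norm_inv]
          exact (one_lt_inv₀ (norm_pos_iff.2 h6)).2 (mem_ball_zero_iff.1 hu)
        · rw [psi_eq, inv_inv, ← inv_div, h4, inv_inv]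
      have h4 : ∀ (n : ℕ) (z : ℂ), (∃ w : ℂ, 1 < ‖w‖ ∧ w * Ψ w⁻¹ = (f c)^[n] z) →
          ∃ w : ℂ, 1 < ‖w‖ ∧ w * Ψ w⁻¹ = z := by
        intro n
        induction n with
        | zero => intro z hz; exact hz
        | succ n ih =>
          intro z hz
          rw [f_iter_succ] at hz
          obtain ⟨w, hw, h5⟩ := ih _ hz
          obtain ⟨v, rfl⟩ : ∃ v : ℂ, w = v ^ 2 := ⟨Complex.sqrt w, (sqrt_sq w).symm⟩
          have hv : 1 < ‖v‖ := by
            rw [norm_pow] at hw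
            by_contra h6
            push Not at h6
            nlinarith [norm_nonneg v]
          rw [psi_sq h hv] at h5
          have h6 : z ^ 2 = (v * Ψ v⁻¹) ^ 2 := by
            unfold f at h5
            linear_combination -h5
          rcases sq_eq_sq_iff_eq_or_eq_neg.1 h6 with h7 | h7
          · exact ⟨v, hv, h7.symm⟩
          · exact ⟨-v, by rwa [norm_neg], by rw [psi_odd h hv, h7]⟩
      obtain ⟨w, hw, h5⟩ := h4 n z h3
      exact ⟨w, hw, h5⟩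
  · intro w hw
    exact psi_sq h hw
  · intro w hw
    exact psi_odd h hw
  · have h1 : Tendsto (fun w : ℂ => Ψ w⁻¹) (Bornology.cobounded ℂ) (𝓝 1) := by
      have h2 := (cont_at one_pos h.1).tendsto
      rw [h.2.1] at h2
      exact h2.comp tendsto_inv₀_cobounded
    refine h1.congr' ?_
    have h2 : ∀ᶠ w in Bornology.cobounded ℂ, w ≠ 0 := by
      have := (tendsto_norm_cobounded_atTop (E := ℂ)).eventually_gt_atTop 0
      filter_upwards [this] with w hw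
      exact norm_pos_iff.1 hw
    filter_upwards [h2] with w hw
    field_simp

theorem stmt_BOT : Stmt_ELM → Stmt_BOT := by
  intro hELM c hK
  obtain ⟨Ψ, hΨ⟩ := stmt_BOT2 c hK (stmt_BOT1 c)
  exact ⟨_, stmt_BOT3 hELM c Ψ hK hΨ⟩

end BOT

theorem stmt_BOT1 : Stmt_BOT1 := BOT.stmt_BOT1
theorem stmt_BOT2 : Stmt_BOT2 := BOT.stmt_BOT2
theorem stmt_BOT3 : Stmt_ELM → Stmt_BOT3 := BOT.stmt_BOT3
theorem stmt_BOT : Stmt_ELM → Stmt_BOT := BOT.stmt_BOT

end R4C
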