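import Pool.Agent.Work.MP_e3f5d9_al_cx.Interface

/-! # SML: inverse branches of high level are nearly constant -/

set_option autoImplicit false

open Topology Metric Filter

namespace R4C

namespace SML

lemma lip {D : Set ℂ} {h : ℂ → ℂ} {w0 : ℂ} {r R : ℝ} (hD : IsOpen D)
    (hh : DifferentiableOn ℂ h D) (hR : ∀ w ∈ D, ‖h w‖ ≤ R) (hr : 0 < r)
    (hb : closedBall w0 (2 * r) ⊆ D) {x y : ℂ} (hx : x ∈ ball w0 r) (hy : y ∈ ball w0 r) :
    ‖h y - h x‖ ≤ R / r * ‖y - x‖ := by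
  have hsub : ∀ z ∈ ball w0 r, closedBall z r ⊆ D := by
    intro z hz
    refine (closedBall_subset_closedBall' ?_).trans hb
    have := mem_ball.1 hz
    linarith
  refine Convex.norm_image_sub_le_of_norm_deriv_le (fun z hz => ?_) (fun z hz => ?_)
    (convex_ball w0 r) hx hy
  · exact hh.differentiableAt (hD.mem_nhds (hsub z hz (mem_closedBall_self hr.le)))
  · refine Complex.norm_deriv_le_of_forall_mem_sphere_norm_le hr ?_ fun y hy => ?_
    · exact (hh.mono (closure_ball_subset_closedBall.trans (hsub z hz))).diffContOnCl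
    · exact hR y (hsub z hz (sphere_subset_closedBall hy))

lemma iter_mem_K {c z : ℂ} (hz : z ∈ K c) (n : ℕ) : (f c)^[n] z ∈ K c := by
  obtain ⟨R, hR⟩ := hz
  exact ⟨R, fun m => by rw [← Function.iterate_add_apply]; exact hR _⟩

lemma continuous_iter (c : ℂ) (n : ℕ) : Continuous (f c)^[n] := by
  apply Continuous.iterate
  unfold f
  fun_prop

end SML

open SML in
theorem stmt_SML (hE : Stmt_ELM) : Stmt_SML := by
  intro c D A g hDo hDc hg hgb ⟨w1, hw1, hw1K⟩ hAD hA ε hε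
  by_contra hcon
  push Not at hcon
  choose N hN s hs hsg w hw w' hw' hd using hcon
  obtain ⟨R0, hR0⟩ := hgb.exists_norm_le
  have hrad : 0 < rad c := by
    unfold rad
    positivity
  obtain ⟨R, hR1, hR2⟩ : ∃ R : ℝ, R0 ≤ R ∧ rad c ≤ R := ⟨max R0 (rad c), le_max_left _ _,
    le_max_right _ _⟩
  have hRpos : 0 < R := hrad.trans_le hR2
  have e3 := (hE c).2.2.1
  have hsR : ∀ k, ∀ x ∈ D, ∀ m ≤ N k, ‖(f c)^[m] (s k x)‖ ≤ R := by
    intro k x hx m hm
    refine e3 _ (N k - m) R hR2 ?_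
    rw [← Function.iterate_add_apply, Nat.sub_add_cancel hm, hsg k x hx]
    exact (hR0 _ ⟨x, hx, rfl⟩).trans hR1
  have hs0 : ∀ k, ∀ x ∈ D, ‖s k x‖ ≤ R := fun k x hx => hsR k x hx 0 (Nat.zero_le _)
  obtain ⟨U, hU⟩ : ∃ U : Ultrafilter ℕ, (U : Filter ℕ) ≤ atTop := by
    refine ⟨Filter.hyperfilter ℕ, ?_⟩
    rw [← Nat.cofinite_eq_atTop]
    exact Filter.hyperfilter_le_cofinite
  have hlim : ∀ x ∈ D, ∃ l, Tendsto (fun k => s k x) U (𝓝 l) := by
    intro x hx
    obtain ⟨l, _, hl⟩ := (isCompact_closedBall (0 : ℂ) R).ultrafilter_le_nhds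
      (U.map fun k => s k x) (by
        rw [le_principal_iff, Ultrafilter.coe_map, Filter.mem_map]
        exact Filter.univ_mem' fun k => mem_closedBall_zero_iff.2 (hs0 k x hx))
    exact ⟨l, hl⟩
  choose! t ht using hlim
  have hLip : ∀ w0 ∈ D, ∃ r > 0, closedBall w0 (2 * r) ⊆ D := by
    intro w0 hw0
    obtain ⟨δ, hδ, hb⟩ := Metric.isOpen_iff.1 hDo w0 hw0
    exact ⟨δ / 3, by positivity, (closedBall_subset_ball (by linarith)).trans hb⟩
  have hloc : TendstoLocallyUniformlyOn s t U D := by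
    rw [Metric.tendstoLocallyUniformlyOn_iff]
    intro e he w0 hw0
    obtain ⟨r, hr, hb⟩ := hLip w0 hw0
    obtain ⟨ρ, hρ, hρr, hρe⟩ : ∃ ρ : ℝ, 0 < ρ ∧ ρ ≤ r ∧ R / r * ρ ≤ e / 4 := by
      refine ⟨min r (e * r / (4 * R)), lt_min hr (by positivity), min_le_left _ _, ?_⟩
      calc R / r * min r (e * r / (4 * R)) ≤ R / r * (e * r / (4 * R)) :=
            mul_le_mul_of_nonneg_left (min_le_right _ _) (by positivity)
        _ = e / 4 := by field_simp
    refine ⟨ball w0 ρ, mem_nhdsWithin_of_mem_nhds (ball_mem_nhds _ hρ), ?_⟩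
    have hin : ∀ y ∈ ball w0 ρ, y ∈ ball w0 r := fun y hy => ball_subset_ball hρr hy
    have hD' : ∀ y ∈ ball w0 ρ, y ∈ D := fun y hy =>
      hb (ball_subset_closedBall (ball_subset_ball (by linarith) (hin y hy)))
    have hk1 : ∀ k, ∀ y ∈ ball w0 ρ, ‖s k y - s k w0‖ ≤ e / 4 := by
      intro k y hy
      refine (lip hDo (hs k) (hs0 k) hr hb (mem_ball_self hr) (hin y hy)).trans ?_
      refine (mul_le_mul_of_nonneg_left ?_ (by positivity)).trans hρe
      have := mem_ball.1 hy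
      rw [dist_eq_norm] at this
      exact this.le
    have ht1 : ∀ y ∈ ball w0 ρ, ‖t y - t w0‖ ≤ e / 4 := by
      intro y hy
      exact le_of_tendsto ((ht y (hD' y hy)).sub (ht w0 hw0)).norm
        (Filter.Eventually.of_forall fun k => hk1 k y hy)
    have h1 := (Metric.tendsto_nhds.1 (ht w0 hw0)) (e / 4) (by positivity)
    filter_upwards [h1] with k hk y hy
    have h2 := hk1 k y hy
    have h3 := ht1 y hy
    rw [dist_eq_norm] at hk ⊢
    have h4 : t y - s k y = (t y - t w0) - (s k w0 - t w0) - (s k y - s k w0) := by ring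
    rw [h4]
    calc ‖(t y - t w0) - (s k w0 - t w0) - (s k y - s k w0)‖
        ≤ ‖(t y - t w0) - (s k w0 - t w0)‖ + ‖s k y - s k w0‖ := norm_sub_le _ _
      _ ≤ ‖t y - t w0‖ + ‖s k w0 - t w0‖ + ‖s k y - s k w0‖ := by
          gcongr
          exact norm_sub_le _ _
      _ < e := by linarith
  have hdiff : DifferentiableOn ℂ t D :=
    hloc.differentiableOn (Filter.Eventually.of_forall hs) hDo
  have hcomp : ∀ v : ℕ → ℂ, (∀ k, v k ∈ A) → ∃ a ∈ D, Tendsto (fun k => s k (v k)) U (𝓝 (t a)) := by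
    intro v hv
    obtain ⟨a, haA, ha⟩ := hA.ultrafilter_le_nhds (U.map v) (by
      rw [le_principal_iff, Ultrafilter.coe_map, Filter.mem_map]
      exact Filter.univ_mem' hv)
    have haD := hAD haA
    refine ⟨a, haD, hloc.tendsto_comp (hdiff.continuousOn a haD) haD ?_⟩
    rw [hDo.nhdsWithin_eq haD]
    exact ha
  obtain ⟨a, haD, ha⟩ := hcomp w hw
  obtain ⟨a', haD', ha'⟩ := hcomp w' hw'
  have hne : ε ≤ ‖t a - t a'‖ :=
    ge_of_tendsto (ha.sub ha').norm (Filter.Eventually.of_forall hd)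
  have hK : t '' D ⊆ K c := by
    rintro _ ⟨x, hx, rfl⟩
    refine ⟨R, fun m => ?_⟩
    refine le_of_tendsto (((continuous_iter c m).tendsto (t x)).comp (ht x hx)).norm ?_
    have h5 : ∀ᶠ k in (U : Filter ℕ), m ≤ k := hU (eventually_ge_atTop m)
    filter_upwards [h5] with k hk
    exact hsR k x hx m (hk.trans (hN k))
  rcases (hdiff.analyticOnNhd hDo).is_constant_or_isOpen hDc with ⟨v, hv⟩ | hop
  · rw [hv a haD, hv a' haD', sub_self, norm_zero] at hne
    exact absurd hne (not_le.2 hε)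
  · have h6 : IsOpen (t '' D) := hop D subset_rfl hDo
    have h7 : ∀ᶠ k in (U : Filter ℕ), s k w1 ∈ t '' D :=
      (ht w1 hw1) (h6.mem_nhds ⟨w1, hw1, rfl⟩)
    obtain ⟨k, hk⟩ := h7.exists
    apply hw1K
    rw [← hsg k w1 hw1]
    exact iter_mem_K (hK hk) _

end R4C
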