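import Pool.Agent.Work.MP_e3f5d9_al_cx.Interface

/-!
# R4C, block DSK: facts on disks
-/

set_option autoImplicit false

open Polynomial unitInterval Topology Metric Filter

namespace R4C

namespace DSK

/-! ### Preimages -/

lemma isOpenMap_f (c : ℂ) : IsOpenMap (f c) := by
  have hd : DifferentiableOn ℂ (f c) Set.univ := by
    unfold f
    fun_prop
  have ha : AnalyticOnNhd ℂ (f c) Set.univ := hd.analyticOnNhd isOpen_univ
  rcases ha.is_constant_or_isOpen isPreconnected_univ with ⟨w, hw⟩ | h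
  · exfalso
    have h0 := hw 0 trivial
    have h1 := hw 1 trivial
    simp only [f] at h0 h1
    rw [← h0] at h1
    norm_num at h1
  · exact fun s hs => h s (Set.subset_univ _) hs

lemma continuous_f (c : ℂ) : Continuous (f c) := by unfold f; fun_prop

lemma isOpenMap_iter (c : ℂ) (n : ℕ) : IsOpenMap (f c)^[n] := by
  induction n with
  | zero => exact IsOpenMap.id
  | succ n ih => exact ih.comp (isOpenMap_f c)

lemma continuous_iter (c : ℂ) (n : ℕ) : Continuous (f c)^[n] := (continuous_f c).iterate n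

lemma exists_clopen (G : Set ℂ) (hG : IsClosed G) (z : ℂ) (hz : z ∈ G) (R : ℝ)
    (hC : connectedComponentIn G z ⊆ ball 0 R) :
    ∃ S O : Set ℂ, IsCompact S ∧ IsOpen O ∧ z ∈ S ∧ S = G ∩ O := by
  have hzR : z ∈ ball (0:ℂ) R := hC (mem_connectedComponentIn hz)
  have hY : IsCompact (G ∩ closedBall (0:ℂ) R) := (isCompact_closedBall _ _).inter_left hG
  have : CompactSpace ↥(G ∩ closedBall (0:ℂ) R) := isCompact_iff_compactSpace.1 hY
  set x : ↥(G ∩ closedBall (0:ℂ) R) := ⟨z, hz, ball_subset_closedBall hzR⟩ with hx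
  set Z : Set ↥(G ∩ closedBall (0:ℂ) R) := {y | ‖(y:ℂ)‖ = R} with hZ
  have hZc : IsClosed Z := isClosed_eq (continuous_subtype_val.norm) continuous_const
  have hdisj : Z ∩ ⋂ s : { s : Set ↥(G ∩ closedBall (0:ℂ) R) // IsClopen s ∧ x ∈ s }, (s : Set _)
      = ∅ := by
    rw [← connectedComponent_eq_iInter_isClopen, Set.eq_empty_iff_forall_notMem]
    rintro y ⟨hy1, hy2⟩
    have h1 : IsPreconnected ((fun y : ↥(G ∩ closedBall (0:ℂ) R) => (y:ℂ)) ''
        connectedComponent x) :=
      isPreconnected_connectedComponent.image _ continuous_subtype_val.continuousOn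
    have h2 := h1.subset_connectedComponentIn (F := G) (x := z) ⟨x, mem_connectedComponent, rfl⟩
      (by rintro _ ⟨w, -, rfl⟩; exact w.2.1)
    have h3 := hC (h2 ⟨y, hy2, rfl⟩)
    rw [mem_ball_zero_iff] at h3
    exact absurd hy1 h3.ne
  have H1 := hZc.isCompact.inter_iInter_nonempty
      (fun s : { s : Set ↥(G ∩ closedBall (0:ℂ) R) // IsClopen s ∧ x ∈ s } => (s : Set _))
      fun s => s.2.1.1
  obtain ⟨si, hsi⟩ : ∃ si : Finset { s : Set ↥(G ∩ closedBall (0:ℂ) R) // IsClopen s ∧ x ∈ s },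
      ¬ (Z ∩ ⋂ i ∈ si, (i : Set _)).Nonempty := by
    by_contra hcon
    push Not at hcon
    have := H1 hcon
    rw [hdisj] at this
    exact Set.not_nonempty_empty this
  have hcl : IsClopen (⋂ i ∈ si, (i : Set ↥(G ∩ closedBall (0:ℂ) R))) :=
    isClopen_biInter_finset fun s _ => s.2.1
  obtain ⟨O, hO, hOe⟩ := isOpen_induced_iff.1 hcl.isOpen
  refine ⟨(fun y : ↥(G ∩ closedBall (0:ℂ) R) => (y:ℂ)) '' (⋂ i ∈ si, (i : Set _)),
    O ∩ ball 0 R, ?_, hO.inter isOpen_ball, ?_, ?_⟩
  · exact hcl.isClosed.isCompact.image continuous_subtype_val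
  · exact ⟨x, Set.mem_iInter₂.2 fun s _ => s.2.2, rfl⟩
  · apply Set.Subset.antisymm
    · rintro _ ⟨y, hy, rfl⟩
      refine ⟨y.2.1, ?_, ?_⟩
      · rw [← hOe] at hy
        exact hy
      · rw [mem_ball_zero_iff]
        have h1 := y.2.2
        rw [mem_closedBall_zero_iff] at h1
        refine lt_of_le_of_ne h1 fun h2 => hsi ⟨y, h2, hy⟩
    · rintro y ⟨hy1, hy2, hy3⟩
      refine ⟨⟨y, hy1, ball_subset_closedBall hy3⟩, ?_, rfl⟩
      rw [← hOe]
      exact hy2

lemma cof_preimage (c : ℂ) (n : ℕ) (V : Set ℂ) (hV : IsOpen V) (hC : Cof V) :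
    Cof ((f c)^[n] ⁻¹' V) := by
  intro z hz
  obtain ⟨A, hAV, hzA, hAc, hAb⟩ := hC _ (show (f c)^[n] z ∉ V from hz)
  set F := closure A with hF
  have hFV : F ⊆ Vᶜ := closure_minimal hAV hV.isClosed_compl
  have hFc : IsPreconnected F := hAc.closure
  set G := (f c)^[n] ⁻¹' F with hG
  have hGc : IsClosed G := isClosed_closure.preimage (continuous_iter c n)
  have hzG : z ∈ G := subset_closure hzA
  refine ⟨connectedComponentIn G z, ?_, mem_connectedComponentIn hzG,
    isPreconnected_connectedComponentIn, ?_⟩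
  · intro w hw hw2
    exact hFV (connectedComponentIn_subset G z hw) hw2
  · intro hb
    obtain ⟨R, hR⟩ := hb.subset_ball 0
    obtain ⟨S, O, hS, hO, hzS, hSO⟩ := exists_clopen G hGc z hzG R hR
    apply hAb
    have himg : (f c)^[n] '' S = (f c)^[n] '' O ∩ F := by
      rw [hSO, hG, Set.inter_comm, Set.image_inter_preimage]
    have hcomp : IsCompact ((f c)^[n] '' S) := hS.image (continuous_iter c n)
    have hFS : F ⊆ (f c)^[n] '' S := by
      by_contra hcon
      rw [Set.not_subset] at hcon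
      obtain ⟨y, hyF, hyS⟩ := hcon
      obtain ⟨w, hwF, hw1, hw2⟩ := hFc ((f c)^[n] '' O) ((f c)^[n] '' S)ᶜ
        (isOpenMap_iter c n _ hO) hcomp.isClosed.isOpen_compl
        (by
          intro y hy
          by_cases h : y ∈ (f c)^[n] '' S
          · left; rw [himg] at h; exact h.1
          · right; exact h)
        ⟨(f c)^[n] z, subset_closure hzA, by
          have : (f c)^[n] z ∈ (f c)^[n] '' S := ⟨z, hzS, rfl⟩
          rw [himg] at this; exact this.1⟩
        ⟨y, hyF, hyS⟩
      apply hw2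
      rw [himg]
      exact ⟨hw1, hwF⟩
    exact hcomp.isBounded.subset (subset_closure.trans hFS)

/-! ### Components -/

/-- A bounded component of an open set touches the complement. -/
lemma exists_touch (U : Set ℂ) (hU : IsOpen U) (z : ℂ) (hz : z ∈ U)
    (hb : Bornology.IsBounded (connectedComponentIn U z)) :
    ∃ y, y ∉ U ∧ y ∈ closure (connectedComponentIn U z) := by
  by_contra hcon
  push Not at hcon
  have hop : IsOpen (connectedComponentIn U z) := hU.connectedComponentIn
  have hcl : IsClosed (connectedComponentIn U z) := by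
    rw [← closure_subset_iff_isClosed]
    intro y hy
    have hyU : y ∈ U := by
      by_contra h
      exact hcon y h hy
    have h1 : IsPreconnected (insert y (connectedComponentIn U z)) := by
      apply (isPreconnected_connectedComponentIn (F := U) (x := z)).subset_closure
        (Set.subset_insert _ _)
      exact Set.insert_subset hy subset_closure
    have h2 := h1.subset_connectedComponentIn (F := U)
      (Set.mem_insert_of_mem _ (mem_connectedComponentIn hz))
      (Set.insert_subset hyU (connectedComponentIn_subset _ _))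
    exact h2 (Set.mem_insert _ _)
  have h := IsClopen.eq_univ ⟨hcl, hop⟩ ⟨z, mem_connectedComponentIn hz⟩
  rw [h] at hb
  exact NormedSpace.unbounded_univ ℝ ℂ hb

lemma cof_component (U : Set ℂ) (z : ℂ) (hU : IsOpen U) (hC : Cof U) (hz : z ∈ U) :
    IsDisk (connectedComponentIn U z) := by
  refine ⟨hU.connectedComponentIn, isConnected_connectedComponentIn_iff.2 hz, ?_⟩
  intro w hw
  by_cases hwU : w ∈ U
  · have hdis : Disjoint (connectedComponentIn U w) (connectedComponentIn U z) := by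
      rw [Set.disjoint_left]
      intro x hx1 hx2
      apply hw
      rw [connectedComponentIn_eq hx2, ← connectedComponentIn_eq hx1]
      exact mem_connectedComponentIn hwU
    by_cases hb : Bornology.IsBounded (connectedComponentIn U w)
    · obtain ⟨y, hyU, hy⟩ := exists_touch U hU w hwU hb
      obtain ⟨A, hA1, hA2, hA3, hA4⟩ := hC y hyU
      refine ⟨insert y (connectedComponentIn U w) ∪ A, ?_, ?_, ?_, ?_⟩
      · apply Set.union_subset
        · apply Set.insert_subset
          · exact fun h => hyU (connectedComponentIn_subset _ _ h)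
          · exact fun x hx hx2 => Set.disjoint_left.1 hdis hx hx2
        · exact fun x hx hx2 => hA1 hx (connectedComponentIn_subset _ _ hx2)
      · exact Or.inl (Set.mem_insert_of_mem _ (mem_connectedComponentIn hwU))
      · refine IsPreconnected.union y (Set.mem_insert _ _) hA2 ?_ hA3
        apply (isPreconnected_connectedComponentIn (F := U) (x := w)).subset_closure
          (Set.subset_insert _ _)
        exact Set.insert_subset hy subset_closure
      · exact fun h => hA4 (h.subset Set.subset_union_right)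
    · exact ⟨_, fun x hx hx2 => Set.disjoint_left.1 hdis hx hx2, mem_connectedComponentIn hwU,
        isPreconnected_connectedComponentIn, hb⟩
  · obtain ⟨A, hA1, hA2, hA3, hA4⟩ := hC w hwU
    exact ⟨A, fun x hx hx2 => hA1 hx (connectedComponentIn_subset _ _ hx2), hA2, hA3, hA4⟩

/-! ### The disks around a full compact set -/

/-- The point `z` is connected to infinity off `T`. -/
def Far (T : Set ℂ) (z : ℂ) : Prop :=
  ∃ A : Set ℂ, A ⊆ Tᶜ ∧ z ∈ A ∧ IsPreconnected A ∧ ¬ Bornology.IsBounded A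

lemma Far.mono {T T' : Set ℂ} (h : T' ⊆ T) {z : ℂ} (hz : Far T z) : Far T' z := by
  obtain ⟨A, h1, h2, h3, h4⟩ := hz
  exact ⟨A, h1.trans (Set.compl_subset_compl.2 h), h2, h3, h4⟩

/-- The filled thickening. -/
def W (X : Set ℂ) (r : ℝ) : Set ℂ := {z | ¬ Far (thickening r X) z}

lemma preconn_outer (ρ : ℝ) (hρ : 0 < ρ) : IsPreconnected {z : ℂ | ρ ≤ ‖z‖} := by
  have h1 : IsPreconnected ((Set.Ici ρ) ×ˢ (Set.univ : Set ℝ)) :=
    isPreconnected_Ici.prod isPreconnected_univ
  have h2 : Continuous (fun p : ℝ × ℝ => (p.1 : ℂ) * Complex.exp (p.2 * Complex.I)) := by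
    fun_prop
  have h3 := h1.image _ h2.continuousOn
  convert h3 using 1
  ext z
  constructor
  · intro hz
    exact ⟨(‖z‖, z.arg), ⟨hz, trivial⟩, Complex.norm_mul_exp_arg_mul_I z⟩
  · rintro ⟨⟨t, θ⟩, ⟨ht, -⟩, rfl⟩
    have ht' : ρ ≤ t := ht
    show ρ ≤ ‖(t : ℂ) * Complex.exp (θ * Complex.I)‖
    rw [norm_mul, Complex.norm_exp_ofReal_mul_I, mul_one, Complex.norm_real,
      Real.norm_of_nonneg (by linarith)]
    exact ht'

lemma unbdd_outer (ρ : ℝ) : ¬ Bornology.IsBounded {z : ℂ | ρ ≤ ‖z‖} := by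
  intro h
  obtain ⟨R, hR⟩ := h.subset_closedBall 0
  have h1 : (((|ρ| + |R| + 1 : ℝ)) : ℂ) ∈ {z : ℂ | ρ ≤ ‖z‖} := by
    show ρ ≤ ‖((|ρ| + |R| + 1 : ℝ) : ℂ)‖
    rw [Complex.norm_real, Real.norm_of_nonneg (by positivity)]
    have := le_abs_self ρ
    have := abs_nonneg R
    linarith
  have h2 := hR h1
  rw [mem_closedBall_zero_iff, Complex.norm_real, Real.norm_of_nonneg (by positivity)] at h2
  have := le_abs_self R
  have := abs_nonneg ρ
  linarith

lemma far_outer {T : Set ℂ} {ρ : ℝ} (hρ : 0 < ρ) (hT : T ⊆ ball 0 ρ) {z : ℂ} (hz : ρ ≤ ‖z‖) :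
    Far T z := by
  refine ⟨{z : ℂ | ρ ≤ ‖z‖}, ?_, hz, preconn_outer ρ hρ, unbdd_outer ρ⟩
  intro w hw hwT
  have := hT hwT
  rw [mem_ball_zero_iff] at this
  have hw' : ρ ≤ ‖w‖ := hw
  linarith

lemma exists_large {A : Set ℂ} (hA : ¬ Bornology.IsBounded A) (ρ : ℝ) : ∃ a ∈ A, ρ ≤ ‖a‖ := by
  by_contra hcon
  push Not at hcon
  apply hA
  apply (isBounded_ball (x := (0:ℂ)) (r := ρ)).subset
  intro a ha
  rw [mem_ball_zero_iff]
  exact hcon a ha

/-- The far points form one component. -/
lemma far_iff {T : Set ℂ} {ρ : ℝ} (hρ : 0 < ρ) (hT : T ⊆ ball 0 ρ) (z : ℂ) :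
    Far T z ↔ z ∈ connectedComponentIn Tᶜ (ρ : ℂ) := by
  have hnρ : ‖((ρ : ℝ) : ℂ)‖ = ρ := by rw [Complex.norm_real, Real.norm_of_nonneg hρ.le]
  have hsub : {z : ℂ | ρ ≤ ‖z‖} ⊆ Tᶜ := by
    intro w hw hwT
    have := hT hwT
    rw [mem_ball_zero_iff] at this
    have hw' : ρ ≤ ‖w‖ := hw
    linarith
  have hρm : ((ρ : ℝ) : ℂ) ∈ {z : ℂ | ρ ≤ ‖z‖} := hnρ.ge
  constructor
  · rintro ⟨A, h1, h2, h3, h4⟩
    obtain ⟨a, ha1, ha2⟩ := exists_large h4 ρ
    have h5 : IsPreconnected (A ∪ {z : ℂ | ρ ≤ ‖z‖}) :=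
      IsPreconnected.union a ha1 ha2 h3 (preconn_outer ρ hρ)
    exact h5.subset_connectedComponentIn (Or.inr hρm) (Set.union_subset h1 hsub) (Or.inl h2)
  · intro hz
    refine ⟨_, connectedComponentIn_subset _ _, hz, isPreconnected_connectedComponentIn, ?_⟩
    intro hb
    exact unbdd_outer ρ (hb.subset
      ((preconn_outer ρ hρ).subset_connectedComponentIn hρm hsub))

lemma isClosed_far {T : Set ℂ} {ρ : ℝ} (hρ : 0 < ρ) (hT : T ⊆ ball 0 ρ) (hTo : IsOpen T) :
    IsClosed {z | Far T z} := by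
  have : {z | Far T z} = connectedComponentIn Tᶜ (ρ : ℂ) := by
    ext z; exact far_iff hρ hT z
  rw [this, ← closure_subset_iff_isClosed]
  have hρm : ((ρ : ℝ) : ℂ) ∈ Tᶜ := by
    intro h
    have := hT h
    rw [mem_ball_zero_iff, Complex.norm_real, Real.norm_of_nonneg hρ.le] at this
    exact lt_irrefl _ this
  apply (isPreconnected_connectedComponentIn (F := Tᶜ)).closure.subset_connectedComponentIn
  · exact subset_closure (mem_connectedComponentIn hρm)
  · exact closure_minimal (connectedComponentIn_subset _ _) hTo.isClosed_compl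

lemma thick_bdd {X : Set ℂ} {R : ℝ} (hR : X ⊆ ball 0 R) (r : ℝ) :
    thickening r X ⊆ ball 0 (R + r) := by
  intro z hz
  rw [mem_thickening_iff] at hz
  obtain ⟨x, hx, hxz⟩ := hz
  have := hR hx
  rw [mem_ball_zero_iff] at this ⊢
  rw [dist_eq_norm] at hxz
  calc ‖z‖ = ‖x + (z - x)‖ := by congr 1; ring
    _ ≤ ‖x‖ + ‖z - x‖ := norm_add_le _ _
    _ < R + r := by linarith

lemma cof_W (X : Set ℂ) (r : ℝ) : Cof (W X r) := by
  intro z hz
  have hz' : Far (thickening r X) z := by
    by_contra h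
    exact hz h
  obtain ⟨A, h1, h2, h3, h4⟩ := hz'
  refine ⟨A, ?_, h2, h3, h4⟩
  intro w hw hw2
  exact hw2 ⟨A, h1, hw, h3, h4⟩

lemma thick_sub_W (X : Set ℂ) (r : ℝ) : thickening r X ⊆ W X r := by
  rintro z hz ⟨A, h1, h2, -, -⟩
  exact h1 h2 hz

lemma preconn_thick {X : Set ℂ} (hX : IsPreconnected X) (r : ℝ) :
    IsPreconnected (thickening r X) := by
  rcases X.eq_empty_or_nonempty with rfl | ⟨x0, hx0⟩
  · rw [thickening_empty]; exact isPreconnected_empty
  rcases le_or_gt r 0 with hr | hr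
  · rw [thickening_of_nonpos hr]; exact isPreconnected_empty
  apply isPreconnected_of_forall x0
  intro y hy
  rw [mem_thickening_iff] at hy
  obtain ⟨x, hx, hxy⟩ := hy
  refine ⟨X ∪ ball x r, ?_, Or.inl hx0, Or.inr hxy, ?_⟩
  · apply Set.union_subset (self_subset_thickening hr X)
    exact ball_subset_thickening hx r
  · exact IsPreconnected.union x hx (mem_ball_self hr) hX (convex_ball x r).isPreconnected

lemma disk_W {X : Set ℂ} (hX : IsConnected X) {R : ℝ} (hR0 : 0 < R) (hR : X ⊆ ball 0 R) {r : ℝ}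
    (hr : 0 < r) : IsDisk (W X r) ∧ Bornology.IsBounded (W X r) := by
  have hT := thick_bdd hR r
  have hρ : 0 < R + r := by linarith
  have hop : IsOpen (W X r) := (isClosed_far hρ hT isOpen_thickening).isOpen_compl
  have hbd : Bornology.IsBounded (W X r) := by
    apply (isBounded_ball (x := (0:ℂ)) (r := R + r)).subset
    intro z hz
    rw [mem_ball_zero_iff]
    by_contra hcon
    push Not at hcon
    exact hz (far_outer hρ hT hcon)
  refine ⟨⟨hop, ?_, cof_W X r⟩, hbd⟩
  obtain ⟨x0, hx0⟩ := hX.nonempty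
  have hx0T : x0 ∈ thickening r X := self_subset_thickening hr X hx0
  refine ⟨⟨x0, thick_sub_W X r hx0T⟩, ?_⟩
  apply isPreconnected_of_forall x0
  intro z hz
  by_cases hmeet : Disjoint (connectedComponentIn (W X r) z) (thickening r X)
  · exfalso
    obtain ⟨y, hy1, hy2⟩ := exists_touch (W X r) hop z hz
      (hbd.subset (connectedComponentIn_subset _ _))
    have hy' : Far (thickening r X) y := by
      by_contra h
      exact hy1 h
    obtain ⟨A, h1, h2, h3, h4⟩ := hy'
    apply hz
    refine ⟨insert y (connectedComponentIn (W X r) z) ∪ A, ?_, ?_, ?_, ?_⟩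
    · apply Set.union_subset _ h1
      apply Set.insert_subset (h1 h2)
      exact fun x hx hx2 => Set.disjoint_left.1 hmeet hx hx2
    · exact Or.inl (Set.mem_insert_of_mem _ (mem_connectedComponentIn hz))
    · refine IsPreconnected.union y (Set.mem_insert _ _) h2 ?_ h3
      apply (isPreconnected_connectedComponentIn (F := W X r) (x := z)).subset_closure
        (Set.subset_insert _ _)
      exact Set.insert_subset hy2 subset_closure
    · exact fun h => h4 (h.subset Set.subset_union_right)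
  · rw [Set.not_disjoint_iff] at hmeet
    obtain ⟨w, hw1, hw2⟩ := hmeet
    refine ⟨connectedComponentIn (W X r) z ∪ thickening r X, ?_, Or.inr hx0T,
      Or.inl (mem_connectedComponentIn hz), ?_⟩
    · exact Set.union_subset (connectedComponentIn_subset _ _) (thick_sub_W X r)
    · exact IsPreconnected.union w hw1 hw2 isPreconnected_connectedComponentIn
        (preconn_thick hX.isPreconnected r)

lemma closure_W {X : Set ℂ} {r r' : ℝ} (hrr : r < r') : closure (W X r) ⊆ W X r' := by
  intro z hz hfar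
  obtain ⟨A, h1, h2, h3, h4⟩ := hfar
  rw [Metric.mem_closure_iff] at hz
  obtain ⟨w, hw, hzw⟩ := hz (r' - r) (by linarith)
  apply hw
  refine ⟨A ∪ ball z (r' - r), ?_, ?_, ?_, ?_⟩
  · apply Set.union_subset
    · exact h1.trans (Set.compl_subset_compl.2 (thickening_mono hrr.le X))
    · intro y hy hyT
      rw [mem_thickening_iff] at hyT
      obtain ⟨x, hx, hxy⟩ := hyT
      apply h1 h2
      rw [mem_thickening_iff]
      refine ⟨x, hx, ?_⟩
      rw [mem_ball] at hy
      have := dist_triangle z y x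
      rw [dist_comm z y] at this
      linarith
  · right
    rw [mem_ball, dist_comm]; exact hzw
  · exact IsPreconnected.union z h2 (mem_ball_self (by linarith)) h3
      (convex_ball _ _).isPreconnected
  · exact fun h => h4 (h.subset Set.subset_union_left)

lemma W_mono {X : Set ℂ} {r r' : ℝ} (hrr : r ≤ r') : W X r ⊆ W X r' :=
  fun _ hz hfar => hz (hfar.mono (thickening_mono hrr X))

lemma small_W {X : Set ℂ} (hXc : IsCompact X) {R : ℝ} (hR0 : 0 < R)
    (hR : X ⊆ ball 0 R) (hcon : IsConnected Xᶜ) (ε : ℝ) (hε : 0 < ε) :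
    ∃ δ, 0 < δ ∧ W X δ ⊆ thickening ε X := by
  have hρ : 0 < R + 1 := by linarith
  have hρm : (((R + 1 : ℝ)) : ℂ) ∈ Xᶜ := by
    intro h
    have := hR h
    rw [mem_ball_zero_iff, Complex.norm_real, Real.norm_of_nonneg hρ.le] at this
    linarith
  have hpath : IsPathConnected Xᶜ :=
    (hXc.isClosed.isOpen_compl.isConnected_iff_isPathConnected).1 hcon
  have hQ : IsCompact (closedBall (0:ℂ) (R + 1) ∩ (thickening ε X)ᶜ) :=
    (isCompact_closedBall _ _).inter_right isOpen_thickening.isClosed_compl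
  have key : ∃ δ : ℝ, 0 < δ ∧ δ ≤ 1 ∧
      ∀ z ∈ closedBall (0:ℂ) (R + 1) ∩ (thickening ε X)ᶜ, z ∉ W X δ := by
    apply hQ.induction_on (p := fun S => ∃ δ : ℝ, 0 < δ ∧ δ ≤ 1 ∧ ∀ z ∈ S, z ∉ W X δ)
    · exact ⟨1, one_pos, le_rfl, fun z hz => absurd hz (Set.notMem_empty z)⟩
    · rintro s t hst ⟨δ, h1, h2, h3⟩
      exact ⟨δ, h1, h2, fun z hz => h3 z (hst hz)⟩
    · rintro s t ⟨δ, h1, h2, h3⟩ ⟨δ', h1', h2', h3'⟩
      refine ⟨min δ δ', lt_min h1 h1', (min_le_left _ _).trans h2, ?_⟩
      rintro z (hz | hz) hzW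
      · exact h3 z hz (W_mono (min_le_left _ _) hzW)
      · exact h3' z hz (W_mono (min_le_right _ _) hzW)
    · rintro q ⟨-, hq⟩
      have hqX : q ∈ Xᶜ := fun h => hq (self_subset_thickening hε X h)
      obtain ⟨γ, hγ⟩ := hpath.joinedIn q hqX _ hρm
      have hrange : IsCompact (Set.range γ) := isCompact_range γ.continuous
      obtain ⟨δ, hδ, hδs⟩ := hrange.exists_thickening_subset_open hXc.isClosed.isOpen_compl
        (by rintro _ ⟨t, rfl⟩; exact hγ t)
      set δ' : ℝ := min (δ/2) 1 with hδ'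
      have hδ'0 : 0 < δ' := lt_min (by linarith) one_pos
      have hδ'1 : δ' ≤ δ/2 := min_le_left _ _
      have hδ'2 : δ' ≤ 1 := min_le_right _ _
      have hqr : q ∈ Set.range γ := ⟨0, γ.source⟩
      refine ⟨ball q δ', mem_nhdsWithin_of_mem_nhds (ball_mem_nhds q hδ'0),
        δ', hδ'0, hδ'2, ?_⟩
      intro z hz hzW
      apply hzW
      refine ⟨(ball q δ' ∪ Set.range γ) ∪ {z : ℂ | R + 1 ≤ ‖z‖}, ?_, Or.inl (Or.inl hz), ?_, ?_⟩
      · have hpt : ∀ y, ∀ w ∈ Set.range γ, dist y w < δ/2 → y ∉ thickening δ' X := by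
          intro y w hw hyw hyT
          rw [mem_thickening_iff] at hyT
          obtain ⟨x, hx, hxy⟩ := hyT
          apply hδs _ hx
          rw [mem_thickening_iff]
          refine ⟨w, hw, ?_⟩
          have := dist_triangle x y w
          rw [dist_comm x y] at this
          linarith
        apply Set.union_subset
        · apply Set.union_subset
          · intro y hy
            rw [mem_ball] at hy
            exact hpt y q hqr (by linarith)
          · intro y hy
            exact hpt y y hy (by rw [dist_self]; linarith)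
        · intro y hy hyT
          have h1 := thick_bdd hR δ' hyT
          rw [mem_ball_zero_iff] at h1
          have hy' : R + 1 ≤ ‖y‖ := hy
          linarith
      · apply IsPreconnected.union (((R + 1 : ℝ)) : ℂ)
        · exact Or.inr ⟨1, γ.target⟩
        · show R + 1 ≤ ‖((R + 1 : ℝ) : ℂ)‖
          rw [Complex.norm_real, Real.norm_of_nonneg hρ.le]
        · exact IsPreconnected.union q (mem_ball_self hδ'0) hqr (convex_ball _ _).isPreconnected
            (isPreconnected_range γ.continuous)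
        · exact preconn_outer _ hρ
      · exact fun h => unbdd_outer (R + 1) (h.subset Set.subset_union_right)
  obtain ⟨δ, h1, h2, h3⟩ := key
  refine ⟨δ, h1, ?_⟩
  intro z hz
  by_contra hzT
  by_cases hzn : ‖z‖ ≤ R + 1
  · exact h3 z ⟨by rwa [mem_closedBall_zero_iff], hzT⟩ hz
  · push Not at hzn
    apply hz
    apply (far_outer hρ (T := ball 0 (R + 1)) subset_rfl hzn.le).mono
    exact (thick_bdd hR δ).trans (ball_subset_ball (by linarith))

end DSK

open DSK in
theorem stmt_DSK : Stmt_DSK := by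
  refine ⟨?_, cof_preimage, fun U z hU hC hz => cof_component U z hU hC hz, ?_⟩
  · intro U V hU hV z hz
    by_cases h : z ∈ U
    · have hzV : z ∉ V := fun h2 => hz ⟨h, h2⟩
      obtain ⟨A, h1, h2, h3, h4⟩ := hV z hzV
      exact ⟨A, h1.trans (Set.compl_subset_compl.2 Set.inter_subset_right), h2, h3, h4⟩
    · obtain ⟨A, h1, h2, h3, h4⟩ := hU z h
      exact ⟨A, h1.trans (Set.compl_subset_compl.2 Set.inter_subset_left), h2, h3, h4⟩
  · intro X hXc hX hcon
    obtain ⟨R0, hR0⟩ := hXc.isBounded.subset_ball 0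
    have hR : X ⊆ ball 0 (max R0 1) := hR0.trans (ball_subset_ball (le_max_left _ _))
    have hRp : 0 < max R0 1 := lt_of_lt_of_le one_pos (le_max_right _ _)
    refine ⟨W X, ?_, ?_, ?_⟩
    · intro r hr
      obtain ⟨h1, h2⟩ := disk_W hX hRp hR hr
      exact ⟨h1, thick_sub_W X r, h2⟩
    · exact fun r r' _ hrr => closure_W hrr
    · exact small_W hXc hRp hR hcon

end R4C
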