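import Pool.Agent.Work.MP_e3f5d9_al_cx.Interface

/-!
# Blocks ELM, ONE, NSQ (helper99)
-/

set_option autoImplicit false
set_option linter.unusedSectionVars false

open Polynomial unitInterval Topology Metric Filter

namespace R4C

namespace ELMB

variable {c : ℂ}

lemma norm_f_ge (c z : ℂ) : ‖z‖ ^ 2 - ‖c‖ ≤ ‖f c z‖ := by
  have h1 : ‖z ^ 2‖ ≤ ‖f c z‖ + ‖c‖ := by
    have h2 : z ^ 2 = f c z - c := by unfold f; ring
    rw [h2]
    exact norm_sub_le _ _
  rw [norm_pow] at h1
  linarith

lemma two_mul_le (c z : ℂ) (h : rad c ≤ ‖z‖) : 2 * ‖z‖ ≤ ‖f c z‖ := by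
  have h1 := norm_f_ge c z
  unfold rad at h
  have h2 : 0 ≤ ‖c‖ := norm_nonneg c
  have h3 : 0 ≤ ‖z‖ := norm_nonneg z
  nlinarith

lemma rad_pos (c : ℂ) : 0 < rad c := by
  unfold rad
  have := norm_nonneg c
  linarith

lemma iter_add (c : ℂ) (m n : ℕ) (z : ℂ) : (f c)^[m + n] z = (f c)^[m] ((f c)^[n] z) :=
  Function.iterate_add_apply _ _ _ _

/-- Outside of the ball the orbit grows. -/
lemma grow (c : ℂ) (z : ℂ) (h : rad c ≤ ‖z‖) (n : ℕ) : 2 ^ n * ‖z‖ ≤ ‖(f c)^[n] z‖ := by
  induction n with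
  | zero => simp
  | succ n ih =>
    have h1 : rad c ≤ ‖(f c)^[n] z‖ := by
      have h2 : (1 : ℝ) ≤ 2 ^ n := one_le_pow₀ (by norm_num)
      have h3 : 0 ≤ ‖z‖ := norm_nonneg z
      nlinarith
    have h4 := two_mul_le c _ h1
    rw [iter_succ, pow_succ]
    linarith

lemma grow_tendsto (c : ℂ) (z : ℂ) (h : rad c < ‖z‖) :
    Tendsto (fun n => ‖(f c)^[n] z‖) atTop atTop := by
  refine tendsto_atTop_mono (fun n => grow c z h.le n) ?_
  have h1 : Tendsto (fun n : ℕ => (2 : ℝ) ^ n) atTop atTop :=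
    tendsto_pow_atTop_atTop_of_one_lt (by norm_num)
  exact h1.atTop_mul_const ((rad_pos c).trans h)

lemma K_eq (c : ℂ) : K c = {z | ∀ n, ‖(f c)^[n] z‖ ≤ rad c} := by
  ext z
  constructor
  · rintro ⟨R, hR⟩ n
    by_contra hc
    push Not at hc
    have h1 := grow_tendsto c _ hc
    obtain ⟨m, hm⟩ := (h1.eventually (eventually_gt_atTop R)).exists
    have h2 := hR (m + n)
    rw [iter_add] at h2
    linarith
  · intro h
    exact ⟨rad c, h⟩

lemma f_cont (c : ℂ) : Continuous (f c) := by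
  unfold f
  fun_prop

lemma iter_cont (c : ℂ) (n : ℕ) : Continuous ((f c)^[n]) := (f_cont c).iterate n

lemma isCompact_K (c : ℂ) : IsCompact (K c) := by
  rw [K_eq]
  refine IsCompact.of_isClosed_subset (isCompact_closedBall (0 : ℂ) (rad c)) ?_ ?_
  · rw [Set.ofPred_forall]
    exact isClosed_iInter fun n => isClosed_le (iter_cont c n).norm continuous_const
  · intro z hz
    rw [mem_closedBall_zero_iff]
    exact hz 0

lemma f_mem_K (c z : ℂ) : f c z ∈ K c ↔ z ∈ K c := by
  constructor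
  · rintro ⟨R, hR⟩
    refine ⟨max R ‖z‖, fun n => ?_⟩
    cases n with
    | zero => exact le_max_right _ _
    | succ n =>
      rw [Function.iterate_succ_apply]
      exact (hR n).trans (le_max_left _ _)
  · rintro ⟨R, hR⟩
    exact ⟨R, fun n => by rw [← Function.iterate_succ_apply]; exact hR (n + 1)⟩

lemma neg_mem_K (c z : ℂ) : -z ∈ K c ↔ z ∈ K c := by
  rw [← f_mem_K, ← f_mem_K c z]
  have h : f c (-z) = f c z := by unfold f; ring
  rw [h]

lemma it_eq (c : ℂ) (n : ℕ) (z : ℂ) : PCF.it (X ^ 2 + C c) n z = (f c)^[n] z := by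
  unfold PCF.it
  have h : (fun x => (X ^ 2 + C c : ℂ[X]).eval x) = f c := by
    funext x
    simp [f]
  rw [h]

lemma postCrit_eq (c : ℂ) : PCF.postCrit (X ^ 2 + C c) = P c := by
  ext z
  constructor
  · rintro ⟨a, ha, n, hn, h⟩
    have ha' : a = 0 := by simpa using ha
    subst ha'
    exact ⟨n, hn, by rw [← it_eq]; exact h⟩
  · rintro ⟨n, hn, h⟩
    exact ⟨0, by simp, n, hn, by rw [it_eq]; exact h⟩

end ELMB

open ELMB in
/-- **ELM** -/
theorem stmt_ELM : Stmt_ELM := by
  intro c
  refine ⟨two_mul_le c, ?_, ?_, K_eq c, isCompact_K c, f_mem_K c, neg_mem_K c, ?_, ?_, it_eq c,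
    postCrit_eq c⟩
  · intro z hz
    by_contra hc
    push Not at hc
    have h1 := two_mul_le c z hc.le
    have := rad_pos c
    linarith
  · intro z n R hR hz
    by_contra hc
    push Not at hc
    have h1 := grow c z (hR.trans hc.le) n
    have h2 : (1 : ℝ) ≤ 2 ^ n := one_le_pow₀ (by norm_num)
    have h3 : 0 ≤ ‖z‖ := norm_nonneg z
    nlinarith
  · intro hP
    have h1 : c ∈ K c := P_sub_K hP (c_mem_P c)
    rw [← f_mem_K]
    have h2 : f c 0 = c := by simp [f]
    rw [h2]
    exact h1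
  · intro z hz
    rw [K_eq] at hz
    have hz' : ∃ n, rad c < ‖(f c)^[n] z‖ := by
      by_contra hc
      push Not at hc
      exact hz hc
    obtain ⟨n, hn⟩ := hz'
    have h1 := grow_tendsto c _ hn
    rw [← tendsto_add_atTop_iff_nat n]
    refine h1.congr fun m => ?_
    rw [iter_add]

/-- **ONE** -/
theorem stmt_ONE : Stmt_ONE := by
  intro c Γ δ hδ h
  set e := Real.sqrt δ with he
  have he0 : 0 < e := Real.sqrt_pos.2 hδ
  have hee : e * e = δ := Real.mul_self_sqrt hδ.le
  have hmul : ∀ s s', ‖Γ s - Γ s'‖ * ‖Γ s + Γ s'‖ ≤ e * e := by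
    intro s s'
    rw [hee, ← norm_mul]
    have h1 : (Γ s - Γ s') * (Γ s + Γ s') = f c (Γ s) - f c (Γ s') := by unfold f; ring
    rw [h1]
    exact h s s'
  have hor : ∀ s s', ‖Γ s - Γ s'‖ ≤ e ∨ ‖Γ s + Γ s'‖ ≤ e := by
    intro s s'
    by_contra hc
    push Not at hc
    have := mul_lt_mul'' hc.1 hc.2 he0.le he0.le
    linarith [hmul s s']
  have key : ∀ s s', ‖Γ s - Γ s'‖ ≤ 3 * e := by
    intro s
    rcases le_or_gt ‖Γ s‖ e with h1 | h1
    · intro s'
      rcases hor s s' with h2 | h2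
      · linarith
      · have h3 : Γ s - Γ s' = 2 * Γ s - (Γ s + Γ s') := by ring
        rw [h3]
        refine (norm_sub_le _ _).trans ?_
        rw [norm_mul]
        have : ‖(2 : ℂ)‖ = 2 := by norm_num
        rw [this]
        linarith
    · -- clopen argument
      set A : Set I := {s' | ‖Γ s - Γ s'‖ ≤ e} with hA
      set B : Set I := {s' | ‖Γ s + Γ s'‖ ≤ e} with hB
      have hAc : IsClosed A := isClosed_le (by fun_prop) continuous_const
      have hBc : IsClosed B := isClosed_le (by fun_prop) continuous_const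
      have hAB : A ∩ B = ∅ := by
        ext s'
        simp only [Set.mem_inter_iff, Set.mem_empty_iff_false, iff_false, not_and]
        intro h2 h3
        have h4 : 2 * Γ s = (Γ s - Γ s') + (Γ s + Γ s') := by ring
        have h5 : ‖2 * Γ s‖ ≤ e + e := by
          rw [h4]
          exact (norm_add_le _ _).trans (add_le_add h2 h3)
        rw [norm_mul] at h5
        have : ‖(2 : ℂ)‖ = 2 := by norm_num
        rw [this] at h5
        linarith
      have hconn : IsPreconnected (Set.univ : Set I) := isPreconnected_univ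
      have hBe : B = ∅ := by
        by_contra hne
        have hBn : B.Nonempty := Set.nonempty_iff_ne_empty.2 hne
        have h2 := isPreconnected_closed_iff.1 hconn A B hAc hBc (fun s' _ => hor s s')
          ⟨s, Set.mem_univ _, by
            show ‖Γ s - Γ s‖ ≤ e
            rw [sub_self, norm_zero]
            exact he0.le⟩
          (by obtain ⟨x, hx⟩ := hBn; exact ⟨x, Set.mem_univ _, hx⟩)
        rw [hAB] at h2
        simp at h2
      intro s'
      rcases hor s s' with h2 | h2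
      · linarith
      · exfalso
        have : s' ∈ B := h2
        rw [hBe] at this
        exact this
  intro s s'
  have := key s s'
  linarith

/-- **NSQ** -/
theorem stmt_NSQ : Stmt_NSQ := by
  rintro p r hr ⟨B, hB, hBsq⟩
  set g : ℝ → ℂ := fun t => B (p + (r / 2 : ℝ) * Complex.exp (t * Complex.I)) *
    Complex.exp (-(t * Complex.I) / 2) with hg
  have hnorm : ∀ t : ℝ, ‖((r / 2 : ℝ) : ℂ) * Complex.exp (t * Complex.I)‖ = r / 2 := by
    intro t
    rw [norm_mul, Complex.norm_exp_ofReal_mul_I, mul_one, Complex.norm_real,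
      Real.norm_of_nonneg (by positivity)]
  have hmem : ∀ t : ℝ, p + (r / 2 : ℝ) * Complex.exp (t * Complex.I) ∈ ball p r \ {p} := by
    intro t
    refine ⟨?_, ?_⟩
    · rw [mem_ball, dist_eq_norm, add_sub_cancel_left, hnorm]
      linarith
    · intro h1
      have h2 : ((r / 2 : ℝ) : ℂ) * Complex.exp (t * Complex.I) = 0 := by
        have h3 : p + (r / 2 : ℝ) * Complex.exp (t * Complex.I) = p := h1
        linear_combination h3
      have h4 := hnorm t
      rw [h2, norm_zero] at h4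
      linarith
  have hgc : Continuous g := by
    rw [hg]
    refine Continuous.mul ?_ (by fun_prop)
    exact hB.comp_continuous (by fun_prop) hmem
  have hg2 : ∀ t, g t ^ 2 = ((r / 2 : ℝ) : ℂ) := by
    intro t
    rw [hg]
    simp only
    rw [mul_pow, hBsq _ (hmem t).1 (hmem t).2, add_sub_cancel_left, ← Complex.exp_nat_mul,
      mul_assoc, ← Complex.exp_add]
    have : (t : ℂ) * Complex.I + ((2 : ℕ) : ℂ) * (-((t : ℂ) * Complex.I) / 2) = 0 := by
      push_cast
      ring
    rw [this, Complex.exp_zero, mul_one]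
  have hfin : Set.Finite {w : ℂ | w ^ 2 = ((r / 2 : ℝ) : ℂ)} := by
    have h1 : (X ^ 2 - C ((r / 2 : ℝ) : ℂ) : ℂ[X]) ≠ 0 := X_pow_sub_C_ne_zero (by norm_num) _
    refine (Polynomial.finite_setOfPred_isRoot h1).subset ?_
    intro w hw
    have hw' : w ^ 2 = ((r / 2 : ℝ) : ℂ) := hw
    show (X ^ 2 - C ((r / 2 : ℝ) : ℂ) : ℂ[X]).IsRoot w
    simp [hw']
  have hconst : g 0 = g (2 * Real.pi) :=
    isPreconnected_univ.constant_of_mapsTo (T := {w : ℂ | w ^ 2 = ((r / 2 : ℝ) : ℂ)})
      hfin.isDiscrete hgc.continuousOn (fun t _ => hg2 t) (Set.mem_univ _)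
      (Set.mem_univ _)
  have h3 : g (2 * Real.pi) = -g 0 := by
    rw [hg]
    simp only
    have e1 : Complex.exp (((2 * Real.pi : ℝ) : ℂ) * Complex.I) = 1 := by
      push_cast
      exact Complex.exp_two_pi_mul_I
    have e2 : Complex.exp (-(((2 * Real.pi : ℝ) : ℂ) * Complex.I) / 2) = -1 := by
      have : -(((2 * Real.pi : ℝ) : ℂ) * Complex.I) / 2 = -(Real.pi * Complex.I) := by
        push_cast
        ring
      rw [this, Complex.exp_neg, Complex.exp_pi_mul_I]
      norm_num
    rw [e1, e2]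
    simp
  have h4 : g 0 = 0 := by
    rw [h3] at hconst
    have : g 0 + g 0 = 0 := by linear_combination hconst
    have h5 : (2 : ℂ) * g 0 = 0 := by linear_combination this
    simpa using h5
  have h5 := hg2 0
  rw [h4] at h5
  have h6 : ((r / 2 : ℝ) : ℂ) = 0 := by rw [← h5]; ring
  have h7 : r / 2 = 0 := by exact_mod_cast h6
  linarith

end R4C
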