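import Pool.Agent.Work.MP_e3f5d9_al_cx.Interface

/-!
# Blocks BR and BRU (helper31): inverse branches of `f^N` on convex sets
-/

set_option autoImplicit false

open Polynomial unitInterval Topology Metric Filter

namespace R4C

namespace BR

/-- a continuous square root of a holomorphic function without zeros is holomorphic -/
lemma root_diff {D : Set ℂ} (hD : IsOpen D) {g r : ℂ → ℂ} (hg : DifferentiableOn ℂ g D)
    (hr : ContinuousOn r D) (h2 : ∀ x ∈ D, r x ^ 2 = g x) (h0 : ∀ x ∈ D, g x ≠ 0) :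
    DifferentiableOn ℂ r D := by
  intro x hx
  have hnx : D ∈ 𝓝 x := hD.mem_nhds hx
  have hrx : r x ≠ 0 := by
    intro h
    apply h0 x hx
    rw [← h2 x hx, h]
    ring
  have hgd : HasDerivAt g (deriv g x) x := (hg.differentiableAt hnx).hasDerivAt
  have hrc : ContinuousAt r x := hr.continuousAt hnx
  refine (HasDerivAt.differentiableAt (f' := deriv g x / (r x + r x)) ?_).differentiableWithinAt
  rw [hasDerivAt_iff_tendsto_slope] at hgd ⊢
  have hsum : Tendsto (fun y => r y + r x) (𝓝[≠] x) (𝓝 (r x + r x)) :=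
    (hrc.tendsto.mono_left nhdsWithin_le_nhds).add_const _
  have hne : r x + r x ≠ 0 := by
    rw [← two_mul]
    exact mul_ne_zero two_ne_zero hrx
  refine (hgd.div hsum hne).congr' ?_
  have e1 : ∀ᶠ y in 𝓝[≠] x, y ∈ D := nhdsWithin_le_nhds hnx
  have e2 : ∀ᶠ y in 𝓝[≠] x, r y + r x ≠ 0 := hsum.eventually_ne hne
  filter_upwards [e1, e2, self_mem_nhdsWithin] with y hy hy2 hyx
  have hyx' : y - x ≠ 0 := sub_ne_zero.2 hyx
  rw [Pi.div_apply, slope_def_field, slope_def_field, ← h2 y hy, ← h2 x hx]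
  field_simp
  ring

lemma exists_root {D : Set ℂ} (hD : IsOpen D) (hs : IsSimplyConnected D) {g : ℂ → ℂ}
    (hg : DifferentiableOn ℂ g D) (h0 : ∀ x ∈ D, g x ≠ 0) :
    ∃ r : ℂ → ℂ, DifferentiableOn ℂ r D ∧ ∀ x ∈ D, r x ^ 2 = g x := by
  obtain ⟨r, hr, h2⟩ := Complex.exists_continuousOn_pow_eq hs hD hg.continuousOn
    (by rintro ⟨x, hx, h⟩; exact h0 x hx h) two_ne_zero
  exact ⟨r, root_diff hD hg hr (fun x _ => h2 x) h0, fun x _ => h2 x⟩

lemma exists_root_at {D : Set ℂ} (hD : IsOpen D) (hs : IsSimplyConnected D) {g : ℂ → ℂ}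
    (hg : DifferentiableOn ℂ g D) (h0 : ∀ x ∈ D, g x ≠ 0) {w z : ℂ} (hw : w ∈ D)
    (hz : z ^ 2 = g w) :
    ∃ r : ℂ → ℂ, DifferentiableOn ℂ r D ∧ (∀ x ∈ D, r x ^ 2 = g x) ∧ r w = z := by
  obtain ⟨r, hr, h2⟩ := exists_root hD hs hg h0
  have h3 : (r w - z) * (r w + z) = 0 := by
    have := h2 w hw
    linear_combination this - hz
  rcases mul_eq_zero.1 h3 with h | h
  · exact ⟨r, hr, h2, sub_eq_zero.1 h⟩
  · refine ⟨fun x => -r x, hr.neg, fun x hx => ?_, ?_⟩
    · simpa using h2 x hx
    · simp only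
      linear_combination -h

lemma sc_star {D : Set ℂ} {x : ℂ} (h : StarConvex ℝ x D) (hne : D.Nonempty) :
    IsSimplyConnected D := by
  have := h.contractibleSpace hne
  show SimplyConnectedSpace D
  infer_instance

lemma hasDerivAt_f (c z : ℂ) : HasDerivAt (f c) (2 * z) z := by
  have h := (hasDerivAt_pow 2 z).add_const c
  have h2 : ((2 : ℕ) : ℂ) * z ^ (2 - 1) = 2 * z := by norm_num
  rw [h2] at h
  exact h

lemma iter_diff (c : ℂ) (N : ℕ) : Differentiable ℂ ((f c)^[N]) := by
  induction N with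
  | zero => exact differentiable_id
  | succ N ih =>
    rw [Function.iterate_succ']
    have h1 : Differentiable ℂ (f c) := fun z => (hasDerivAt_f c z).differentiableAt
    exact h1.comp ih

lemma iter_deriv (c : ℂ) (N : ℕ) (z : ℂ) (h : ∀ j < N, (f c)^[j] z ≠ 0) :
    ∃ d : ℂ, d ≠ 0 ∧ HasDerivAt ((f c)^[N]) d z := by
  induction N with
  | zero => exact ⟨1, one_ne_zero, by simpa using hasDerivAt_id z⟩
  | succ N ih =>
    obtain ⟨d, hd, hd'⟩ := ih fun j hj => h j (by omega)
    refine ⟨2 * (f c)^[N] z * d, ?_, ?_⟩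
    · exact mul_ne_zero (mul_ne_zero two_ne_zero (h N (by omega))) hd
    · rw [Function.iterate_succ']
      exact (hasDerivAt_f c _).comp z hd'

/-- the iterates of `c` are postcritical -/
lemma iter_c (c : ℂ) (N : ℕ) : (f c)^[N] c = (f c)^[N + 1] 0 := by
  rw [Function.iterate_succ_apply]
  simp [f]

lemma iter_c_mem (c : ℂ) (N : ℕ) : (f c)^[N] c ∈ P c :=
  ⟨N + 1, by omega, (iter_c c N).symm⟩

/-- the branched case: `G` is holomorphic on `D`, its only zero is `0`, where
`x ^ 2 = G x * q (G x)` with `q` holomorphic near `0` and non-zero at `0`. -/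
lemma sq_form {D : Set ℂ} (hD : IsOpen D) (h0D : (0 : ℂ) ∈ D) {G Q : ℂ → ℂ}
    (hG : DifferentiableOn ℂ G D) (hQ : ContinuousOn Q D) (hQd : Q 0 ≠ 0)
    (hG0 : G 0 = 0) (hx : ∀ x ∈ D, x ^ 2 = G x * Q x) :
    ∃ h : ℂ → ℂ, DifferentiableOn ℂ h D ∧ (∀ x ∈ D, h x ≠ 0) ∧ ∀ x ∈ D, G x = x ^ 2 * h x := by
  have hn : D ∈ 𝓝 (0 : ℂ) := hD.mem_nhds h0D
  -- first quotient
  set G1 := dslope G 0 with hG1
  have hG1d : DifferentiableOn ℂ G1 D := (Complex.differentiableOn_dslope hn).2 hG
  have hGx : ∀ x, G x = x * G1 x := by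
    intro x
    have h := sub_smul_dslope G 0 x
    rw [hG0, sub_zero, sub_zero, smul_eq_mul] at h
    exact h.symm
  -- `x = G1 x * Q x` for `x ≠ 0`, hence everywhere by continuity
  have hne : ∀ x ∈ D, x ≠ 0 → x = G1 x * Q x := by
    intro x hxD hx0
    have h1 := hx x hxD
    rw [hGx x] at h1
    have h2 : x * (x - G1 x * Q x) = 0 := by linear_combination h1
    rcases mul_eq_zero.1 h2 with h | h
    · exact absurd h hx0
    · exact sub_eq_zero.1 h
  have hcont : ContinuousAt (fun x => G1 x * Q x - x) 0 :=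
    (((hG1d.continuousOn.continuousAt hn).mul (hQ.continuousAt hn)).sub continuousAt_id)
  have hG10 : G1 0 = 0 := by
    have ht : Tendsto (fun x => G1 x * Q x - x) (𝓝[≠] (0 : ℂ)) (𝓝 (G1 0 * Q 0 - 0)) :=
      hcont.tendsto.mono_left nhdsWithin_le_nhds
    have ht0 : Tendsto (fun x => G1 x * Q x - x) (𝓝[≠] (0 : ℂ)) (𝓝 0) := by
      refine tendsto_const_nhds.congr' ?_
      filter_upwards [nhdsWithin_le_nhds hn, self_mem_nhdsWithin] with x hxD hx0
      rw [← hne x hxD hx0, sub_self]
    have h := tendsto_nhds_unique ht ht0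
    rw [sub_zero] at h
    rcases mul_eq_zero.1 h with h | h
    · exact h
    · exact absurd h hQd
  -- second quotient
  set G2 := dslope G1 0 with hG2
  have hG2d : DifferentiableOn ℂ G2 D := (Complex.differentiableOn_dslope hn).2 hG1d
  have hG1x : ∀ x, G1 x = x * G2 x := by
    intro x
    have h := sub_smul_dslope G1 0 x
    rw [hG10, sub_zero, sub_zero, smul_eq_mul] at h
    exact h.symm
  have hne2 : ∀ x ∈ D, x ≠ 0 → G2 x * Q x = 1 := by
    intro x hxD hx0
    have h1 := hne x hxD hx0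
    rw [hG1x x] at h1
    have h2 : x * (G2 x * Q x - 1) = 0 := by linear_combination -h1
    rcases mul_eq_zero.1 h2 with h | h
    · exact absurd h hx0
    · exact sub_eq_zero.1 h
  have h20 : G2 0 * Q 0 = 1 := by
    have hc2 : ContinuousAt (fun x => G2 x * Q x) 0 :=
      (hG2d.continuousOn.continuousAt hn).mul (hQ.continuousAt hn)
    have ht : Tendsto (fun x => G2 x * Q x) (𝓝[≠] (0 : ℂ)) (𝓝 (G2 0 * Q 0)) :=
      hc2.tendsto.mono_left nhdsWithin_le_nhds
    have ht1 : Tendsto (fun x => G2 x * Q x) (𝓝[≠] (0 : ℂ)) (𝓝 1) := by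
      refine tendsto_const_nhds.congr' ?_
      filter_upwards [nhdsWithin_le_nhds hn, self_mem_nhdsWithin] with x hxD hx0
      rw [hne2 x hxD hx0]
    exact tendsto_nhds_unique ht ht1
  refine ⟨G2, hG2d, ?_, ?_⟩
  · intro x hxD h
    by_cases hx0 : x = 0
    · rw [hx0] at h
      rw [h, zero_mul] at h20
      exact zero_ne_one h20
    · have := hne2 x hxD hx0
      rw [h, zero_mul] at this
      exact zero_ne_one this
  · intro x _
    rw [hGx x, hG1x x]
    ring

end BR

open BR

theorem stmt_BR : Stmt_BR := by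
  intro c a W _ hWo hWc haW hcrit hsing N
  set D : Set ℂ := {x | a + x ^ 2 ∈ W} with hDdef
  have hDo : IsOpen D := hWo.preimage (by fun_prop)
  have h0D : (0 : ℂ) ∈ D := by simpa [hDdef] using haW
  have hstar : StarConvex ℝ (0 : ℂ) D := by
    intro x hx α β hα hβ hαβ
    show a + (α • (0 : ℂ) + β • x) ^ 2 ∈ W
    have hb1 : β ≤ 1 := by linarith
    have hx' : a + x ^ 2 ∈ W := hx
    have h := hWc haW hx' (a := 1 - β ^ 2) (b := β ^ 2) (by nlinarith) (by positivity) (by ring)
    convert h using 1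
    simp only [Complex.real_smul, smul_zero, zero_add]
    push_cast
    ring
  have hsc : IsSimplyConnected D := sc_star hstar ⟨0, h0D⟩
  induction N with
  | zero =>
    intro z w _ hz
    refine ⟨fun x => a + x ^ 2, by fun_prop, fun x _ => rfl, ?_⟩
    exact hz.symm
  | succ N ih =>
    intro z w hw hz
    have hz' : (f c)^[N] (f c z) = a + w ^ 2 := hz
    obtain ⟨s1, hs1d, hs1, hs1w⟩ := ih (f c z) w hw hz'
    have hzw : z ^ 2 = s1 w - c := by
      rw [hs1w]
      simp [f]
    have hgd : DifferentiableOn ℂ (fun x => s1 x - c) D := hs1d.sub_const c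
    have hfin : ∀ s : ℂ → ℂ, (∀ x ∈ D, s x ^ 2 = s1 x - c) →
        ∀ x, a + x ^ 2 ∈ W → (f c)^[N + 1] (s x) = a + x ^ 2 := by
      intro s hs x hx
      rw [Function.iterate_succ_apply]
      have h1 : f c (s x) = s1 x := by
        show s x ^ 2 + c = s1 x
        rw [hs x hx]
        ring
      rw [h1]
      exact hs1 x hx
    by_cases hzero : ∃ x ∈ D, s1 x = c
    · -- branched case
      obtain ⟨x0, hx0, hsx0⟩ := hzero
      have hval : ∀ x ∈ D, s1 x = c → x = 0 ∧ a = (f c)^[N] c := by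
        intro x hx hsx
        have h1 := hs1 x hx
        rw [hsx] at h1
        have h2 : a + x ^ 2 = a := hsing _ (h1 ▸ iter_c_mem c N) hx
        have h3 : x = 0 := by
          have : x ^ 2 = 0 := by linear_combination h2
          simpa using this
        exact ⟨h3, by rw [h1, h2]⟩
      obtain ⟨hx00, haN⟩ := hval x0 hx0 hsx0
      have hs10 : s1 0 = c := hx00 ▸ hsx0
      have haP : a ∈ P c := haN ▸ iter_c_mem c N
      have h0P : (0 : ℂ) ∉ P c := fun h =>
        (Set.disjoint_left.1 (hcrit h)) haP haW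
      obtain ⟨d, hd, hder⟩ := iter_deriv c N c (by
        intro j _ hj
        exact h0P (hj ▸ iter_c_mem c j))
      -- the quotient of the iterate
      set Q : ℂ → ℂ := fun x => dslope ((f c)^[N]) c (s1 x) with hQ
      have hQc : ContinuousOn Q D := by
        have h1 : Continuous (dslope ((f c)^[N]) c) := by
          have h2 : Differentiable ℂ (dslope ((f c)^[N]) c) := by
            rw [← differentiableOn_univ]
            exact (Complex.differentiableOn_dslope univ_mem).2
              (iter_diff c N).differentiableOn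
          exact h2.continuous
        exact h1.comp_continuousOn hs1d.continuousOn
      have hQ0 : Q 0 ≠ 0 := by
        rw [hQ]
        simp only [hs10, dslope_same]
        rw [hder.deriv]
        exact hd
      have hxx : ∀ x ∈ D, x ^ 2 = (s1 x - c) * Q x := by
        intro x hx
        have h := sub_smul_dslope ((f c)^[N]) c (s1 x)
        rw [smul_eq_mul] at h
        rw [hQ]
        simp only
        rw [h, hs1 x hx, ← haN]
        ring
      obtain ⟨h, hhd, hh0, hGh⟩ := sq_form hDo h0D hgd hQc hQ0 (by simp [hs10]) hxx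
      obtain ⟨r, hrd, hr2⟩ := exists_root hDo hsc hhd hh0
      have hs2 : ∀ x ∈ D, (x * r x) ^ 2 = s1 x - c := by
        intro x hx
        have h3 : s1 x - c = x ^ 2 * h x := hGh x hx
        rw [h3, ← hr2 x hx]
        ring
      have h4 : (w * r w - z) * (w * r w + z) = 0 := by
        have := hs2 w hw
        linear_combination this - hzw
      rcases mul_eq_zero.1 h4 with h5 | h5
      · exact ⟨fun x => x * r x, differentiableOn_id.mul hrd, hfin _ hs2, sub_eq_zero.1 h5⟩
      · refine ⟨fun x => -(x * r x), (differentiableOn_id.mul hrd).neg, hfin _ ?_, ?_⟩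
        · intro x hx
          rw [neg_sq]
          exact hs2 x hx
        · linear_combination -h5
    · push Not at hzero
      obtain ⟨r, hrd, hr2, hrw⟩ := exists_root_at hDo hsc hgd
        (fun x hx => sub_ne_zero.2 (hzero x hx)) hw hzw
      exact ⟨r, hrd, hfin r hr2, hrw⟩

theorem stmt_BRU : Stmt_BRU := by
  intro c W hWo hWc hdis N
  induction N with
  | zero =>
    intro z w _ hz
    exact ⟨fun x => x, differentiableOn_id, fun x _ => rfl, hz.symm⟩
  | succ N ih =>
    intro z w hw hz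
    have hz' : (f c)^[N] (f c z) = w := hz
    obtain ⟨s1, hs1d, hs1, hs1w⟩ := ih (f c z) w hw hz'
    have hsc : IsSimplyConnected W := sc_star (hWc.starConvex hw) ⟨w, hw⟩
    have hzw : z ^ 2 = s1 w - c := by
      rw [hs1w]
      simp [f]
    have hgd : DifferentiableOn ℂ (fun x => s1 x - c) W := hs1d.sub_const c
    have hne : ∀ x ∈ W, s1 x - c ≠ 0 := by
      intro x hx h
      have h1 := hs1 x hx
      rw [sub_eq_zero.1 h] at h1
      exact (Set.disjoint_left.1 hdis) (h1 ▸ iter_c_mem c N) hx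
    obtain ⟨r, hrd, hr2, hrw⟩ := exists_root_at hWo hsc hgd hne hw hzw
    refine ⟨r, hrd, fun x hx => ?_, hrw⟩
    rw [Function.iterate_succ_apply]
    have h1 : f c (r x) = s1 x := by
      show r x ^ 2 + c = s1 x
      rw [hr2 x hx]
      ring
    rw [h1]
    exact hs1 x hx

end R4C
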