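import Pool.Agent.Work.MP_e3f5d9_al_cx.Interface

/-! # CHT: convex charts; NOI: the filled Julia set has no interior -/

set_option autoImplicit false

open Topology Metric Filter

namespace R4C

namespace CHT

lemma sphere_inf : (sphere (0 : ℂ) 1).Infinite := by
  refine Set.infinite_of_injOn_mapsTo (s := Set.Icc (0 : ℝ) 1)
    (f := fun x => (⟨x, Real.sqrt (1 - x ^ 2)⟩ : ℂ)) ?_ ?_ (Set.Icc_infinite zero_lt_one)
  · intro x _ y _ h
    exact congrArg Complex.re h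
  · intro x hx
    have h1 : 0 ≤ 1 - x ^ 2 := by nlinarith [hx.1, hx.2]
    rw [mem_sphere_zero_iff_norm]
    have h2 : ‖(⟨x, Real.sqrt (1 - x ^ 2)⟩ : ℂ)‖ ^ 2 = 1 := by
      rw [Complex.sq_norm, Complex.normSq_mk]
      nlinarith [Real.mul_self_sqrt h1]
    nlinarith [norm_nonneg (⟨x, Real.sqrt (1 - x ^ 2)⟩ : ℂ)]

lemma exists_dir (S : Set ℂ) (hS : S.Finite) (a : ℂ) : ∃ e : ℂ, ‖e‖ = 1 ∧
    ∀ p ∈ S, ∀ t : ℝ, 0 ≤ t → p = a + t * e → p = a := by
  obtain ⟨e, he, hne⟩ := sphere_inf.exists_notMem_finite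
    (hS.image fun p : ℂ => (p - a) / ((‖p - a‖ : ℝ) : ℂ))
  rw [mem_sphere_zero_iff_norm] at he
  refine ⟨e, he, ?_⟩
  intro p hp t ht hpt
  by_contra hpa
  apply hne
  refine ⟨p, hp, ?_⟩
  have h1 : p - a = t * e := by rw [hpt]; ring
  have h2 : ‖p - a‖ = t := by
    rw [h1, norm_mul, he, mul_one, Complex.norm_real, Real.norm_of_nonneg ht]
  have h3 : t ≠ 0 := by
    rintro rfl
    apply hpa
    rw [hpt]
    simp
  show (p - a) / ((‖p - a‖ : ℝ) : ℂ) = e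
  rw [h2, h1, mul_div_assoc]
  have h4 : (t : ℂ) ≠ 0 := by exact_mod_cast h3
  field_simp

lemma iter_mem_K {c z : ℂ} (hz : z ∈ K c) (n : ℕ) : (f c)^[n] z ∈ K c := by
  obtain ⟨R, hR⟩ := hz
  exact ⟨R, fun m => by rw [← Function.iterate_add_apply]; exact hR _⟩

end CHT

open CHT

theorem stmt_CHT (hE : Stmt_ELM) : Stmt_CHT := by
  intro c a hP
  obtain ⟨e, he1, he⟩ := exists_dir (P c) hP a
  have e4 := (hE c).2.2.2.1
  set T : ℝ := rad c + ‖a‖ + 1 with hT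
  have hrad : 0 < rad c := by
    unfold rad
    positivity
  have hT0 : 0 < T := by positivity
  set S : Set ℂ := (fun t : ℝ => a + t * e) '' Set.Icc 0 T with hS
  have hSc : IsCompact S := isCompact_Icc.image (by fun_prop)
  have hSconv : Convex ℝ S := by
    rintro _ ⟨x, hx, rfl⟩ _ ⟨y, hy, rfl⟩ p q hp hq hpq
    refine ⟨p * x + q * y, (convex_Icc (0 : ℝ) T) hx hy hp hq hpq, ?_⟩
    simp only [Complex.real_smul, Complex.ofReal_add, Complex.ofReal_mul]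
    have h1 : (p : ℂ) + q = 1 := by exact_mod_cast hpq
    linear_combination (-a) * h1
  have hopen : IsOpen (P c \ {a})ᶜ := (hP.subset Set.sdiff_subset).isClosed.isOpen_compl
  have hsub : S ⊆ (P c \ {a})ᶜ := by
    rintro _ ⟨t, ht, rfl⟩ ⟨h1, h2⟩
    exact h2 (he _ h1 t ht.1 rfl)
  obtain ⟨δ, hδ, hδS⟩ := hSc.exists_thickening_subset_open hopen hsub
  refine ⟨thickening δ S, isOpen_thickening, hSconv.thickening δ, ?_, hSc.isBounded.thickening,
    ⟨a + T * e, ?_, ?_⟩, ?_⟩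
  · exact self_subset_thickening hδ S ⟨0, ⟨le_rfl, hT0.le⟩, by simp⟩
  · exact self_subset_thickening hδ S ⟨T, ⟨hT0.le, le_rfl⟩, rfl⟩
  · intro h
    rw [e4] at h
    have h1 := h 0
    rw [Function.iterate_zero, id] at h1
    have h2 : ‖(T : ℂ) * e‖ = T := by
      rw [norm_mul, he1, mul_one, Complex.norm_real, Real.norm_of_nonneg hT0.le]
    have h3 : ‖(T : ℂ) * e‖ ≤ ‖a + T * e‖ + ‖a‖ := by
      calc ‖(T : ℂ) * e‖ = ‖(a + T * e) - a‖ := by ring_nf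
        _ ≤ _ := norm_sub_le _ _
    linarith
  · intro p hp hpW
    by_contra hpa
    exact hδS hpW ⟨hp, hpa⟩

theorem stmt_NOI (hE : Stmt_ELM) (hBR : Stmt_BR) (hSML : Stmt_SML) (hCHT : Stmt_CHT) :
    Stmt_NOI := by
  intro c hc
  by_contra hne
  obtain ⟨z, hz⟩ := Set.nonempty_iff_ne_empty.2 hne
  obtain ⟨r, hr, hrK⟩ := Metric.isOpen_iff.1 isOpen_interior z hz
  have hzK : z ∈ K c := interior_subset hz
  have hKc : IsCompact (K c) := (hE c).2.2.2.2.1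
  obtain ⟨a, _, φ, hφ, hlim⟩ := hKc.tendsto_subseq fun k => iter_mem_K hzK k
  obtain ⟨W, hWo, hWc, haW, hWb, ⟨z1, hz1W, hz1K⟩, hWP⟩ := hCHT c a hc.fin
  set D : Set ℂ := {x | a + x ^ 2 ∈ W} with hD
  have hcont : Continuous fun x : ℂ => a + x ^ 2 := by fun_prop
  have hDo : IsOpen D := hWo.preimage hcont
  have h0D : (0 : ℂ) ∈ D := by
    show a + 0 ^ 2 ∈ W
    simpa using haW
  have hstar : StarConvex ℝ 0 D := by
    rw [starConvex_zero_iff]
    intro x hx t ht0 ht1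
    show a + (t • x) ^ 2 ∈ W
    have h1 := hWc haW hx (a := 1 - t ^ 2) (b := t ^ 2) (by nlinarith) (by positivity) (by ring)
    have h2 : (1 - t ^ 2) • a + t ^ 2 • (a + x ^ 2) = a + (t • x) ^ 2 := by
      simp only [Complex.real_smul, Complex.ofReal_sub, Complex.ofReal_one, Complex.ofReal_pow]
      ring
    rwa [h2] at h1
  have hDc : IsPreconnected D := (hstar.isPathConnected h0D).isConnected.isPreconnected
  obtain ⟨w1, hw1⟩ : ∃ w : ℂ, w ^ 2 = z1 - a := IsAlgClosed.exists_pow_nat_eq _ two_pos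
  have hw1D : w1 ∈ D := by
    show a + w1 ^ 2 ∈ W
    rw [hw1, add_sub_cancel]
    exact hz1W
  obtain ⟨ρ', hρ', hρD'⟩ := Metric.isOpen_iff.1 hDo 0 h0D
  obtain ⟨ρ, hρ, hρD⟩ : ∃ ρ : ℝ, 0 < ρ ∧ closedBall (0 : ℂ) ρ ⊆ D :=
    ⟨ρ' / 2, by positivity, (closedBall_subset_ball (by linarith)).trans hρD'⟩
  obtain ⟨N0, hN0⟩ := hSML c D (closedBall 0 ρ ∪ {w1}) (fun x => a + x ^ 2) hDo hDc
    hcont.continuousOn (hWb.subset (by
      rintro _ ⟨x, hx, rfl⟩
      exact hx)) ⟨w1, hw1D, by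
        show a + w1 ^ 2 ∉ K c
        rw [hw1, add_sub_cancel]
        exact hz1K⟩
    (Set.union_subset hρD (Set.singleton_subset_iff.2 hw1D))
    ((isCompact_closedBall _ _).union isCompact_singleton) r hr
  have h3 : ∀ᶠ j in atTop, ‖(f c)^[φ j] z - a‖ < ρ ^ 2 := by
    have := Metric.tendsto_nhds.1 hlim (ρ ^ 2) (by positivity)
    filter_upwards [this] with j hj
    rw [dist_eq_norm] at hj
    exact hj
  obtain ⟨j, hj1, hj2⟩ := (h3.and (eventually_ge_atTop N0)).exists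
  obtain ⟨w, hw⟩ : ∃ w : ℂ, w ^ 2 = (f c)^[φ j] z - a :=
    IsAlgClosed.exists_pow_nat_eq _ two_pos
  have hwρ : ‖w‖ ≤ ρ := by
    have h4 : ‖w‖ ^ 2 < ρ ^ 2 := by rw [← norm_pow, hw]; exact hj1
    exact (lt_of_pow_lt_pow_left₀ 2 hρ.le h4).le
  have hwD : w ∈ D := hρD (mem_closedBall_zero_iff.2 hwρ)
  obtain ⟨s, hs1, hs2, hs3⟩ := hBR c a W hc.fin hWo hWc haW (fun h => absurd h hc.ne) hWP (φ j) z w
    hwD (by rw [hw, add_sub_cancel])
  have h5 := hN0 (φ j) (hj2.trans (hφ.id_le j)) s hs1 hs2 w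
    (Or.inl (mem_closedBall_zero_iff.2 hwρ)) w1 (Or.inr rfl)
  rw [hs3] at h5
  have h6 : s w1 ∈ K c := by
    refine interior_subset (hrK ?_)
    rw [mem_ball, dist_eq_norm, norm_sub_rev]
    exact h5
  apply hz1K
  have h7 := iter_mem_K h6 (φ j)
  rw [hs2 w1 hw1D, hw1, add_sub_cancel] at h7
  exact h7

end R4C
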