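import Pool.Agent.Work.MP_e3f5d9_al_cx.Interface

/-!
# CMB: a kneading system with a non-renormalizable kneading sequence is mixing
-/

set_option autoImplicit false

open Finset

namespace R4C

namespace CMB

variable {L : Type} [Fintype L] [DecidableEq L] {D : R4.KS L}

/-- The side of the cut `A` that does not contain `x`. -/
def far (x : L) (A : Finset L) : Finset L := if x ∈ A then Aᶜ else A

lemma far_compl (x : L) (A : Finset L) : far x Aᶜ = far x A := by
  unfold far
  by_cases h : x ∈ A <;> simp [h]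

lemma far_nm (x : L) (A : Finset L) : far x (D.nm A) = far x A := by
  unfold R4.KS.nm
  split_ifs
  · exact far_compl x A
  · rfl

lemma mem_nm_iff (A : Finset L) (x y : L) : (x ∈ D.nm A ↔ y ∈ D.nm A) ↔ (x ∈ A ↔ y ∈ A) := by
  unfold R4.KS.nm
  split_ifs
  · simp only [mem_compl]; tauto
  · rfl

lemma o_notin_nm (A : Finset L) : D.o ∉ D.nm A := by
  unfold R4.KS.nm
  split_ifs with h
  · simpa using h
  · exact h

lemma nm_of_notin {A : Finset L} (h : D.o ∉ A) : D.nm A = A := by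
  unfold R4.KS.nm; rw [if_neg h]

lemma nm_compl (A : Finset L) : D.nm Aᶜ = D.nm A := by
  unfold R4.KS.nm
  by_cases h : D.o ∈ A <;> simp [h]

lemma mem_lp {s : Bool} {A : Finset L} {i : L} : i ∈ D.lp s A ↔ D.side i = s ∧ D.nxt i ∈ A := by
  simp [R4.KS.lp]

/-- The hypotheses on the system. -/
structure Hyp (D : R4.KS L) : Prop where
  orb : ∀ i, ∃ n, D.nxt^[n] D.o = i
  sep : ∀ i j, (∀ n, D.side (D.nxt^[n] i) = D.side (D.nxt^[n] j)) → i = j
  card : 2 ≤ Fintype.card L

lemma Hyp.sides (h : Hyp D) : ∀ s, ∃ i, D.side i = s := by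
  have : Nontrivial L := Fintype.one_lt_card_iff_nontrivial.1 (by have := h.card; omega)
  obtain ⟨i, j, hij⟩ := exists_pair_ne L
  have h1 : ¬ ∀ n, D.side (D.nxt^[n] i) = D.side (D.nxt^[n] j) := fun h2 => hij (h.sep i j h2)
  push Not at h1
  obtain ⟨n, hn⟩ := h1
  intro s
  by_cases h2 : D.side (D.nxt^[n] i) = s
  · exact ⟨_, h2⟩
  · refine ⟨D.nxt^[n] j, ?_⟩
    revert hn h2
    generalize D.side (D.nxt^[n] i) = a
    generalize D.side (D.nxt^[n] j) = b
    revert a b s
    decide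

lemma Hyp.lp_ne (h : Hyp D) (s : Bool) (A : Finset L) : D.lp s A ≠ univ := by
  intro h1
  obtain ⟨i, hi⟩ := h.sides (!s)
  have h2 : i ∈ D.lp s A := by rw [h1]; exact mem_univ _
  rw [mem_lp, hi] at h2
  revert h2; cases s <;> simp

lemma mem_EC {A : Finset L} : A ∈ EC D ↔ Reach D A := by
  simp [EC]

lemma reach_o {A : Finset L} (hA : Reach D A) : D.o ∉ A := by
  cases hA with
  | base => simp
  | step A s _ _ _ => exact o_notin_nm _

lemma Hyp.reach_ne (h : Hyp D) {A : Finset L} (hA : Reach D A) : A.Nonempty := by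
  cases hA with
  | base =>
    have : Nontrivial L := Fintype.one_lt_card_iff_nontrivial.1 (by have := h.card; omega)
    obtain ⟨i, hi⟩ := exists_ne D.o
    exact ⟨i, by simpa using hi⟩
  | step A s _ h1 h2 =>
    unfold R4.KS.nm
    split_ifs
    · rw [Finset.nonempty_iff_ne_empty]
      intro h3
      exact h2 (by simpa using h3)
    · exact h1

/-- The arrow by the side `s`. -/
lemma Hyp.arrow (h : Hyp D) {A : Finset L} (hA : Reach D A) {s : Bool}
    (hne : (D.lp s A).Nonempty) :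
    D.Arrow (EC D) A (D.nm (D.lp s A)) ∧ Reach D (D.nm (D.lp s A)) := by
  have h1 : Reach D (D.nm (D.lp s A)) := Reach.step A s hA hne (h.lp_ne s A)
  exact ⟨⟨mem_EC.2 hA, mem_EC.2 h1, s, rfl⟩, h1⟩

/-- Separation is pulled back. -/
lemma Hyp.pull (h : Hyp D) {A : Finset L} (hA : Reach D A) {x y : L}
    (hxy : ¬ (D.nxt x ∈ A ↔ D.nxt y ∈ A)) :
    ∃ B, Reach D B ∧ D.Arrow (EC D) A B ∧ ¬ (x ∈ B ↔ y ∈ B) := by
  have key : ∀ x y, D.nxt x ∉ A → D.nxt y ∈ A →
      ∃ B, Reach D B ∧ D.Arrow (EC D) A B ∧ ¬ (x ∈ B ↔ y ∈ B) := by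
    intro x y hx hy
    have h1 : y ∈ D.lp (D.side y) A := mem_lp.2 ⟨rfl, hy⟩
    have h2 : x ∉ D.lp (D.side y) A := fun h3 => hx (mem_lp.1 h3).2
    obtain ⟨h3, h4⟩ := h.arrow hA (s := D.side y) ⟨y, h1⟩
    refine ⟨_, h4, h3, ?_⟩
    rw [mem_nm_iff]
    tauto
  by_cases h1 : D.nxt x ∈ A
  · by_cases h2 : D.nxt y ∈ A
    · exact absurd (iff_of_true h1 h2) hxy
    · obtain ⟨B, hB, h3, h4⟩ := key y x h2 h1
      exact ⟨B, hB, h3, fun h5 => h4 h5.symm⟩
  · by_cases h2 : D.nxt y ∈ A
    · exact key x y h1 h2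
    · exact absurd (iff_of_false h1 h2) hxy

lemma path_head {n : ℕ} {A B : Finset L} (h : D.Path (EC D) n A B) : Reach D A := by
  cases n with
  | zero => exact mem_EC.1 h.1
  | succ n => obtain ⟨C, h1, _⟩ := h; exact mem_EC.1 h1.1

lemma path_tail {n : ℕ} {A B : Finset L} (h : D.Path (EC D) n A B) : Reach D B := by
  induction n generalizing A with
  | zero => obtain ⟨h1, rfl⟩ := h; exact mem_EC.1 h1
  | succ n ih => obtain ⟨C, _, h2⟩ := h; exact ih h2

lemma path_trans {m n : ℕ} {A B C : Finset L} (h1 : D.Path (EC D) m A B)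
    (h2 : D.Path (EC D) n B C) : D.Path (EC D) (m + n) A C := by
  induction m generalizing A with
  | zero => obtain ⟨_, rfl⟩ := h1; simpa using h2
  | succ m ih =>
    obtain ⟨X, h3, h4⟩ := h1
    rw [show m + 1 + n = (m + n) + 1 by ring]
    exact ⟨X, h3, ih h4⟩

lemma path_one {A B : Finset L} (h : D.Arrow (EC D) A B) : D.Path (EC D) 1 A B :=
  ⟨B, h, h.2.1, rfl⟩

lemma path_last {n : ℕ} {A B : Finset L} (h : D.Path (EC D) (n + 1) A B) :
    ∃ C, D.Path (EC D) n A C ∧ D.Arrow (EC D) C B := by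
  induction n generalizing A with
  | zero =>
    obtain ⟨C, h1, h2, rfl⟩ := h
    exact ⟨A, ⟨h1.1, rfl⟩, h1⟩
  | succ n ih =>
    obtain ⟨C, h1, h2⟩ := h
    obtain ⟨E, h3, h4⟩ := ih h2
    exact ⟨E, ⟨C, h1, h3⟩, h4⟩

/-- The base cut. -/
def bb (D : R4.KS L) : Finset L := ({D.o} : Finset L)ᶜ

/-- (1): convexity. -/
lemma Hyp.convex (h : Hyp D) (n : ℕ) : ∀ A B : Finset L, Reach D A → D.Path (EC D) n B (bb D) →
    far (D.nxt^[n] D.o) B ⊆ far (D.nxt^[n] D.o) A → D.Path (EC D) n A (bb D) := by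
  induction n with
  | zero =>
    intro A B hA hB hsub
    obtain ⟨_, rfl⟩ := hB
    have ho := reach_o hA
    simp only [Function.iterate_zero, id_eq] at hsub
    have h1 : far D.o (bb D) = ({D.o} : Finset L)ᶜ := by simp [far, bb]
    have h2 : far D.o A = A := by simp [far, ho]
    rw [h1, h2] at hsub
    refine ⟨mem_EC.2 hA, ?_⟩
    apply le_antisymm
    · intro x hx
      simp only [bb, mem_compl, mem_singleton]
      rintro rfl
      exact ho hx
    · exact hsub
  | succ n ih =>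
    intro A B hA hB hsub
    obtain ⟨X, ⟨hB1, hX1, s, rfl⟩, hX⟩ := hB
    rw [Function.iterate_succ_apply'] at hsub
    set x := D.nxt^[n] D.o with hx
    have hBr : Reach D B := mem_EC.1 hB1
    have hXne : (D.lp s B).Nonempty := by
      by_contra h1
      have h2 : D.lp s B = ∅ := Finset.not_nonempty_iff_eq_empty.1 h1
      have h3 := h.reach_ne (mem_EC.1 hX1)
      rw [h2] at h3
      have h4 : D.nm (∅ : Finset L) = ∅ := nm_of_notin (by simp)
      rw [h4] at h3
      exact absurd h3 (by simp)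
    -- it suffices to find an arrow from `A`
    have key : ∀ s', (D.lp s' A).Nonempty → far x (D.lp s B) ⊆ far x (D.lp s' A) →
        D.Path (EC D) (n + 1) A (bb D) := by
      intro s' hne hs
      obtain ⟨h1, h2⟩ := h.arrow hA hne
      refine ⟨_, h1, ih _ _ h2 hX ?_⟩
      rw [far_nm, far_nm]
      exact hs
    by_cases hb : D.nxt x ∈ B
    · have hfB : far (D.nxt x) B = Bᶜ := by simp [far, hb]
      rw [hfB] at hsub
      by_cases ha : D.nxt x ∈ A
      · have hfA : far (D.nxt x) A = Aᶜ := by simp [far, ha]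
        rw [hfA] at hsub
        have hAB : A ⊆ B := by
          intro i hi
          by_contra hi'
          have := hsub (mem_compl.2 hi')
          exact (mem_compl.1 this) hi
        have hxA : x ∈ D.lp (D.side x) A := mem_lp.2 ⟨rfl, ha⟩
        refine key (D.side x) ⟨x, hxA⟩ ?_
        have hfA' : far x (D.lp (D.side x) A) = (D.lp (D.side x) A)ᶜ := by simp [far, hxA]
        rw [hfA']
        by_cases hs : s = D.side x
        · subst hs
          have hxB : x ∈ D.lp (D.side x) B := mem_lp.2 ⟨rfl, hb⟩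
          have hfB' : far x (D.lp (D.side x) B) = (D.lp (D.side x) B)ᶜ := by simp [far, hxB]
          rw [hfB']
          intro i hi
          rw [mem_compl] at hi ⊢
          intro hi'
          exact hi (mem_lp.2 ⟨(mem_lp.1 hi').1, hAB (mem_lp.1 hi').2⟩)
        · have hxB : x ∉ D.lp s B := fun h1 => hs (mem_lp.1 h1).1.symm
          have hfB' : far x (D.lp s B) = D.lp s B := by simp [far, hxB]
          rw [hfB']
          intro i hi
          rw [mem_compl]
          intro hi'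
          exact hs ((mem_lp.1 hi).1.symm.trans (mem_lp.1 hi').1)
      · exfalso
        have hfA : far (D.nxt x) A = A := by simp [far, ha]
        rw [hfA] at hsub
        exact reach_o hA (hsub (mem_compl.2 (reach_o hBr)))
    · have hfB : far (D.nxt x) B = B := by simp [far, hb]
      rw [hfB] at hsub
      have hxB : x ∉ D.lp s B := fun h1 => hb (mem_lp.1 h1).2
      have hfB' : far x (D.lp s B) = D.lp s B := by simp [far, hxB]
      by_cases ha : D.nxt x ∈ A
      · have hfA : far (D.nxt x) A = Aᶜ := by simp [far, ha]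
        rw [hfA] at hsub
        have hxA : x ∈ D.lp (D.side x) A := mem_lp.2 ⟨rfl, ha⟩
        refine key (D.side x) ⟨x, hxA⟩ ?_
        have hfA' : far x (D.lp (D.side x) A) = (D.lp (D.side x) A)ᶜ := by simp [far, hxA]
        rw [hfA', hfB']
        intro i hi
        rw [mem_compl]
        intro hi'
        exact (mem_compl.1 (hsub (mem_lp.1 hi).2)) (mem_lp.1 hi').2
      · have hfA : far (D.nxt x) A = A := by simp [far, ha]
        rw [hfA] at hsub
        have hxA : x ∉ D.lp s A := fun h1 => ha (mem_lp.1 h1).2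
        have hfA' : far x (D.lp s A) = D.lp s A := by simp [far, hxA]
        have hss : D.lp s B ⊆ D.lp s A := fun i hi =>
          mem_lp.2 ⟨(mem_lp.1 hi).1, hsub (mem_lp.1 hi).2⟩
        refine key s (hXne.mono hss) ?_
        rw [hfA', hfB']
        exact hss

/-- (2), (3). -/
lemma Hyp.conn (h : Hyp D) {s : ℕ} (hs : D.Path (EC D) s (bb D) (bb D)) (m : ℕ) :
    ∀ A, Reach D A → ¬ (D.nxt^[m] D.o ∈ A ↔ D.nxt^[m + s] D.o ∈ A) →
      D.Path (EC D) (m + s) A (bb D) := by
  induction m with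
  | zero =>
    intro A hA hsep
    have ho := reach_o hA
    simp only [Function.iterate_zero, id_eq, zero_add] at hsep ⊢
    have h1 : D.nxt^[s] D.o ∈ A := by tauto
    apply h.convex s A (bb D) hA hs
    have h2 : D.nxt^[s] D.o ∈ bb D := by
      simp only [bb, mem_compl, mem_singleton]
      intro h3
      rw [h3] at h1
      exact ho h1
    have h3 : far (D.nxt^[s] D.o) (bb D) = {D.o} := by
      unfold far
      rw [if_pos h2, bb, compl_compl]
    have h4 : far (D.nxt^[s] D.o) A = Aᶜ := by simp [far, h1]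
    rw [h3, h4]
    intro i hi
    rw [mem_singleton] at hi
    rw [hi, mem_compl]
    exact ho
  | succ m ih =>
    intro A hA hsep
    rw [show m + 1 + s = (m + s) + 1 by ring] at hsep ⊢
    rw [Function.iterate_succ_apply', Function.iterate_succ_apply'] at hsep
    obtain ⟨B, hB, h1, h2⟩ := h.pull hA hsep
    exact ⟨B, h1, ih B hB h2⟩

/-- The cut by the sides. -/
def b1 (D : R4.KS L) : Finset L := D.nm (D.lp true (bb D))

lemma lp_bb (s : Bool) : D.lp s (bb D) = univ.filter fun i => D.side i = s := by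
  ext i
  rw [mem_lp]
  simp only [bb, mem_compl, mem_singleton, mem_filter, mem_univ, true_and]
  exact ⟨fun h => h.1, fun h => ⟨h, D.nxt_ne i⟩⟩

lemma nm_lp_bb (s : Bool) : D.nm (D.lp s (bb D)) = b1 D := by
  cases s with
  | true => rfl
  | false =>
    unfold b1
    rw [← nm_compl (D := D) (D.lp true (bb D))]
    congr 1
    rw [lp_bb, lp_bb]
    ext i
    simp

lemma mem_b1_iff (x y : L) : (x ∈ b1 D ↔ y ∈ b1 D) ↔ D.side x = D.side y := by
  unfold b1
  rw [mem_nm_iff, lp_bb]
  simp only [mem_filter, mem_univ, true_and]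
  cases D.side x <;> cases D.side y <;> simp

lemma Hyp.arrow_b1 (h : Hyp D) : D.Arrow (EC D) (bb D) (b1 D) ∧ Reach D (b1 D) := by
  obtain ⟨i, hi⟩ := h.sides true
  exact h.arrow (s := true) Reach.base ⟨i, by
    show i ∈ D.lp true (bb D)
    rw [lp_bb]; simp [hi]⟩

/-- Cuts reachable from `b1`. -/
def RR (D : R4.KS L) (A : Finset L) : Prop := ∃ n, D.Path (EC D) n (b1 D) A

lemma Hyp.RR_b1 (h : Hyp D) : RR D (b1 D) := ⟨0, mem_EC.2 h.arrow_b1.2, rfl⟩

lemma RR.reach {A : Finset L} (h : RR D A) : Reach D A := path_tail h.choose_spec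

lemma RR.next {A B : Finset L} (h : RR D A) (hB : D.Arrow (EC D) A B) : RR D B := by
  obtain ⟨n, hn⟩ := h
  exact ⟨n + 1, path_trans hn (path_one hB)⟩

/-- The cuts reachable from `b1` separate the letters. -/
lemma Hyp.RR_sep (h : Hyp D) {x y : L} (hxy : x ≠ y) : ∃ A, RR D A ∧ ¬ (x ∈ A ↔ y ∈ A) := by
  have h1 : ¬ ∀ n, D.side (D.nxt^[n] x) = D.side (D.nxt^[n] y) := fun h2 => hxy (h.sep x y h2)
  push Not at h1
  obtain ⟨n, hn⟩ := h1
  have key : ∀ n x y, D.side (D.nxt^[n] x) ≠ D.side (D.nxt^[n] y) →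
      ∃ A, RR D A ∧ ¬ (x ∈ A ↔ y ∈ A) := by
    intro n
    induction n with
    | zero =>
      intro x y hxy
      refine ⟨b1 D, h.RR_b1, ?_⟩
      rw [mem_b1_iff]
      exact hxy
    | succ n ih =>
      intro x y hxy
      rw [Function.iterate_succ_apply, Function.iterate_succ_apply] at hxy
      obtain ⟨A, hA, h1⟩ := ih _ _ hxy
      obtain ⟨B, hB, h2, h3⟩ := h.pull hA.reach h1
      exact ⟨B, hA.next h2, h3⟩
  exact key n x y hn

/-- Compatible cuts. -/
def Comp (X Y : Finset L) : Prop := Disjoint X Y ∨ X ⊆ Y ∨ Y ⊆ X ∨ X ∪ Y = univ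

lemma Comp.symm {X Y : Finset L} (h : Comp X Y) : Comp Y X := by
  rcases h with h | h | h | h
  · exact Or.inl h.symm
  · exact Or.inr (Or.inr (Or.inl h))
  · exact Or.inr (Or.inl h)
  · exact Or.inr (Or.inr (Or.inr (by rw [union_comm]; exact h)))

lemma Comp.compl {X Y : Finset L} (h : Comp X Y) : Comp Xᶜ Y := by
  rcases h with h | h | h | h
  · refine Or.inr (Or.inr (Or.inl ?_))
    intro i hi
    rw [mem_compl]
    exact fun h1 => (Finset.disjoint_left.1 h h1) hi
  · refine Or.inr (Or.inr (Or.inr ?_))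
    ext i
    simp only [mem_union, mem_compl, mem_univ, iff_true]
    by_cases hi : i ∈ X
    · exact Or.inr (h hi)
    · exact Or.inl hi
  · refine Or.inl ?_
    rw [Finset.disjoint_left]
    intro i hi hi'
    exact (mem_compl.1 hi) (h hi')
  · refine Or.inr (Or.inl ?_)
    intro i hi
    have : i ∈ X ∪ Y := by rw [h]; exact mem_univ _
    rcases mem_union.1 this with h1 | h1
    · exact absurd h1 (mem_compl.1 hi)
    · exact h1

lemma Comp.nm {X Y : Finset L} (h : Comp X Y) : Comp (D.nm X) Y := by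
  unfold R4.KS.nm
  split_ifs
  · exact h.compl
  · exact h

lemma Comp.nm2 {X Y : Finset L} (h : Comp X Y) : Comp (D.nm X) (D.nm Y) :=
  (h.nm (D := D)).symm.nm.symm

lemma comp_lp {A B : Finset L} (hA : D.o ∉ A) (hB : D.o ∉ B) (h : Comp A B) (s s' : Bool) :
    Comp (D.lp s A) (D.lp s' B) := by
  by_cases hs : s = s'
  · subst hs
    rcases h with h | h | h | h
    · refine Or.inl ?_
      rw [Finset.disjoint_left] at h ⊢
      intro i hi hi'
      exact h (mem_lp.1 hi).2 (mem_lp.1 hi').2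
    · exact Or.inr (Or.inl fun i hi => mem_lp.2 ⟨(mem_lp.1 hi).1, h (mem_lp.1 hi).2⟩)
    · exact Or.inr (Or.inr (Or.inl fun i hi => mem_lp.2 ⟨(mem_lp.1 hi).1, h (mem_lp.1 hi).2⟩))
    · exfalso
      have : D.o ∈ A ∪ B := by rw [h]; exact mem_univ _
      rcases mem_union.1 this with h1 | h1
      · exact hA h1
      · exact hB h1
  · refine Or.inl ?_
    rw [Finset.disjoint_left]
    intro i hi hi'
    exact hs ((mem_lp.1 hi).1.symm.trans (mem_lp.1 hi').1)

lemma comp_b1 (s : Bool) (A : Finset L) : Comp (b1 D) (D.lp s A) := by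
  rw [← nm_lp_bb s]
  apply Comp.nm
  refine Or.inr (Or.inr (Or.inl ?_))
  intro i hi
  rw [lp_bb]
  simp [(mem_lp.1 hi).1]

lemma Hyp.laminar (_h : Hyp D) {A B : Finset L} (hA : RR D A) (hB : RR D B) : Comp A B := by
  obtain ⟨n, hn⟩ := hA
  obtain ⟨m, hm⟩ := hB
  induction n generalizing m A B with
  | zero =>
    obtain ⟨_, rfl⟩ := hn
    cases m with
    | zero => obtain ⟨_, rfl⟩ := hm; exact Or.inr (Or.inl (Finset.Subset.refl _))
    | succ m =>
      obtain ⟨C, h1, ⟨_, _, s, rfl⟩⟩ := path_last hm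
      exact ((comp_b1 s C).symm.nm).symm
  | succ n ih =>
    obtain ⟨C, h1, ⟨_, _, s, rfl⟩⟩ := path_last hn
    cases m with
    | zero => obtain ⟨_, rfl⟩ := hm; exact (comp_b1 s C).symm.nm
    | succ m =>
      obtain ⟨C', h1', ⟨_, _, s', rfl⟩⟩ := path_last hm
      have h2 := ih h1 m h1'
      exact (comp_lp (reach_o (path_tail h1)) (reach_o (path_tail h1')) h2 s s').nm2

/-- Sides of the cuts reachable from `b1`. -/
def SS (D : R4.KS L) (X : Finset L) : Prop := X.Nonempty ∧ RR D (D.nm X)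

lemma Hyp.leaf (h : Hyp D) : ∃ x : L, SS D {x} := by
  classical
  have hne : (univ.filter fun X => SS D X).Nonempty := by
    refine ⟨b1 D, ?_⟩
    simp only [mem_filter, mem_univ, true_and]
    refine ⟨h.reach_ne h.arrow_b1.2, ?_⟩
    rw [nm_of_notin (reach_o h.arrow_b1.2)]
    exact h.RR_b1
  obtain ⟨X, hX, hmin⟩ := Finset.exists_min_image _ Finset.card hne
  simp only [mem_filter, mem_univ, true_and] at hX hmin
  obtain ⟨x, hx⟩ := hX.1
  refine ⟨x, ?_⟩
  have h1 : X = {x} := by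
    by_contra h2
    obtain ⟨y, hy, hyx⟩ : ∃ y ∈ X, y ≠ x := by
      by_contra h3
      push Not at h3
      exact h2 (Finset.eq_singleton_iff_unique_mem.2 ⟨hx, h3⟩)
    obtain ⟨Y, hY, hsep⟩ := h.RR_sep hyx
    have hYr := reach_o hY.reach
    -- one of the two sides is inside X
    have key : ∀ Z : Finset L, D.nm Z = Y → (∃ z, z ∈ Z ∧ z ∈ X) → (∃ z, z ∉ Z ∧ z ∈ X) →
        ¬ Z ⊆ X := by
      intro Z hZ h3 h4 h5
      obtain ⟨z, hz, _⟩ := h3
      obtain ⟨z', hz', hz''⟩ := h4
      have h6 := hmin Z ⟨⟨z, hz⟩, by rw [hZ]; exact hY⟩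
      have h7 : Z ⊂ X := ⟨h5, fun h8 => hz' (h8 hz'')⟩
      exact absurd (Finset.card_lt_card h7) (by omega)
    have hnmY : D.nm Y = Y := nm_of_notin hYr
    have hex1 : (∃ z, z ∈ Y ∧ z ∈ X) ∧ (∃ z, z ∉ Y ∧ z ∈ X) := by
      by_cases h3 : x ∈ Y
      · exact ⟨⟨x, h3, hx⟩, ⟨y, fun h4 => hsep (iff_of_true h4 h3), hy⟩⟩
      · refine ⟨⟨y, ?_, hy⟩, ⟨x, h3, hx⟩⟩
        by_contra h4
        exact hsep (iff_of_false h4 h3)
    have hcomp : Comp Y (D.nm X) := h.laminar hY hX.2
    have hcomp' : Comp Y X := by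
      by_cases h3 : D.o ∈ X
      · have h4 : D.nm X = Xᶜ := by unfold R4.KS.nm; rw [if_pos h3]
        rw [h4] at hcomp
        have := hcomp.symm.compl.symm
        rwa [compl_compl] at this
      · rwa [nm_of_notin h3] at hcomp
    rcases hcomp' with h3 | h3 | h3 | h3
    · obtain ⟨⟨z, hz, hz'⟩, _⟩ := hex1
      exact (Finset.disjoint_left.1 h3 hz) hz'
    · exact key Y hnmY hex1.1 hex1.2 h3
    · obtain ⟨_, ⟨z, hz, hz'⟩⟩ := hex1
      exact hz (h3 hz')
    · have h4 : Yᶜ ⊆ X := by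
        intro i hi
        have : i ∈ Y ∪ X := by rw [h3]; exact mem_univ _
        rcases mem_union.1 this with h5 | h5
        · exact absurd h5 (mem_compl.1 hi)
        · exact h5
      refine key Yᶜ (by rw [nm_compl, hnmY]) ?_ ?_ h4
      · obtain ⟨_, ⟨z, hz, hz'⟩⟩ := hex1
        exact ⟨z, mem_compl.2 hz, hz'⟩
      · obtain ⟨⟨z, hz, hz'⟩, _⟩ := hex1
        exact ⟨z, by simpa using hz, hz'⟩
  rw [← h1]
  exact hX

lemma Hyp.leaf_back (h : Hyp D) {y : L} (hy : SS D {D.nxt y}) : SS D {y} := by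
  have h1 : D.nm {D.nxt y} = {D.nxt y} := nm_of_notin (by
    rw [mem_singleton]; exact fun h2 => D.nxt_ne y h2.symm)
  have h2 := hy.2
  rw [h1] at h2
  have h3 : D.lp (D.side y) {D.nxt y} = {y} := by
    ext i
    rw [mem_lp, mem_singleton, mem_singleton]
    constructor
    · rintro ⟨h4, h5⟩
      exact D.inj _ _ h5 h4
    · rintro rfl
      exact ⟨rfl, rfl⟩
  obtain ⟨h4, h5⟩ := h.arrow h2.reach (s := D.side y) (by rw [h3]; simp)
  rw [h3] at h4
  exact ⟨by simp, h2.next h4⟩

/-- (4): the base cut is recurrent. -/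
lemma Hyp.recur (h : Hyp D) : ∃ n, 0 < n ∧ D.Path (EC D) n (bb D) (bb D) := by
  obtain ⟨x, hx⟩ := h.leaf
  obtain ⟨m, hm⟩ := h.orb x
  have key : ∀ m, SS D {D.nxt^[m] D.o} → SS D {D.o} := by
    intro m
    induction m with
    | zero => intro h1; simpa using h1
    | succ m ih =>
      intro h1
      rw [Function.iterate_succ_apply'] at h1
      exact ih (h.leaf_back h1)
  have h1 := (key m (by rw [hm]; exact hx)).2
  have h2 : D.nm {D.o} = bb D := by unfold R4.KS.nm bb; simp
  rw [h2] at h1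
  obtain ⟨n, hn⟩ := h1
  exact ⟨1 + n, by omega, path_trans (path_one h.arrow_b1.1) hn⟩

/-- The return times of the base cut. -/
def RT (D : R4.KS L) : Set ℕ := {n | 0 < n ∧ D.Path (EC D) n (bb D) (bb D)}

lemma closure_RT {m : ℕ} (hm : m ∈ AddSubmonoid.closure (RT D)) :
    D.Path (EC D) m (bb D) (bb D) := by
  induction hm using AddSubmonoid.closure_induction with
  | mem x hx => exact hx.2
  | zero => exact ⟨mem_EC.2 Reach.base, rfl⟩
  | add x y _ _ hx hy => exact path_trans hx hy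

/-- (5). -/
lemma Hyp.side_eq (h : Hyp D) {s m : ℕ} (hs : D.Path (EC D) s (bb D) (bb D))
    (hm : ¬ D.Path (EC D) (m + s + 1) (bb D) (bb D)) :
    D.side (D.nxt^[m] D.o) = D.side (D.nxt^[m + s] D.o) := by
  by_contra h1
  have h2 : ¬ (D.nxt^[m] D.o ∈ b1 D ↔ D.nxt^[m + s] D.o ∈ b1 D) := by
    rw [mem_b1_iff]; exact h1
  have h3 := h.conn hs m (b1 D) h.arrow_b1.2 h2
  exact hm ⟨_, h.arrow_b1.1, h3⟩

lemma Hyp.path_from_b (h : Hyp D) {A : Finset L} (hA : Reach D A) :
    ∃ n, D.Path (EC D) n (bb D) A := by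
  induction hA with
  | base => exact ⟨0, mem_EC.2 Reach.base, rfl⟩
  | step A s hA hne hne' ih =>
    obtain ⟨n, hn⟩ := ih
    exact ⟨n + 1, path_trans hn (path_one (h.arrow hA hne).1)⟩

end CMB

open CMB in
/-- CMB. -/
theorem stmt_CMB : Stmt_CMB := by
  intro L _ _ D horb hsep hcard hnr
  have h : Hyp D := ⟨horb, hsep, hcard⟩
  obtain ⟨n0, hn0⟩ := Nat.exists_mem_closure_of_ge (RT D)
  set d := Nat.setGcd (RT D) with hd
  obtain ⟨r, hr0, hr⟩ := h.recur
  have hdr : d ∣ r := Nat.setGcd_dvd_of_mem ⟨hr0, hr⟩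
  have hdvd : ∀ m, 0 < m → D.Path (EC D) m (bb D) (bb D) → d ∣ m := fun m hm hp =>
    Nat.setGcd_dvd_of_mem ⟨hm, hp⟩
  have hd0 : d ≠ 0 := by
    rintro h1
    rw [h1] at hdr
    have := Nat.eq_zero_of_zero_dvd hdr
    omega
  -- the gcd is one
  have hd1 : d = 1 := by
    by_contra hne
    obtain ⟨k, j, hj0, hjd, hside⟩ := hnr d (by omega)
    apply hside
    obtain ⟨m, rfl⟩ : ∃ m, j = m + 1 := ⟨j - 1, by omega⟩
    have e1 : d * k + (m + 1) - 1 = m + d * k := by omega
    have e2 : m + 1 - 1 = m := by omega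
    rw [e1, e2]
    -- a large return time
    set t := d * (n0 + 1) with ht
    have ht0 : n0 ≤ t := by
      rw [ht]
      calc n0 ≤ 1 * (n0 + 1) := by omega
        _ ≤ d * (n0 + 1) := Nat.mul_le_mul_right _ (by omega)
    have hpt : D.Path (EC D) t (bb D) (bb D) :=
      closure_RT (hn0 t ht0 ⟨n0 + 1, rfl⟩)
    have hpt' : D.Path (EC D) (d * k + t) (bb D) (bb D) :=
      closure_RT (hn0 (d * k + t) (by omega) ⟨k + (n0 + 1), by rw [ht]; ring⟩)
    have hnd : ¬ d ∣ m + 1 := fun h1 => by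
      have := Nat.le_of_dvd (by omega) h1
      omega
    have h1 := h.side_eq (s := t) (m := m + d * k) hpt (by
      intro hp
      have h2 := hdvd _ (by omega) hp
      apply hnd
      have h3 : m + d * k + t + 1 = (m + 1) + d * (k + (n0 + 1)) := by rw [ht]; ring
      rw [h3] at h2
      exact (Nat.dvd_add_left ⟨_, rfl⟩).1 h2)
    have h2 := h.side_eq (s := d * k + t) (m := m) hpt' (by
      intro hp
      have h2 := hdvd _ (by omega) hp
      apply hnd
      have h3 : m + (d * k + t) + 1 = (m + 1) + d * (k + (n0 + 1)) := by rw [ht]; ring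
      rw [h3] at h2
      exact (Nat.dvd_add_left ⟨_, rfl⟩).1 h2)
    rw [h1, h2]
    congr 2
    ring
  -- all large numbers are return times
  have hall : ∀ m, n0 ≤ m → D.Path (EC D) m (bb D) (bb D) := fun m hm =>
    closure_RT (hn0 m hm (by rw [hd1]; exact one_dvd m))
  -- every cut reaches the base cut in all large times
  have hto : ∀ A : Finset L, ∃ N, Reach D A → ∀ n, N ≤ n → D.Path (EC D) n A (bb D) := by
    intro A
    by_cases hA : Reach D A
    · obtain ⟨x, hx⟩ := h.reach_ne hA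
      obtain ⟨j, hj⟩ := h.orb x
      refine ⟨n0 + j + 1, fun _ n hn => ?_⟩
      by_cases h1 : D.nxt^[n] D.o ∈ A
      · have := h.conn (s := n) (hall n (by omega)) 0 A hA (by
          simp only [Function.iterate_zero, id_eq, zero_add]
          exact fun h2 => reach_o hA (h2.2 h1))
        simpa using this
      · have h2 := h.conn (s := n - j) (hall (n - j) (by omega)) j A hA (by
          rw [show j + (n - j) = n by omega, hj]
          exact fun h2 => h1 (h2.1 hx))
        rwa [show j + (n - j) = n by omega] at h2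
    · exact ⟨0, fun h1 => absurd h1 hA⟩
  have hfrom : ∀ A : Finset L, ∃ l, Reach D A → D.Path (EC D) l (bb D) A := by
    intro A
    by_cases hA : Reach D A
    · obtain ⟨n, hn⟩ := h.path_from_b hA
      exact ⟨n, fun _ => hn⟩
    · exact ⟨0, fun h1 => absurd h1 hA⟩
  choose N hN using hto
  choose l hl using hfrom
  refine ⟨fun A hA => reach_o (mem_EC.1 hA), mem_EC.2 Reach.base, ?_⟩
  refine ⟨(∑ A, N A) + (∑ A, l A) + 1, by omega, fun A hA B hB => ?_⟩
  have hNA : N A ≤ ∑ A, N A := Finset.single_le_sum (fun _ _ => Nat.zero_le _) (mem_univ A)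
  have hlB : l B ≤ ∑ A, l A := Finset.single_le_sum (f := l) (fun _ _ => Nat.zero_le _) (mem_univ B)
  have h1 := hN A (mem_EC.1 hA) ((∑ A, N A) + ((∑ A, l A) - l B) + 1) (by omega)
  have h2 := path_trans h1 (hl B (mem_EC.1 hB))
  have h3 : (∑ A, N A) + ((∑ A, l A) - l B) + 1 + l B = (∑ A, N A) + (∑ A, l A) + 1 := by omega
  rw [h3] at h2
  exact h2

end R4C
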