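import Pool.Agent.Work.MP_e3f5d9_al_cx.Interface

set_option autoImplicit false

open Topology Metric Filter Set

namespace R4C
namespace CON

/-- A nowhere vanishing continuous function on a contractible space has a continuous logarithm. -/
lemma exists_log {X : Type*} [TopologicalSpace X] [LocallyPathConnectedSpace X] [ContractibleSpace X]
    (g : X → ℂ) (hg : Continuous g) (h0 : ∀ x, g x ≠ 0) :
    ∃ f : X → ℂ, Continuous f ∧ ∀ x, Complex.exp (f x) = g x := by
  have h1 : IsSimplyConnected (Set.univ : Set X) := by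
    have : ContractibleSpace (Set.univ : Set X) := (Homeomorph.Set.univ X).contractibleSpace
    show SimplyConnectedSpace (Set.univ : Set X)
    infer_instance
  obtain ⟨f, hf, he⟩ := Complex.exists_continuousOn_eqOn_exp_comp h1 isOpen_univ hg.continuousOn
    (by rintro ⟨x, -, hx⟩; exact h0 x hx)
  exact ⟨f, continuousOn_univ.1 hf, fun x => he (Set.mem_univ x)⟩

/-- There is no continuous square root of `z - a` on a circle around `a`. -/
lemma circle (r : ℝ) (hr : 0 < r) (a : ℂ) (B : ℂ → ℂ) (hB : ContinuousOn B (sphere a r))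
    (h : ∀ z ∈ sphere a r, B z ^ 2 = z - a) : False := by
  have hm : ∀ θ : ℝ, a + r * Complex.exp (θ * Complex.I) ∈ sphere a r := by
    intro θ
    rw [mem_sphere, dist_eq_norm]
    rw [add_sub_cancel_left, norm_mul, Complex.norm_exp_ofReal_mul_I, mul_one, Complex.norm_real,
      Real.norm_of_nonneg hr.le]
  set β : ℝ → ℂ := fun θ => B (a + r * Complex.exp (θ * Complex.I)) *
    Complex.exp (-((θ : ℂ) / 2) * Complex.I) with hβ
  have hc : Continuous β := by
    have h1 : Continuous (fun θ : ℝ => B (a + r * Complex.exp (θ * Complex.I))) :=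
      hB.comp_continuous (by fun_prop) hm
    exact h1.mul (by fun_prop)
  have hsq : ∀ θ, β θ ^ 2 = r := by
    intro θ
    rw [hβ]
    simp only
    rw [mul_pow, h _ (hm θ), ← Complex.exp_nat_mul]
    have h2 : ((2 : ℕ) : ℂ) * (-((θ : ℂ) / 2) * Complex.I) = -(θ * Complex.I) := by
      push_cast; ring
    rw [h2, Complex.exp_neg, add_sub_cancel_left, mul_assoc,
      mul_inv_cancel₀ (Complex.exp_ne_zero _), mul_one]
  have h0 : β 0 ≠ 0 := by
    intro h1
    have := hsq 0
    rw [h1] at this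
    have h3 : (r : ℂ) ≠ 0 := by exact_mod_cast hr.ne'
    apply h3
    rw [← this]; simp
  have h2 : β (2 * Real.pi) = -β 0 := by
    rw [hβ]
    simp only
    have e1 : Complex.exp (((2 * Real.pi : ℝ) : ℂ) * Complex.I) = 1 := by
      push_cast
      exact Complex.exp_two_pi_mul_I
    have e2 : Complex.exp (-(((2 * Real.pi : ℝ) : ℂ) / 2) * Complex.I) = -1 := by
      have : -(((2 * Real.pi : ℝ) : ℂ) / 2) * Complex.I = -(Real.pi * Complex.I) := by
        push_cast; ring
      rw [this, Complex.exp_neg, Complex.exp_pi_mul_I]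
      norm_num
    rw [e1, e2]
    simp
  rcases (isPreconnected_univ (α := ℝ)).eq_or_eq_neg_of_sq_eq (f := β) (g := fun _ => β 0)
    hc.continuousOn continuousOn_const (fun θ _ => by
      show β θ ^ 2 = β 0 ^ 2
      rw [hsq, hsq]) (fun _ => h0) with h3 | h3
  · have h4 : β (2 * Real.pi) = β 0 := h3 (Set.mem_univ _)
    rw [h2] at h4
    exact h0 (by linear_combination (-1/2 : ℂ) * h4)
  · have h4 : β 0 = -β 0 := h3 (Set.mem_univ _)
    exact h0 (by linear_combination (1/2 : ℂ) * h4)

/-- The frontier of a component of an open set is outside the open set. -/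
lemma frontier_comp (O : Set ℂ) (a : ℂ) (hO : IsOpen O) :
    frontier (connectedComponentIn O a) ⊆ Oᶜ := by
  intro z hz hzO
  have hU : IsOpen (connectedComponentIn O a) := hO.connectedComponentIn
  rw [hU.frontier_eq] at hz
  obtain ⟨h1, h2⟩ := hz
  have h3 : IsOpen (connectedComponentIn O z) := hO.connectedComponentIn
  have h4 : z ∈ connectedComponentIn O z := mem_connectedComponentIn hzO
  obtain ⟨y, hy1, hy2⟩ := mem_closure_iff.1 h1 _ h3 h4
  have h5 := connectedComponentIn_eq hy1
  have h6 := connectedComponentIn_eq hy2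
  rw [h6, ← h5] at h2
  exact h2 h4

/-- Borsuk: if `w - α` has a continuous logarithm on the compact set `X`, then the component of
`α` in the complement of `X` is unbounded. -/
theorem borsuk (X : Set ℂ) (hX : IsCompact X) (α : ℂ) (hα : α ∉ X) (g : ℂ → ℂ)
    (hg : ContinuousOn g X) (he : ∀ w ∈ X, Complex.exp (g w) = w - α) :
    ¬ Bornology.IsBounded (connectedComponentIn Xᶜ α) := by
  intro hb
  set U := connectedComponentIn Xᶜ α with hU
  have hUo : IsOpen U := hX.isClosed.isOpen_compl.connectedComponentIn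
  have hαU : α ∈ U := mem_connectedComponentIn hα
  have hfr : frontier U ⊆ X := by
    have := frontier_comp Xᶜ α hX.isClosed.isOpen_compl
    rwa [compl_compl] at this
  obtain ⟨G, hG⟩ : ∃ G : C(ℂ, ℂ), ∀ w ∈ X, G w = g w := by
    obtain ⟨G, hG⟩ := ContinuousMap.exists_restrict_eq (Y := ℂ) hX.isClosed
      ⟨X.domRestrict g, continuousOn_iff_continuous_domRestrict.1 hg⟩
    refine ⟨G, fun w hw => ?_⟩
    have := congrArg (fun F : C(X, ℂ) => F ⟨w, hw⟩) hG
    simpa using this
  classical
  set χ : ℂ → ℂ := U.piecewise (fun w => Complex.exp (G w)) (fun w => w - α) with hχ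
  have hχc : Continuous χ := by
    apply Continuous.piecewise
    · intro w hw
      rw [hG w (hfr hw), he w (hfr hw)]
    · exact Complex.continuous_exp.comp G.continuous
    · fun_prop
  have hχ0 : ∀ w, χ w ≠ 0 := by
    intro w
    by_cases hw : w ∈ U
    · rw [hχ, Set.piecewise_eq_of_mem _ _ _ hw]
      exact Complex.exp_ne_zero _
    · rw [hχ, Set.piecewise_eq_of_notMem _ _ _ hw]
      intro h1
      exact hw (by rw [sub_eq_zero.1 h1]; exact hαU)
  obtain ⟨L, hLc, hL⟩ := exists_log χ hχc hχ0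
  obtain ⟨r, hr⟩ := hb.subset_ball α
  set r' := max r 1
  have hr' : 0 < r' := lt_of_lt_of_le one_pos (le_max_right _ _)
  refine circle r' hr' α (fun w => Complex.exp (L w / 2)) (by fun_prop) fun z hz => ?_
  have hz' : z ∉ U := by
    intro h1
    have h2 := hr h1
    rw [mem_ball] at h2
    rw [mem_sphere] at hz
    have := le_max_left r 1
    linarith
  have h2 := hL z
  rw [hχ, Set.piecewise_eq_of_notMem _ _ _ hz'] at h2
  rw [← h2, ← Complex.exp_nat_mul]
  congr 1
  push_cast; ring


/-- The set seen from the point `b`: the image of `X ∪ {∞}` under `z ↦ 1 / (z - b)`. -/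
def inv (X : Set ℂ) (b : ℂ) : Set ℂ := {w | w = 0 ∨ b + w⁻¹ ∈ X}

lemma inv_compact (X : Set ℂ) (hX : IsClosed X) (b : ℂ) (hb : b ∉ X) : IsCompact (inv X b) := by
  have hcl : IsClosed (inv X b) := by
    rw [← isOpen_compl_iff]
    have h1 : (inv X b)ᶜ = {0}ᶜ ∩ (fun w : ℂ => b + w⁻¹) ⁻¹' Xᶜ := by
      ext w
      simp only [inv, Set.mem_compl_iff, Set.mem_ofPred_eq, not_or, Set.mem_inter_iff,
        Set.mem_singleton_iff, Set.mem_preimage]
    rw [h1]
    apply ContinuousOn.isOpen_inter_preimage _ isOpen_compl_singleton hX.isOpen_compl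
    intro w hw
    exact (continuousAt_const.add (continuousAt_inv₀ hw)).continuousWithinAt
  obtain ⟨ε, hε, hball⟩ := Metric.isOpen_iff.1 hX.isOpen_compl b hb
  refine Metric.isCompact_of_isClosed_isBounded hcl ?_
  refine (Metric.isBounded_closedBall (x := (0 : ℂ)) (r := ε⁻¹)).subset fun w hw => ?_
  rw [mem_closedBall, dist_zero_right]
  rcases hw with hw | hw
  · rw [hw, norm_zero]; positivity
  · by_cases h0 : w = 0
    · rw [h0, norm_zero]; positivity
    · have h1 : ε ≤ ‖w⁻¹‖ := by
        by_contra h2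
        push Not at h2
        have h3 : b + w⁻¹ ∈ ball b ε := by
          rw [mem_ball, dist_eq_norm, add_sub_cancel_left]; exact h2
        exact hball h3 hw
      rw [norm_inv] at h1
      rw [← inv_inv ‖w‖]
      exact inv_anti₀ hε h1

/-- Two points are in the same component of the complement of a closed set `X` if there is a
suitable logarithm. -/
theorem joined (X : Set ℂ) (hX : IsClosed X) (a b : ℂ) (ha : a ∉ X) (hb : b ∉ X) (hab : a ≠ b)
    (g : ℂ → ℂ) (hg : ContinuousOn g (inv X b))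
    (he : ∀ w ∈ inv X b, Complex.exp (g w) = w - (a - b)⁻¹) :
    ∃ t, t ⊆ Xᶜ ∧ a ∈ t ∧ b ∈ t ∧ IsPreconnected t := by
  have hab' : a - b ≠ 0 := sub_ne_zero.2 hab
  have hα : (a - b)⁻¹ ∉ inv X b := by
    rintro (h1 | h1)
    · exact hab' (inv_eq_zero.1 h1)
    · rw [inv_inv, add_sub_cancel] at h1
      exact ha h1
  have h1 := borsuk (inv X b) (inv_compact X hX b hb) (a - b)⁻¹ hα g hg he
  set V := connectedComponentIn (inv X b)ᶜ (a - b)⁻¹ with hV
  have hVs : V ⊆ (inv X b)ᶜ := connectedComponentIn_subset _ _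
  have hV0 : ∀ w ∈ V, w ≠ 0 := fun w hw h0 => hVs hw (Or.inl h0)
  set S := (fun w : ℂ => b + w⁻¹) '' V with hS
  have hSc : IsPreconnected S := by
    apply isPreconnected_connectedComponentIn.image
    intro w hw
    exact (continuousAt_const.add (continuousAt_inv₀ (hV0 w hw))).continuousWithinAt
  have hSX : S ⊆ Xᶜ := by
    rintro z ⟨w, hw, rfl⟩ hz
    exact hVs hw (Or.inr hz)
  have haS : a ∈ S := ⟨(a - b)⁻¹, mem_connectedComponentIn hα, by simp⟩
  have hbS : b ∈ closure S := by
    rw [Metric.mem_closure_iff]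
    intro ε hε
    by_contra hne
    push Not at hne
    apply h1
    refine (Metric.isBounded_closedBall (x := (0 : ℂ)) (r := ε⁻¹)).subset fun w hw => ?_
    have h2 := hne _ ⟨w, hw, rfl⟩
    simp only [dist_self_add_right, norm_inv] at h2
    rw [mem_closedBall, dist_zero_right]
    rw [← inv_inv ‖w‖]
    exact inv_anti₀ hε h2
  refine ⟨insert b S, ?_, Set.mem_insert_of_mem _ haS, Set.mem_insert _ _, ?_⟩
  · rintro z (rfl | hz)
    · exact hb
    · exact hSX hz
  · exact hSc.subset_closure (Set.subset_insert _ _)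
      (Set.insert_subset hbS subset_closure)

/-- A continuous logarithm on an arc with prescribed value at the beginning, extended to the
plane. -/
lemma arc_log (γ : unitInterval → ℂ) (hγ : Continuous γ) (hi : Function.Injective γ)
    (hγ0 : γ 0 = 0) (α : ℂ) (hα : α ∉ Set.range γ) (l : ℂ) (hl : Complex.exp l = -α) :
    ∃ G : C(ℂ, ℂ), G 0 = l ∧ ∀ w ∈ Set.range γ, Complex.exp (G w) = w - α := by
  have hne : ∀ s, γ s - α ≠ 0 := fun s h => hα ⟨s, sub_eq_zero.1 h⟩
  obtain ⟨f, hf, he⟩ := exists_log (X := ℝ) (fun t => γ (Set.projIcc 0 1 zero_le_one t) - α)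
    ((hγ.comp continuous_projIcc).sub continuous_const) (fun t => hne _)
  have h0 : Complex.exp (f 0) = -α := by
    rw [he]
    have : Set.projIcc (0 : ℝ) 1 zero_le_one 0 = 0 := by
      simp
    rw [this, hγ0, zero_sub]
  have hec : IsClosedEmbedding γ := hγ.isClosedEmbedding hi
  obtain ⟨G, hG⟩ := ContinuousMap.exists_extension (Y := ℂ) hec
    ⟨fun s : unitInterval => f s + (l - f 0), (hf.comp continuous_subtype_val).add
      continuous_const⟩
  have hG' : ∀ s : unitInterval, G (γ s) = f s + (l - f 0) := fun s => by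
    have := congrArg (fun F : C(unitInterval, ℂ) => F s) hG
    simpa using this
  refine ⟨G, ?_, ?_⟩
  · have := hG' 0
    rw [hγ0] at this
    rw [this]
    simp
  · rintro w ⟨s, rfl⟩
    rw [hG', Complex.exp_add, Complex.exp_sub, h0, hl, he]
    have hα0 : α ≠ 0 := by
      intro h
      exact hα ⟨0, by rw [hγ0, h]⟩
    rw [div_self (neg_ne_zero.2 hα0), mul_one]
    rw [Set.projIcc_val (zero_le_one) s]

/-- Logarithm on a finite union of arcs that meet only at `0`. -/
lemma arcs_log {ι : Type*} [DecidableEq ι] (γ : ι → unitInterval → ℂ) (α l : ℂ)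
    (hl : Complex.exp l = -α) (F : Finset ι) (hγ : ∀ i ∈ F, Continuous (γ i))
    (hi : ∀ i ∈ F, Function.Injective (γ i)) (h0 : ∀ i ∈ F, γ i 0 = 0)
    (hα : ∀ i ∈ F, α ∉ Set.range (γ i))
    (hd : ∀ i ∈ F, ∀ j ∈ F, i ≠ j → ∀ s t, γ i s = γ j t → γ i s = 0) :
    ∃ g : ℂ → ℂ, ContinuousOn g (insert 0 (⋃ i ∈ F, Set.range (γ i))) ∧ g 0 = l ∧
      ∀ w ∈ insert 0 (⋃ i ∈ F, Set.range (γ i)), Complex.exp (g w) = w - α := by
  induction F using Finset.induction_on with
  | empty =>
    refine ⟨fun _ => l, continuousOn_const, rfl, ?_⟩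
    intro w hw
    simp only [Finset.notMem_empty, Set.iUnion_of_empty, Set.iUnion_empty, Set.mem_insert_iff,
      Set.mem_empty_iff_false, or_false] at hw
    rw [hw, hl, zero_sub]
  | insert j F hj ih =>
    obtain ⟨g, hg, hg0, hge⟩ := ih (fun i h => hγ i (Finset.mem_insert_of_mem h))
      (fun i h => hi i (Finset.mem_insert_of_mem h)) (fun i h => h0 i (Finset.mem_insert_of_mem h))
      (fun i h => hα i (Finset.mem_insert_of_mem h))
      (fun i h k h' => hd i (Finset.mem_insert_of_mem h) k (Finset.mem_insert_of_mem h'))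
    have hjm := Finset.mem_insert_self j F
    obtain ⟨G, hG0, hG⟩ := arc_log (γ j) (hγ j hjm) (hi j hjm) (h0 j hjm) α (hα j hjm) l hl
    classical
    set A := insert 0 (⋃ i ∈ F, Set.range (γ i)) with hA
    have hAcl : IsClosed A := by
      rw [hA, Set.insert_eq]
      apply isClosed_singleton.union
      apply Set.Finite.isClosed_biUnion F.finite_toSet
      intro i h
      exact (isCompact_range (hγ i (Finset.mem_insert_of_mem h))).isClosed
    have hBcl : IsClosed (Set.range (γ j)) := (isCompact_range (hγ j hjm)).isClosed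
    have hset : insert 0 (⋃ i ∈ insert j F, Set.range (γ i)) = A ∪ Set.range (γ j) := by
      rw [hA]
      ext w
      simp only [Finset.mem_insert, Set.iUnion_iUnion_eq_or_left, Set.mem_insert_iff,
        Set.mem_union]
      tauto
    set g' : ℂ → ℂ := fun w => if w ∈ Set.range (γ j) then G w else g w with hg'
    have e1 : ∀ w ∈ A, g' w = g w := by
      intro w hw
      by_cases h1 : w ∈ Set.range (γ j)
      · have h2 : w = 0 := by
          rcases hw with hw | hw
          · exact hw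
          · obtain ⟨i, hiF, t, ht⟩ := Set.mem_iUnion₂.1 hw
            obtain ⟨s, hs⟩ := h1
            have h3 := hd j hjm i (Finset.mem_insert_of_mem hiF)
              (fun h => hj (h ▸ hiF)) s t (hs.trans ht.symm)
            rw [← hs]; exact h3
        rw [hg']
        simp only
        rw [if_pos h1, h2, hG0, hg0]
      · rw [hg']
        simp only
        rw [if_neg h1]
    have e2 : ∀ w ∈ Set.range (γ j), g' w = G w := by
      intro w hw
      rw [hg']
      simp only
      rw [if_pos hw]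
    refine ⟨g', ?_, ?_, ?_⟩
    · rw [hset]
      exact (hg.congr e1).union_of_isClosed (G.continuous.continuousOn.congr e2) hAcl hBcl
    · rw [e1 0 (Set.mem_insert _ _), hg0]
    · rw [hset]
      rintro w (hw | hw)
      · rw [e1 w hw]; exact hge w hw
      · rw [e2 w hw]; exact hG w hw

section legs

variable {c : ℂ} {ψ : ℂ → ℂ}

lemma frontier_notMem (hK : IsClosed (K c)) (h : Lnd c ψ) {u w : ℂ} (hu : ‖u‖ = 1)
    (hw : 1 < ‖w‖) : ψ w ≠ ψ u := by
  intro he
  have h1 : ψ w ∈ (K c)ᶜ := by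
    rw [← h.img]; exact ⟨w, hw, rfl⟩
  have h2 : ψ u ∈ frontier (K c) := by
    rw [← h.img1]; exact ⟨u, by simpa using hu, rfl⟩
  rw [he] at h1
  exact h1 (hK.frontier_subset h2)

lemma norm_mul_unit {u : ℂ} (hu : ‖u‖ = 1) {t : ℝ} (ht : 1 ≤ t) : ‖(t : ℂ) * u‖ = t := by
  rw [norm_mul, hu, mul_one, Complex.norm_real, Real.norm_of_nonneg (by linarith)]

lemma psi_eq (hK : IsClosed (K c)) (h : Lnd c ψ) {u v : ℂ} (hu : ‖u‖ = 1) (hv : ‖v‖ = 1)
    {t t' : ℝ} (ht : 1 ≤ t) (ht' : 1 ≤ t') (he : ψ (t * u) = ψ (t' * v)) :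
    t = t' ∧ (u = v ∨ ψ u = ψ v) := by
  rcases ht.lt_or_eq with h1 | h1 <;> rcases ht'.lt_or_eq with h2 | h2
  · have h3 := h.inj (by show 1 < ‖(t : ℂ) * u‖; rw [norm_mul_unit hu ht]; exact h1)
      (by show 1 < ‖(t' : ℂ) * v‖; rw [norm_mul_unit hv ht']; exact h2) he
    have h4 : t = t' := by
      rw [← norm_mul_unit hu ht, ← norm_mul_unit hv ht', h3]
    refine ⟨h4, Or.inl ?_⟩
    rw [h4] at h3
    exact mul_left_cancel₀ (by exact_mod_cast (by linarith : t' ≠ 0)) h3
  · exfalso
    rw [← h2, Complex.ofReal_one, one_mul] at he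
    exact frontier_notMem hK h hv (by rw [norm_mul_unit hu ht]; exact h1) he
  · exfalso
    rw [← h1, Complex.ofReal_one, one_mul] at he
    exact frontier_notMem hK h hu (by rw [norm_mul_unit hv ht']; exact h2) he.symm
  · rw [← h1, ← h2, Complex.ofReal_one, one_mul, one_mul] at he
    exact ⟨h1.symm.trans h2, Or.inr he⟩

lemma psi_atTop (h : Lnd c ψ) (b : ℂ) :
    Tendsto (fun w => ‖ψ w - b‖) (Bornology.cobounded ℂ) atTop := by
  have h1 : Tendsto (fun w => ‖ψ w / w‖ * ‖w‖) (Bornology.cobounded ℂ) atTop := by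
    have h2 : Tendsto (fun w => ‖ψ w / w‖) (Bornology.cobounded ℂ) (𝓝 1) := by
      simpa using h.inf.norm
    exact h2.pos_mul_atTop one_pos tendsto_norm_cobounded_atTop
  have h3 : Tendsto (fun w => ‖ψ w / w‖ * ‖w‖ + -‖b‖) (Bornology.cobounded ℂ) atTop :=
    tendsto_atTop_add_const_right _ _ h1
  refine tendsto_atTop_mono' _ ?_ h3
  filter_upwards [Bornology.eventually_ne_cobounded (0 : ℂ)] with w hw
  rw [norm_div, div_mul_cancel₀ _ (norm_ne_zero_iff.2 hw)]
  have := norm_sub_norm_le (ψ w) b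
  linarith

/-- The leg of `u` seen from `b`. -/
noncomputable def gam (ψ : ℂ → ℂ) (b u : ℂ) (s : unitInterval) : ℂ :=
  if s = 0 then 0 else (ψ (((s : ℝ)⁻¹ : ℝ) * u) - b)⁻¹

lemma gam_zero (ψ : ℂ → ℂ) (b u : ℂ) : gam ψ b u 0 = 0 := by simp [gam]

lemma one_le_inv (s : unitInterval) (hs : s ≠ 0) : 1 ≤ (s : ℝ)⁻¹ := by
  have h1 : (0 : ℝ) < s := lt_of_le_of_ne s.2.1 (fun h => hs (Subtype.ext h.symm))
  exact (one_le_inv₀ h1).2 s.2.2

lemma gam_ne (b u : ℂ) (hb : b ∉ leg ψ u) (s : unitInterval) (hs : s ≠ 0) : gam ψ b u s ≠ 0 := by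
  rw [gam, if_neg hs]
  apply inv_ne_zero
  intro h1
  exact hb ⟨_, one_le_inv s hs, (sub_eq_zero.1 h1).symm⟩

lemma gam_eq (hK : IsClosed (K c)) (h : Lnd c ψ) {u v b : ℂ} (hu : ‖u‖ = 1) (hv : ‖v‖ = 1)
    (hbu : b ∉ leg ψ u) (hbv : b ∉ leg ψ v) {s s' : unitInterval}
    (he : gam ψ b u s = gam ψ b v s') : s = s' ∧ (s = 0 ∨ u = v ∨ ψ u = ψ v) := by
  by_cases hs : s = 0
  · by_cases hs' : s' = 0
    · exact ⟨by rw [hs, hs'], Or.inl hs⟩
    · exfalso
      rw [hs, gam_zero] at he
      exact gam_ne b v hbv s' hs' he.symm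
  · by_cases hs' : s' = 0
    · exfalso
      rw [hs', gam_zero] at he
      exact gam_ne b u hbu s hs he
    · rw [gam, gam, if_neg hs, if_neg hs'] at he
      have h1 := sub_left_injective (inv_injective he)
      obtain ⟨h2, h3⟩ := psi_eq hK h hu hv (one_le_inv s hs) (one_le_inv s' hs') h1
      exact ⟨Subtype.ext (inv_injective h2), Or.inr h3⟩

lemma gam_cont (h : Lnd c ψ) {b u : ℂ} (hu : ‖u‖ = 1) (hb : b ∉ leg ψ u) :
    Continuous (gam ψ b u) := by
  rw [continuous_iff_continuousAt]
  intro s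
  by_cases hs : s = 0
  · subst hs
    rw [continuousAt_iff_punctured_nhds, gam_zero]
    have h1 : Tendsto (fun s : unitInterval => (((s : ℝ)⁻¹ : ℝ) : ℂ) * u) (𝓝[≠] 0)
        (Bornology.cobounded ℂ) := by
      rw [← tendsto_norm_atTop_iff_cobounded]
      have h2 : Tendsto (fun s : unitInterval => (s : ℝ)⁻¹) (𝓝[≠] 0) atTop := by
        apply Filter.Tendsto.inv_tendsto_nhdsGT_zero
        rw [tendsto_nhdsWithin_iff]
        constructor
        · exact (continuous_subtype_val.tendsto' (0 : unitInterval) 0 rfl).mono_left nhdsWithin_le_nhds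
        · filter_upwards [self_mem_nhdsWithin] with s hs
          exact lt_of_le_of_ne s.2.1 (fun h => hs (Subtype.ext h.symm))
      refine h2.congr' ?_
      filter_upwards [self_mem_nhdsWithin] with s hs
      rw [norm_mul_unit hu (one_le_inv s hs)]
    have h2 := ((psi_atTop h b).comp h1).inv_tendsto_atTop
    rw [tendsto_zero_iff_norm_tendsto_zero]
    refine h2.congr' ?_
    filter_upwards [self_mem_nhdsWithin] with s hs
    rw [gam, if_neg (show ¬ s = 0 from hs), norm_inv]
    rfl
  · have h1 : ContinuousOn (fun s : unitInterval => (ψ (((s : ℝ)⁻¹ : ℝ) * u) - b)⁻¹) {0}ᶜ := by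
      apply ContinuousOn.inv₀
      · apply ContinuousOn.sub _ continuousOn_const
        refine h.cont.comp (t := {w | 1 ≤ ‖w‖}) ?_ ?_
        · apply ContinuousOn.mul _ continuousOn_const
          apply Complex.continuous_ofReal.comp_continuousOn
          apply ContinuousOn.inv₀ continuous_subtype_val.continuousOn
          intro s hs h0
          exact hs (Subtype.ext h0)
        · intro s hs
          show 1 ≤ ‖(((s : ℝ)⁻¹ : ℝ) : ℂ) * u‖
          rw [norm_mul_unit hu (one_le_inv s hs)]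
          exact one_le_inv s hs
      · intro s hs h1
        exact hb ⟨_, one_le_inv s hs, (sub_eq_zero.1 h1).symm⟩
    have h2 : ContinuousOn (gam ψ b u) {0}ᶜ := h1.congr fun s hs => by
      rw [gam, if_neg (show ¬ s = 0 from hs)]
    exact h2.continuousAt (isOpen_compl_singleton.mem_nhds hs)

lemma leg_closed (h : Lnd c ψ) {u : ℂ} (hu : ‖u‖ = 1) : IsClosed (leg ψ u) := by
  rw [← isOpen_compl_iff, isOpen_iff_mem_nhds]
  intro b hb
  have h1 : IsCompact (Set.range (gam ψ b u)) := isCompact_range (gam_cont h hu hb)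
  obtain ⟨R, hR⟩ := h1.isBounded.exists_norm_le
  have h2 : ball b (|R| + 1)⁻¹ ⊆ (leg ψ u)ᶜ := by
    rintro z hz ⟨t, ht, rfl⟩
    have h3 := hR _ ⟨⟨t⁻¹, by positivity, inv_le_one_of_one_le₀ ht⟩, rfl⟩
    have h4 : (⟨t⁻¹, by positivity, inv_le_one_of_one_le₀ ht⟩ : unitInterval) ≠ 0 := by
      intro h0
      have := congrArg Subtype.val h0
      simp at this
      linarith
    rw [gam, if_neg h4] at h3
    simp only [inv_inv] at h3
    rw [norm_inv] at h3
    have h5 : 0 < ‖ψ (t * u) - b‖ := by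
      rw [norm_pos_iff]
      intro h0
      exact hb ⟨t, ht, (sub_eq_zero.1 h0).symm⟩
    rw [mem_ball, dist_eq_norm] at hz
    have h6 : (0 : ℝ) < |R| + 1 := by positivity
    have h7 : |R| + 1 < ‖ψ (t * u) - b‖⁻¹ := by
      rw [lt_inv_comm₀ h6 h5]; exact hz
    have := le_abs_self R
    linarith
  exact Filter.mem_of_superset (ball_mem_nhds _ (by positivity)) h2

end legs

end CON

open CON in
theorem stmt_CON (hE : Stmt_ELM) : Stmt_CON := by
  intro c ψ h F hF hd
  have hK : IsClosed (K c) := (hE c).2.2.2.2.1.isClosed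
  have hcl : IsClosed (⋃ u ∈ F, leg ψ u) :=
    Set.Finite.isClosed_biUnion F.finite_toSet fun u hu => leg_closed h (hF u hu)
  refine ⟨?_, ?_⟩
  · -- a point outside
    have h1 : (sphere (0 : ℂ) 1).Infinite := by
      apply (isPreconnected_sphere (by simp) _ _).infinite_of_nontrivial
      exact ⟨1, by simp, -1, by simp, by norm_num⟩
    obtain ⟨v, hv, hvF⟩ := h1.exists_notMem_finset F
    have hv' : ‖v‖ = 1 := by simpa using hv
    refine ⟨ψ ((2 : ℝ) * v), ?_⟩
    intro h2
    obtain ⟨u, hu, t, ht, he⟩ := Set.mem_iUnion₂.1 h2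
    obtain ⟨h3, h4⟩ := psi_eq hK h hv' (hF u hu) (by norm_num) ht he
    rcases ht.lt_or_eq with h5 | h5
    · have h6 := h.inj (by show 1 < ‖((2 : ℝ) : ℂ) * v‖; rw [norm_mul_unit hv' (by norm_num)]; norm_num)
        (by show 1 < ‖(t : ℂ) * u‖; rw [norm_mul_unit (hF u hu) ht]; exact h5) he
      rw [← h3] at h6
      have h7 := mul_left_cancel₀ (by norm_num) h6
      exact hvF (h7 ▸ hu)
    · linarith
  · apply isPreconnected_of_forall_pair
    intro a ha b hb
    by_cases hab : a = b
    · exact ⟨{a}, by simpa using ha, rfl, by rw [hab]; rfl, isPreconnected_singleton⟩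
    · have hab' : a - b ≠ 0 := sub_ne_zero.2 hab
      have hau : ∀ u ∈ F, a ∉ leg ψ u := fun u hu h1 => ha (Set.mem_iUnion₂.2 ⟨u, hu, h1⟩)
      have hbu : ∀ u ∈ F, b ∉ leg ψ u := fun u hu h1 => hb (Set.mem_iUnion₂.2 ⟨u, hu, h1⟩)
      have hl : Complex.exp (Complex.log (-(a - b)⁻¹)) = -(a - b)⁻¹ :=
        Complex.exp_log (neg_ne_zero.2 (inv_ne_zero hab'))
      obtain ⟨g, hg, -, hge⟩ := arcs_log (gam ψ b) (a - b)⁻¹ _ hl F
        (fun u hu => gam_cont h (hF u hu) (hbu u hu))
        (fun u hu s s' he => (gam_eq hK h (hF u hu) (hF u hu) (hbu u hu) (hbu u hu) he).1)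
        (fun u hu => gam_zero _ _ _)
        (by
          rintro u hu ⟨s, hs⟩
          by_cases h0 : s = 0
          · rw [h0, gam_zero] at hs
            exact hab' (inv_eq_zero.1 hs.symm)
          · rw [gam, if_neg h0] at hs
            have h1 := sub_left_injective (inv_injective hs)
            exact hau u hu ⟨_, one_le_inv s h0, h1.symm⟩)
        (by
          intro u hu v hv huv s t he
          obtain ⟨h1, h2 | h2 | h2⟩ := gam_eq hK h (hF u hu) (hF v hv) (hbu u hu) (hbu v hv) he
          · rw [h2, gam_zero]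
          · exact absurd h2 huv
          · exact absurd (hd u hu v hv h2) huv)
      have hsub : inv (⋃ u ∈ F, leg ψ u) b ⊆ insert 0 (⋃ u ∈ F, Set.range (gam ψ b u)) := by
        rintro w (hw | hw)
        · rw [hw]; exact Set.mem_insert _ _
        · right
          obtain ⟨u, hu, t, ht, he⟩ := Set.mem_iUnion₂.1 hw
          refine Set.mem_iUnion₂.2 ⟨u, hu, ⟨t⁻¹, by positivity, inv_le_one_of_one_le₀ ht⟩, ?_⟩
          have h4 : (⟨t⁻¹, by positivity, inv_le_one_of_one_le₀ ht⟩ : unitInterval) ≠ 0 := by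
            intro h0
            have := congrArg Subtype.val h0
            simp at this
            linarith
          rw [gam, if_neg h4]
          simp only [inv_inv]
          rw [← he, add_sub_cancel_left, inv_inv]
      exact joined _ hcl a b ha hb hab g (hg.mono hsub) fun w hw => hge w (hsub hw)

end R4C
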