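import Pool.Agent.Work.MP_e3f5d9_al_cx.Interface

/-!
Block EXP: different postcritical points have different itineraries.
-/

set_option autoImplicit false

open Polynomial unitInterval Topology Metric Filter

namespace R4C

namespace EXP

/-- extension of a path to the line -/
noncomputable def ext (γ : C(I, ℂ)) (r : ℝ) : ℂ := γ (Set.projIcc 0 1 zero_le_one r)

theorem ext_zero (γ : C(I, ℂ)) : ext γ 0 = γ 0 := by
  unfold ext
  rw [Set.projIcc_left]
  rfl

theorem ext_one (γ : C(I, ℂ)) : ext γ 1 = γ 1 := by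
  unfold ext
  rw [Set.projIcc_right]
  rfl

theorem exists_cut (γ : C(I, ℂ)) {δ : ℝ} (hδ : 0 < δ) : ∃ m : ℕ, 0 < m ∧
    ∀ r r' : ℝ, |r - r'| ≤ 1 / m → ‖ext γ r - ext γ r'‖ ≤ δ := by
  have huc : UniformContinuous γ := CompactSpace.uniformContinuous_of_continuous γ.continuous
  obtain ⟨η, hη, h⟩ := Metric.uniformContinuous_iff.1 huc δ hδ
  obtain ⟨m, hm⟩ := exists_nat_gt (1 / η)
  have hm0 : (0 : ℝ) < m := lt_trans (by positivity) hm
  refine ⟨m, by exact_mod_cast hm0, fun r r' hr => ?_⟩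
  have h1 : dist (Set.projIcc 0 1 zero_le_one r : I) (Set.projIcc 0 1 zero_le_one r') < η := by
    have h2 := (LipschitzWith.projIcc (zero_le_one (α := ℝ))).dist_le_mul r r'
    rw [NNReal.coe_one, one_mul, Real.dist_eq] at h2
    refine lt_of_le_of_lt h2 (lt_of_le_of_lt hr ?_)
    rw [div_lt_iff₀ hm0]
    rw [div_lt_iff₀ hη] at hm
    linarith
  have := h h1
  rw [dist_eq_norm] at this
  exact this.le

/-- a piece of a path -/
noncomputable def piece (γ : C(I, ℂ)) (m k : ℕ) : C(I, ℂ) where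
  toFun t := ext γ ((k + (t : ℝ)) / m)
  continuous_toFun := by
    unfold ext
    exact γ.continuous.comp (continuous_projIcc.comp (by fun_prop))

/-- the distance of the ends of a lift -/
theorem ends {c : ℂ} {A : Set ℂ} {δ e : ℝ} {N : ℕ}
    (hS : ∀ Γ : C(I, ℂ), (∀ s, (f c)^[N] (Γ s) ∈ A) →
      (∀ s s', ‖(f c)^[N] (Γ s) - (f c)^[N] (Γ s')‖ ≤ δ) → ∀ s s', ‖Γ s - Γ s'‖ ≤ e)
    {γ Γ : C(I, ℂ)} (hΓ : ∀ s, (f c)^[N] (Γ s) = γ s) (hA : ∀ s, γ s ∈ A) {m : ℕ} (hm : 0 < m)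
    (hcut : ∀ r r' : ℝ, |r - r'| ≤ 1 / m → ‖ext γ r - ext γ r'‖ ≤ δ) :
    ‖Γ 0 - Γ 1‖ ≤ m * e := by
  have hm' : (0 : ℝ) < m := by exact_mod_cast hm
  have hpiece : ∀ k : ℕ, ‖ext Γ (k / m) - ext Γ ((k + 1) / m)‖ ≤ e := by
    intro k
    have h1 := hS (piece Γ m k) (fun s => by
        change (f c)^[N] (Γ _) ∈ A
        rw [hΓ]
        exact hA _) (fun s s' => by
        change ‖(f c)^[N] (Γ _) - (f c)^[N] (Γ _)‖ ≤ δ
        rw [hΓ, hΓ]
        refine hcut _ _ ?_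
        rw [← sub_div, abs_div, abs_of_pos hm']
        refine div_le_div_of_nonneg_right ?_ hm'.le
        rw [add_sub_add_left_eq_sub, abs_le]
        have := s.2.1; have := s.2.2; have := s'.2.1; have := s'.2.2
        constructor <;> linarith) 0 1
    have e0 : piece Γ m k 0 = ext Γ (k / m) := by
      change ext Γ ((k + ((0 : I) : ℝ)) / m) = _
      simp
    have e1 : piece Γ m k 1 = ext Γ ((k + 1) / m) := by
      change ext Γ ((k + ((1 : I) : ℝ)) / m) = _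
      simp
    rw [e0, e1] at h1
    exact h1
  have hsum : ∀ k : ℕ, ‖ext Γ 0 - ext Γ (k / m)‖ ≤ k * e := by
    intro k
    induction k with
    | zero => simp
    | succ k ih =>
      have h1 := hpiece k
      have h2 : ‖ext Γ 0 - ext Γ (((k + 1 : ℕ) : ℝ) / m)‖ ≤
          ‖ext Γ 0 - ext Γ (k / m)‖ + ‖ext Γ (k / m) - ext Γ ((k + 1) / m)‖ := by
        push_cast
        exact norm_sub_le_norm_sub_add_norm_sub _ _ _
      push_cast at h2 ⊢
      linarith
  have := hsum m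
  rw [div_self hm'.ne', ext_zero, ext_one] at this
  exact this

/-- lifting a path in `K` along the halves -/
theorem lift_path {c : ℂ} {s : ℂ → Bool} (hfK : ∀ z, z ∈ K c → f c z ∈ K c)
    (hh : ∀ b, IsCompact (half c s b) ∧ Set.InjOn (f c) (half c s b) ∧
      f c '' half c s b = K c) : ∀ (N : ℕ) (x y : ℂ),
    (∀ n, n < N → ∃ b, (f c)^[n] x ∈ half c s b ∧ (f c)^[n] y ∈ half c s b) →
    ∀ γ : C(I, ℂ), (∀ t, γ t ∈ K c) → γ 0 = (f c)^[N] x → γ 1 = (f c)^[N] y →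
      ∃ Γ : C(I, ℂ), (∀ t, Γ t ∈ K c) ∧ Γ 0 = x ∧ Γ 1 = y ∧ ∀ t, (f c)^[N] (Γ t) = γ t := by
  intro N
  induction N with
  | zero =>
    intro x y _ γ hγ h0 h1
    exact ⟨γ, hγ, h0, h1, fun t => rfl⟩
  | succ N ih =>
    intro x y hxy γ hγ h0 h1
    obtain ⟨Γ1, hΓK, hΓ0, hΓ1, hΓ⟩ := ih (f c x) (f c y) (fun n hn => by
      obtain ⟨b, hb⟩ := hxy (n + 1) (by omega)
      exact ⟨b, hb⟩) γ hγ h0 h1
    obtain ⟨b, hx, hy⟩ := hxy 0 (by omega)
    have hx : x ∈ half c s b := hx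
    have hy : y ∈ half c s b := hy
    obtain ⟨hc, hinj, him⟩ := hh b
    have : CompactSpace (half c s b) := isCompact_iff_compactSpace.1 hc
    let F : half c s b → K c := fun z => ⟨f c z.1, hfK _ z.2.1⟩
    have hF : Function.Bijective F := by
      constructor
      · intro z z' h
        exact Subtype.ext (hinj z.2 z'.2 (congrArg Subtype.val h))
      · intro w
        have hw : w.1 ∈ f c '' half c s b := by rw [him]; exact w.2
        obtain ⟨z, hz, hz2⟩ := hw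
        exact ⟨⟨z, hz⟩, Subtype.ext hz2⟩
    have hFc : Continuous F := by
      refine Continuous.subtype_mk ?_ _
      unfold f
      fun_prop
    let e : half c s b ≃ₜ K c := hFc.homeoOfEquivCompactToT2 (f := Equiv.ofBijective F hF)
    have he : ∀ z, e z = F z := fun z => rfl
    have hes : ∀ w : K c, f c (e.symm w).1 = w.1 := by
      intro w
      have := congrArg Subtype.val (he (e.symm w))
      rw [Homeomorph.apply_symm_apply] at this
      exact this.symm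
    refine ⟨⟨fun t => (e.symm ⟨Γ1 t, hΓK t⟩).1, ?_⟩, ?_, ?_, ?_, ?_⟩
    · exact continuous_subtype_val.comp (e.symm.continuous.comp
        (Continuous.subtype_mk Γ1.continuous _))
    · intro t
      exact (e.symm ⟨Γ1 t, hΓK t⟩).2.1
    · change (e.symm ⟨Γ1 0, hΓK 0⟩).1 = x
      have : e.symm ⟨Γ1 0, hΓK 0⟩ = ⟨x, hx⟩ := by
        rw [Homeomorph.symm_apply_eq, he]
        exact Subtype.ext hΓ0
      rw [this]
    · change (e.symm ⟨Γ1 1, hΓK 1⟩).1 = y
      have : e.symm ⟨Γ1 1, hΓK 1⟩ = ⟨y, hy⟩ := by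
        rw [Homeomorph.symm_apply_eq, he]
        exact Subtype.ext hΓ1
      rw [this]
    · intro t
      change (f c)^[N] (f c (e.symm ⟨Γ1 t, hΓK t⟩).1) = γ t
      rw [hes]
      exact hΓ t

end EXP

theorem stmt_EXP : Stmt_ELM → Stmt_SHR → Stmt_REG → Stmt_HLF → Stmt_EXP := by
  intro hELM hSHR hREG hHLF c ψ u s h x hx y hy hxy
  obtain ⟨-, -, -, hKr, hKc, hf, -, -, -, -, -⟩ := hELM c
  obtain ⟨-, hpc, -, -, hh, -⟩ := hHLF c ψ u s h
  obtain ⟨A, hA, -, hA2⟩ := hREG c (rad c) h.mis.fin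
  have hA2 := hA2 h.mis
  obtain ⟨δ, e, hδ, he, hS⟩ := hSHR c A h.mis.fin hA
  have hKA : K c ⊆ A := by
    intro z hz
    refine hA2 ?_
    rw [hKr] at hz
    have := hz 0
    simpa using this
  have hPK : P c ⊆ K c := P_sub_K h.mis.fin
  have hiter : ∀ {x : ℂ}, x ∈ P c → ∀ n, (f c)^[n] x ∈ P c := by
    intro x hx n
    induction n with
    | zero => exact hx
    | succ n ih => rw [iter_succ]; exact P_fwd ih
  -- a path and a number of pieces for every pair of points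
  have hex : ∀ q ∈ K c, ∀ q' ∈ K c, ∃ (m : ℕ) (γ : C(I, ℂ)), 0 < m ∧ (∀ t, γ t ∈ K c) ∧
      γ 0 = q ∧ γ 1 = q' ∧
      ∀ r r' : ℝ, |r - r'| ≤ 1 / m → ‖EXP.ext γ r - EXP.ext γ r'‖ ≤ δ := by
    intro q hq q' hq'
    obtain ⟨p, hp⟩ := hpc.joinedIn q hq q' hq'
    obtain ⟨m, hm, hcut⟩ := EXP.exists_cut p.toContinuousMap hδ
    exact ⟨m, p.toContinuousMap, hm, hp, p.source, p.target, hcut⟩
  choose! m γ hm hγK hγ0 hγ1 hcut using hex
  have hfin : (Set.image (fun p : ℂ × ℂ => m p.1 p.2) ((P c) ×ˢ (P c))).Finite :=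
    (h.mis.fin.prod h.mis.fin).image _
  obtain ⟨B, hB⟩ := hfin.bddAbove
  have hbound : ∀ N : ℕ, ‖x - y‖ ≤ B * e N := by
    intro N
    have hqP := hiter hx N
    have hq'P := hiter hy N
    have hq := hPK hqP
    have hq' := hPK hq'P
    obtain ⟨Γ, _, hΓ0, hΓ1, hΓ⟩ := EXP.lift_path (fun z hz => (hf z).2 hz)
      (fun b => ⟨(hh b).1, (hh b).2.2.2.1, (hh b).2.2.2.2.1⟩) N x y (fun n _ =>
        ⟨s ((f c)^[n] x), ⟨hPK (hiter hx n), Or.inr rfl⟩, ⟨hPK (hiter hy n), Or.inr (hxy n).symm⟩⟩)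
      (γ _ _) (hγK _ hq _ hq') (hγ0 _ hq _ hq') (hγ1 _ hq _ hq')
    have h1 := EXP.ends (hS N) hΓ (fun t => hKA (hγK _ hq _ hq' t)) (hm _ hq _ hq')
      (hcut _ hq _ hq')
    rw [hΓ0, hΓ1] at h1
    refine h1.trans ?_
    have h2 : m ((f c)^[N] x) ((f c)^[N] y) ≤ B := hB ⟨(_, _), ⟨hqP, hq'P⟩, rfl⟩
    have h3 : (0 : ℝ) ≤ e N := by
      have h4 : (0 : ℝ) < m ((f c)^[N] x) ((f c)^[N] y) := by exact_mod_cast hm _ hq _ hq'
      exact nonneg_of_mul_nonneg_right ((norm_nonneg _).trans h1) h4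
    exact mul_le_mul_of_nonneg_right (by exact_mod_cast h2) h3
  have hlim : Tendsto (fun N : ℕ => (B : ℝ) * e N) atTop (𝓝 0) := by
    have h2 := he.const_mul (B : ℝ)
    simpa using h2
  have := ge_of_tendsto' hlim hbound
  have h0 : ‖x - y‖ = 0 := le_antisymm this (norm_nonneg _)
  exact sub_eq_zero.1 (norm_eq_zero.1 h0)

end R4C
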