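import Pool.Agent.Work.MP_e3f5d9_al_cx.Interface

/-!
Block HLF: the filled Julia set and its closed halves.
-/

set_option autoImplicit false

open Polynomial unitInterval Topology Metric Filter

namespace R4C

namespace HLF

/-- A piece of a connected set cut at one point is connected. -/
theorem preconn_of_union {X : Type*} [TopologicalSpace X] {A B : Set X} {x : X}
    (hA : IsClosed A) (hB : IsClosed B) (hAB : IsPreconnected (A ∪ B)) (hi : A ∩ B = {x}) :
    IsPreconnected A := by
  have hxA : x ∈ A := by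
    have : x ∈ A ∩ B := by rw [hi]; rfl
    exact this.1
  rw [isPreconnected_closed_iff] at hAB ⊢
  have key : ∀ t t' : Set X, IsClosed t → IsClosed t' → A ⊆ t ∪ t' → (A ∩ t').Nonempty → x ∈ t →
      (A ∩ (t ∩ t')).Nonempty := by
    intro t t' ht ht' hs hn hx
    obtain ⟨y, ⟨hy1, hy2⟩⟩ := hAB ((A ∩ t) ∪ B) (A ∩ t') ((hA.inter ht).union hB) (hA.inter ht')
      (by
        rintro y (hy | hy)
        · rcases hs hy with h | h
          · exact Or.inl (Or.inl ⟨hy, h⟩)
          · exact Or.inr ⟨hy, h⟩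
        · exact Or.inl (Or.inr hy))
      ⟨x, Or.inl hxA, Or.inl ⟨hxA, hx⟩⟩
      (by
        obtain ⟨y, hy⟩ := hn
        exact ⟨y, Or.inl hy.1, hy⟩)
    rcases hy2.1 with h | h
    · exact ⟨y, hy2.2.1, h.2, hy2.2.2⟩
    · have : y = x := by
        have : y ∈ A ∩ B := ⟨hy2.2.1, h⟩
        rw [hi] at this
        exact this
      subst this
      exact ⟨y, hy2.2.1, hx, hy2.2.2⟩
  intro t t' ht ht' hs hn hn'
  rcases hs hxA with h | h
  · exact key t t' ht ht' hs hn' h
  · obtain ⟨y, hy1, hy2, hy3⟩ := key t' t ht' ht (fun y hy => (hs hy).symm) hn h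
    exact ⟨y, hy1, hy3, hy2⟩

variable {c : ℂ} {ψ : ℂ → ℂ}

/-- The norm of `ψ w` tends to infinity. -/
theorem psi_large (h : Lnd c ψ) (R : ℝ) : ∃ T : ℝ, 1 ≤ T ∧ ∀ w : ℂ, T < ‖w‖ → R < ‖ψ w‖ := by
  have h1 := h.inf
  have h2 : ∀ᶠ w in Bornology.cobounded ℂ, ψ w / w ∈ ball (1 : ℂ) (1 / 2) :=
    h1 (ball_mem_nhds _ (by norm_num))
  rw [← comap_norm_atTop, eventually_comap] at h2
  obtain ⟨T, hT⟩ := (eventually_atTop.1 h2)
  refine ⟨max (max 1 T) (2 * |R| + 1), le_trans (le_max_left _ _) (le_max_left _ _), ?_⟩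
  intro w hw
  have hw1 : 1 < ‖w‖ := lt_of_le_of_lt (le_trans (le_max_left _ _) (le_max_left _ _)) hw
  have hwT : T < ‖w‖ := lt_of_le_of_lt (le_trans (le_max_right _ _) (le_max_left _ _)) hw
  have hwR : 2 * |R| + 1 < ‖w‖ := lt_of_le_of_lt (le_max_right _ _) hw
  have h3 := hT ‖w‖ hwT.le w rfl
  rw [mem_ball, dist_eq_norm] at h3
  have h4 : 1 / 2 < ‖ψ w / w‖ := by
    have : ‖(1 : ℂ)‖ ≤ ‖ψ w / w‖ + ‖ψ w / w - 1‖ := by
      have := norm_sub_le (ψ w / w) (ψ w / w - 1)
      rw [sub_sub_cancel] at this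
      exact this
    rw [norm_one] at this
    linarith
  rw [norm_div, lt_div_iff₀ (by linarith)] at h4
  have := le_abs_self R
  linarith

theorem cont_leg (h : Lnd c ψ) {u : ℂ} (hu : ‖u‖ = 1) :
    ContinuousOn (fun t : ℝ => ψ (t * u)) (Set.Ici 1) := by
  refine h.cont.comp (by fun_prop) ?_
  intro t ht
  have ht : (1 : ℝ) ≤ t := ht
  change 1 ≤ ‖(t : ℂ) * u‖
  rw [norm_mul, hu, mul_one, Complex.norm_real, Real.norm_of_nonneg (by linarith)]
  exact ht

/-- Legs are closed. -/
theorem leg_closed (h : Lnd c ψ) {u : ℂ} (hu : ‖u‖ = 1) : IsClosed (leg ψ u) := by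
  rw [← isOpen_compl_iff, isOpen_iff_mem_nhds]
  intro z hz
  obtain ⟨T, hT1, hT⟩ := psi_large h (‖z‖ + 1)
  have hC : IsCompact ((fun t : ℝ => ψ (t * u)) '' Set.Icc 1 T) :=
    isCompact_Icc.image_of_continuousOn ((cont_leg h hu).mono Set.Icc_subset_Ici_self)
  have hzC : z ∉ (fun t : ℝ => ψ (t * u)) '' Set.Icc 1 T := by
    rintro ⟨t, ht, rfl⟩
    exact hz ⟨t, ht.1, rfl⟩
  filter_upwards [hC.isClosed.isOpen_compl.mem_nhds hzC, ball_mem_nhds z one_pos] with y hy1 hy2
  rintro ⟨t, ht, rfl⟩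
  rcases le_or_gt t T with h1 | h1
  · exact hy1 ⟨t, ⟨ht, h1⟩, rfl⟩
  · have h2 := hT ((t : ℂ) * u) (by
      rw [norm_mul, hu, mul_one, Complex.norm_real, Real.norm_of_nonneg (by linarith)]
      exact h1)
    rw [mem_ball, dist_eq_norm] at hy2
    have h3 : ‖ψ (t * u)‖ ≤ ‖ψ (t * u) - z‖ + ‖z‖ := by
      have := norm_add_le (ψ (t * u) - z) z
      rw [sub_add_cancel] at this
      exact this
    linarith

theorem isPathConnected_circle : IsPathConnected (sphere (0 : ℂ) 1) := by
  refine isPathConnected_sphere ?_ _ zero_le_one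
  rw [Complex.rank_real_complex]
  norm_num

/-- the outside of the unit disc is connected -/
theorem isConnected_outside : IsConnected {w : ℂ | 1 < ‖w‖} := by
  have h1 : IsConnected ((Set.Ioi (1 : ℝ)) ×ˢ (sphere (0 : ℂ) 1)) :=
    (isConnected_Ioi).prod isPathConnected_circle.isConnected
  have h2 : {w : ℂ | 1 < ‖w‖} =
      (fun p : ℝ × ℂ => (p.1 : ℂ) * p.2) '' ((Set.Ioi (1 : ℝ)) ×ˢ (sphere (0 : ℂ) 1)) := by
    ext w
    constructor
    · intro hw
      have hw : 1 < ‖w‖ := hw
      have h0 : (‖w‖ : ℂ) ≠ 0 := by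
        rw [Complex.ofReal_ne_zero]
        linarith
      refine ⟨(‖w‖, w / ‖w‖), ⟨hw, ?_⟩, ?_⟩
      · simp only [mem_sphere, dist_zero_right, norm_div, Complex.norm_real, norm_norm]
        exact div_self (by linarith)
      · simp only
        field_simp
    · rintro ⟨⟨r, v⟩, ⟨hr, hv⟩, rfl⟩
      have hr : (1 : ℝ) < r := hr
      have hv : ‖v‖ = 1 := by simpa using hv
      change 1 < ‖(r : ℂ) * v‖
      rw [norm_mul, hv, mul_one, Complex.norm_real, Real.norm_of_nonneg (by linarith)]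
      exact hr
  rw [h2]
  exact h1.image _ (by fun_prop)

theorem sq_eq_zero_of_leg {u : ℂ} {s : ℂ → Bool} (h : Dat c ψ u s)
    (hf : ∀ z, f c z ∈ K c ↔ z ∈ K c) {z : ℂ} (hz : z ∈ K c) (h0 : z ≠ 0) :
    f c z ∉ leg ψ u := by
  intro h1
  have h2 := leg_inter_K h.lnd h.nrm h1 ((hf z).2 hz)
  rw [h.val] at h2
  have h3 : z ^ 2 = 0 := by
    have : z ^ 2 + c = c := h2
    linear_combination this
  exact h0 (by simpa using h3)

theorem half_closed {u : ℂ} {s : ℂ → Bool} (h : Dat c ψ u s)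
    (hf : ∀ z, f c z ∈ K c ↔ z ∈ K c) (hK : IsClosed (K c)) (b : Bool) :
    IsClosed (half c s b) := by
  rw [← isOpen_compl_iff, isOpen_iff_mem_nhds]
  intro z hz
  by_cases hzK : z ∈ K c
  · have h0 : z ≠ 0 := fun h0 => hz ⟨hzK, Or.inl h0⟩
    have hsz : s z ≠ b := fun h1 => hz ⟨hzK, Or.inr h1⟩
    have hleg := sq_eq_zero_of_leg h hf hzK h0
    have hopen : IsOpen {y : ℂ | f c y ∉ leg ψ u} := by
      have hfc : Continuous (f c) := by unfold f; fun_prop
      exact (leg_closed h.lnd h.nrm).isOpen_compl.preimage hfc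
    obtain ⟨r, hr, hball⟩ := Metric.isOpen_iff.1 hopen z hleg
    filter_upwards [ball_mem_nhds z hr, isOpen_ne.mem_nhds h0] with y hy hy0
    rintro ⟨_, h1 | h1⟩
    · exact hy0 h1
    · apply hsz
      rw [← h1]
      exact h.side.loc (ball z r) (convex_ball z r).isPreconnected (fun w hw => hball hw) z
        (mem_ball_self hr) y hy
  · filter_upwards [hK.isOpen_compl.mem_nhds hzK] with y hy
    exact fun h1 => hy h1.1

end HLF

theorem stmt_HLF : Stmt_ELM → Stmt_NOI → Stmt_HLF := by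
  intro hELM hNOI c ψ u s h
  obtain ⟨-, -, -, -, hKc, hf, hneg, h0K, -, -, -⟩ := hELM c
  have h0 : (0 : ℂ) ∈ K c := h0K h.mis.fin
  have hKcl : IsClosed (K c) := hKc.isClosed
  have hfr : frontier (K c) = K c := by
    rw [frontier, hKcl.closure_eq, hNOI c h.mis, Set.sdiff_empty]
  have hKpc : IsPathConnected (K c) := by
    rw [← hfr, ← h.lnd.img1]
    refine HLF.isPathConnected_circle.image' (h.lnd.cont.mono ?_)
    intro w hw
    have : ‖w‖ = 1 := by simpa using hw
    exact this.ge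
  have h6 : ∀ z ∈ K c, z ≠ 0 → s (-z) = !(s z) := fun z hz hz0 =>
    h.side.odd z (HLF.sq_eq_zero_of_leg h hf hz hz0)
  have hclo : ∀ b, IsClosed (half c s b) := fun b => HLF.half_closed h hf hKcl b
  have h0h : ∀ b, (0 : ℂ) ∈ half c s b := fun b => ⟨h0, Or.inl rfl⟩
  have hun : ∀ b, half c s b ∪ half c s (!b) = K c := by
    intro b
    ext z
    constructor
    · rintro (hz | hz)
      · exact hz.1
      · exact hz.1
    · intro hz
      by_cases hb : s z = b
      · exact Or.inl ⟨hz, Or.inr hb⟩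
      · refine Or.inr ⟨hz, Or.inr ?_⟩
        revert hb
        cases s z <;> cases b <;> simp
  have hin : ∀ b, half c s b ∩ half c s (!b) = {0} := by
    intro b
    ext z
    constructor
    · rintro ⟨⟨_, h1 | h1⟩, ⟨_, h2 | h2⟩⟩
      · exact h1
      · exact h1
      · exact h2
      · exfalso
        rw [h1] at h2
        revert h2
        cases b <;> simp
    · intro hz
      have hz : z = 0 := hz
      subst hz
      exact ⟨h0h b, h0h (!b)⟩
  refine ⟨hKpc.isConnected, hKpc, ?_, ?_, ?_, h6⟩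
  · rw [← h.lnd.img]
    refine HLF.isConnected_outside.image _ (h.lnd.cont.mono ?_)
    intro w hw
    have hw : 1 < ‖w‖ := hw
    exact hw.le
  · rw [closure_compl, hNOI c h.mis, Set.compl_empty]
  · intro b
    refine ⟨hKc.of_isClosed_subset (hclo b) (fun z hz => hz.1), ⟨⟨0, h0h b⟩, ?_⟩, h0h b, ?_, ?_, ?_⟩
    · refine HLF.preconn_of_union (hclo b) (hclo (!b)) ?_ (hin b)
      rw [hun b]
      exact hKpc.isConnected.isPreconnected
    · intro z hz z' hz' he
      have he : z ^ 2 + c = z' ^ 2 + c := he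
      have h1 : (z - z') * (z + z') = 0 := by linear_combination he
      rcases mul_eq_zero.1 h1 with h2 | h2
      · exact sub_eq_zero.1 h2
      · have h3 : z' = -z := by linear_combination h2
        by_cases hz0 : z = 0
        · rw [h3, hz0, neg_zero]
        · exfalso
          subst h3
          have h4 := h6 z hz.1 hz0
          have h5 : s z = b := hz.2.resolve_left hz0
          have h7 : s (-z) = b := hz'.2.resolve_left (fun h => hz0 (neg_eq_zero.1 h))
          rw [h5, h7] at h4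
          revert h4
          cases b <;> simp
    · apply Set.Subset.antisymm
      · rintro _ ⟨z, hz, rfl⟩
        exact (hf z).2 hz.1
      · intro y hy
        obtain ⟨z, hz⟩ : ∃ z : ℂ, z ^ 2 = y - c := IsAlgClosed.exists_pow_nat_eq _ (by norm_num)
        have hfz : f c z = y := by
          change z ^ 2 + c = y
          rw [hz]
          ring
        have hfz' : f c (-z) = y := by
          change (-z) ^ 2 + c = y
          rw [neg_sq, hz]
          ring
        have hzK : z ∈ K c := (hf z).1 (hfz ▸ hy)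
        by_cases hz0 : z = 0
        · exact ⟨z, ⟨hzK, Or.inl hz0⟩, hfz⟩
        · by_cases hb : s z = b
          · exact ⟨z, ⟨hzK, Or.inr hb⟩, hfz⟩
          · refine ⟨-z, ⟨(hneg z).2 hzK, Or.inr ?_⟩, hfz'⟩
            rw [h6 z hzK hz0]
            revert hb
            cases s z <;> cases b <;> simp
    · intro z
      constructor
      · rintro ⟨h1, h2⟩
        have hzK := (hneg z).1 h1
        refine ⟨hzK, ?_⟩
        by_cases hz0 : z = 0
        · exact Or.inl hz0
        · right
          have h3 : s (-z) = b := h2.resolve_left (fun h => hz0 (neg_eq_zero.1 h))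
          rw [h6 z hzK hz0] at h3
          rw [← h3]
          simp
      · rintro ⟨hzK, h2⟩
        refine ⟨(hneg z).2 hzK, ?_⟩
        by_cases hz0 : z = 0
        · left; rw [hz0, neg_zero]
        · right
          rw [h6 z hzK hz0, h2.resolve_left hz0]
          simp

end R4C
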