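import Pool.Agent.Work.MP_e3f5d9_al_cx.IMG3

/-!
# Block IMG: the iterated monodromy group is the group of the kneading system
-/

set_option autoImplicit false

open Polynomial unitInterval Topology Metric Filter PCF

namespace R4C

lemma postCrit_eq (c : ℂ) : postCrit (X ^ 2 + C c) = P c := by
  ext z
  constructor
  · rintro ⟨w, hw, n, hn, rfl⟩
    have h0 : w = 0 := by simpa using hw
    exact ⟨n, hn, by rw [h0, it_qp]⟩
  · rintro ⟨n, hn, rfl⟩
    exact ⟨0, by simp, n, hn, it_qp c n 0⟩

lemma qp_deg (c : ℂ) : (X ^ 2 + C c : ℂ[X]).natDegree = 2 := by compute_degree!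

lemma adm_P {c : ℂ} (hfin : (P c).Finite) : Adm (X ^ 2 + C c) (P c) := by
  have h := adm_postCrit (X ^ 2 + C c) (by rw [qp_deg]) (by rw [postCrit_eq]; exact hfin)
  rwa [postCrit_eq] at h

/-- **Block IMG.** -/
theorem stmt_IMG (hNOI : Stmt_NOI) (hSID : Stmt_SID) (hSAM : Stmt_SAM) (hCON : Stmt_CON) :
    Stmt_IMG := by
  intro c ψ u s h _ _ t ht
  rw [postCrit_eq] at ht
  obtain ⟨sp⟩ := exists_spi hNOI hSID hSAM h
  have hA : Adm (X ^ 2 + C c) (P c) := adm_P h.mis.fin
  have hLA := loopAct stmt_TR (X ^ 2 + C c) (P c) hA t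
  -- the base point off the legs
  obtain ⟨b, -, hb⟩ := exists_Om_near h sp ht isOpen_univ (Set.mem_univ t)
  obtain ⟨η, hη⟩ := exists_av_path hA.fin ht (Om_av sp hb)
  have hex : ∀ v : Vertex (X ^ 2 + C c) t, ∃ w, Tr (X ^ 2 + C c) v.1.1 η v.1.2 w := fun v =>
    tr_exists hA v.1.1 η hη v.1.2 v.2
  choose W hW using hex
  have hWend : ∀ v, (f c)^[v.1.1] (W v) = b := fun v => by
    rw [← it_qp]; exact (tr_ends (hW v)).2
  let e0 : Vertex (X ^ 2 + C c) t → List Bool := fun v => lab sp 0 v.1.1 (W v)
  have hbij : Function.Bijective e0 := by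
    constructor
    · intro v v' he
      have h1 : v.1.1 = v'.1.1 := by
        have := congrArg List.length he
        simpa [e0, lab_length] using this
      have h2 : W v = W v' := by
        have h3 : lab sp 0 v.1.1 (W v) = lab sp 0 v.1.1 (W v') := by
          have : lab sp 0 v.1.1 (W v') = lab sp 0 v'.1.1 (W v') := by rw [h1]
          rw [this]; exact he
        refine lab_inj h.lnd sp v.1.1 0 _ _ (by rw [hWend]; exact hb) ?_ h3
        rw [hWend, h1, hWend]
      have h3 := tr_symm (hW v)
      have h4 := tr_symm (hW v')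
      rw [h2, h1] at h3
      exact Subtype.ext (Prod.ext h1 (tr_unique hA (γ := η.symm) (fun s => hη _) h3 h4))
    · intro l
      obtain ⟨w, h1, h2⟩ := lab_surj h.lnd sp l 0 b hb
      obtain ⟨z, hz⟩ := tr_exists hA l.length η.symm (fun s => hη _) w (by rw [it_qp]; exact h1)
      have h3 := (tr_ends hz).2
      refine ⟨⟨(l.length, z), h3⟩, ?_⟩
      have h4 := hW ⟨(l.length, z), h3⟩
      have h5 := tr_symm hz
      rw [Path.symm_symm] at h5
      have h6 := tr_unique hA hη h4 h5
      show lab sp 0 l.length (W ⟨(l.length, z), h3⟩) = l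
      rw [h6, h2]
  let e : Vertex (X ^ 2 + C c) t ≃ List Bool := Equiv.ofBijective e0 hbij
  have he : ∀ v, e v = lab sp 0 v.1.1 (W v) := fun v => rfl
  have hmap : (IMG (X ^ 2 + C c) t).map (e.permCongrHom).toMonoidHom = (ksC h).grp := by
    apply le_antisymm
    · rw [Subgroup.map_le_iff_le_comap, IMG, Subgroup.closure_le]
      rintro g ⟨γ, h0, h1, hγ, hact⟩
      rw [postCrit_eq] at hγ
      have hact' := (actsAs_iff (X ^ 2 + C c) ⟨γ, h0, h1⟩ g).1 hact
      set δ : Path t t := ⟨γ, h0, h1⟩ with hδ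
      have hav : Av (P c) ((η.symm.trans δ).trans η) :=
        trans_mem (W := (P c)ᶜ) (trans_mem (fun r => hη _) (fun r => hγ r)) (fun r => hη r)
      obtain ⟨k, hk, hcode⟩ := path_acts hA h sp _ hav hb hb
      have h2 : ∀ v, e (g v) = k (e v) := by
        intro v
        have h3 := hact' v
        have h4 : Tr (X ^ 2 + C c) v.1.1 ((η.symm.trans δ).trans η) (W v) (W (g v)) := by
          refine tr_trans (tr_trans (tr_symm (hW v)) h3.2) ?_
          have := hW (g v)
          rw [h3.1] at this
          exact this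
        rw [he, he, h3.1]
        exact hcode _ _ _ h4
      have h3 : (e.permCongrHom).toMonoidHom g = k := by
        ext1 l
        show e (g (e.symm l)) = k l
        rw [h2]
        simp
      show (e.permCongrHom).toMonoidHom g ∈ (ksC h).grp
      rw [h3]
      exact hk
    · rw [R4.KS.grp, Subgroup.closure_le]
      rintro k ⟨p, hp⟩
      obtain ⟨δ, hδ, hcode⟩ := loop_letter hCON h sp p hb
      have hav : Av (P c) ((η.trans δ).trans η.symm) :=
        trans_mem (W := (P c)ᶜ) (trans_mem (fun r => hη r) (fun r => hδ r)) (fun r => hη _)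
      obtain ⟨g, hg⟩ := hLA.ex _ hav
      refine ⟨g, mem_IMG _ _ _ (by rw [postCrit_eq]; exact hav) g hg, ?_⟩
      have h2 : ∀ v, e (g v) = (ksC h).act p (e v) := by
        intro v
        obtain ⟨h3, h4⟩ := hg v
        obtain ⟨z, h5, h6⟩ := tr_trans_iff.1 h4
        obtain ⟨y, h7, h8⟩ := tr_trans_iff.1 h5
        have h9 : y = W v := tr_unique hA hη h7 (hW v)
        have h10 : z = W (g v) := by
          have h11 := tr_symm h6
          rw [Path.symm_symm] at h11
          have h12 := hW (g v)
          rw [h3] at h12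
          exact tr_unique hA hη h11 h12
        rw [he, he, h3, ← h10, ← h9]
        exact hcode _ _ _ h8
      ext1 l
      show e (g (e.symm l)) = k l
      rw [h2, hp]
      simp
  have hinj : Function.Injective (e.permCongrHom).toMonoidHom := (e.permCongrHom).injective
  exact ⟨((IMG (X ^ 2 + C c) t).equivMapOfInjective _ hinj).trans (MulEquiv.subgroupCongr hmap)⟩

end R4C
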