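import Pool.Agent.Work.MP_e3f5d9_al_cx.Interface

/-!
# R4C, block LND: all rays land, continuously
-/

set_option autoImplicit false

open Polynomial unitInterval Topology Metric Filter

namespace R4C

namespace LND

lemma iter_psi {c : ℂ} {ψ : ℂ → ℂ} (h : Bot c ψ) (n : ℕ) {w : ℂ} (hw : 1 < ‖w‖) :
    (f c)^[n] (ψ w) = ψ (w ^ 2 ^ n) := by
  induction n generalizing w with
  | zero => simp
  | succ n ih =>
    rw [Function.iterate_succ_apply, ← h.eqn w hw,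
      ih (by rw [norm_pow]; exact one_lt_pow₀ hw two_ne_zero), ← pow_mul, pow_succ' 2 n]

/-- The point `exp τ * u`. -/
noncomputable def pt (τ : ℝ) (u : ℂ) : ℂ := ((Real.exp τ : ℝ) : ℂ) * u

lemma norm_pt (τ : ℝ) {u : ℂ} (hu : ‖u‖ = 1) : ‖pt τ u‖ = Real.exp τ := by
  unfold pt
  rw [norm_mul, hu, mul_one, Complex.norm_real, Real.norm_of_nonneg (Real.exp_pos τ).le]

lemma one_lt_pt {τ : ℝ} (hτ : 0 < τ) {u : ℂ} (hu : ‖u‖ = 1) : 1 < ‖pt τ u‖ := by
  rw [norm_pt τ hu]; exact Real.one_lt_exp_iff.2 hτ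

lemma pt_pow (τ : ℝ) (u : ℂ) (n : ℕ) : pt τ u ^ n = pt (n * τ) (u ^ n) := by
  unfold pt
  rw [mul_pow, Real.exp_nat_mul]
  push_cast
  ring

lemma continuous_pt : Continuous (fun p : ℝ × ℂ => pt p.1 p.2) := by
  unfold pt
  exact (Complex.continuous_ofReal.comp (Real.continuous_exp.comp continuous_fst)).mul
    continuous_snd

lemma exists_pt {w : ℂ} (hw : 1 < ‖w‖) : ∃ τ u, 0 < τ ∧ ‖u‖ = 1 ∧ pt τ u = w ∧
    τ = Real.log ‖w‖ ∧ u = ((‖w‖⁻¹ : ℝ) : ℂ) * w := by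
  have h0 : 0 < ‖w‖ := by linarith
  refine ⟨Real.log ‖w‖, ((‖w‖⁻¹ : ℝ) : ℂ) * w, Real.log_pos hw, ?_, ?_, rfl, rfl⟩
  · rw [norm_mul, Complex.norm_real, Real.norm_of_nonneg (by positivity)]
    field_simp
  · unfold pt
    rw [Real.exp_log h0, ← mul_assoc, ← Complex.ofReal_mul, mul_inv_cancel₀ h0.ne']
    simp

lemma contOn {c : ℂ} {ψ : ℂ → ℂ} (h : Bot c ψ) : ContinuousOn ψ {w | 1 < ‖w‖} :=
  h.hol.continuousOn

lemma isOpen_out : IsOpen {w : ℂ | 1 < ‖w‖} := isOpen_lt continuous_const continuous_norm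

/-- Boundedness near the unit circle. -/
lemma bdd (hE : Stmt_ELM) {c : ℂ} {ψ : ℂ → ℂ} (h : Bot c ψ) :
    ∃ R : ℝ, rad c ≤ R ∧ ∀ τ u, 0 < τ → τ ≤ 2 → ‖u‖ = 1 → ‖ψ (pt τ u)‖ ≤ R := by
  obtain ⟨-, -, hE3, -⟩ := hE c
  have hK : IsCompact ((Set.Icc (1:ℝ) 2) ×ˢ (sphere (0:ℂ) 1)) :=
    isCompact_Icc.prod (isCompact_sphere _ _)
  have hc : ContinuousOn (fun p : ℝ × ℂ => ψ (pt p.1 p.2))
      ((Set.Icc (1:ℝ) 2) ×ˢ (sphere (0:ℂ) 1)) := by
    apply (contOn h).comp continuous_pt.continuousOn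
    rintro ⟨τ, u⟩ ⟨hτ, hu⟩
    have hu' : ‖u‖ = 1 := by simpa using hu
    exact one_lt_pt (by linarith [hτ.1]) hu'
  obtain ⟨R, hR⟩ := (hK.image_of_continuousOn hc).isBounded.exists_norm_le
  refine ⟨max R (rad c), le_max_right _ _, ?_⟩
  intro τ u h0 h2 hu
  by_cases h1 : 1 ≤ τ
  · exact le_trans (hR _ ⟨(τ, u), ⟨⟨h1, h2⟩, by simpa using hu⟩, rfl⟩) (le_max_left _ _)
  · push Not at h1
    obtain ⟨n, hn1, hn2⟩ := exists_nat_pow_near_of_lt_one h0 h1.le (by norm_num : (0:ℝ) < 1/2)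
      (by norm_num : (1:ℝ)/2 < 1)
    apply hE3 _ (n+1) _ (le_max_right _ _)
    rw [iter_psi h (n+1) (one_lt_pt h0 hu), pt_pow]
    refine le_trans (hR _ ⟨(((2 ^ (n+1) : ℕ) : ℝ) * τ, u ^ 2 ^ (n+1)), ⟨⟨?_, ?_⟩, ?_⟩, rfl⟩)
      (le_max_left _ _)
    · push_cast
      have : (1:ℝ) = 2 ^ (n+1) * (1/2) ^ (n+1) := by rw [← mul_pow]; norm_num
      show (1:ℝ) ≤ 2 ^ (n+1) * τ
      rw [this]
      exact mul_le_mul_of_nonneg_left hn1.le (by positivity)
    · push_cast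
      have : (2:ℝ) = 2 ^ (n+1) * (1/2) ^ n := by
        rw [pow_succ, mul_right_comm, ← mul_pow]; norm_num
      show (2:ℝ) ^ (n+1) * τ ≤ 2
      calc (2:ℝ) ^ (n+1) * τ ≤ 2 ^ (n+1) * (1/2) ^ n :=
            mul_le_mul_of_nonneg_left hn2 (by positivity)
        _ = 2 := this.symm
    · simp [hu]

/-- Lifting estimate. -/
lemma lift_est {c : ℂ} {ψ : ℂ → ℂ} (h : Bot c ψ) {A : Set ℂ} {δ : ℝ} {e : ℕ → ℝ}
    (hmem : ∀ τ u, 0 < τ → τ ≤ 2 → ‖u‖ = 1 → ψ (pt τ u) ∈ A)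
    (hsh : ∀ (N : ℕ) (Γ : C(I, ℂ)),
      (∀ s, (f c)^[N] (Γ s) ∈ A) → (∀ s s', ‖(f c)^[N] (Γ s) - (f c)^[N] (Γ s')‖ ≤ δ) →
      ∀ s s', ‖Γ s - Γ s'‖ ≤ e N)
    (N : ℕ) (u : ℂ) (τ τ' : ℝ) (hu : ‖u‖ = 1) (h0 : 0 < τ) (h0' : 0 < τ')
    (h2 : 2 ^ N * τ ≤ 2) (h2' : 2 ^ N * τ' ≤ 2)
    (hδ : ∀ v : ℂ, ‖v‖ = 1 → ∀ ξ ∈ Set.uIcc (2 ^ N * τ) (2 ^ N * τ'),
      ∀ ξ' ∈ Set.uIcc (2 ^ N * τ) (2 ^ N * τ'), ‖ψ (pt ξ v) - ψ (pt ξ' v)‖ ≤ δ) :
    ‖ψ (pt τ u) - ψ (pt τ' u)‖ ≤ e N := by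
  have hp : (0:ℝ) < 2 ^ N := by positivity
  have hpos : ∀ s : I, 0 < (1 - (s:ℝ)) * τ + s * τ' := by
    intro s
    have hs0 := s.2.1
    have hs1 := s.2.2
    rcases hs0.lt_or_eq with h3 | h3
    · have := mul_pos h3 h0'
      have := mul_nonneg (sub_nonneg.2 hs1) h0.le
      linarith
    · rw [← h3]; simpa using h0
  have hseg : ∀ s : I, 2 ^ N * ((1 - (s:ℝ)) * τ + s * τ') ∈ Set.uIcc (2 ^ N * τ) (2 ^ N * τ') := by
    intro s
    have hs0 := s.2.1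
    have hs1 := s.2.2
    rw [Set.mem_uIcc]
    have e1 : 2 ^ N * ((1 - (s:ℝ)) * τ + s * τ') = (1 - (s:ℝ)) * (2 ^ N * τ) + s * (2 ^ N * τ') := by
      ring
    rw [e1]
    rcases le_total (2 ^ N * τ) (2 ^ N * τ') with h3 | h3
    · left; constructor <;> nlinarith
    · right; constructor <;> nlinarith
  have hcont : Continuous (fun s : I => ψ (pt ((1 - (s:ℝ)) * τ + s * τ') u)) := by
    apply (contOn h).comp_continuous
    · exact continuous_pt.comp (by fun_prop : Continuous fun s : I =>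
        (((1 - (s:ℝ)) * τ + s * τ' : ℝ), u))
    · intro s
      exact one_lt_pt (hpos s) hu
  have hit : ∀ s : I, (f c)^[N] (ψ (pt ((1 - (s:ℝ)) * τ + s * τ') u)) =
      ψ (pt (2 ^ N * ((1 - (s:ℝ)) * τ + s * τ')) (u ^ 2 ^ N)) := by
    intro s
    rw [iter_psi h N (one_lt_pt (hpos s) hu), pt_pow]
    push_cast
    rfl
  have hu' : ‖u ^ 2 ^ N‖ = 1 := by simp [hu]
  have := hsh N ⟨_, hcont⟩ ?_ ?_ 0 1
  · simpa using this
  · intro s
    show (f c)^[N] (ψ (pt ((1 - (s:ℝ)) * τ + s * τ') u)) ∈ A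
    rw [hit]
    refine hmem _ _ (mul_pos hp (hpos s)) ?_ hu'
    have h3 := hseg s
    rw [Set.mem_uIcc] at h3
    rcases h3 with h3 | h3 <;> linarith [h3.2]
  · intro s s'
    show ‖(f c)^[N] (ψ (pt ((1 - (s:ℝ)) * τ + s * τ') u)) -
      (f c)^[N] (ψ (pt ((1 - (s':ℝ)) * τ + s' * τ') u))‖ ≤ δ
    rw [hit, hit]
    exact hδ _ hu' _ (hseg s) _ (hseg s')

/-- The tail estimate. -/
lemma tail (hE : Stmt_ELM) (hS : Stmt_SHR) (hR : Stmt_REG) {c : ℂ} {ψ : ℂ → ℂ}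
    (hP : (P c).Finite) (h : Bot c ψ) (ε : ℝ) (hε : 0 < ε) : ∃ T : ℝ, 0 < T ∧
      ∀ (u : ℂ) (τ τ' : ℝ), ‖u‖ = 1 → 0 < τ → τ ≤ T → 0 < τ' → τ' ≤ T →
        ‖ψ (pt τ u) - ψ (pt τ' u)‖ < ε := by
  obtain ⟨R, hRr, hRb⟩ := bdd hE h
  obtain ⟨A, hA, hA1, -⟩ := hR c R hP
  obtain ⟨δ, e, hδ, he, hsh⟩ := hS c A hP hA
  have hmem : ∀ τ u, 0 < τ → τ ≤ 2 → ‖u‖ = 1 → ψ (pt τ u) ∈ A := by
    intro τ u h0 h2 hu
    apply hA1
    refine ⟨by simpa using hRb τ u h0 h2 hu, subset_closure ?_⟩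
    rw [← h.img]
    exact ⟨_, one_lt_pt h0 hu, rfl⟩
  have hlift := fun N u τ τ' => lift_est (A := A) (δ := δ) (e := e) h hmem hsh N u τ τ'
  have hK : IsCompact ((Set.Icc (1:ℝ) 2) ×ˢ (sphere (0:ℂ) 1)) :=
    isCompact_Icc.prod (isCompact_sphere _ _)
  have hc : ContinuousOn (fun p : ℝ × ℂ => ψ (pt p.1 p.2))
      ((Set.Icc (1:ℝ) 2) ×ˢ (sphere (0:ℂ) 1)) := by
    apply (contOn h).comp continuous_pt.continuousOn
    rintro ⟨τ, u⟩ ⟨hτ, hu⟩
    have hu' : ‖u‖ = 1 := by simpa using hu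
    exact one_lt_pt (by linarith [hτ.1]) hu'
  have huc := hK.uniformContinuousOn_of_continuous hc
  rw [Metric.uniformContinuousOn_iff] at huc
  obtain ⟨η, hη, huc⟩ := huc δ hδ
  have key : ∀ (N : ℕ) (u : ℂ) (τ τ' : ℝ), ‖u‖ = 1 → (1/2) ^ N ≤ τ → τ ≤ 2 * (1/2) ^ N →
        (1/2) ^ N ≤ τ' → τ' ≤ 2 * (1/2) ^ N → |τ - τ'| < η * (1/2) ^ N →
        ‖ψ (pt τ u) - ψ (pt τ' u)‖ ≤ e N := by
    intro N u τ τ' hu h1 h2 h3 h4 h5
    have hN : (0:ℝ) < (1/2) ^ N := by positivity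
    have hp : (0:ℝ) < 2 ^ N := by positivity
    have h2N : (2:ℝ) ^ N * (1/2) ^ N = 1 := by rw [← mul_pow]; norm_num
    have b1 : 1 ≤ 2 ^ N * τ := by
      calc (1:ℝ) = 2 ^ N * (1/2) ^ N := h2N.symm
        _ ≤ _ := mul_le_mul_of_nonneg_left h1 hp.le
    have b3 : 1 ≤ 2 ^ N * τ' := by
      calc (1:ℝ) = 2 ^ N * (1/2) ^ N := h2N.symm
        _ ≤ _ := mul_le_mul_of_nonneg_left h3 hp.le
    have b2 : 2 ^ N * τ ≤ 2 := by
      calc 2 ^ N * τ ≤ 2 ^ N * (2 * (1/2) ^ N) := mul_le_mul_of_nonneg_left h2 hp.le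
        _ = 2 := by rw [mul_left_comm, h2N, mul_one]
    have b4 : 2 ^ N * τ' ≤ 2 := by
      calc 2 ^ N * τ' ≤ 2 ^ N * (2 * (1/2) ^ N) := mul_le_mul_of_nonneg_left h4 hp.le
        _ = 2 := by rw [mul_left_comm, h2N, mul_one]
    have b5 : |2 ^ N * τ - 2 ^ N * τ'| < η := by
      rw [← mul_sub, abs_mul, abs_of_pos hp]
      calc 2 ^ N * |τ - τ'| < 2 ^ N * (η * (1/2) ^ N) := mul_lt_mul_of_pos_left h5 hp
        _ = η := by rw [mul_left_comm, h2N, mul_one]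
    refine hlift N u τ τ' hu (lt_of_lt_of_le hN h1) (lt_of_lt_of_le hN h3) b2 b4 ?_
    intro v hv ξ hξ ξ' hξ'
    have hξξ : |ξ - ξ'| < η := lt_of_le_of_lt (Real.dist_le_of_mem_uIcc hξ hξ') b5
    rw [Set.mem_uIcc] at hξ hξ'
    rw [← dist_eq_norm]
    apply le_of_lt
    apply huc (ξ, v) ⟨by rcases hξ with h6 | h6 <;> constructor <;> linarith [h6.1, h6.2],
      by simpa using hv⟩ (ξ', v)
      ⟨by rcases hξ' with h6 | h6 <;> constructor <;> linarith [h6.1, h6.2], by simpa using hv⟩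
    rw [Prod.dist_eq]
    apply max_lt
    · rw [Real.dist_eq]; exact hξξ
    · rw [dist_self]; exact hη
  obtain ⟨m, hm⟩ := exists_nat_one_div_lt hη
  have hrad : ∀ (N : ℕ) (u : ℂ) (τ τ' : ℝ), ‖u‖ = 1 → (1/2) ^ N ≤ τ → τ ≤ 2 * (1/2) ^ N →
        (1/2) ^ N ≤ τ' → τ' ≤ 2 * (1/2) ^ N →
        ‖ψ (pt τ u) - ψ (pt τ' u)‖ ≤ (m+1) * |e N| := by
    intro N u τ τ' hu h1 h2 h3 h4
    have hN : (0:ℝ) < (1/2) ^ N := by positivity
    -- subdivide
    set p : ℕ → ℝ := fun j => τ + (j / (m+1)) * (τ' - τ) with hp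
    have hm0 : (0:ℝ) < (m:ℝ) + 1 := by positivity
    have hpb : ∀ j : ℕ, j ≤ m + 1 → (1/2) ^ N ≤ p j ∧ p j ≤ 2 * (1/2) ^ N := by
      intro j hj
      have hj0 : (0:ℝ) ≤ (j:ℝ) / (m+1) := by positivity
      have hj1 : (j:ℝ) / (m+1) ≤ 1 := by
        rw [div_le_one hm0]; exact_mod_cast hj
      simp only [hp]
      constructor <;> nlinarith
    have hstep : ∀ j : ℕ, j < m + 1 → dist (ψ (pt (p j) u)) (ψ (pt (p (j+1)) u)) ≤ |e N| := by
      intro j hj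
      rw [dist_eq_norm]
      refine (key N u _ _ hu (hpb j hj.le).1 (hpb j hj.le).2 (hpb (j+1) hj).1 (hpb (j+1) hj).2
        ?_).trans (le_abs_self _)
      have e : p j - p (j+1) = -((1 / (m+1)) * (τ' - τ)) := by
        simp only [hp]; push_cast; ring
      rw [e, abs_neg, abs_mul, abs_of_nonneg (by positivity)]
      have h5 : |τ' - τ| ≤ (1/2) ^ N := by
        rw [abs_le]; constructor <;> linarith
      calc 1 / ((m:ℝ)+1) * |τ' - τ| ≤ 1 / ((m:ℝ)+1) * (1/2) ^ N := by gcongr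
        _ < η * (1/2) ^ N := mul_lt_mul_of_pos_right hm hN
    have hsum := dist_le_range_sum_of_dist_le (f := fun j => ψ (pt (p j) u)) (m+1)
      (d := fun _ => |e N|) (fun {k} hk => hstep k hk)
    have e0 : p 0 = τ := by simp [hp]
    have e1 : p (m+1) = τ' := by
      simp only [hp]; push_cast; field_simp; ring
    rw [e0, e1, dist_eq_norm, Finset.sum_const, Finset.card_range, nsmul_eq_mul] at hsum
    calc ‖ψ (pt τ u) - ψ (pt τ' u)‖ ≤ _ := hsum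
      _ = _ := by push_cast; ring
  -- one block of `M` generations
  obtain ⟨M, hM1, hM⟩ : ∃ M : ℕ, 1 ≤ M ∧ e M ≤ δ / 4 := by
    have h1 : ∀ᶠ n in atTop, e n < δ / 4 := he.eventually (gt_mem_nhds (by linarith))
    obtain ⟨M, h2, h3⟩ := (h1.and (eventually_ge_atTop 1)).exists
    exact ⟨M, h3, h2.le⟩
  have hM0 : (0:ℝ) < M := by exact_mod_cast hM1
  obtain ⟨k, hk1, hk⟩ : ∃ k : ℕ, 1 ≤ k ∧ ∀ N, k ≤ N → (m+1) * |e N| ≤ δ / (4 * M) := by
    have h1 : Tendsto (fun n => ((m:ℝ)+1) * |e n|) atTop (𝓝 0) := by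
      have := he.abs.const_mul ((m:ℝ)+1)
      simpa using this
    have h2 : ∀ᶠ n in atTop, ((m:ℝ)+1) * |e n| < δ / (4 * M) :=
      h1.eventually (gt_mem_nhds (by positivity))
    obtain ⟨k, hk⟩ := eventually_atTop.1 (h2.and (eventually_ge_atTop 1))
    exact ⟨k, (hk k le_rfl).2, fun N hN => (hk N hN).1.le⟩
  have hblock : ∀ (L : ℕ) (u : ℂ) (τ : ℝ), ‖u‖ = 1 →
      (1/2) ^ (k + L) ≤ τ → τ ≤ (1/2) ^ k → ‖ψ (pt τ u) - ψ (pt ((1/2) ^ k) u)‖ ≤
        L * (δ / (4 * M)) := by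
    intro L
    induction L with
    | zero =>
      intro u τ hu h1 h2
      have : τ = (1/2) ^ k := le_antisymm h2 h1
      rw [this, sub_self, norm_zero]
      simp
    | succ L ih =>
      intro u τ hu h1 h2
      have hL0 : (0:ℝ) < (1/2) ^ (k + L) := by positivity
      have hκ : 0 < δ / (4 * M) := by positivity
      rcases le_total ((1/2) ^ (k + L)) τ with h3 | h3
      · refine (ih u τ hu h3 h2).trans ?_
        push_cast
        linarith
      · have h4 := ih u ((1/2) ^ (k + L)) hu le_rfl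
          (pow_le_pow_of_le_one (by norm_num) (by norm_num) (Nat.le_add_right _ _))
        have h5 := (hrad (k + L + 1) u τ ((1/2) ^ (k + L)) hu h1
          (by rw [pow_succ]; linarith) (by rw [pow_succ]; linarith)
          (by rw [pow_succ]; linarith)).trans (hk _ (by omega))
        calc ‖ψ (pt τ u) - ψ (pt ((1/2) ^ k) u)‖
            ≤ ‖ψ (pt τ u) - ψ (pt ((1/2) ^ (k + L)) u)‖ +
              ‖ψ (pt ((1/2) ^ (k + L)) u) - ψ (pt ((1/2) ^ k) u)‖ :=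
              norm_sub_le_norm_sub_add_norm_sub _ _ _
          _ ≤ _ := by push_cast; linarith
  have hMblock : ∀ (u : ℂ) (τ : ℝ), ‖u‖ = 1 →
      (1/2) ^ (k + M) ≤ τ → τ ≤ (1/2) ^ k → ‖ψ (pt τ u) - ψ (pt ((1/2) ^ k) u)‖ ≤ δ / 4 := by
    intro u τ hu h1 h2
    refine (hblock M u τ hu h1 h2).trans (le_of_eq ?_)
    field_simp
  -- all generations
  have hpow : ∀ a b : ℕ, (2:ℝ) ^ a * (1/2) ^ (b + a) = (1/2) ^ b := by
    intro a b
    have : (2:ℝ) ^ a * (1/2) ^ a = 1 := by rw [← mul_pow]; norm_num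
    rw [pow_add, mul_left_comm, this, mul_one]
  have hk2 : (1/2:ℝ) ^ k ≤ 1 := pow_le_one₀ (by norm_num) (by norm_num)
  have hall : ∀ (j : ℕ) (v : ℂ), ‖v‖ = 1 → ∀ ξ, (1/2) ^ (k + j * M) ≤ ξ → ξ ≤ (1/2) ^ k →
      ‖ψ (pt ξ v) - ψ (pt ((1/2) ^ k) v)‖ ≤ δ / 2 := by
    intro j
    induction j with
    | zero =>
      intro v hv ξ h1 h2
      have : ξ = (1/2) ^ k := le_antisymm h2 (by simpa using h1)
      rw [this, sub_self, norm_zero]
      linarith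
    | succ j ih =>
      intro v hv ξ h1 h2
      have hL0 : (0:ℝ) < (1/2) ^ (k + M) := by positivity
      have hp : (0:ℝ) < 2 ^ M := by positivity
      rcases le_total ((1/2) ^ (k + M)) ξ with h3 | h3
      · exact (hMblock v ξ hv h3 h2).trans (by linarith)
      · have h4 := hMblock v _ hv (le_refl ((1/2 : ℝ) ^ (k + M)))
          (pow_le_pow_of_le_one (by norm_num) (by norm_num) (Nat.le_add_right _ _))
        have h0 : 0 < ξ := lt_of_lt_of_le (by positivity) h1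
        have hlow : (1/2:ℝ) ^ (k + j * M) ≤ 2 ^ M * ξ := by
          have h6 := mul_le_mul_of_nonneg_left h1 hp.le
          rw [show k + (j + 1) * M = (k + j * M) + M by ring, hpow] at h6
          exact h6
        have hup : 2 ^ M * ξ ≤ (1/2) ^ k := by
          have h6 := mul_le_mul_of_nonneg_left h3 hp.le
          rw [hpow] at h6
          exact h6
        have hkk : (1/2:ℝ) ^ (k + j * M) ≤ (1/2) ^ k :=
          pow_le_pow_of_le_one (by norm_num) (by norm_num) (Nat.le_add_right _ _)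
        have h5 : ‖ψ (pt ξ v) - ψ (pt ((1/2) ^ (k + M)) v)‖ ≤ e M := by
          apply hlift M v ξ _ hv h0 hL0
          · linarith
          · rw [hpow]; linarith
          · intro w hw α hα β hβ
            rw [hpow, Set.uIcc_of_le hup] at hα hβ
            have h7 := ih w hw α (hlow.trans hα.1) hα.2
            have h8 := ih w hw β (hlow.trans hβ.1) hβ.2
            rw [norm_sub_rev] at h8
            calc ‖ψ (pt α w) - ψ (pt β w)‖ ≤ _ :=
                  norm_sub_le_norm_sub_add_norm_sub _ (ψ (pt ((1/2) ^ k) w)) _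
              _ ≤ δ := by linarith
        calc ‖ψ (pt ξ v) - ψ (pt ((1/2) ^ k) v)‖
            ≤ ‖ψ (pt ξ v) - ψ (pt ((1/2) ^ (k + M)) v)‖ +
              ‖ψ (pt ((1/2) ^ (k + M)) v) - ψ (pt ((1/2) ^ k) v)‖ :=
              norm_sub_le_norm_sub_add_norm_sub _ _ _
          _ ≤ δ / 2 := by linarith
  have hall2 : ∀ (v : ℂ), ‖v‖ = 1 → ∀ ξ, 0 < ξ → ξ ≤ (1/2) ^ k →
      ‖ψ (pt ξ v) - ψ (pt ((1/2) ^ k) v)‖ ≤ δ / 2 := by
    intro v hv ξ h1 h2
    obtain ⟨j, hj⟩ := exists_pow_lt_of_lt_one h1 (by norm_num : (1/2:ℝ) < 1)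
    apply hall j v hv ξ _ h2
    refine le_trans ?_ hj.le
    apply pow_le_pow_of_le_one (by norm_num) (by norm_num)
    nlinarith
  obtain ⟨n, hn⟩ := (he.eventually (gt_mem_nhds hε)).exists
  refine ⟨(1/2) ^ (k + n), by positivity, ?_⟩
  intro u τ τ' hu h1 h2 h3 h4
  refine lt_of_le_of_lt ?_ hn
  have hp : (0:ℝ) < 2 ^ n := by positivity
  have hup : 2 ^ n * τ ≤ (1/2) ^ k := by
    have h6 := mul_le_mul_of_nonneg_left h2 hp.le
    rw [hpow] at h6
    exact h6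
  have hup' : 2 ^ n * τ' ≤ (1/2) ^ k := by
    have h6 := mul_le_mul_of_nonneg_left h4 hp.le
    rw [hpow] at h6
    exact h6
  apply hlift n u τ τ' hu h1 h3 (by linarith) (by linarith)
  intro w hw α hα β hβ
  have hrange : ∀ x ∈ Set.uIcc (2 ^ n * τ) (2 ^ n * τ'), 0 < x ∧ x ≤ (1/2) ^ k := by
    intro x hx
    have hp1 := mul_pos hp h1
    have hp2 := mul_pos hp h3
    rw [Set.mem_uIcc] at hx
    rcases hx with hx | hx <;> constructor <;> linarith [hx.1, hx.2]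
  have h7 := hall2 w hw α (hrange α hα).1 (hrange α hα).2
  have h8 := hall2 w hw β (hrange β hβ).1 (hrange β hβ).2
  rw [norm_sub_rev] at h8
  calc ‖ψ (pt α w) - ψ (pt β w)‖ ≤ _ :=
        norm_sub_le_norm_sub_add_norm_sub _ (ψ (pt ((1/2) ^ k) w)) _
    _ ≤ δ := by linarith

lemma lim_exists (hE : Stmt_ELM) (hS : Stmt_SHR) (hR : Stmt_REG) {c : ℂ} {ψ : ℂ → ℂ}
    (hP : (P c).Finite) (h : Bot c ψ) {w : ℂ} (hw : 1 ≤ ‖w‖) :
    ∃ y, Tendsto ψ (𝓝[{w | 1 < ‖w‖}] w) (𝓝 y) := by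
  rcases hw.lt_or_eq with hw1 | hw1
  · exact ⟨ψ w, (contOn h) w hw1⟩
  have hne : (𝓝[{w : ℂ | 1 < ‖w‖}] w).NeBot := by
    rw [← mem_closure_iff_nhdsWithin_neBot]
    have : w ∈ closure {w : ℂ | 1 < ‖w‖} := by
      rw [Metric.mem_closure_iff]
      intro ε hε
      refine ⟨((1 + ε/2 : ℝ) : ℂ) * w, ?_, ?_⟩
      · show 1 < ‖((1 + ε/2 : ℝ) : ℂ) * w‖
        rw [norm_mul, ← hw1, mul_one, Complex.norm_real, Real.norm_of_nonneg (by linarith)]
        linarith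
      · rw [dist_eq_norm]
        have : w - ((1 + ε/2 : ℝ) : ℂ) * w = -((ε/2 : ℝ) : ℂ) * w := by push_cast; ring
        rw [this, norm_mul, norm_neg, ← hw1, mul_one, Complex.norm_real,
          Real.norm_of_nonneg (by linarith)]
        linarith
    exact this
  rw [← cauchy_map_iff_exists_tendsto]
  rw [Metric.cauchy_iff]
  refine ⟨hne.map _, ?_⟩
  intro ε hε
  obtain ⟨T, hT, htail⟩ := tail hE hS hR hP h (ε/4) (by linarith)
  -- continuity of `u ↦ ψ (pt T u)` composed with the direction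
  have hdir : ContinuousAt (fun x : ℂ => ψ (pt T (((‖x‖⁻¹ : ℝ) : ℂ) * x))) w := by
    have h1 : ContinuousAt (fun x : ℂ => pt T (((‖x‖⁻¹ : ℝ) : ℂ) * x)) w := by
      have h2 : ContinuousAt (fun x : ℂ => ((T, ((‖x‖⁻¹ : ℝ) : ℂ) * x) : ℝ × ℂ)) w := by
        apply continuousAt_const.prodMk
        apply ContinuousAt.mul _ continuousAt_id
        apply Complex.continuous_ofReal.continuousAt.comp
        exact continuous_norm.continuousAt.inv₀ (by rw [← hw1]; norm_num)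
      exact continuous_pt.continuousAt.comp h2
    have h3 : ContinuousAt ψ (pt T (((‖w‖⁻¹ : ℝ) : ℂ) * w)) := by
      apply (contOn h).continuousAt
      apply isOpen_out.mem_nhds
      apply one_lt_pt hT
      rw [← hw1]; simp [← hw1]
    exact ContinuousAt.comp (f := fun x : ℂ => pt T (((‖x‖⁻¹ : ℝ) : ℂ) * x)) h3 h1
  have hlog : ∀ᶠ x in 𝓝 w, Real.log ‖x‖ < T := by
    have : ContinuousAt (fun x : ℂ => Real.log ‖x‖) w :=
      continuous_norm.continuousAt.log (by rw [← hw1]; norm_num)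
    apply this.eventually_lt continuousAt_const
    rw [← hw1, Real.log_one]; exact hT
  have hd := Metric.tendsto_nhds.1 hdir (ε/4) (by linarith)
  have hall : ∀ᶠ x in 𝓝[{w : ℂ | 1 < ‖w‖}] w,
      dist (ψ x) (ψ (pt T (((‖w‖⁻¹ : ℝ) : ℂ) * w))) < ε/2 := by
    filter_upwards [self_mem_nhdsWithin, nhdsWithin_le_nhds hlog, nhdsWithin_le_nhds hd]
      with x hx1 hx2 hx3
    obtain ⟨τ, u, hτ, hu, hpt, hτe, hue⟩ := exists_pt hx1
    rw [← hue] at hx3
    have h4 := htail u τ T hu hτ (by rw [hτe]; exact hx2.le) hT le_rfl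
    rw [hpt, ← dist_eq_norm] at h4
    calc dist (ψ x) _ ≤ dist (ψ x) (ψ (pt T u)) + dist (ψ (pt T u)) _ := dist_triangle _ _ _
      _ < ε/2 := by linarith
  refine ⟨ψ '' {x | dist (ψ x) (ψ (pt T (((‖w‖⁻¹ : ℝ) : ℂ) * w))) < ε/2}, ?_, ?_⟩
  · exact image_mem_map hall
  · rintro _ ⟨x, hx, rfl⟩ _ ⟨y, hy, rfl⟩
    simp only [Set.mem_ofPred_eq] at hx hy
    calc dist (ψ x) (ψ y) ≤ _ := dist_triangle_right _ _ _
      _ < ε := by linarith

lemma closure_out : {w : ℂ | 1 ≤ ‖w‖} ⊆ closure {w : ℂ | 1 < ‖w‖} := by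
  intro w hw
  rw [Metric.mem_closure_iff]
  intro ε hε
  have hw0 : 0 < ‖w‖ := lt_of_lt_of_le one_pos hw
  refine ⟨((1 + ε/(2 * ‖w‖) : ℝ) : ℂ) * w, ?_, ?_⟩
  · show 1 < ‖((1 + ε/(2 * ‖w‖) : ℝ) : ℂ) * w‖
    have h1 : 0 < ε/(2 * ‖w‖) := by positivity
    rw [norm_mul, Complex.norm_real, Real.norm_of_nonneg (by linarith)]
    have : (1:ℝ) ≤ ‖w‖ := hw
    nlinarith
  · rw [dist_eq_norm]
    have : w - ((1 + ε/(2 * ‖w‖) : ℝ) : ℂ) * w = -((ε/(2 * ‖w‖) : ℝ) : ℂ) * w := by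
      push_cast; ring
    rw [this, norm_mul, norm_neg, Complex.norm_real, Real.norm_of_nonneg (by positivity)]
    have : ε / (2 * ‖w‖) * ‖w‖ = ε / 2 := by field_simp
    rw [this]
    linarith

end LND

open LND in
theorem stmt_LND : Stmt_ELM → Stmt_SHR → Stmt_REG → Stmt_LND := by
  intro hE hS hR c ψ hP h
  set O : Set ℂ := {w | 1 < ‖w‖} with hO
  set B : Set ℂ := {w | 1 ≤ ‖w‖} with hB
  set ψ' : ℂ → ℂ := extendFrom O ψ with hψ'
  have hOB : O ⊆ B := fun w (hw : 1 < ‖w‖) => (le_of_lt hw : 1 ≤ ‖w‖)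
  have heq : ∀ w, 1 < ‖w‖ → ψ' w = ψ w := by
    intro w hw
    exact extendFrom_eq (subset_closure hw) ((contOn h) w hw)
  have hcont : ContinuousOn ψ' B :=
    continuousOn_extendFrom closure_out (fun x hx => lim_exists hE hS hR hP h hx)
  have hsq : ∀ w : ℂ, w ∈ B → w ^ 2 ∈ B := fun w hw => by
    show 1 ≤ ‖w ^ 2‖
    rw [norm_pow]; exact one_le_pow₀ hw
  have hneg : ∀ w : ℂ, w ∈ B → -w ∈ B := fun w hw => by
    show 1 ≤ ‖-w‖
    rw [norm_neg]; exact hw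
  have hfc : Continuous (f c) := by unfold f; fun_prop
  have eqn1 : ∀ w, 1 ≤ ‖w‖ → ψ' (w ^ 2) = f c (ψ' w) := by
    have : Set.EqOn (fun w => ψ' (w ^ 2)) (fun w => f c (ψ' w)) B := by
      apply Set.EqOn.of_subset_closure (s := O) _ _ _ hOB closure_out
      · intro w hw
        show ψ' (w ^ 2) = f c (ψ' w)
        rw [heq w hw, heq (w ^ 2) (by rw [norm_pow]; exact one_lt_pow₀ hw two_ne_zero)]
        exact h.eqn w hw
      · exact hcont.comp (by fun_prop) hsq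
      · exact hfc.comp_continuousOn hcont
    exact fun w hw => this hw
  have odd1 : ∀ w, 1 ≤ ‖w‖ → ψ' (-w) = -ψ' w := by
    have : Set.EqOn (fun w => ψ' (-w)) (fun w => -ψ' w) B := by
      apply Set.EqOn.of_subset_closure (s := O) _ _ _ hOB closure_out
      · intro w hw
        show ψ' (-w) = -ψ' w
        rw [heq w hw, heq (-w) (by rw [norm_neg]; exact hw)]
        exact h.odd w hw
      · exact hcont.comp (by fun_prop) hneg
      · exact hcont.neg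
    exact fun w hw => this hw
  obtain ⟨-, -, -, -, hKc, -⟩ := hE c
  have hKcl : IsClosed (K c) := hKc.isClosed
  obtain ⟨R, hRr, hRb⟩ := bdd hE h
  have hne : ∀ w ∈ B, (𝓝[O] w).NeBot := fun w hw => by
    rw [← mem_closure_iff_nhdsWithin_neBot]; exact closure_out hw
  have htend : ∀ w ∈ B, Tendsto ψ (𝓝[O] w) (𝓝 (ψ' w)) := by
    intro w hw
    obtain ⟨y, hy⟩ := lim_exists hE hS hR hP h hw
    rw [hψ', extendFrom_eq (closure_out hw) hy]
    exact hy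
  have hbd : ∀ w, ‖w‖ = 1 → ‖ψ' w‖ ≤ R := by
    intro w hw
    have hwB : w ∈ B := le_of_eq hw.symm
    have := hne w hwB
    apply le_of_tendsto (htend w hwB).norm
    have h2 : ∀ᶠ x in 𝓝 w, Real.log ‖x‖ < 2 := by
      have : ContinuousAt (fun x : ℂ => Real.log ‖x‖) w :=
        continuous_norm.continuousAt.log (by rw [hw]; norm_num)
      apply this.eventually_lt continuousAt_const
      rw [hw, Real.log_one]; norm_num
    filter_upwards [self_mem_nhdsWithin, nhdsWithin_le_nhds h2] with x hx1 hx2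
    obtain ⟨τ, u, hτ, hu, hpt, hτe, -⟩ := exists_pt hx1
    rw [← hpt]
    exact hRb τ u hτ (by rw [hτe]; exact hx2.le) hu
  have hiter : ∀ (n : ℕ) (w : ℂ), ‖w‖ = 1 → (f c)^[n] (ψ' w) = ψ' (w ^ 2 ^ n) := by
    intro n
    induction n with
    | zero => intro w _; simp
    | succ n ih =>
      intro w hw
      rw [Function.iterate_succ_apply, ← eqn1 w (le_of_eq hw.symm),
        ih (w ^ 2) (by rw [norm_pow, hw]; norm_num), ← pow_mul, pow_succ' 2 n]
  have img1 : ψ' '' sphere 0 1 = frontier (K c) := by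
    apply Set.Subset.antisymm
    · rintro _ ⟨w, hw, rfl⟩
      have hw1 : ‖w‖ = 1 := by simpa using hw
      have hwB : w ∈ B := le_of_eq hw1.symm
      have := hne w hwB
      rw [frontier_eq_closure_inter_closure]
      constructor
      · apply subset_closure
        refine ⟨R, fun n => ?_⟩
        rw [hiter n w hw1]
        exact hbd _ (by rw [norm_pow, hw1, one_pow])
      · apply mem_closure_of_tendsto (htend w hwB)
        filter_upwards [self_mem_nhdsWithin] with x hx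
        rw [← h.img]
        exact ⟨x, hx, rfl⟩
    · intro z hz
      rw [frontier_eq_closure_inter_closure, hKcl.closure_eq] at hz
      obtain ⟨hz1, hz2⟩ := hz
      -- a bound for the parameters
      have hinf : ∀ᶠ w in Bornology.cobounded ℂ, ‖w‖ ≤ 2 * ‖ψ w‖ := by
        have h1 : ∀ᶠ w in Bornology.cobounded ℂ, (1/2:ℝ) < ‖ψ w / w‖ := by
          apply (h.inf.norm).eventually (lt_mem_nhds _)
          norm_num
        filter_upwards [h1, (hasBasis_cobounded_norm (E := ℂ)).mem_of_mem (i := 1) trivial]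
          with w hw hw'
        have hw0 : 0 < ‖w‖ := by
          have : (1:ℝ) ≤ ‖w‖ := hw'
          linarith
        rw [norm_div, lt_div_iff₀ hw0] at hw
        linarith
      obtain ⟨R2, -, hR2⟩ := (hasBasis_cobounded_norm (E := ℂ)).mem_iff.1 hinf
      set R3 : ℝ := max R2 (2 * (‖z‖ + 1)) with hR3
      have hcomp : IsCompact (B ∩ closedBall (0:ℂ) R3) :=
        (isCompact_closedBall _ _).inter_left (isClosed_le continuous_const continuous_norm)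
      have hcl : IsClosed (ψ' '' (B ∩ closedBall (0:ℂ) R3)) :=
        (hcomp.image_of_continuousOn (hcont.mono Set.inter_subset_left)).isClosed
      have hsub : (K c)ᶜ ∩ ball z 1 ⊆ ψ' '' (B ∩ closedBall (0:ℂ) R3) := by
        rintro y ⟨hy1, hy2⟩
        rw [← h.img] at hy1
        obtain ⟨w, hw, rfl⟩ := hy1
        refine ⟨w, ⟨hOB hw, ?_⟩, heq w hw⟩
        rw [mem_closedBall_zero_iff]
        by_contra hcon
        push Not at hcon
        have h1 : ‖w‖ ≤ 2 * ‖ψ w‖ := hR2 (le_of_lt (lt_of_le_of_lt (le_max_left _ _) hcon))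
        have h2 : ‖ψ w‖ ≤ ‖z‖ + 1 := by
          rw [mem_ball, dist_eq_norm] at hy2
          calc ‖ψ w‖ = ‖z + (ψ w - z)‖ := by congr 1; ring
            _ ≤ ‖z‖ + ‖ψ w - z‖ := norm_add_le _ _
            _ ≤ _ := by linarith
        have h3 := le_max_right R2 (2 * (‖z‖ + 1))
        rw [← hR3] at h3
        linarith
      have hz3 : z ∈ closure ((K c)ᶜ ∩ ball z 1) := by
        rw [mem_closure_iff_nhds] at hz2 ⊢
        intro U hU
        obtain ⟨y, hy1, hy2⟩ := hz2 (U ∩ ball z 1) (inter_mem hU (ball_mem_nhds z one_pos))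
        exact ⟨y, hy1.1, hy2, hy1.2⟩
      have hz4 : z ∈ ψ' '' (B ∩ closedBall (0:ℂ) R3) := closure_minimal hsub hcl hz3
      obtain ⟨w, ⟨hwB, -⟩, hwz⟩ := hz4
      refine ⟨w, ?_, hwz⟩
      rcases (show 1 ≤ ‖w‖ from hwB).lt_or_eq with h1 | h1
      · exfalso
        have : ψ w ∈ (K c)ᶜ := by rw [← h.img]; exact ⟨w, h1, rfl⟩
        rw [heq w h1] at hwz
        rw [hwz] at this
        exact this hz1
      · simpa using h1.symm
  refine ⟨ψ', ?_, heq⟩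
  refine { hol := ?_, inj := ?_, img := ?_, eqn := fun w hw => eqn1 w hw.le,
           odd := fun w hw => odd1 w hw.le, inf := ?_, cont := hcont, eqn1 := eqn1,
           odd1 := odd1, img1 := img1 }
  · exact h.hol.congr heq
  · intro x hx y hy hxy
    rw [heq x hx, heq y hy] at hxy
    exact h.inj hx hy hxy
  · rw [← h.img]
    exact Set.image_congr heq
  · apply h.inf.congr'
    filter_upwards [(hasBasis_cobounded_norm (E := ℂ)).mem_of_mem (i := 2) trivial] with w hw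
    have : (2:ℝ) ≤ ‖w‖ := hw
    rw [heq w (by linarith)]

end R4C
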