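import Pool.Agent.Work.MP_e3f5d9_al_cx.Interface

/-!
# Block PLF (helper99): lifts of paths through critical values
-/

set_option autoImplicit false
set_option linter.unusedSectionVars false

open Polynomial unitInterval Topology Metric Filter

namespace R4C

namespace PLFB

/-- A continuous square root on an open connected subset of the line without zeros. -/
lemma root_conn (g : ℝ → ℂ) (hg : Continuous g) (C : Set ℝ) (hC : IsOpen C)
    (hCc : IsPreconnected C) (hCn : C.Nonempty) (h0 : ∀ t ∈ C, g t ≠ 0) :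
    ∃ r : ℝ → ℂ, ContinuousOn r C ∧ ∀ t, r t ^ 2 = g t := by
  have hconv : Convex ℝ C := hCc.ordConnected.convex
  have : ContractibleSpace C := hconv.contractibleSpace hCn
  have hs : IsSimplyConnected C := inferInstanceAs (SimplyConnectedSpace C)
  refine Complex.exists_continuousOn_pow_eq hs hC hg.continuousOn ?_ two_ne_zero
  rintro ⟨t, ht, h⟩
  exact h0 t ht h

/-- A continuous square root on the line. -/
lemma root_line (g : ℝ → ℂ) (hg : Continuous g) : ∃ r : ℝ → ℂ, Continuous r ∧
    ∀ t, r t ^ 2 = g t := by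
  classical
  set U : Set ℝ := {t | g t ≠ 0} with hU
  have hUo : IsOpen U := isOpen_ne_fun hg continuous_const
  have h1 : ∀ C : Set ℝ, ∃ r : ℝ → ℂ, (∀ t, r t ^ 2 = g t) ∧
      (IsOpen C → IsPreconnected C → C.Nonempty → (∀ t ∈ C, g t ≠ 0) → ContinuousOn r C) := by
    intro C
    by_cases h : IsOpen C ∧ IsPreconnected C ∧ C.Nonempty ∧ ∀ t ∈ C, g t ≠ 0
    · obtain ⟨r, hr1, hr2⟩ := root_conn g hg C h.1 h.2.1 h.2.2.1 h.2.2.2
      exact ⟨r, hr2, fun _ _ _ _ => hr1⟩
    · have h2 : ∀ t, ∃ w : ℂ, w ^ 2 = g t := fun t => IsAlgClosed.exists_pow_nat_eq _ two_pos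
      choose r hr using h2
      exact ⟨r, hr, fun a b c d => absurd ⟨a, b, c, d⟩ h⟩
  choose rt hrt1 hrt2 using h1
  refine ⟨fun t => rt (connectedComponentIn U t) t, ?_, fun t => hrt1 _ t⟩
  rw [continuous_iff_continuousAt]
  intro t
  by_cases ht : t ∈ U
  · have hC : connectedComponentIn U t ∈ 𝓝 t :=
      hUo.connectedComponentIn.mem_nhds (mem_connectedComponentIn ht)
    have h2 : ContinuousAt (rt (connectedComponentIn U t)) t :=
      (hrt2 _ hUo.connectedComponentIn isPreconnected_connectedComponentIn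
        ⟨t, mem_connectedComponentIn ht⟩
        (fun x hx => connectedComponentIn_subset U t hx)).continuousAt hC
    refine h2.congr ?_
    filter_upwards [hC] with x hx
    rw [connectedComponentIn_eq hx]
  · have hgt : g t = 0 := by
      by_contra h
      exact ht h
    have h3 : rt (connectedComponentIn U t) t = 0 := by
      have := hrt1 (connectedComponentIn U t) t
      rw [hgt] at this
      simpa using this
    rw [ContinuousAt, h3, tendsto_zero_iff_norm_tendsto_zero]
    have h4 : Tendsto (fun x => Real.sqrt ‖g x‖) (𝓝 t) (𝓝 0) := by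
      have : Continuous fun x => Real.sqrt ‖g x‖ := by fun_prop
      have h5 := this.tendsto t
      simpa [hgt] using h5
    refine h4.congr fun x => ?_
    rw [← hrt1 (connectedComponentIn U x) x, norm_pow, Real.sqrt_sq (norm_nonneg _)]

lemma root_I (g : C(I, ℂ)) (w : ℂ) (hw : w ^ 2 = g 0) : ∃ r : C(I, ℂ), r 0 = w ∧
    ∀ s, r s ^ 2 = g s := by
  obtain ⟨r, hr1, hr2⟩ := root_line (fun t => g (Set.projIcc 0 1 zero_le_one t))
    (g.continuous.comp continuous_projIcc)
  have h1 : ∀ s : I, r s ^ 2 = g s := by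
    intro s
    rw [hr2]
    simp
  have h2 : (r 0 - w) * (r 0 + w) = 0 := by
    have h3 := h1 0
    have h4 : r 0 ^ 2 = w ^ 2 := by
      rw [hw]
      exact h3
    linear_combination h4
  rcases mul_eq_zero.1 h2 with h3 | h3
  · refine ⟨⟨fun s => r s, by fun_prop⟩, ?_, h1⟩
    show r ((0 : I) : ℝ) = w
    simpa using sub_eq_zero.1 h3
  · refine ⟨⟨fun s => -r s, by fun_prop⟩, ?_, fun s => ?_⟩
    · show -r ((0 : I) : ℝ) = w
      have : ((0 : I) : ℝ) = 0 := rfl
      rw [this]
      linear_combination -h3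
    · show (-r s) ^ 2 = g s
      rw [neg_sq, h1]

end PLFB

open PLFB in
/-- **PLF** -/
theorem stmt_PLF : Stmt_PLF := by
  intro c N
  induction N with
  | zero =>
    intro γ z h
    exact ⟨γ, h.symm, fun s => rfl⟩
  | succ N ih =>
    intro γ z h
    rw [iter_succ] at h
    obtain ⟨r, hr0, hr⟩ := root_I ⟨fun s => γ s - c, by fun_prop⟩ ((f c)^[N] z) (by
      show ((f c)^[N] z) ^ 2 = γ 0 - c
      rw [← h]
      unfold f
      ring)
    obtain ⟨Γ, hΓ0, hΓ⟩ := ih r z hr0.symm
    refine ⟨Γ, hΓ0, fun s => ?_⟩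
    rw [iter_succ, hΓ]
    show r s ^ 2 + c = γ s
    rw [hr]
    show γ s - c + c = γ s
    ring

end R4C
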