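import Pool.Agent.Work.MP_e3f5d9_al_cx.Interface

/-!
# QL: quadratic-like restrictions (helper26)
-/

set_option autoImplicit false

open Polynomial unitInterval Topology Metric Filter

namespace R4C

namespace QL

theorem cont_it (c : ℂ) (m : ℕ) : Continuous (f c)^[m] := by
  apply Continuous.iterate
  unfold f
  fun_prop

theorem it_add (c : ℂ) (a b : ℕ) (z : ℂ) : (f c)^[a + b] z = (f c)^[a] ((f c)^[b] z) :=
  Function.iterate_add_apply _ _ _ _

theorem inv_it {c : ℂ} {n : ℕ} {X : Set ℂ} (h : Set.MapsTo (f c)^[n] X X) (k : ℕ) :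
    Set.MapsTo (f c)^[n * k] X X := by
  rw [Function.iterate_mul]
  exact h.iterate k

theorem cof_univ : Cof (Set.univ : Set ℂ) := fun z hz => absurd (Set.mem_univ z) hz

theorem cof_biInter (h1 : ∀ U V : Set ℂ, Cof U → Cof V → Cof (U ∩ V)) (M : ℕ) (T : ℕ → Set ℂ)
    (hT : ∀ i < M, Cof (T i)) : Cof (⋂ i ∈ Finset.range M, T i) := by
  induction M with
  | zero => simpa using cof_univ
  | succ M ih =>
    rw [Finset.range_add_one, Finset.set_biInter_insert]
    exact h1 _ _ (hT M (Nat.lt_succ_self M)) (ih fun i hi => hT i (Nat.lt_succ_of_lt hi))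

end QL

open QL in
theorem stmt_QL : Stmt_DSK → Stmt_QLC → Stmt_QLD → Stmt_QL := by
  rintro ⟨hD1, hD2, hD3, hD4⟩ hC hQ c n X hX
  obtain ⟨W, hW1, hW2, hW3⟩ := hD4 X hX.cpt hX.con hX.ful
  obtain ⟨-, ⟨d2, hd2, hC2⟩, ⟨d3, hd3, hC3⟩⟩ := hC c n X hX
  obtain ⟨e1, he1, hQ1⟩ := hQ c n X hX
  obtain ⟨ρ', hρ', hρW⟩ := hW3 d2 hd2
  -- the constants
  obtain ⟨ρ, hρ, hρρ', hρe, hρd⟩ : ∃ ρ : ℝ, 0 < ρ ∧ ρ ≤ ρ' ∧ ρ ≤ e1 ∧ ρ ≤ d3 :=
    ⟨min ρ' (min e1 d3), lt_min hρ' (lt_min he1 hd3), min_le_left _ _,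
      (min_le_right _ _).trans (min_le_left _ _), (min_le_right _ _).trans (min_le_right _ _)⟩
  have hWmono : ∀ r r', 0 < r → r ≤ r' → W r ⊆ W r' := by
    intro r r' hr hrr'
    rcases hrr'.lt_or_eq with h | h
    · exact subset_closure.trans (hW2 r r' hr h)
    · rw [h]
  have hWd2 : ∀ r, 0 < r → r ≤ ρ → W r ⊆ thickening d2 X := fun r hr hrρ =>
    (hWmono r ρ' hr (hrρ.trans hρρ')).trans hρW
  obtain ⟨k0, hk0⟩ := hC2 (ρ / 4) (by linarith)
  set M := k0 + 1 with hM
  have hMpos : (0 : ℝ) < M := by positivity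
  set r : ℕ → ℝ := fun i => ρ / 2 * (1 + (i : ℝ) / M) with hr
  have hrpos : ∀ i, 0 < r i := fun i => by positivity
  have hrρ : ∀ i < M, r i ≤ ρ := by
    intro i hi
    have h1 : (i : ℝ) / M ≤ 1 := by
      rw [div_le_one hMpos]
      exact_mod_cast hi.le
    have : r i ≤ ρ / 2 * (1 + 1) := mul_le_mul_of_nonneg_left (by linarith) (by linarith)
    linarith
  have hrlt : ∀ i, r i < r (i + 1) := by
    intro i
    have h1 : (i : ℝ) / M < ((i + 1 : ℕ) : ℝ) / M := by
      apply div_lt_div_of_pos_right _ hMpos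
      push_cast
      linarith
    exact mul_lt_mul_of_pos_left (by linarith) (by linarith)
  have hr0 : r 0 = ρ / 2 := by simp [hr]
  have hXW : ∀ r, 0 < r → X ⊆ W r := fun r hr =>
    (self_subset_thickening hr X).trans (hW1 r hr).2.1
  -- the domain `V`
  set T : Set ℂ := ⋂ i ∈ Finset.range M, (f c)^[n * i] ⁻¹' (W (r i)) with hT
  have hTmem : ∀ z, z ∈ T ↔ ∀ i < M, (f c)^[n * i] z ∈ W (r i) := by
    intro z
    simp only [hT, Set.mem_iInter, Finset.mem_range, Set.mem_preimage]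
  have hTopen : IsOpen T := by
    apply isOpen_biInter_finset
    intro i _
    exact (hW1 (r i) (hrpos i)).1.1.preimage (cont_it c _)
  have hTcof : Cof T := by
    apply cof_biInter hD1
    intro i _
    exact hD2 c (n * i) _ (hW1 (r i) (hrpos i)).1.1 (hW1 (r i) (hrpos i)).1.2.2
  have hXT : X ⊆ T := by
    intro x hx
    rw [hTmem]
    intro i _
    exact hXW _ (hrpos i) (inv_it hX.inv i hx)
  have h0T : (0 : ℂ) ∈ T := hXT hX.zer
  set V : Set ℂ := connectedComponentIn T 0 with hV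
  have hVdisk : IsDisk V := hD3 T 0 hTopen hTcof h0T
  have hVT : V ⊆ T := connectedComponentIn_subset T 0
  have hXV : X ⊆ V := hX.con.isPreconnected.subset_connectedComponentIn hX.zer hXT
  set U : Set ℂ := cmp c n V with hU
  have hgV : IsOpen ((f c)^[n] ⁻¹' V) := hVdisk.1.preimage (cont_it c n)
  have hXg : X ⊆ (f c)^[n] ⁻¹' V := fun x hx => hXV (hX.inv hx)
  have h0g : (0 : ℂ) ∈ (f c)^[n] ⁻¹' V := hXg hX.zer
  have hUdisk : IsDisk U := hD3 _ 0 hgV (hD2 c n V hVdisk.1 hVdisk.2.2) h0g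
  have hUg : U ⊆ (f c)^[n] ⁻¹' V := connectedComponentIn_subset _ 0
  have hXU : X ⊆ U := hX.con.isPreconnected.subset_connectedComponentIn hX.zer hXg
  have h0U : (0 : ℂ) ∈ U := hXU hX.zer
  -- iterates of `U`
  have hUi : ∀ i < M, ∀ z ∈ U, (f c)^[n * (i + 1)] z ∈ W (r i) := by
    intro i hi z hz
    have h1 := (hTmem _).1 (hVT (hUg hz)) i hi
    rw [← it_add] at h1
    rw [Nat.mul_succ]
    exact h1
  have hUth : U ⊆ thickening (ρ / 4) X := by
    refine Set.Subset.trans ?_ (hk0 M (by omega))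
    unfold cmp
    apply IsPreconnected.subset_connectedComponentIn hUdisk.2.1.isPreconnected h0U
    intro z hz
    exact hWd2 _ (hrpos k0) (hrρ k0 (by omega)) (hUi k0 (by omega) z hz)
  have hclU : closure U ⊆ T := by
    intro z hz
    rw [hTmem]
    intro i hi
    rcases Nat.eq_zero_or_pos i with h0 | h0
    · subst h0
      rw [Nat.mul_zero, Function.iterate_zero, id, hr0]
      have h1 : U ⊆ W (ρ / 4) := hUth.trans (hW1 _ (by linarith)).2.1
      exact hW2 (ρ / 4) (ρ / 2) (by linarith) (by linarith) (closure_mono h1 hz)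
    · obtain ⟨j, rfl⟩ : ∃ j, i = j + 1 := ⟨i - 1, by omega⟩
      have h1 : (f c)^[n * (j + 1)] '' U ⊆ W (r j) := by
        rintro _ ⟨w, hw, rfl⟩
        exact hUi j (by omega) w hw
      have h2 : (f c)^[n * (j + 1)] z ∈ closure (W (r j)) := by
        refine closure_mono h1 ?_
        exact image_closure_subset_closure_image (cont_it c _) ⟨z, hz, rfl⟩
      exact hW2 _ _ (hrpos j) (hrlt j) h2
  have hclUV : closure U ⊆ V :=
    hUdisk.2.1.closure.isPreconnected.subset_connectedComponentIn (subset_closure h0U) hclU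
  have hcomp : IsCompact (closure U) := by
    apply isCompact_of_isClosed_isBounded isClosed_closure
    have h1 : U ⊆ W (ρ / 4) := hUth.trans (hW1 _ (by linarith)).2.1
    exact ((hW1 (ρ / 4) (by linarith)).2.2.subset h1).closure
  refine ⟨n, hX.two, U, V, hUdisk, hVdisk, hcomp, hclUV, h0U, ?_, ?_⟩
  · exact hQ1 V hVdisk hXV (hUth.trans (thickening_mono (by linarith) X))
  · have h1 : {z | z ∈ U ∧ ∀ k : ℕ, (f c)^[n * k] z ∈ U} = X := by
      ext z
      constructor
      · rintro ⟨-, hz⟩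
        exact hC3 z fun k => thickening_mono (by linarith) X (hUth (hz k))
      · intro hz
        exact ⟨hXU hz, fun k => hXU (inv_it hX.inv k hz)⟩
    rw [h1]
    exact hX.con

end R4C
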