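import Pool.Agent.Work.MP_e3f5d9_al_cx.Interface

/-!
# Block QLC (helper31): components of the preimages of small neighbourhoods of `X`
-/

set_option autoImplicit false

open Polynomial unitInterval Topology Metric Filter

namespace R4C

namespace QLC

lemma iter_mul_succ (c : ℂ) (n k : ℕ) (z : ℂ) :
    (f c)^[n * (k + 1)] z = (f c)^[n * k] ((f c)^[n] z) := by
  rw [Nat.mul_succ, Function.iterate_add_apply]

lemma cont_f (c : ℂ) : Continuous (f c) := by
  unfold f
  fun_prop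

lemma cont_iter (c : ℂ) (m : ℕ) : Continuous ((f c)^[m]) := (cont_f c).iterate m

/-- the segment from `y` to `x` -/
noncomputable def seg (y x : ℂ) : C(I, ℂ) :=
  ⟨fun t => (1 - ((t : ℝ) : ℂ)) * y + ((t : ℝ) : ℂ) * x, by fun_prop⟩

lemma seg_sub (y x : ℂ) (t t' : I) : ‖seg y x t - seg y x t'‖ ≤ ‖y - x‖ := by
  have h1 : seg y x t - seg y x t' = (((t' : ℝ) - (t : ℝ) : ℝ) : ℂ) * (y - x) := by
    simp only [seg, ContinuousMap.coe_mk]
    push_cast
    ring
  rw [h1, norm_mul, Complex.norm_real]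
  have h2 : ‖(t' : ℝ) - (t : ℝ)‖ ≤ 1 := by
    rw [Real.norm_eq_abs, abs_le]
    have := t.2.1; have := t.2.2; have := t'.2.1; have := t'.2.2
    constructor <;> linarith
  calc _ ≤ 1 * ‖y - x‖ := mul_le_mul_of_nonneg_right h2 (norm_nonneg _)
    _ = _ := one_mul _

lemma seg_zero (y x : ℂ) : seg y x 0 = y := by simp [seg]

lemma seg_one (y x : ℂ) : seg y x 1 = x := by simp [seg]

/-- `(y, x)` is a short segment to a nearest point of `X` -/
structure Near (X : Set ℂ) (δ : ℝ) (y x : ℂ) : Prop where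
  hx : x ∈ X
  hy : y ∉ X
  min : ∀ x' ∈ X, ‖y - x‖ ≤ ‖y - x'‖
  lt : ‖y - x‖ < δ

lemma seg_mem {X : Set ℂ} {δ : ℝ} {y x : ℂ} (h : Near X δ y x) (t : I) :
    seg y x t ∈ thickening δ X := by
  rw [mem_thickening_iff]
  refine ⟨x, h.hx, ?_⟩
  rw [dist_eq_norm]
  have h1 := seg_sub y x t 1
  rw [seg_one] at h1
  exact h1.trans_lt h.lt

lemma exists_near {X : Set ℂ} (hX : IsCompact X) (hne : X.Nonempty) {δ : ℝ} {y : ℂ}
    (hy : y ∈ thickening δ X) (hyX : y ∉ X) : ∃ x, Near X δ y x := by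
  obtain ⟨x, hx, hd⟩ := hX.exists_infDist_eq_dist hne y
  refine ⟨x, hx, hyX, fun x' hx' => ?_, ?_⟩
  · rw [← dist_eq_norm, ← dist_eq_norm, ← hd]
    exact infDist_le_dist_of_mem hx'
  · rw [mem_thickening_iff_infDist_lt hne, hd] at hy
    rwa [← dist_eq_norm]

/-- short lifts, finitely many steps -/
lemma one_iter (h1 : Stmt_ONE) (c : ℂ) (m : ℕ) : ∀ η : ℝ, 0 < η → ∃ d : ℝ, 0 < d ∧
    ∀ Γ : C(I, ℂ), (∀ s s', ‖(f c)^[m] (Γ s) - (f c)^[m] (Γ s')‖ ≤ d) →
      ∀ s s', ‖Γ s - Γ s'‖ ≤ η := by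
  induction m with
  | zero => exact fun η hη => ⟨η, hη, fun Γ h => h⟩
  | succ m ih =>
    intro η hη
    obtain ⟨d, hd, h⟩ := ih ((η / 6) ^ 2) (by positivity)
    refine ⟨d, hd, fun Γ hΓ => ?_⟩
    have h2 := h ⟨fun s => f c (Γ s), (cont_f c).comp Γ.continuous⟩ (fun s s' => hΓ s s')
    have h3 := h1 c Γ ((η / 6) ^ 2) (by positivity) h2
    intro s s'
    refine (h3 s s').trans (le_of_eq ?_)
    rw [Real.sqrt_sq (by positivity)]
    ring

lemma exists_min (d : ℕ → ℝ) (hd : ∀ k, 0 < d k) (k0 : ℕ) :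
    ∃ δ : ℝ, 0 < δ ∧ ∀ k < k0, δ ≤ d k := by
  induction k0 with
  | zero => exact ⟨1, one_pos, fun k hk => absurd hk (by omega)⟩
  | succ k0 ih =>
    obtain ⟨δ, h0, h⟩ := ih
    refine ⟨min δ (d k0), lt_min h0 (hd k0), fun k hk => ?_⟩
    rcases Nat.lt_succ_iff_lt_or_eq.1 hk with hk | hk
    · exact (min_le_left _ _).trans (h k hk)
    · rw [hk]; exact min_le_right _ _

/-- the lifts of segments shorter than `δ` have diameter at most `η` -/
def Small (c : ℂ) (n : ℕ) (X : Set ℂ) (η δ : ℝ) : Prop :=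
  ∀ (k : ℕ) (Γ : C(I, ℂ)) (x y : ℂ), Near X δ y x →
    (∀ t : I, (f c)^[n * k] (Γ t) = seg y x t) → ∀ t t', ‖Γ t - Γ t'‖ ≤ η

lemma exists_small (h1 : Stmt_ONE) {c : ℂ} {n : ℕ} {X : Set ℂ} (hS : Shr c n X) (η : ℝ)
    (hη : 0 < η) : ∃ δ : ℝ, 0 < δ ∧ δ ≤ η ∧ Small c n X η δ := by
  obtain ⟨δ, e, hδ, he, h⟩ := hS
  obtain ⟨k0, hk0⟩ : ∃ k0 : ℕ, ∀ k, k0 ≤ k → e k < η :=
    Filter.eventually_atTop.1 (he.eventually_lt_const hη)
  choose d hd hd' using fun k : ℕ => one_iter h1 c (n * k) η hη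
  obtain ⟨δ', hδ', hm⟩ := exists_min d hd k0
  refine ⟨min (min δ δ') η, by positivity, min_le_right _ _, ?_⟩
  intro k Γ x y hn hseg t t'
  have hlt := hn.lt
  by_cases hk : k < k0
  · refine hd' k Γ (fun s s' => ?_) t t'
    rw [hseg, hseg]
    refine (seg_sub y x s s').trans ?_
    have h2 := hm k hk
    have h3 : min (min δ δ') η ≤ δ' := (min_le_left _ _).trans (min_le_right _ _)
    linarith
  · have h3 : min (min δ δ') η ≤ δ := (min_le_left _ _).trans (min_le_left _ _)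
    have h4 := h k Γ x y hn.hx hn.hy hn.min (by linarith) (fun t => hseg t) t t'
    exact h4.trans (hk0 k (not_lt.1 hk)).le

section main

variable {c : ℂ} {n : ℕ} {X : Set ℂ}

lemma inv_iter (hS : Sml c n X) (k : ℕ) {z : ℂ} (hz : z ∈ X) : (f c)^[n * k] z ∈ X := by
  induction k generalizing z with
  | zero => simpa using hz
  | succ k ih =>
    rw [iter_mul_succ]
    exact ih (hS.inv hz)

lemma X_sub_pre (hS : Sml c n X) {δ : ℝ} (hδ : 0 < δ) (k : ℕ) :
    X ⊆ (f c)^[n * k] ⁻¹' thickening δ X := fun _ hz =>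
  self_subset_thickening hδ X (inv_iter hS k hz)

lemma zero_mem (hS : Sml c n X) {δ : ℝ} (hδ : 0 < δ) (k : ℕ) :
    (f c)^[n * k] 0 ∈ thickening δ X :=
  self_subset_thickening hδ X (inv_iter hS k hS.zer)

lemma X_sub_cmp (hS : Sml c n X) {δ : ℝ} (hδ : 0 < δ) (k : ℕ) :
    X ⊆ cmp c (n * k) (thickening δ X) :=
  hS.con.isPreconnected.subset_connectedComponentIn hS.zer (X_sub_pre hS hδ k)

lemma cmp_sub {m : ℕ} {W : Set ℂ} : cmp c m W ⊆ (f c)^[m] ⁻¹' W :=
  connectedComponentIn_subset _ _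

lemma cmp_conn {m : ℕ} {W : Set ℂ} : IsPreconnected (cmp c m W) :=
  isPreconnected_connectedComponentIn

/-- a connected subset of the preimage that meets the component lies in it -/
lemma sub_cmp {m : ℕ} {W A : Set ℂ} (h0 : (f c)^[m] 0 ∈ W) (hA : IsPreconnected A)
    (hAW : A ⊆ (f c)^[m] ⁻¹' W) {z : ℂ} (hz : z ∈ A) (hz' : z ∈ cmp c m W) :
    A ⊆ cmp c m W := by
  have h1 : IsPreconnected (A ∪ cmp c m W) := hA.union z hz hz' cmp_conn
  have h2 : (0 : ℂ) ∈ cmp c m W := mem_connectedComponentIn h0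
  have h3 : A ∪ cmp c m W ⊆ cmp c m W :=
    h1.subset_connectedComponentIn (Or.inr h2) (Set.union_subset hAW cmp_sub)
  exact Set.subset_union_left.trans h3

lemma map_cmp (hS : Sml c n X) {δ : ℝ} (hδ : 0 < δ) (k : ℕ) {z : ℂ}
    (hz : z ∈ cmp c (n * (k + 1)) (thickening δ X)) :
    (f c)^[n] z ∈ cmp c (n * k) (thickening δ X) := by
  have h0 : (f c)^[n] 0 ∈ X := hS.inv hS.zer
  have h1 : IsPreconnected ((f c)^[n] '' cmp c (n * (k + 1)) (thickening δ X)) :=
    cmp_conn.image _ (cont_iter c n).continuousOn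
  have h2 : (f c)^[n] '' cmp c (n * (k + 1)) (thickening δ X) ⊆
      (f c)^[n * k] ⁻¹' thickening δ X := by
    rintro _ ⟨w, hw, rfl⟩
    have := cmp_sub hw
    rw [Set.mem_preimage, iter_mul_succ] at this
    exact this
  refine sub_cmp (zero_mem hS hδ k) h1 h2
    (z := (f c)^[n] 0) ⟨0, X_sub_cmp hS hδ (k + 1) hS.zer, rfl⟩ (X_sub_cmp hS hδ k h0)
    ⟨z, hz, rfl⟩

/-- lifting the segment from a point to a nearest point of `X` -/
lemma exists_lift (hP : Stmt_PLF) (hS : Sml c n X) {δ : ℝ} (k : ℕ) {z : ℂ}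
    (hz : (f c)^[n * k] z ∈ thickening δ X) (hzX : (f c)^[n * k] z ∉ X) :
    ∃ (Γ : C(I, ℂ)) (x : ℂ), Near X δ ((f c)^[n * k] z) x ∧ Γ 0 = z ∧
      ∀ t : I, (f c)^[n * k] (Γ t) = seg ((f c)^[n * k] z) x t := by
  obtain ⟨x, hx⟩ := exists_near hS.cpt ⟨0, hS.zer⟩ hz hzX
  obtain ⟨Γ, h1, h2⟩ := hP c (n * k) (seg ((f c)^[n * k] z) x) z (seg_zero _ _).symm
  exact ⟨Γ, x, hx, h1, h2⟩

lemma lift_mem_cmp (hS : Sml c n X) {δ : ℝ} (hδ : 0 < δ) (k : ℕ) {z x : ℂ} {Γ : C(I, ℂ)}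
    (hz : z ∈ cmp c (n * k) (thickening δ X)) (hn : Near X δ ((f c)^[n * k] z) x)
    (h0 : Γ 0 = z) (hΓ : ∀ t : I, (f c)^[n * k] (Γ t) = seg ((f c)^[n * k] z) x t) (t : I) :
    Γ t ∈ cmp c (n * k) (thickening δ X) := by
  have h1 : IsPreconnected (Set.range Γ) := isPreconnected_range Γ.continuous
  refine sub_cmp (zero_mem hS hδ k) h1 ?_ (z := z) ⟨0, h0⟩ hz ⟨t, rfl⟩
  rintro _ ⟨s, rfl⟩
  rw [Set.mem_preimage, hΓ]
  exact seg_mem hn s

/-- the induction -/
lemma main (hP : Stmt_PLF) (hS : Sml c n X) {ε η δ : ℝ}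
    (hsep : ∀ z, (f c)^[n] z ∈ X → z ∉ X → ∀ x ∈ X, ε ≤ ‖z - x‖) (h2 : 2 * η < ε)
    (hη : 0 < η) (hδ : 0 < δ) (hδη : δ ≤ η) (hsm : Small c n X η δ) (k : ℕ) :
    (∀ z ∈ cmp c (n * k) (thickening δ X), infDist z X ≤ η) ∧
    ∀ z ∈ cmp c (n * k) (thickening δ X), (f c)^[n * k] z ∈ X → z ∈ X := by
  have hne : X.Nonempty := ⟨0, hS.zer⟩
  induction k with
  | zero =>
    refine ⟨fun z hz => ?_, fun z _ hz => by simpa using hz⟩
    have h := cmp_sub hz
    rw [Nat.mul_zero, Function.iterate_zero, Set.preimage_id,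
      mem_thickening_iff_infDist_lt hne] at h
    linarith
  | succ k ih =>
    -- the points over `X`
    have hE : ∀ z ∈ cmp c (n * (k + 1)) (thickening δ X), (f c)^[n * (k + 1)] z ∈ X →
        z ∉ X → ∀ x ∈ X, ε ≤ ‖z - x‖ := by
      intro z hz hzX
      refine hsep z (ih.2 _ (map_cmp hS hδ k hz) ?_)
      rwa [iter_mul_succ] at hzX
    have hE' : ∀ z ∈ cmp c (n * (k + 1)) (thickening δ X), (f c)^[n * (k + 1)] z ∈ X →
        z ∉ X → ε ≤ infDist z X := by
      intro z hz hzX hz'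
      rw [le_infDist hne]
      intro x hx
      rw [dist_eq_norm]
      exact hE z hz hzX hz' x hx
    -- every point is close to a point over `X`
    have hclose : ∀ z ∈ cmp c (n * (k + 1)) (thickening δ X),
        ∃ z' ∈ cmp c (n * (k + 1)) (thickening δ X), (f c)^[n * (k + 1)] z' ∈ X ∧
          dist z z' ≤ η := by
      intro z hz
      by_cases hzX : (f c)^[n * (k + 1)] z ∈ X
      · exact ⟨z, hz, hzX, by rw [dist_self]; exact hη.le⟩
      · obtain ⟨Γ, x, hn, h0, hΓ⟩ := exists_lift hP hS (k + 1) (cmp_sub hz) hzX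
        refine ⟨Γ 1, lift_mem_cmp hS hδ (k + 1) hz hn h0 hΓ 1, ?_, ?_⟩
        · rw [hΓ, seg_one]
          exact hn.hx
        · rw [dist_eq_norm, ← h0]
          exact hsm (k + 1) Γ x _ hn hΓ 0 1
    have hsplit : ∀ z ∈ cmp c (n * (k + 1)) (thickening δ X),
        infDist z X ≤ η ∨ ε - η ≤ infDist z X := by
      intro z hz
      obtain ⟨z', hz', hzX', hd⟩ := hclose z hz
      by_cases h : z' ∈ X
      · left
        exact (infDist_le_dist_of_mem h).trans hd
      · right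
        have h3 := hE' z' hz' hzX' h
        have h4 : infDist z' X ≤ infDist z X + dist z' z := infDist_le_infDist_add_dist
        rw [dist_comm] at h4
        linarith
    have hfirst : ∀ z ∈ cmp c (n * (k + 1)) (thickening δ X), infDist z X ≤ η := by
      have hc1 : IsClosed {z : ℂ | infDist z X ≤ η} :=
        isClosed_le (continuous_infDist_pt X) continuous_const
      have hc2 : IsClosed {z : ℂ | ε - η ≤ infDist z X} :=
        isClosed_le continuous_const (continuous_infDist_pt X)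
      have hpre : IsPreconnected (cmp c (n * (k + 1)) (thickening δ X)) := cmp_conn
      rw [isPreconnected_iff_subset_of_disjoint_closed] at hpre
      have h5 := hpre _ _ hc1 hc2 (fun z hz => hsplit z hz) (by
        rw [Set.eq_empty_iff_forall_notMem]
        rintro z ⟨_, hz1, hz2⟩
        have hz1 : infDist z X ≤ η := hz1
        have hz2 : ε - η ≤ infDist z X := hz2
        linarith)
      rcases h5 with h5 | h5
      · exact fun z hz => h5 hz
      · exfalso
        have h6 : ε - η ≤ infDist 0 X := h5 (X_sub_cmp hS hδ (k + 1) hS.zer)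
        rw [infDist_zero_of_mem hS.zer] at h6
        linarith
    refine ⟨hfirst, fun z hz hzX => ?_⟩
    by_contra h
    have h6 := hE' z hz hzX h
    have h7 := hfirst z hz
    linarith

end main

end QLC

open QLC

theorem stmt_QLC (hP : Stmt_PLF) (h1 : Stmt_ONE) : Stmt_QLC := by
  intro c n X hS
  have hne : X.Nonempty := ⟨0, hS.zer⟩
  obtain ⟨ε0, hε0, hsep⟩ := hS.sep
  obtain ⟨δS, e, hδS, he, hshr⟩ := hS.shr
  have hpow : ∀ ε : ℝ, 0 < ε → ∃ k0 : ℕ, ∀ k, k0 ≤ k → e k < ε := fun ε hε =>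
    Filter.eventually_atTop.1 (he.eventually_lt_const hε)
  -- the constant for (ii) and (iii)
  obtain ⟨δ1, hδ1, hδ1η, hsm1⟩ := exists_small h1 hS.shr (ε0 / 3) (by positivity)
  set δ0 := min δ1 δS with hδ0def
  have hδ0 : 0 < δ0 := lt_min hδ1 hδS
  have hsm0 : Small c n X (ε0 / 3) δ0 := fun k Γ x y hn =>
    hsm1 k Γ x y ⟨hn.hx, hn.hy, hn.min, hn.lt.trans_le (min_le_left _ _)⟩
  have hshr0 : ∀ (k : ℕ) (Γ : C(I, ℂ)) (x y : ℂ), Near X δ0 y x →
      (∀ t : I, (f c)^[n * k] (Γ t) = seg y x t) → ∀ t t', ‖Γ t - Γ t'‖ ≤ e k :=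
    fun k Γ x y hn hseg => hshr k Γ x y hn.hx hn.hy hn.min
      (hn.lt.trans_le (min_le_right _ _)) (fun t => hseg t)
  refine ⟨?_, ⟨δ0, hδ0, ?_⟩, ⟨δ0, hδ0, ?_⟩⟩
  · intro ε hε
    set η := min (ε / 2) (ε0 / 3) with hη
    have hη0 : 0 < η := by positivity
    obtain ⟨δ, hδ, hδη, hsm⟩ := exists_small h1 hS.shr η hη0
    refine ⟨δ, hδ, fun k z hz => ?_⟩
    have h3 : η ≤ ε0 / 3 := min_le_right _ _
    have h4 : η ≤ ε / 2 := min_le_left _ _
    have h5 := (main hP hS hsep (by linarith) hη0 hδ hδη hsm k).1 z hz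
    rw [mem_thickening_iff_infDist_lt hne]
    linarith
  · intro ε hε
    obtain ⟨k0, hk0⟩ := hpow ε hε
    refine ⟨k0, fun k hk z hz => ?_⟩
    have hmain := main hP hS hsep (by linarith) (by positivity) hδ0
      ((min_le_left _ _).trans hδ1η) hsm0 k
    rw [mem_thickening_iff]
    by_cases hzX : (f c)^[n * k] z ∈ X
    · exact ⟨z, hmain.2 z hz hzX, by rw [dist_self]; exact hε⟩
    · obtain ⟨Γ, x, hn, h0, hΓ⟩ := exists_lift hP hS k (cmp_sub hz) hzX
      refine ⟨Γ 1, hmain.2 _ (lift_mem_cmp hS hδ0 k hz hn h0 hΓ 1) ?_, ?_⟩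
      · rw [hΓ, seg_one]
        exact hn.hx
      · rw [dist_eq_norm, ← h0]
        exact (hshr0 k Γ x _ hn hΓ 0 1).trans_lt (hk0 k hk)
  · intro z hz
    -- downward induction
    have hdown : ∀ (k : ℕ) (z' : ℂ), (f c)^[n * k] z' ∈ X →
        (∀ j < k, infDist ((f c)^[n * j] z') X < ε0) → z' ∈ X := by
      intro k
      induction k with
      | zero => intro z' h _; simpa using h
      | succ k ih =>
        intro z' h hj
        have h3 : (f c)^[n] z' ∈ X := by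
          refine ih _ (by rwa [← iter_mul_succ]) (fun j hjk => ?_)
          rw [← iter_mul_succ]
          exact hj (j + 1) (by omega)
        by_contra h4
        have h5 := hsep z' h3 h4
        have h6 := hj 0 (by omega)
        rw [Nat.mul_zero, Function.iterate_zero, id] at h6
        have h7 : ε0 ≤ infDist z' X := by
          rw [le_infDist hne]
          intro x hx
          rw [dist_eq_norm]
          exact h5 x hx
        linarith
    have hδ03 : δ0 ≤ ε0 / 3 := (min_le_left _ _).trans hδ1η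
    have hzd : ∀ j, infDist ((f c)^[n * j] z) X < δ0 := fun j =>
      (mem_thickening_iff_infDist_lt hne).1 (hz j)
    have hclosed : IsClosed X := hS.cpt.isClosed
    rw [← hclosed.closure_eq, Metric.mem_closure_iff]
    intro ε hε
    obtain ⟨k0, hk0⟩ := hpow ε hε
    by_cases hzX : (f c)^[n * k0] z ∈ X
    · exact ⟨z, hdown k0 z hzX (fun j _ => (hzd j).trans_le (by linarith)),
        by rw [dist_self]; exact hε⟩
    · obtain ⟨Γ, x, hn, h0, hΓ⟩ := exists_lift hP hS k0 (hz k0) hzX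
      refine ⟨Γ 1, hdown k0 _ (by rw [hΓ, seg_one]; exact hn.hx) (fun j hj => ?_), ?_⟩
      · -- the path `f^(nj) Γ` is a lift of the segment under `f^(n(k0-j))`
        have h3 := hsm0 (k0 - j) ⟨fun t => (f c)^[n * j] (Γ t),
          (cont_iter c _).comp Γ.continuous⟩ x _ hn (fun t => by
            rw [← hΓ t]
            show (f c)^[n * (k0 - j)] ((f c)^[n * j] (Γ t)) = _
            rw [← Function.iterate_add_apply, ← Nat.mul_add, Nat.sub_add_cancel hj.le]) 1 0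
        have h4 : ‖(f c)^[n * j] (Γ 1) - (f c)^[n * j] z‖ ≤ ε0 / 3 := by
          rw [← h0]
          exact h3
        have h5 : infDist ((f c)^[n * j] (Γ 1)) X ≤
            infDist ((f c)^[n * j] z) X + dist ((f c)^[n * j] (Γ 1)) ((f c)^[n * j] z) :=
          infDist_le_infDist_add_dist
        rw [dist_eq_norm] at h5
        have h6 := hzd j
        linarith
      · rw [dist_eq_norm, ← h0]
        exact (hshr0 k0 Γ x _ hn hΓ 0 1).trans_lt (hk0 k0 le_rfl)

end R4C
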