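import Pool.Agent.Work.MP_e3f5d9_al_cx.QL

/-!
# QLD: the degree of the small map (helper26)
-/

set_option autoImplicit false

open Polynomial unitInterval Topology Metric Filter

namespace R4C

namespace QLD

/-! ### Iterates as polynomials -/

theorem itp_succ (p : ℂ[X]) (n : ℕ) : PCF.itp p (n + 1) = p.comp (PCF.itp p n) := by
  unfold PCF.itp
  rw [Function.iterate_succ_apply']

theorem itp_succ' (p : ℂ[X]) (n : ℕ) : PCF.itp p (n + 1) = (PCF.itp p n).comp p := by
  induction n with
  | zero => simp [PCF.itp]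
  | succ n ih =>
    rw [itp_succ p (n + 1)]
    conv_lhs => rw [ih, ← Polynomial.comp_assoc, ← itp_succ]

theorem itp_eval (c : ℂ) (n : ℕ) (z : ℂ) :
    (PCF.itp (X ^ 2 + C c) n).eval z = (f c)^[n] z := by
  induction n with
  | zero => simp [PCF.itp]
  | succ n ih =>
    rw [itp_succ, eval_comp, ih, Function.iterate_succ_apply']
    simp [f]

theorem itp_deriv (c : ℂ) (n : ℕ) (z : ℂ) :
    (PCF.itp (X ^ 2 + C c) n).derivative.eval z = ∏ j ∈ Finset.range n, (2 * (f c)^[j] z) := by
  induction n with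
  | zero => simp [PCF.itp]
  | succ n ih =>
    have h1 : ∀ w : ℂ, (derivative (Polynomial.X ^ 2 + C c : ℂ[X])).eval w = 2 * w := by
      intro w
      simp only [derivative_add, derivative_X_pow, derivative_C, add_zero, eval_mul, eval_C,
        eval_pow, eval_X]
      norm_num
    rw [itp_succ, derivative_comp, eval_mul, eval_comp, ih, itp_eval, Finset.prod_range_succ, h1]

/-! ### Topology of the component -/

theorem cmp_sub {c : ℂ} {n : ℕ} {V : Set ℂ} {z : ℂ} (hz : z ∈ cmp c n V) : (f c)^[n] z ∈ V :=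
  connectedComponentIn_subset ((f c)^[n] ⁻¹' V) 0 hz

theorem even_it (c : ℂ) {n : ℕ} (hn : 1 ≤ n) (z : ℂ) : (f c)^[n] (-z) = (f c)^[n] z := by
  obtain ⟨m, rfl⟩ : ∃ m, n = m + 1 := ⟨n - 1, by omega⟩
  rw [Function.iterate_succ_apply, Function.iterate_succ_apply]
  congr 1
  simp [f]

theorem neg_mem_cmp {c : ℂ} {n : ℕ} (hn : 1 ≤ n) {V : Set ℂ} {z : ℂ} (hz : z ∈ cmp c n V)
    (h0 : (f c)^[n] 0 ∈ V) : -z ∈ cmp c n V := by
  have h1 : IsPreconnected (cmp c n V) := isPreconnected_connectedComponentIn
  have h2 : IsPreconnected ((fun x => -x) '' cmp c n V) :=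
    h1.image _ continuous_neg.continuousOn
  have h0m : (0 : ℂ) ∈ cmp c n V := mem_connectedComponentIn h0
  have h3 : (fun x => -x) '' cmp c n V ⊆ cmp c n V := by
    apply h2.subset_connectedComponentIn
    · exact ⟨0, h0m, neg_zero⟩
    · rintro _ ⟨w, hw, rfl⟩
      show (f c)^[n] (-w) ∈ V
      rw [even_it c hn]
      exact cmp_sub hw
  exact h3 ⟨z, hz, rfl⟩

/-- equal iterates: the last difference is a sign -/
theorem last_diff (c : ℂ) (n : ℕ) (z w : ℂ) (h : (f c)^[n] z = (f c)^[n] w)
    (hj : ∀ j, 0 < j → j < n → (f c)^[j] z ≠ -(f c)^[j] w) : n = 0 ∨ f c z = f c w := by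
  induction n with
  | zero => exact Or.inl rfl
  | succ n ih =>
    right
    rcases Nat.eq_zero_or_pos n with h0 | h0
    · subst h0
      exact h
    · rw [Function.iterate_succ_apply', Function.iterate_succ_apply'] at h
      have h1 : ((f c)^[n] z - (f c)^[n] w) * ((f c)^[n] z + (f c)^[n] w) = 0 := by
        unfold f at h ⊢
        linear_combination h
      rcases mul_eq_zero.1 h1 with h2 | h2
      · rcases ih (sub_eq_zero.1 h2) (fun j hj0 hjn => hj j hj0 (by omega)) with h3 | h3
        · omega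
        · exact h3
      · exact absurd (eq_neg_of_add_eq_zero_left h2) (hj n h0 (by omega))

theorem sq_eq (c z w : ℂ) (h : f c z = f c w) : w = z ∨ w = -z := by
  have h1 : (w - z) * (w + z) = 0 := by
    unfold f at h
    linear_combination -h
  rcases mul_eq_zero.1 h1 with h2 | h2
  · exact Or.inl (sub_eq_zero.1 h2)
  · exact Or.inr (eq_neg_of_add_eq_zero_left h2)

/-- escape: preimages of bounded sets are bounded -/
theorem esc (c z : ℂ) (R : ℝ) (hR : 2 + ‖c‖ ≤ R) (h : ‖f c z‖ ≤ R) : ‖z‖ ≤ R := by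
  by_contra hc
  push Not at hc
  have h1 : ‖z‖ ^ 2 ≤ ‖f c z‖ + ‖c‖ := by
    have : z ^ 2 = f c z - c := by unfold f; ring
    rw [← norm_pow, this]
    exact norm_sub_le _ _
  nlinarith [norm_nonneg c, norm_nonneg z]

theorem esc_it (c z : ℂ) (n : ℕ) (R : ℝ) (hR : 2 + ‖c‖ ≤ R) (h : ‖(f c)^[n] z‖ ≤ R) :
    ‖z‖ ≤ R := by
  induction n with
  | zero => exact h
  | succ n ih =>
    rw [Function.iterate_succ_apply'] at h
    exact ih (esc c _ R hR h)

theorem preimage_cpt (c : ℂ) (n : ℕ) (A : Set ℂ) (hA : IsCompact A) :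
    IsCompact ((f c)^[n] ⁻¹' A) := by
  apply isCompact_of_isClosed_isBounded (hA.isClosed.preimage (QL.cont_it c n))
  obtain ⟨R, hR⟩ := hA.isBounded.subset_closedBall 0
  refine (isBounded_closedBall (x := (0 : ℂ)) (r := max R (2 + ‖c‖))).subset ?_
  intro z hz
  rw [mem_closedBall_zero_iff]
  refine esc_it c z n _ (le_max_right _ _) ?_
  have := hR hz
  rw [mem_closedBall_zero_iff] at this
  exact this.trans (le_max_left _ _)

/-- the part of a component of an open set over a compact set is compact -/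
theorem cpt_part (c : ℂ) (n : ℕ) (V : Set ℂ) (A : Set ℂ) (hA : IsCompact A) (hAV : A ⊆ V) :
    IsCompact (cmp c n V ∩ (f c)^[n] ⁻¹' A) := by
  by_cases h0 : (0 : ℂ) ∈ (f c)^[n] ⁻¹' V
  · have h1 : cmp c n V ∩ (f c)^[n] ⁻¹' A = closure (cmp c n V) ∩ (f c)^[n] ⁻¹' A := by
      apply Set.Subset.antisymm (Set.inter_subset_inter_left _ subset_closure)
      rintro z ⟨hz1, hz2⟩
      refine ⟨?_, hz2⟩
      have h2 : IsPreconnected (insert z (cmp c n V)) := by
        apply isPreconnected_connectedComponentIn.subset_closure (Set.subset_insert _ _)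
        exact Set.insert_subset hz1 subset_closure
      have h3 : insert z (cmp c n V) ⊆ cmp c n V := by
        apply h2.subset_connectedComponentIn
        · exact Set.mem_insert_of_mem _ (mem_connectedComponentIn h0)
        · exact Set.insert_subset (hAV hz2) (connectedComponentIn_subset _ _)
      exact h3 (Set.mem_insert _ _)
    rw [h1]
    exact (preimage_cpt c n A hA).inter_left isClosed_closure
  · have : cmp c n V = ∅ := connectedComponentIn_eq_empty h0
    rw [this, Set.empty_inter]
    exact isCompact_empty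

theorem open_map (c : ℂ) (n : ℕ) (U : Set ℂ) (hU : IsOpen U) (hUc : IsPreconnected U)
    (hne : U.Nonempty) : IsOpen ((f c)^[n] '' U) := by
  have han : AnalyticOnNhd ℂ (f c)^[n] U := by
    have h1 : (f c)^[n] = fun z => (PCF.itp (Polynomial.X ^ 2 + C c) n).eval z := by
      funext z
      rw [itp_eval]
    rw [h1]
    intro z _
    exact ((PCF.itp (Polynomial.X ^ 2 + C c) n).differentiable).analyticAt z
  rcases han.is_constant_or_isOpen hUc with ⟨w, hw⟩ | h
  · exfalso
    -- a constant polynomial function on an open set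
    obtain ⟨z0, hz0⟩ := hne
    have h2 : (U : Set ℂ).Infinite := by
      exact infinite_of_mem_nhds z0 (hU.mem_nhds hz0)
    have h3 : U ⊆ {z | (PCF.itp (Polynomial.X ^ 2 + C c) n - C w).IsRoot z} := by
      intro z hz
      rw [Set.mem_ofPred_eq, IsRoot.def, eval_sub, eval_C, itp_eval, hw z hz, sub_self]
    have h4 : PCF.itp (Polynomial.X ^ 2 + C c) n - C w = 0 := by
      by_contra hne0
      exact h2 ((Polynomial.finite_setOfPred_isRoot hne0).subset h3)
    -- but the iterates are unbounded
    have h5 : ∀ z, (f c)^[n] z = w := by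
      intro z
      have := congrArg (Polynomial.eval z) h4
      rw [eval_sub, eval_C, itp_eval, eval_zero, sub_eq_zero] at this
      exact this
    set R := max ‖w‖ (2 + ‖c‖) with hR
    have h6 := esc_it c ((R + 1 : ℝ) : ℂ) n R (le_max_right _ _) (by rw [h5]; exact le_max_left _ _)
    rw [Complex.norm_real] at h6
    have h7 : R + 1 ≤ ‖(R + 1 : ℝ)‖ := Real.le_norm_self _
    linarith
  · exact h U subset_rfl hU

theorem surj (c : ℂ) (n : ℕ) (V : Set ℂ) (hV : IsOpen V) (hVc : IsPreconnected V)
    (h0 : (f c)^[n] 0 ∈ V) : (f c)^[n] '' cmp c n V = V := by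
  have hUo : IsOpen (cmp c n V) := (hV.preimage (QL.cont_it c n)).connectedComponentIn
  have h0m : (0 : ℂ) ∈ cmp c n V := mem_connectedComponentIn h0
  have himg : IsOpen ((f c)^[n] '' cmp c n V) :=
    open_map c n _ hUo isPreconnected_connectedComponentIn ⟨0, h0m⟩
  have hsub : (f c)^[n] '' cmp c n V ⊆ V := by
    rintro _ ⟨z, hz, rfl⟩
    exact cmp_sub hz
  apply Set.Subset.antisymm hsub
  -- relatively closed
  have hcl : ∀ v ∈ V, v ∈ closure ((f c)^[n] '' cmp c n V) → v ∈ (f c)^[n] '' cmp c n V := by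
    intro v hv hvc
    obtain ⟨e, he, heV⟩ := Metric.isOpen_iff.1 hV v hv
    have hA : IsCompact (closedBall v (e / 2)) := isCompact_closedBall _ _
    have hAV : closedBall v (e / 2) ⊆ V := (closedBall_subset_ball (by linarith)).trans heV
    have h1 := (cpt_part c n V _ hA hAV).image (QL.cont_it c n)
    have h2 : v ∈ closure ((f c)^[n] '' (cmp c n V ∩ (f c)^[n] ⁻¹' closedBall v (e / 2))) := by
      rw [Metric.mem_closure_iff] at hvc ⊢
      intro a ha
      obtain ⟨b, hb, hab⟩ := hvc (min a (e / 2)) (lt_min ha (by linarith))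
      obtain ⟨z, hz, rfl⟩ := hb
      refine ⟨_, ⟨z, ⟨hz, ?_⟩, rfl⟩, hab.trans_le (min_le_left _ _)⟩
      rw [Set.mem_preimage, mem_closedBall, dist_comm]
      exact hab.le.trans (min_le_right _ _)
    rw [h1.isClosed.closure_eq] at h2
    obtain ⟨z, hz, hzv⟩ := h2
    exact ⟨z, hz.1, hzv⟩
  have h2 := hVc.subset_left_of_subset_union himg
    (v := (closure ((f c)^[n] '' cmp c n V))ᶜ) isClosed_closure.isOpen_compl
    (Set.disjoint_left.2 fun x hx hx' => hx' (subset_closure hx))
    (fun v hv => by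
      by_cases h3 : v ∈ closure ((f c)^[n] '' cmp c n V)
      · exact Or.inl (hcl v hv h3)
      · exact Or.inr h3)
    ⟨_, h0, ⟨0, h0m, rfl⟩⟩
  exact h2

/-- separation of the small neighbourhood from its negative -/
theorem exists_eps (c : ℂ) (X : Set ℂ) (hX : IsCompact X) (j : ℕ)
    (h : ∀ x ∈ X, ∀ y ∈ X, (f c)^[j] x ≠ -(f c)^[j] y) : ∃ e : ℝ, 0 < e ∧
    ∀ x ∈ thickening e X, ∀ y ∈ thickening e X, (f c)^[j] x ≠ -(f c)^[j] y := by
  have hcl : IsClosed {q : ℂ × ℂ | (f c)^[j] q.1 = -(f c)^[j] q.2} := by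
    apply isClosed_eq
    · exact (QL.cont_it c j).comp continuous_fst
    · exact ((QL.cont_it c j).comp continuous_snd).neg
  have hcpt : IsCompact (X ×ˢ X) := hX.prod hX
  have hdis : Disjoint (X ×ˢ X) {q : ℂ × ℂ | (f c)^[j] q.1 = -(f c)^[j] q.2} := by
    rw [Set.disjoint_left]
    rintro ⟨x, y⟩ ⟨hx, hy⟩ hq
    exact h x hx y hy hq
  obtain ⟨e, he, hd⟩ := hdis.exists_thickenings hcpt hcl
  refine ⟨e, he, fun x hx y hy hxy => ?_⟩
  rw [Set.disjoint_left] at hd
  refine hd (a := (x, y)) ?_ (self_subset_thickening he _ hxy)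
  rw [mem_thickening_iff] at hx hy ⊢
  obtain ⟨x', hx', hxx⟩ := hx
  obtain ⟨y', hy', hyy⟩ := hy
  refine ⟨(x', y'), ⟨hx', hy'⟩, ?_⟩
  rw [Prod.dist_eq]
  exact max_lt hxx hyy

theorem exists_eps_all (c : ℂ) (X : Set ℂ) (hX : IsCompact X) (n : ℕ)
    (h : ∀ j, 0 < j → j < n → ∀ x ∈ X, ∀ y ∈ X, (f c)^[j] x ≠ -(f c)^[j] y) :
    ∃ e : ℝ, 0 < e ∧ ∀ j, 0 < j → j < n →
      ∀ x ∈ thickening e X, ∀ y ∈ thickening e X, (f c)^[j] x ≠ -(f c)^[j] y := by
  induction n with
  | zero => exact ⟨1, one_pos, fun j _ hj => by omega⟩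
  | succ n ih =>
    obtain ⟨e, he, h1⟩ := ih fun j h0 hj => h j h0 (by omega)
    rcases Nat.eq_zero_or_pos n with h0 | h0
    · subst h0
      exact ⟨1, one_pos, fun j hj0 hj => by omega⟩
    · obtain ⟨e', he', h2⟩ := exists_eps c X hX n (h n h0 (by omega))
      refine ⟨min e e', lt_min he he', fun j hj0 hj x hx y hy => ?_⟩
      rcases Nat.lt_succ_iff_lt_or_eq.1 hj with h3 | h3
      · exact h1 j hj0 h3 x (thickening_mono (min_le_left _ _) X hx) y
          (thickening_mono (min_le_left _ _) X hy)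
      · subst h3
        exact h2 x (thickening_mono (min_le_right _ _) X hx) y
          (thickening_mono (min_le_right _ _) X hy)

/-! ### Multiplicities -/

theorem mult_one (p : ℂ[X]) (z : ℂ) (h0 : p.eval z = 0) (h1 : p.derivative.eval z ≠ 0) :
    p.rootMultiplicity z = 1 := by
  have hp : p ≠ 0 := by
    rintro rfl
    simp at h1
  have h2 : 0 < p.rootMultiplicity z := (Polynomial.rootMultiplicity_pos hp).2 h0
  have h3 : ¬ 1 < p.rootMultiplicity z := by
    intro h
    exact h1 (Polynomial.one_lt_rootMultiplicity_iff_isRoot hp |>.1 h).2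
  omega

theorem mult_two (r : ℂ[X]) (h0 : r.eval 0 = 0) (h1 : r.derivative.eval 0 ≠ 0) :
    (r.comp (Polynomial.X ^ 2)).rootMultiplicity 0 = 2 := by
  obtain ⟨s, hs⟩ : Polynomial.X ∣ r := by
    rw [Polynomial.X_dvd_iff, Polynomial.coeff_zero_eq_eval_zero]
    exact h0
  have h2 : s.eval 0 ≠ 0 := by
    rw [hs] at h1
    simpa using h1
  have h3 : r.comp (Polynomial.X ^ 2) = s.comp (Polynomial.X ^ 2) * (Polynomial.X - C 0) ^ 2 := by
    rw [hs, mul_comp, X_comp, C_0, sub_zero, mul_comm]
  have h4 : (s.comp (Polynomial.X ^ 2)).eval 0 ≠ 0 := by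
    rw [eval_comp]
    simpa using h2
  have h5 : s.comp (Polynomial.X ^ 2) ≠ 0 := by
    rintro h
    rw [h] at h4
    simp at h4
  rw [h3, Polynomial.rootMultiplicity_mul_X_sub_C_pow h5,
    Polynomial.rootMultiplicity_eq_zero h4]

end QLD

open QLD in
theorem stmt_QLD : Stmt_QLD := by
  intro c n X hX
  obtain ⟨e, he, hsep⟩ := exists_eps_all c X hX.cpt n hX.dis
  have hn : 1 ≤ n := by
    have := hX.two
    omega
  refine ⟨e, he, fun V hV hXV hU => ?_⟩
  have h0V : (f c)^[n] 0 ∈ V := hXV (hX.inv hX.zer)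
  refine ⟨fun z hz => cmp_sub hz,
    fun A hA hAc => cpt_part c n V A hAc hA, fun v hv => ?_⟩
  classical
  obtain ⟨z, hz, hzv⟩ : v ∈ (f c)^[n] '' cmp c n V := by
    rw [surj c n V hV.1 hV.2.1.isPreconnected h0V]
    exact hv
  have hzn := neg_mem_cmp hn hz h0V
  set p : ℂ[X] := PCF.itp (Polynomial.X ^ 2 + C c) n - C v with hp
  have hpe : ∀ w, p.eval w = (f c)^[n] w - v := by
    intro w
    rw [hp, eval_sub, eval_C, itp_eval]
  -- the roots in `U`
  have hroots : ∀ w ∈ cmp c n V, p.eval w = 0 → w = z ∨ w = -z := by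
    intro w hw hw0
    rw [hpe, sub_eq_zero] at hw0
    have h1 := last_diff c n z w (hzv.trans hw0.symm)
      (fun j hj0 hjn => hsep j hj0 hjn z (hU hz) w (hU hw))
    rcases h1 with h1 | h1
    · omega
    · exact sq_eq c z w h1
  have hpz : p.eval z = 0 := by rw [hpe, hzv, sub_self]
  have hpz' : p.eval (-z) = 0 := by rw [hpe, even_it c hn, hzv, sub_self]
  have hder : ∀ w ∈ cmp c n V, w ≠ 0 → p.derivative.eval w ≠ 0 := by
    intro w hw hw0
    rw [hp, derivative_sub, derivative_C, sub_zero, itp_deriv, Finset.prod_ne_zero_iff]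
    intro j hj
    rw [Finset.mem_range] at hj
    refine mul_ne_zero two_ne_zero ?_
    rcases Nat.eq_zero_or_pos j with h0 | h0
    · subst h0
      exact hw0
    · intro h
      apply hsep j h0 hj w (hU hw) w (hU hw)
      rw [h, neg_zero]
  by_cases hz0 : z = 0
  · -- the critical value
    subst hz0
    obtain ⟨m, rfl⟩ : ∃ m, n = m + 1 := ⟨n - 1, by omega⟩
    have hpne : p ≠ 0 := by
      intro h
      have h1 : (R4C.f c)^[m + 1] '' cmp c (m + 1) V ⊆ {v} := by
        rintro _ ⟨w, hw, rfl⟩
        have := hpe w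
        rw [h, eval_zero] at this
        exact (sub_eq_zero.1 this.symm)
      have h2 := (open_map c (m + 1) (cmp c (m + 1) V)
        (hV.1.preimage (QL.cont_it c (m + 1))).connectedComponentIn
        isPreconnected_connectedComponentIn ⟨0, hz⟩)
      have h3 : v ∈ (R4C.f c)^[m + 1] '' cmp c (m + 1) V := ⟨0, hz, hzv⟩
      have h4 : ((R4C.f c)^[m + 1] '' cmp c (m + 1) V).Infinite :=
        infinite_of_mem_nhds v (h2.mem_nhds h3)
      exact h4 ((Set.finite_singleton v).subset h1)
    set r : ℂ[X] := (PCF.itp (Polynomial.X ^ 2 + C c) m).comp (Polynomial.X + C c) - C v with hr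
    have hpr : p = r.comp (Polynomial.X ^ 2) := by
      rw [hp, hr, itp_succ', sub_comp, C_comp, Polynomial.comp_assoc]
      simp
    have hm2 : p.rootMultiplicity 0 = 2 := by
      rw [hpr]
      apply mult_two
      · rw [hr, eval_sub, eval_C, eval_comp, itp_eval, ← hzv, Function.iterate_succ_apply]
        simp [f]
      · rw [hr, derivative_sub, derivative_C, sub_zero, derivative_comp, eval_mul, eval_comp,
          itp_deriv]
        simp only [derivative_add, derivative_X, derivative_C, add_zero, eval_one, one_mul,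
          eval_add, eval_X, eval_C, zero_add]
        rw [Finset.prod_ne_zero_iff]
        intro j hj
        rw [Finset.mem_range] at hj
        refine mul_ne_zero two_ne_zero fun h => ?_
        apply hsep (j + 1) (by omega) (by omega) 0 (hU hz) 0 (hU hz)
        have h1 : (f c)^[j + 1] 0 = 0 := by
          rw [Function.iterate_succ_apply]
          have : f c 0 = c := by simp [f]
          rw [this]
          exact h
        rw [h1, neg_zero]
    have hfil : p.roots.filter (fun w => w ∈ cmp c (m + 1) V) = Multiset.replicate 2 0 := by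
      ext w
      rw [Multiset.count_filter, Multiset.count_replicate, count_roots]
      by_cases hw : w ∈ cmp c (m + 1) V
      · rw [if_pos hw]
        by_cases hw0 : w = 0
        · subst hw0
          rw [if_pos rfl, hm2]
        · rw [if_neg (Ne.symm hw0)]
          apply Polynomial.rootMultiplicity_eq_zero
          intro h
          rcases hroots w hw h with h1 | h1
          · exact hw0 h1
          · exact hw0 (by rw [h1, neg_zero])
      · rw [if_neg hw, if_neg]
        intro h
        exact hw (h ▸ hz)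
    rw [hfil, Multiset.card_replicate]
  · -- two simple roots
    have hne : z ≠ -z := by
      intro h
      apply hz0
      have : (2 : ℂ) * z = 0 := by linear_combination h
      simpa using this
    have hfil : p.roots.filter (fun w => w ∈ cmp c n V) = {z, -z} := by
      ext w
      rw [Multiset.count_filter, count_roots]
      by_cases hw : w ∈ cmp c n V
      · rw [if_pos hw]
        by_cases hw1 : w = z
        · subst hw1
          rw [mult_one p w hpz (hder w hz hz0)]
          simp [hne]
        · by_cases hw2 : w = -z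
          · rw [hw2, mult_one p (-z) hpz' (hder (-z) hzn (neg_ne_zero.2 hz0))]
            simp [hne]
          · rw [Polynomial.rootMultiplicity_eq_zero]
            · simp [hw1, hw2]
            · intro h
              rcases hroots w hw h with h1 | h1
              · exact hw1 h1
              · exact hw2 h1
      · rw [if_neg hw]
        have hw1 : w ≠ z := fun h => hw (h ▸ hz)
        have hw2 : w ≠ -z := fun h => hw (h ▸ hzn)
        simp [hw1, hw2]
    rw [hfil]
    simp

end R4C
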