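import Pool.Agent.Work.MP_e3f5d9_al_cx.ELM

/-!
# Block REG (helper99): regions
-/

set_option autoImplicit false
set_option linter.unusedSectionVars false

open Polynomial unitInterval Topology Metric Filter

namespace R4C

namespace REGB

open ELMB

/-- The closure of the complement of `K` is backward invariant. -/
lemma back (c z : ℂ) (h : f c z ∈ closure (K c)ᶜ) : z ∈ closure (K c)ᶜ := by
  rw [Metric.mem_closure_iff] at h ⊢
  intro e he
  obtain ⟨w, hw, hd⟩ := h (e * e) (by positivity)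
  obtain ⟨x, hx⟩ : ∃ x : ℂ, x ^ 2 = w - c := IsAlgClosed.exists_pow_nat_eq _ two_pos
  have hfx : f c x = w := by unfold f; rw [hx]; ring
  have hK : x ∉ K c := by
    intro h1
    apply hw
    rw [← hfx]
    exact (f_mem_K c x).2 h1
  have hK' : -x ∉ K c := by
    intro h1
    exact hK ((neg_mem_K c x).1 h1)
  have hm : ‖z - x‖ * ‖z + x‖ < e * e := by
    rw [← norm_mul]
    have h1 : (z - x) * (z + x) = f c z - w := by rw [← hfx]; unfold f; ring
    rw [h1, ← dist_eq_norm]
    exact hd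
  by_cases h1 : ‖z - x‖ < e
  · exact ⟨x, hK, by rw [dist_eq_norm]; exact h1⟩
  · have h2 : ‖z + x‖ < e := by
      by_contra h2
      push Not at h1 h2
      have := mul_le_mul h1 h2 he.le (norm_nonneg _)
      linarith
    exact ⟨-x, hK', by rw [dist_eq_norm, sub_neg_eq_add]; exact h2⟩

lemma back_iter (c z : ℂ) (n : ℕ) (h : (f c)^[n] z ∈ closure (K c)ᶜ) : z ∈ closure (K c)ᶜ := by
  induction n with
  | zero => exact h
  | succ n ih =>
    rw [iter_succ] at h
    exact ih (back c _ h)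

lemma iter_diff (c : ℂ) (n : ℕ) : Differentiable ℂ ((f c)^[n]) := by
  induction n with
  | zero => exact differentiable_id
  | succ n ih =>
    have : (f c)^[n + 1] = fun z => ((f c)^[n] z) ^ 2 + c := by
      funext z
      rw [iter_succ]
      rfl
    rw [this]
    fun_prop

/-- A small invariant disc around a periodic critical point. -/
lemma small_disc (c : ℂ) (n : ℕ) (hn : 1 ≤ n) (h : (f c)^[n] 0 = 0) (e : ℝ) (he : 0 < e) :
    ∃ r : ℝ, 0 < r ∧ (∀ z : ℂ, ‖z‖ < r → ‖(f c)^[n] z‖ < r) ∧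
      ∀ j < n, ∀ z : ℂ, ‖z‖ < r → dist ((f c)^[j] z) ((f c)^[j] 0) < e := by
  obtain ⟨m, rfl⟩ : ∃ m, n = m + 1 := ⟨n - 1, by omega⟩
  have hf0 : f c 0 = c := by simp [f]
  have hc : (f c)^[m] c = 0 := by
    rw [← h, Function.iterate_succ_apply, hf0]
  obtain ⟨L, hL⟩ := ((iter_diff c m).differentiableAt (x := c)).isBigO_sub.bound
  simp only [hc, sub_zero] at hL
  have hcont : Tendsto (f c) (𝓝 0) (𝓝 c) := by
    have := (f_cont c).tendsto 0
    rwa [hf0] at this
  have h1 : ∀ᶠ z in 𝓝 (0 : ℂ), ‖(f c)^[m + 1] z‖ ≤ L * ‖z‖ ^ 2 := by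
    filter_upwards [hcont.eventually hL] with z hz
    rw [Function.iterate_succ_apply]
    refine hz.trans (le_of_eq ?_)
    have : f c z - c = z ^ 2 := by unfold f; ring
    rw [this, norm_pow]
  have h2 : ∀ᶠ z in 𝓝 (0 : ℂ), L * ‖z‖ ≤ 1 := by
    have h3 : Tendsto (fun z : ℂ => L * ‖z‖) (𝓝 0) (𝓝 (L * ‖(0 : ℂ)‖)) :=
      (Continuous.tendsto (by fun_prop) 0)
    rw [norm_zero, mul_zero] at h3
    exact (h3.eventually (gt_mem_nhds one_pos)).mono fun z hz => le_of_lt hz
  have h3 : ∀ᶠ z in 𝓝 (0 : ℂ), ∀ j ∈ Set.Iio (m + 1), dist ((f c)^[j] z) ((f c)^[j] 0) < e := by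
    rw [Filter.eventually_all_finite (Set.finite_Iio _)]
    intro j _
    exact Metric.tendsto_nhds.1 ((iter_cont c j).tendsto 0) e he
  obtain ⟨r, hr, hball⟩ := Metric.eventually_nhds_iff.1 ((h1.and h2).and h3)
  refine ⟨r, hr, ?_, ?_⟩
  · intro z hz
    obtain ⟨⟨h3, h4⟩, _⟩ := hball (y := z) (by rwa [dist_zero_right])
    have h5 : 0 ≤ ‖z‖ := norm_nonneg z
    nlinarith
  · intro j hj z hz
    exact (hball (y := z) (by rwa [dist_zero_right])).2 j hj

/-- A periodic critical point lies in the interior of `K`. -/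
lemma zero_int (c : ℂ) (n : ℕ) (hn : 1 ≤ n) (h : (f c)^[n] 0 = 0) :
    (0 : ℂ) ∉ closure (K c)ᶜ := by
  obtain ⟨r, hr, hinv, -⟩ := small_disc c n hn h 1 one_pos
  have hK : ball (0 : ℂ) r ⊆ K c := by
    intro z hz
    rw [mem_ball_zero_iff] at hz
    by_contra hzK
    have h3 := stmt_ELM c
    have h4 := h3.2.2.2.2.2.2.2.2.1 z hzK
    have h5 : ∀ k : ℕ, ‖(f c)^[n * k] z‖ < r := by
      intro k
      induction k with
      | zero => simpa using hz
      | succ k ih =>
        have : n * (k + 1) = n + n * k := by ring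
        rw [this, iter_add]
        exact hinv _ ih
    obtain ⟨N, hN⟩ := (h4.eventually (eventually_ge_atTop r)).exists_forall_of_atTop
    have h6 := hN (n * N) (Nat.le_mul_of_pos_left N hn)
    linarith [h5 N]
  intro h3
  rw [Metric.mem_closure_iff] at h3
  obtain ⟨w, hw, hd⟩ := h3 r hr
  apply hw
  apply hK
  rwa [mem_ball, dist_comm]

/-- The map `f` is open. -/
lemma isOpenMap_f (c : ℂ) : IsOpenMap (f c) := by
  intro U hU
  rw [Metric.isOpen_iff] at hU ⊢
  rintro _ ⟨z, hz, rfl⟩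
  obtain ⟨e, he, hball⟩ := hU z hz
  refine ⟨e * e, by positivity, fun w hw => ?_⟩
  rw [mem_ball, dist_comm] at hw
  obtain ⟨x, hx⟩ : ∃ x : ℂ, x ^ 2 = w - c := IsAlgClosed.exists_pow_nat_eq _ two_pos
  have hfx : f c x = w := by unfold f; rw [hx]; ring
  have hfx' : f c (-x) = w := by unfold f; rw [neg_sq, hx]; ring
  have hm : ‖z - x‖ * ‖z + x‖ < e * e := by
    rw [← norm_mul]
    have h1 : (z - x) * (z + x) = f c z - w := by rw [← hfx]; unfold f; ring
    rw [h1, ← dist_eq_norm]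
    exact hw
  by_cases h1 : ‖z - x‖ < e
  · exact ⟨x, hball (by rw [mem_ball, dist_comm, dist_eq_norm]; exact h1), hfx⟩
  · have h2 : ‖z + x‖ < e := by
      by_contra h2
      push Not at h1 h2
      have := mul_le_mul h1 h2 he.le (norm_nonneg _)
      linarith
    exact ⟨-x, hball (by rw [mem_ball, dist_comm, dist_eq_norm, sub_neg_eq_add]; exact h2),
      hfx'⟩

lemma isOpenMap_iter (c : ℂ) (n : ℕ) : IsOpenMap ((f c)^[n]) := by
  induction n with
  | zero => exact IsOpenMap.id
  | succ n ih =>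
    rw [Function.iterate_succ']
    exact (isOpenMap_f c).comp ih

lemma ball_back (c : ℂ) (R : ℝ) (hR : rad c ≤ R) (z : ℂ) (hz : f c z ∈ closedBall (0 : ℂ) R) :
    z ∈ closedBall (0 : ℂ) R := by
  rw [mem_closedBall_zero_iff] at hz ⊢
  by_contra hc
  push Not at hc
  have h1 : rad c ≤ ‖z‖ := hR.trans hc.le
  have h2 := two_mul_le c z h1
  have h3 := rad_pos c
  linarith

/-- Regions that contain everything outside of a small neighbourhood of `P`. -/
theorem reg_small (c : ℂ) (R e : ℝ) (he : 0 < e) : ∃ A, Region c A ∧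
    closedBall 0 R \ thickening e (P c) ⊆ A := by
  set R' := max R (rad c) with hR'
  have hsub : closedBall (0 : ℂ) R ⊆ closedBall 0 R' := closedBall_subset_closedBall
    (le_max_left _ _)
  by_cases h0 : 0 ∈ P c
  · obtain ⟨n, hn, h⟩ := id h0
    obtain ⟨r, hr, hinv, hsm⟩ := small_disc c n hn h e he
    set B : Set ℂ := ⋃ j ∈ Set.Iio n, (f c)^[j] '' ball 0 r with hB
    have hBo : IsOpen B := isOpen_biUnion fun j _ => isOpenMap_iter c j _ isOpen_ball
    have hBf : ∀ z ∈ B, f c z ∈ B := by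
      intro z hz
      rw [hB, Set.mem_iUnion₂] at hz
      obtain ⟨j, hj, x, hx, rfl⟩ := hz
      rw [← iter_succ]
      by_cases h1 : j + 1 < n
      · rw [hB, Set.mem_iUnion₂]
        exact ⟨j + 1, h1, x, hx, rfl⟩
      · have h2 : j + 1 = n := by
          have : j < n := hj
          omega
        rw [h2, hB, Set.mem_iUnion₂]
        refine ⟨0, hn, (f c)^[n] x, ?_, rfl⟩
        rw [mem_ball_zero_iff] at hx ⊢
        exact hinv x hx
    have h0B : (0 : ℂ) ∈ B := by
      rw [hB, Set.mem_iUnion₂]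
      exact ⟨0, hn, 0, mem_ball_self hr, rfl⟩
    have hit : ∀ k, (f c)^[k] 0 ∈ B := by
      intro k
      induction k with
      | zero => exact h0B
      | succ k ih => rw [iter_succ]; exact hBf _ ih
    refine ⟨closedBall 0 R' \ B, ⟨(isCompact_closedBall _ _).diff hBo, ?_, ?_⟩, ?_⟩
    · intro z hz
      exact ⟨ball_back c R' (le_max_right _ _) z hz.1, fun h1 => hz.2 (hBf z h1)⟩
    · intro _
      rw [Set.disjoint_left]
      rintro p ⟨k, hk, rfl⟩ hpA
      exact hpA.2 (hit k)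
    · intro z hz
      refine ⟨hsub hz.1, fun hzB => hz.2 ?_⟩
      rw [hB, Set.mem_iUnion₂] at hzB
      obtain ⟨j, hj, x, hx, rfl⟩ := hzB
      rw [mem_thickening_iff]
      refine ⟨(f c)^[j] 0, ?_, hsm j hj x (mem_ball_zero_iff.1 hx)⟩
      rcases Nat.eq_zero_or_pos j with rfl | h1
      · exact h0
      · exact ⟨j, h1, rfl⟩
  · exact ⟨closedBall 0 R', ⟨isCompact_closedBall _ _,
      ball_back c R' (le_max_right _ _), fun h => absurd h h0⟩,
      Set.sdiff_subset.trans hsub⟩

end REGB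

open ELMB REGB in
/-- **REG** -/
theorem stmt_REG : Stmt_REG := by
  intro c R hP
  set R' := max R (rad c) with hR'
  have hbi : ∀ z, f c z ∈ closedBall (0 : ℂ) R' → z ∈ closedBall (0 : ℂ) R' := by
    intro z hz
    rw [mem_closedBall_zero_iff] at hz ⊢
    by_contra hc
    push Not at hc
    have h1 : rad c ≤ ‖z‖ := (le_max_right _ _).trans hc.le
    have h2 := two_mul_le c z h1
    have h3 := rad_pos c
    linarith
  have hsub : closedBall (0 : ℂ) R ⊆ closedBall 0 R' := closedBall_subset_closedBall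
    (le_max_left _ _)
  by_cases h0 : 0 ∈ P c
  · refine ⟨closedBall 0 R' ∩ closure (K c)ᶜ, ⟨?_, ?_, ?_⟩, ?_, fun hm => absurd h0 hm.ne⟩
    · exact (isCompact_closedBall _ _).inter_right isClosed_closure
    · intro z hz
      exact ⟨hbi z hz.1, back c z hz.2⟩
    · intro _
      rw [Set.disjoint_left]
      rintro p ⟨k, hk, rfl⟩ hpA
      obtain ⟨n, hn, h⟩ := h0
      exact zero_int c n hn h (back_iter c 0 k hpA.2)
    · exact Set.inter_subset_inter_left _ hsub
  · refine ⟨closedBall 0 R', ⟨isCompact_closedBall _ _, hbi, fun h => absurd h h0⟩, ?_,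
      fun _ => hsub⟩
    exact Set.inter_subset_left.trans hsub

end R4C
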