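import Pool.Agent.Work.MP_e3f5d9_al_cx.Interface

/-!
# SAM: the sides of the postcritical points do not depend on the ray at the critical value
-/

set_option autoImplicit false

open Set Topology Metric

namespace R4C

namespace SAM

/-- `B` is clopen in `S` without `x`. -/
def Sp (S : Set ℂ) (x : ℂ) (B : Set ℂ) : Prop :=
  (∃ U, IsOpen U ∧ x ∉ U ∧ S ∩ U = B) ∧ ∃ V, IsOpen V ∧ x ∉ V ∧ S ∩ V = S \ insert x B

lemma Sp.sub {S B : Set ℂ} {x : ℂ} (h : Sp S x B) : B ⊆ S := by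
  obtain ⟨⟨U, _, _, h1⟩, _⟩ := h
  rw [← h1]; exact inter_subset_left

lemma Sp.notin {S B : Set ℂ} {x : ℂ} (h : Sp S x B) : x ∉ B := by
  obtain ⟨⟨U, _, h2, h1⟩, _⟩ := h
  rw [← h1]; exact fun h3 => h2 h3.2

lemma Sp.compl {S B : Set ℂ} {x : ℂ} (h : Sp S x B) : Sp S x (S \ insert x B) := by
  have hs := h.sub
  have hn := h.notin
  obtain ⟨h1, h2⟩ := h
  refine ⟨h2, ?_⟩
  obtain ⟨U, hU, hx, hUB⟩ := h1
  refine ⟨U, hU, hx, ?_⟩
  rw [hUB]
  ext z
  simp only [mem_sdiff, mem_insert_iff, not_or, not_and, not_not]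
  constructor
  · intro hz
    exact ⟨hs hz, fun h3 => hn (h3 ▸ hz), fun _ _ => hz⟩
  · rintro ⟨h3, h4, h5⟩
    exact h5 h3 h4

/-- CL. -/
lemma Sp.conn {S B : Set ℂ} {x : ℂ} (hS : IsPreconnected S) (hx : x ∈ S) (h : Sp S x B) :
    IsPreconnected (insert x B) := by
  have hn := h.notin
  obtain ⟨⟨U, hU, hxU, hUB⟩, V, hV, hxV, hVB⟩ := h
  have key : ∀ u v : Set ℂ, IsOpen u → IsOpen v → insert x B ⊆ u ∪ v → x ∈ u →
      (insert x B ∩ v).Nonempty → (insert x B ∩ (u ∩ v)).Nonempty := by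
    intro u v hu hv hsub hxu hne
    obtain ⟨y, hy, hyv⟩ := hne
    rcases hy with rfl | hy
    · exact ⟨y, Or.inl rfl, hxu, hyv⟩
    have hyS : y ∈ S ∧ y ∈ U := by rw [← mem_inter_iff, hUB]; exact hy
    have h1 := hS (u ∪ V) (v ∩ U) (hu.union hV) (hv.inter hU) ?_ ⟨x, hx, Or.inl hxu⟩
      ⟨y, hyS.1, hyv, hyS.2⟩
    · obtain ⟨z, hz, h2, h3, h4⟩ := h1
      have hzB : z ∈ B := by rw [← hUB]; exact ⟨hz, h4⟩
      rcases h2 with h2 | h2
      · exact ⟨z, Or.inr hzB, h2, h3⟩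
      · exfalso
        have h5 : z ∈ S \ insert x B := by rw [← hVB]; exact ⟨hz, h2⟩
        exact h5.2 (Or.inr hzB)
    · intro z hz
      by_cases h2 : z ∈ insert x B
      · rcases h2 with rfl | h2
        · exact Or.inl (Or.inl hxu)
        · rcases hsub (Or.inr h2) with h3 | h3
          · exact Or.inl (Or.inl h3)
          · refine Or.inr ⟨h3, ?_⟩
            have : z ∈ S ∩ U := by rw [hUB]; exact h2
            exact this.2
      · have : z ∈ S ∩ V := by rw [hVB]; exact ⟨hz, h2⟩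
        exact Or.inl (Or.inr this.2)
  intro u v hu hv hsub hne1 hne2
  rcases hsub (mem_insert x B) with h1 | h1
  · exact key u v hu hv hsub h1 hne2
  · have := key v u hv hu (by rwa [union_comm]) h1 hne1
    rwa [inter_comm v u] at this

/-- A connected subset that misses `x` and meets `B` is in `B`. -/
lemma Sp.conn_sub {S B T : Set ℂ} {x y : ℂ} (h : Sp S x B) (hT : IsPreconnected T) (hTS : T ⊆ S)
    (hxT : x ∉ T) (hyT : y ∈ T) (hyB : y ∈ B) : T ⊆ B := by
  obtain ⟨⟨U, hU, hxU, hUB⟩, V, hV, hxV, hVB⟩ := h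
  intro z hz
  by_contra hzB
  have hyU : y ∈ S ∩ U := by rw [hUB]; exact hyB
  have hzV : z ∈ S ∩ V := by
    rw [hVB]
    refine ⟨hTS hz, ?_⟩
    rintro (rfl | h3)
    · exact hxT hz
    · exact hzB h3
  have h1 := hT U V hU hV ?_ ⟨y, hyT, hyU.2⟩ ⟨z, hz, hzV.2⟩
  · obtain ⟨w, hw, hwU, hwV⟩ := h1
    have h2 : w ∈ B := by rw [← hUB]; exact ⟨hTS hw, hwU⟩
    have h3 : w ∈ S \ insert x B := by rw [← hVB]; exact ⟨hTS hw, hwV⟩
    exact h3.2 (Or.inr h2)
  · intro w hw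
    by_cases h2 : w ∈ B
    · left
      have : w ∈ S ∩ U := by rw [hUB]; exact h2
      exact this.2
    · right
      have : w ∈ S ∩ V := by
        rw [hVB]
        refine ⟨hTS hw, ?_⟩
        rintro (rfl | h3)
        · exact hxT hw
        · exact h2 h3
      exact this.2

/-- `x` separates the points of `F` in `S`. -/
def Cut (S F : Set ℂ) (x : ℂ) : Prop :=
  ∃ B, Sp S x B ∧ (B ∩ F).Nonempty ∧ ((S \ insert x B) ∩ F).Nonempty

/-- (i). -/
lemma not_all_cut {S F : Set ℂ} (hS : IsPreconnected S) (hF : F.Finite) (hFS : F ⊆ S)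
    (hne : F.Nonempty) : ¬ ∀ x ∈ F, Cut S F x := by
  intro hall
  have key : ∀ n : ℕ, ∀ x ∈ F, ∀ B, Sp S x B → (B ∩ F).Nonempty → (B ∩ F).ncard = n → False := by
    intro n
    induction n using Nat.strong_induction_on with
    | _ n ih =>
      intro x hx B hB hBne hcard
      obtain ⟨y, hyB, hyF⟩ := hBne
      have hxy : x ≠ y := fun h1 => hB.notin (h1 ▸ hyB)
      obtain ⟨D, hD, hD1, hD2⟩ := hall y hyF
      -- the part that does not contain `x`
      obtain ⟨D0, hD0, hD0ne, hxD0⟩ : ∃ D0, Sp S y D0 ∧ (D0 ∩ F).Nonempty ∧ x ∉ D0 := by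
        by_cases hxD : x ∈ D
        · exact ⟨_, hD.compl, hD2, fun h1 => h1.2 (Or.inr hxD)⟩
        · exact ⟨D, hD, hD1, hxD⟩
      have h1 : insert y D0 ⊆ B := by
        apply hB.conn_sub (hD0.conn hS (hFS hyF)) ?_ ?_ (mem_insert y D0) hyB
        · exact insert_subset (hFS hyF) hD0.sub
        · rintro (h2 | h2)
          · exact hxy h2
          · exact hxD0 h2
      have h2 : D0 ∩ F ⊂ B ∩ F := by
        refine ⟨inter_subset_inter_left _ (fun z hz => h1 (Or.inr hz)), fun h3 => ?_⟩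
        exact hD0.notin (h3 ⟨hyB, hyF⟩).1
      have h3 : (D0 ∩ F).ncard < (B ∩ F).ncard := ncard_lt_ncard h2 (hF.subset inter_subset_right)
      exact ih _ (hcard ▸ h3) y hyF D0 hD0 hD0ne rfl
  obtain ⟨x, hx⟩ := hne
  obtain ⟨B, hB, h1, _⟩ := hall x hx
  exact key _ x hx B hB h1 rfl

lemma f_eq {c z w : ℂ} : f c z = f c w ↔ z = w ∨ z = -w := by
  unfold f
  constructor
  · intro h
    have h1 : (z - w) * (z + w) = 0 := by linear_combination h
    rcases mul_eq_zero.1 h1 with h2 | h2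
    · exact Or.inl (sub_eq_zero.1 h2)
    · exact Or.inr (eq_neg_of_add_eq_zero_left h2)
  · rintro (rfl | rfl)
    · rfl
    · ring

lemma f_surj (c y : ℂ) : ∃ z, f c z = y := by
  obtain ⟨z, hz⟩ := IsAlgClosed.exists_pow_nat_eq (y - c) (n := 2) (by norm_num)
  exact ⟨z, by unfold f; rw [hz]; ring⟩

lemma continuous_f (c : ℂ) : Continuous (f c) := by
  unfold f; fun_prop

lemma f_not_leg {c : ℂ} {ψ : ℂ → ℂ} {u : ℂ} {s : ℂ → Bool} (hE : Stmt_ELM) (h : Dat c ψ u s)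
    {z : ℂ} (hz : z ∈ K c) (h0 : z ≠ 0) : f c z ∉ leg ψ u := by
  intro h1
  have h2 := leg_inter_K h.lnd h.nrm h1 (((hE c).2.2.2.2.2.1 z).2 hz)
  rw [h.val] at h2
  have h3 : z ^ 2 = 0 := by
    have : z ^ 2 + c = c := h2
    linear_combination this
  exact h0 (by simpa using h3)

/-- (ii). -/
lemma cut_fwd (hE : Stmt_ELM) {c : ℂ} {ψ : ℂ → ℂ} {u : ℂ} {s : ℂ → Bool} (h : Dat c ψ u s)
    (hK : IsPreconnected (K c)) {x : ℂ} (hx : x ∈ P c) (hcut : Cut (K c) (P c) x) :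
    Cut (K c) (P c) (f c x) := by
  have hPK := P_sub_K h.mis.fin
  have hKc : IsCompact (K c) := (hE c).2.2.2.2.1
  have hfK : ∀ z, f c z ∈ K c ↔ z ∈ K c := (hE c).2.2.2.2.2.1
  have h0K : (0 : ℂ) ∈ K c := (hE c).2.2.2.2.2.2.2.1 h.mis.fin
  have hx0 : x ≠ 0 := fun h1 => h.mis.ne (h1 ▸ hx)
  obtain ⟨B, hB, hB1, h0B⟩ : ∃ B, Sp (K c) x B ∧ (B ∩ P c).Nonempty ∧ (0 : ℂ) ∉ B := by
    obtain ⟨B, hB, h1, h2⟩ := hcut
    by_cases h0 : (0 : ℂ) ∈ B
    · exact ⟨_, hB.compl, h2, fun h3 => h3.2 (Or.inr h0)⟩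
    · exact ⟨B, hB, h1, h0⟩
  have hAK : insert x B ⊆ K c := insert_subset (hPK hx) hB.sub
  have hA0 : ∀ z ∈ insert x B, z ≠ 0 := by
    rintro z (rfl | hz) rfl
    · exact hx0 rfl
    · exact h0B hz
  have hconst := h.side.loc _ (hB.conn hK (hPK hx)) (fun z hz => f_not_leg hE h (hAK hz) (hA0 z hz))
  have hinj : ∀ z ∈ insert x B, ∀ w ∈ insert x B, f c z = f c w → z = w := by
    intro z hz w hw hzw
    rcases f_eq.1 hzw with h1 | h1
    · exact h1
    · exfalso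
      have h2 := h.side.odd w (f_not_leg hE h (hAK hw) (hA0 w hw))
      rw [← h1, hconst z hz w hw] at h2
      revert h2
      cases s w <;> simp
  have hfx : f c x ∉ f c '' B := by
    rintro ⟨z, hz, h1⟩
    have := hinj z (Or.inr hz) x (Or.inl rfl) h1
    exact hB.notin (this ▸ hz)
  refine ⟨f c '' B, ⟨?_, ?_⟩, ?_, ?_⟩
  · -- relatively open
    obtain ⟨⟨U, hU, hxU, hUB⟩, _⟩ := hB
    have hB2 : IsCompact (K c ∩ (U ∪ (fun z => -z) ⁻¹' U)ᶜ) :=
      hKc.inter_right (hU.union (hU.preimage continuous_neg)).isClosed_compl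
    have hcl : IsClosed (f c '' (K c ∩ (U ∪ (fun z => -z) ⁻¹' U)ᶜ)) :=
      (hB2.image (continuous_f c)).isClosed
    have hmem : ∀ y ∈ K c, y ∉ f c '' B → y ∈ f c '' (K c ∩ (U ∪ (fun z => -z) ⁻¹' U)ᶜ) := by
      intro y hy hyB
      obtain ⟨z, rfl⟩ := f_surj c y
      have hz := (hfK z).1 hy
      refine ⟨z, ⟨hz, ?_⟩, rfl⟩
      rintro (h1 | h1)
      · exact hyB ⟨z, by rw [← hUB]; exact ⟨hz, h1⟩, rfl⟩
      · refine hyB ⟨-z, ?_, ?_⟩
        · rw [← hUB]
          exact ⟨(hE c).2.2.2.2.2.2.1 z |>.2 hz, h1⟩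
        · exact f_eq.2 (Or.inr rfl)
    have hmem' : ∀ y, y ∈ f c '' B → y ∉ f c '' (K c ∩ (U ∪ (fun z => -z) ⁻¹' U)ᶜ) := by
      rintro y ⟨z, hz, rfl⟩ ⟨w, ⟨hwK, hw⟩, h1⟩
      have hzU : z ∈ K c ∩ U := by rw [hUB]; exact hz
      apply hw
      rcases f_eq.1 h1 with h2 | h2
      · left; rw [h2]; exact hzU.2
      · right
        show -w ∈ U
        rw [h2, neg_neg]; exact hzU.2
    refine ⟨(f c '' (K c ∩ (U ∪ (fun z => -z) ⁻¹' U)ᶜ))ᶜ, hcl.isOpen_compl, ?_, ?_⟩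
    · intro h1
      exact h1 (hmem _ ((hfK x).2 (hPK hx)) hfx)
    · ext y
      constructor
      · rintro ⟨h1, h2⟩
        by_contra h3
        exact h2 (hmem y h1 h3)
      · intro h1
        refine ⟨?_, hmem' y h1⟩
        obtain ⟨z, hz, rfl⟩ := h1
        exact (hfK z).2 (hAK (Or.inr hz))
  · obtain ⟨_, V, hV, hxV, hVB⟩ := hB
    have hins : insert x B = K c ∩ Vᶜ := by
      ext z
      constructor
      · intro hz
        refine ⟨hAK hz, fun h1 => ?_⟩
        have : z ∈ K c \ insert x B := by rw [← hVB]; exact ⟨hAK hz, h1⟩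
        exact this.2 hz
      · rintro ⟨h1, h2⟩
        by_contra h3
        have : z ∈ K c ∩ V := by rw [hVB]; exact ⟨h1, h3⟩
        exact h2 this.2
    have hcl : IsClosed (f c '' insert x B) := by
      rw [hins]
      exact ((hKc.inter_right hV.isClosed_compl).image (continuous_f c)).isClosed
    refine ⟨(f c '' insert x B)ᶜ, hcl.isOpen_compl, fun h1 => h1 ⟨x, Or.inl rfl, rfl⟩, ?_⟩
    rw [image_insert_eq]
    rfl
  · obtain ⟨b, hb, hbP⟩ := hB1
    exact ⟨f c b, ⟨b, hb, rfl⟩, P_fwd hbP⟩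
  · refine ⟨c, ⟨hPK (c_mem_P c), ?_⟩, c_mem_P c⟩
    have h1 : ∀ z, f c z = c → z = 0 := by
      intro z hz
      have h3 : z ^ 2 = 0 := by
        have : z ^ 2 + c = c := hz
        linear_combination this
      simpa using h3
    rintro (h2 | ⟨z, hz, h2⟩)
    · exact hx0 (h1 x h2.symm)
    · exact hA0 z (Or.inr hz) (h1 z h2)

/-- (EP): the critical value does not separate the postcritical set. -/
lemma not_cut_c (hE : Stmt_ELM) {c : ℂ} {ψ : ℂ → ℂ} {u : ℂ} {s : ℂ → Bool} (h : Dat c ψ u s)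
    (hK : IsPreconnected (K c)) : ¬ Cut (K c) (P c) c := by
  intro hc
  refine not_all_cut hK h.mis.fin (P_sub_K h.mis.fin) ⟨c, c_mem_P c⟩ ?_
  rintro x ⟨n, hn, rfl⟩
  obtain ⟨m, rfl⟩ : ∃ m, n = m + 1 := ⟨n - 1, by omega⟩
  clear hn
  induction m with
  | zero => simpa [f] using hc
  | succ m ih =>
    rw [iter_succ]
    exact cut_fwd hE h hK ⟨m + 1, by omega, rfl⟩ ih

end SAM

open SAM in
/-- SAM. -/
theorem stmt_SAM : Stmt_ELM → Stmt_HLF → Stmt_SAM := by
  intro hE hH c ψ u u' s s' h h'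
  have hfK : ∀ z, f c z ∈ K c ↔ z ∈ K c := (hE c).2.2.2.2.2.1
  have hPK := P_sub_K h.mis.fin
  obtain ⟨hKconn, _, _, _, hhalf, _⟩ := hH c ψ u s h
  obtain ⟨_, _, _, _, hhalf', _⟩ := hH c ψ u' s' h'
  have hmem : ∀ z ∈ K c, z ≠ 0 → ∀ b, z ∈ half c s b ↔ s z = b := by
    intro z hz h0 b
    exact ⟨fun h1 => h1.2.resolve_left h0, fun h1 => ⟨hz, Or.inr h1⟩⟩
  have hmem' : ∀ z ∈ K c, z ≠ 0 → ∀ b, z ∈ half c s' b ↔ s' z = b := by
    intro z hz h0 b
    exact ⟨fun h1 => h1.2.resolve_left h0, fun h1 => ⟨hz, Or.inr h1⟩⟩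
  -- the sets of equal and of different sides
  have hcomp : ∀ e : Bool, IsCompact (f c '' ((half c s true ∩ half c s' (xor e true)) ∪
      (half c s false ∩ half c s' (xor e false)))) := by
    intro e
    refine (IsCompact.union ?_ ?_).image (continuous_f c)
    · exact (hhalf true).1.inter_right (hhalf' _).1.isClosed
    · exact (hhalf false).1.inter_right (hhalf' _).1.isClosed
  -- description of the image
  have himg : ∀ e : Bool, ∀ z ∈ K c, z ≠ 0 → (f c z ∈ f c '' ((half c s true ∩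
      half c s' (xor e true)) ∪ (half c s false ∩ half c s' (xor e false))) ↔
      s' z = xor e (s z)) := by
    intro e z hz h0
    have hneg : ∀ w ∈ K c, w ≠ 0 → (w ∈ (half c s true ∩ half c s' (xor e true)) ∪
        (half c s false ∩ half c s' (xor e false)) ↔ s' w = xor e (s w)) := by
      intro w hw hw0
      rw [mem_union, mem_inter_iff, mem_inter_iff, hmem w hw hw0, hmem w hw hw0, hmem' w hw hw0,
        hmem' w hw hw0]
      cases s w <;> cases s' w <;> cases e <;> simp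
    constructor
    · rintro ⟨w, hw, h1⟩
      have hwK : w ∈ K c := by
        rcases hw with hw | hw
        · exact hw.1.1
        · exact hw.1.1
      rcases f_eq.1 h1 with h2 | h2
      · subst h2; exact (hneg w hwK h0).1 hw
      · subst h2
        have h3 := (hneg (-z) hwK (by simpa using h0)).1 hw
        rw [h.side.odd z (f_not_leg hE h hz h0), h'.side.odd z (f_not_leg hE h' hz h0)] at h3
        revert h3
        cases s z <;> cases s' z <;> cases e <;> simp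
    · intro h1
      exact ⟨z, (hneg z hz h0).2 h1, rfl⟩
  have hc0 : ∀ z, f c z ≠ c ↔ z ≠ 0 := by
    intro z
    rw [not_iff_not]
    constructor
    · intro hz
      have h3 : z ^ 2 = 0 := by
        have : z ^ 2 + c = c := hz
        linear_combination this
      simpa using h3
    · rintro rfl; simp [f]
  set F : Bool → Set ℂ := fun e => f c '' ((half c s true ∩ half c s' (xor e true)) ∪
      (half c s false ∩ half c s' (xor e false))) with hF
  have hFc : ∀ e, c ∈ F e := by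
    intro e
    refine ⟨0, Or.inl ⟨(hhalf true).2.2.1, (hhalf' _).2.2.1⟩, by simp [f]⟩
  have hFx : ∀ y ∈ K c, y ≠ c → ∀ e, y ∈ F e ↔ y ∉ F (!e) := by
    intro y hy hyc e
    obtain ⟨z, rfl⟩ := f_surj c y
    have hz := (hfK z).1 hy
    have h0 := (hc0 z).1 hyc
    rw [himg e z hz h0, himg (!e) z hz h0]
    cases s z <;> cases s' z <;> cases e <;> simp
  have hSp : Sp (K c) c (K c ∩ (F true)ᶜ) := by
    refine ⟨⟨(F true)ᶜ, (hcomp true).isClosed.isOpen_compl, fun h1 => h1 (hFc true), rfl⟩,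
      (F false)ᶜ, (hcomp false).isClosed.isOpen_compl, fun h1 => h1 (hFc false), ?_⟩
    ext y
    constructor
    · rintro ⟨h1, h2⟩
      refine ⟨h1, ?_⟩
      rintro (rfl | ⟨_, h3⟩)
      · exact h2 (hFc false)
      · have hyc : y ≠ c := fun h4 => h2 (h4 ▸ hFc false)
        exact h2 ((hFx y h1 hyc false).2 h3)
    · rintro ⟨h1, h2⟩
      refine ⟨h1, fun h3 => h2 ?_⟩
      by_cases hyc : y = c
      · exact Or.inl hyc
      · exact Or.inr ⟨h1, (hFx y h1 hyc false).1 h3⟩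
  have hnc := not_cut_c hE h hKconn.isPreconnected
  have hx0 : ∀ x ∈ P c, x ≠ 0 := fun x hx h1 => h.mis.ne (h1 ▸ hx)
  by_cases h1 : ((K c ∩ (F true)ᶜ) ∩ P c).Nonempty
  · refine ⟨false, fun x hx => ?_⟩
    have hfx : f c x ∈ K c := (hfK x).2 (hPK hx)
    have hfxc : f c x ≠ c := (hc0 x).2 (hx0 x hx)
    have h2 : ¬ ((K c \ insert c (K c ∩ (F true)ᶜ)) ∩ P c).Nonempty := fun h3 =>
      hnc ⟨_, hSp, h1, h3⟩
    have h3 : f c x ∈ K c ∩ (F true)ᶜ := by
      by_contra h4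
      refine h2 ⟨f c x, ⟨hfx, ?_⟩, P_fwd hx⟩
      rintro (h5 | h5)
      · exact hfxc h5
      · exact h4 h5
    have h4 := (hFx _ hfx hfxc false).2 h3.2
    exact (himg false x (hPK hx) (hx0 x hx)).1 h4
  · refine ⟨true, fun x hx => ?_⟩
    have hfx : f c x ∈ K c := (hfK x).2 (hPK hx)
    have h3 : f c x ∈ F true := by
      by_contra h4
      exact h1 ⟨f c x, ⟨hfx, h4⟩, P_fwd hx⟩
    exact (himg true x (hPK hx) (hx0 x hx)).1 h3

end R4C
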