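import Pool.Agent.Work.MP_e3f5d9_al_cx.Interface

/-!
# Block SHR: shrinking of the lifts of short paths
-/

set_option autoImplicit false

open Polynomial unitInterval Topology Metric Filter

namespace R4C

namespace SHR

/-- A chart at `a`. -/
structure Chart (c a : ℂ) (m : ℕ) (D : Set ℂ) : Prop where
  one : m ≠ 0
  opn : IsOpen D
  pre : IsPreconnected D
  zer : (0 : ℂ) ∈ D
  bdd : Bornology.IsBounded ((fun x : ℂ => a + x ^ m) '' D)
  esc : ∃ w ∈ D, a + w ^ m ∉ K c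
  br : ∀ (N : ℕ) (z w : ℂ), w ∈ D → (f c)^[N] z = a + w ^ m →
    ∃ s : ℂ → ℂ, DifferentiableOn ℂ s D ∧ (∀ x ∈ D, (f c)^[N] (s x) = a + x ^ m) ∧ s w = z

lemma exists_chart (hC : Stmt_CHT) (hB : Stmt_BR) (hU : Stmt_BRU) (c a : ℂ) (hfin : (P c).Finite)
    (h0 : (0 : ℂ) ∈ P c → a ∉ P c) : ∃ m D, Chart c a m D := by
  obtain ⟨W, hW, hcv, haW, hbd, ⟨z0, hz0, hzK⟩, hP⟩ := hC c a hfin
  by_cases ha : a ∈ P c
  · refine ⟨2, {x | a + x ^ 2 ∈ W}, ⟨by norm_num, ?_, ?_, ?_, ?_, ?_, ?_⟩⟩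
    · exact hW.preimage (by fun_prop)
    · have hs : StarConvex ℝ (0 : ℂ) {x : ℂ | a + x ^ 2 ∈ W} := by
        intro x hx p q hp hq hpq
        show a + (p • (0 : ℂ) + q • x) ^ 2 ∈ W
        have h1 : a + (p • (0 : ℂ) + q • x) ^ 2 = (1 - q ^ 2) • a + (q ^ 2) • (a + x ^ 2) := by
          simp only [Complex.real_smul, smul_zero]
          push_cast
          ring
        rw [h1]
        have hq1 : q ≤ 1 := by linarith
        exact hcv haW hx (by nlinarith) (by positivity) (by ring)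
      exact (hs.isPathConnected (by simpa using haW)).isConnected.isPreconnected
    · simpa using haW
    · refine hbd.subset ?_
      rintro _ ⟨x, hx, rfl⟩
      exact hx
    · obtain ⟨w, hw⟩ := IsAlgClosed.exists_pow_nat_eq (z0 - a) (n := 2) (by norm_num)
      refine ⟨w, ?_, ?_⟩
      · show a + w ^ 2 ∈ W
        rw [hw]; simpa using hz0
      · rw [hw]; simpa using hzK
    · intro N z w hw hz
      exact hB c a W hfin hW hcv haW (fun h => absurd ha (h0 h)) hP N z w hw hz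
  · have hdis : Disjoint (P c) W := by
      rw [Set.disjoint_left]
      intro p hp hpW
      exact ha (hP p hp hpW ▸ hp)
    refine ⟨1, {x | a + x ^ 1 ∈ W}, ⟨by norm_num, ?_, ?_, ?_, ?_, ?_, ?_⟩⟩
    · exact hW.preimage (by fun_prop)
    · have hs : Convex ℝ {x : ℂ | a + x ^ 1 ∈ W} := by
        intro x hx y hy p q hp hq hpq
        show a + (p • x + q • y) ^ 1 ∈ W
        have h1 : a + (p • x + q • y) ^ 1 = p • (a + x ^ 1) + q • (a + y ^ 1) := by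
          have h2 : q = 1 - p := by linarith
          subst h2
          simp only [Complex.real_smul]
          push_cast
          ring
        rw [h1]
        exact hcv hx hy hp hq hpq
      exact hs.isPreconnected
    · simpa using haW
    · refine hbd.subset ?_
      rintro _ ⟨x, hx, rfl⟩
      exact hx
    · refine ⟨z0 - a, ?_, ?_⟩
      · show a + (z0 - a) ^ 1 ∈ W
        simpa using hz0
      · simpa using hzK
    · intro N z w hw hz
      obtain ⟨s, hs1, hs2, hs3⟩ := hU c W hW hcv hdis N z (a + w ^ 1) hw hz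
      refine ⟨fun x => s (a + x ^ 1), ?_, ?_, hs3⟩
      · exact hs1.comp (by fun_prop) (fun x hx => hx)
      · intro x hx
        exact hs2 _ hx

/-- The lift of a path in the image of a ball stays in the image of the branch. -/
lemma stays {c a : ℂ} {m : ℕ} {D : Set ℂ} (h : Chart c a m D) {ρ : ℝ} (hρ : 0 < ρ)
    (hD : closedBall (0 : ℂ) ρ ⊆ D) {N : ℕ} {s : ℂ → ℂ} (hs : DifferentiableOn ℂ s D)
    (hs2 : ∀ x ∈ D, (f c)^[N] (s x) = a + x ^ m) (Γ : C(I, ℂ))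
    (hΓ : ∀ t, (f c)^[N] (Γ t) ∈ ball a (ρ ^ m)) {x0 : ℂ} (hx0 : x0 ∈ ball (0 : ℂ) ρ)
    (h0 : s x0 = Γ 0) : ∀ t, Γ t ∈ s '' closedBall 0 ρ := by
  have hopen : IsOpen (s '' ball 0 ρ) := by
    have han : AnalyticOnNhd ℂ s D := hs.analyticOnNhd h.opn
    rcases han.is_constant_or_isOpen h.pre with ⟨w, hw⟩ | h1
    · exfalso
      have h2 : ∀ x ∈ D, a + x ^ m = (f c)^[N] w := fun x hx => by rw [← hs2 x hx, hw x hx]
      have h3 := h2 0 h.zer
      have h4 := h2 (ρ : ℂ) (hD (by simp [abs_of_pos hρ]))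
      rw [← h3] at h4
      have h5 : (ρ : ℂ) ^ m = 0 := by
        have := add_left_cancel h4
        rw [this, zero_pow h.one]
      have h6 : (ρ : ℂ) = 0 := by
        exact pow_eq_zero_iff h.one |>.1 h5
      exact hρ.ne' (by exact_mod_cast h6)
    · exact h1 _ (ball_subset_closedBall.trans hD) isOpen_ball
  have hclosed : IsClosed (s '' closedBall 0 ρ) :=
    ((isCompact_closedBall (0 : ℂ) ρ).image_of_continuousOn (hs.continuousOn.mono hD)).isClosed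
  have heq : Γ ⁻¹' (s '' ball 0 ρ) = Γ ⁻¹' (s '' closedBall 0 ρ) := by
    apply Set.Subset.antisymm
    · exact Set.preimage_mono (Set.image_mono ball_subset_closedBall)
    · rintro t ⟨x, hx, hxt⟩
      refine ⟨x, ?_, hxt⟩
      have h1 := hs2 x (hD hx)
      have h2 := hΓ t
      rw [← hxt, h1] at h2
      simp only [mem_ball, dist_self_add_left, norm_pow, dist_zero_right] at h2 ⊢
      exact lt_of_pow_lt_pow_left₀ m hρ.le h2
  have hclopen : IsClopen (Γ ⁻¹' (s '' ball 0 ρ)) :=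
    ⟨heq ▸ hclosed.preimage Γ.continuous, hopen.preimage Γ.continuous⟩
  have huniv := hclopen.eq_univ ⟨0, ⟨x0, hx0, h0⟩⟩
  intro t
  have : t ∈ Γ ⁻¹' (s '' closedBall 0 ρ) := by
    rw [← heq, huniv]; trivial
  exact this

end SHR

/-- SHR in the form without a rate. -/
def Stmt_USHR : Prop := ∀ (c : ℂ) (A : Set ℂ), (P c).Finite → Region c A →
  ∃ δ : ℝ, 0 < δ ∧ ∀ ε : ℝ, 0 < ε → ∃ N0 : ℕ, ∀ N, N0 ≤ N → ∀ Γ : C(I, ℂ),
    (∀ s, (f c)^[N] (Γ s) ∈ A) → (∀ s s', ‖(f c)^[N] (Γ s) - (f c)^[N] (Γ s')‖ ≤ δ) →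
    ∀ s s', ‖Γ s - Γ s'‖ ≤ ε

open SHR in
theorem stmt_USHR (hC : Stmt_CHT) (hB : Stmt_BR) (hU : Stmt_BRU) (hS : Stmt_SML) : Stmt_USHR := by
  intro c A hfin hA
  have hch : ∀ a : A, ∃ m D, Chart c a m D := fun a =>
    exists_chart hC hB hU c a hfin (fun h0 ha => Set.disjoint_left.1 (hA.2.2 h0) ha a.2)
  choose m D hD using hch
  have hrho : ∀ a : A, ∃ ρ : ℝ, 0 < ρ ∧ closedBall (0 : ℂ) ρ ⊆ D a := fun a =>
    Metric.nhds_basis_closedBall.mem_iff.1 ((hD a).opn.mem_nhds (hD a).zer)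
  choose ρ hρ hρD using hrho
  obtain ⟨T, hT⟩ := hA.1.elim_finite_subcover (fun a : A => ball (a : ℂ) (ρ a ^ m a))
    (fun a => isOpen_ball) (fun x hx => Set.mem_iUnion.2 ⟨⟨x, hx⟩, mem_ball_self
      (pow_pos (hρ _) _)⟩)
  obtain ⟨δ, hδ, hleb⟩ := lebesgue_number_lemma_of_metric (ι := T)
    (c := fun a => ball (a.1 : ℂ) (ρ a.1 ^ m a.1)) hA.1 (fun a => isOpen_ball)
    (fun x hx => by
      have := hT hx
      simp only [Set.mem_iUnion] at this ⊢
      obtain ⟨i, hi, hx⟩ := this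
      exact ⟨⟨i, hi⟩, hx⟩)
  refine ⟨δ / 2, by positivity, ?_⟩
  intro ε hε
  have hN : ∀ a : A, ∃ N0 : ℕ, ∀ N, N0 ≤ N → ∀ s : ℂ → ℂ, DifferentiableOn ℂ s (D a) →
      (∀ w ∈ D a, (f c)^[N] (s w) = a + w ^ m a) → ∀ w ∈ closedBall (0 : ℂ) (ρ a),
      ∀ w' ∈ closedBall (0 : ℂ) (ρ a), ‖s w - s w'‖ < ε := fun a =>
    hS c (D a) (closedBall 0 (ρ a)) (fun w => a + w ^ m a) (hD a).opn (hD a).pre
      (by fun_prop) (hD a).bdd (hD a).esc (hρD a) (isCompact_closedBall _ _) ε hε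
  choose N0 hN0 using hN
  refine ⟨T.sup N0, ?_⟩
  intro N hNN Γ hΓA hΓδ t t'
  obtain ⟨a, ha⟩ := hleb _ (hΓA 0)
  have hsub : ∀ t, (f c)^[N] (Γ t) ∈ ball (a.1 : ℂ) (ρ a.1 ^ m a.1) := by
    intro t
    apply ha
    rw [mem_ball, dist_eq_norm]
    exact (hΓδ t 0).trans_lt (by linarith)
  obtain ⟨x0, hx0⟩ := IsAlgClosed.exists_pow_nat_eq ((f c)^[N] (Γ 0) - a.1)
    (Nat.pos_of_ne_zero (hD a.1).one)
  have hx0' : x0 ∈ ball (0 : ℂ) (ρ a.1) := by
    have h1 := hsub 0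
    rw [mem_ball, dist_eq_norm, ← hx0, norm_pow] at h1
    rw [mem_ball, dist_zero_right]
    exact lt_of_pow_lt_pow_left₀ _ (hρ _).le h1
  obtain ⟨s, hs1, hs2, hs3⟩ := (hD a.1).br N (Γ 0) x0 (hρD _ (ball_subset_closedBall hx0'))
    (by rw [hx0]; ring)
  have hst := stays (hD a.1) (hρ a.1) (hρD a.1) hs1 hs2 Γ hsub hx0' hs3
  obtain ⟨w, hw, hwt⟩ := hst t
  obtain ⟨w', hw', hwt'⟩ := hst t'
  rw [← hwt, ← hwt']
  exact (hN0 a.1 N ((Finset.le_sup (f := N0) a.2).trans hNN) s hs1 hs2 w hw w' hw').le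

lemma SHR.mem_of_iter {c : ℂ} {A : Set ℂ} (hA : Region c A) :
    ∀ (N : ℕ) (z : ℂ), (f c)^[N] z ∈ A → z ∈ A := by
  intro N
  induction N with
  | zero => intro z hz; exact hz
  | succ N ih =>
    intro z hz
    rw [iter_succ] at hz
    exact ih z (hA.2.1 _ hz)

open SHR in
/-- SHR: shrinking of the lifts of short paths. -/
theorem stmt_SHR (hC : Stmt_CHT) (hB : Stmt_BR) (hU : Stmt_BRU) (hS : Stmt_SML) : Stmt_SHR := by
  intro c A hfin hA
  obtain ⟨δ, hδ, h⟩ := stmt_USHR hC hB hU hS c A hfin hA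
  obtain ⟨R, hR⟩ := hA.1.isBounded.exists_norm_le
  let S : ℕ → Set ℝ := fun N => {x | ∃ (Γ : C(I, ℂ)) (s s' : I), (∀ s, (f c)^[N] (Γ s) ∈ A) ∧
    (∀ s s', ‖(f c)^[N] (Γ s) - (f c)^[N] (Γ s')‖ ≤ δ) ∧ x = ‖Γ s - Γ s'‖}
  have hbdd : ∀ N, BddAbove (S N) := by
    intro N
    refine ⟨R + R, ?_⟩
    rintro x ⟨Γ, s, s', h1, -, rfl⟩
    exact (norm_sub_le _ _).trans (add_le_add (hR _ (mem_of_iter hA N _ (h1 s)))
      (hR _ (mem_of_iter hA N _ (h1 s'))))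
  refine ⟨δ, fun N => sSup (S N), hδ, ?_, ?_⟩
  · rw [Metric.tendsto_atTop]
    intro ε hε
    obtain ⟨N0, hN0⟩ := h (ε / 2) (by positivity)
    refine ⟨N0, fun N hN => ?_⟩
    have h1 : sSup (S N) ≤ ε / 2 := by
      apply Real.sSup_le _ (by positivity)
      rintro x ⟨Γ, s, s', h1, h2, rfl⟩
      exact hN0 N hN Γ h1 h2 s s'
    have h2 : 0 ≤ sSup (S N) := by
      apply Real.sSup_nonneg
      rintro x ⟨Γ, s, s', -, -, rfl⟩
      exact norm_nonneg _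
    rw [Real.dist_eq, sub_zero, abs_of_nonneg h2]
    linarith
  · intro N Γ h1 h2 s s'
    exact le_csSup (hbdd N) ⟨Γ, s, s', h1, h2, rfl⟩

end R4C
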