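import Pool.Agent.Work.MP_e3f5d9_al_cx.Interface

/-!
# R4C, blocks SID and DAT: side functions and the standing data
-/

set_option autoImplicit false

open Polynomial unitInterval Topology Metric Filter

namespace R4C

/-- SID. -/
theorem stmt_SID (hSQR : Stmt_SQR) : Stmt_SID := by
  intro c ψ hL u hu hc
  obtain ⟨B, hBc, hB⟩ := hSQR c ψ hL u hu
  rw [hc] at hB
  have hcl : c ∈ leg ψ u := ⟨1, le_refl _, by simp [hc]⟩
  have hsq : ∀ z, f c z ∉ leg ψ u → B (f c z) ^ 2 = z ^ 2 := by
    intro z hz
    rw [hB _ hz]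
    show z ^ 2 + c - c = z ^ 2
    ring
  have hz0 : ∀ z, f c z ∉ leg ψ u → z ≠ 0 := by
    rintro z hz rfl
    apply hz
    have : f c 0 = c := by simp [f]
    rw [this]
    exact hcl
  have hB0 : ∀ z, f c z ∉ leg ψ u → B (f c z) ≠ 0 := by
    intro z hz h
    have h1 := hsq z hz
    rw [h] at h1
    exact hz0 z hz (by simpa using h1.symm)
  have hdich : ∀ z, f c z ∉ leg ψ u → z = B (f c z) ∨ z = -B (f c z) := fun z hz =>
    sq_eq_sq_iff_eq_or_eq_neg.1 (hsq z hz).symm
  classical
  refine ⟨fun z => decide (z = B (f c z)), ⟨?_, ?_⟩⟩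
  · intro A hA hAl z hz z' hz'
    have hcont : ContinuousOn (fun z => z / B (f c z)) A := by
      refine continuousOn_id.div ?_ (fun x hx => hB0 x (hAl x hx))
      refine hBc.comp (Continuous.continuousOn ?_) (fun x hx => hAl x hx)
      unfold f
      fun_prop
    have hval : ∀ x ∈ A, x / B (f c x) = 1 ∨ x / B (f c x) = -1 := by
      intro x hx
      have h0 := hB0 x (hAl x hx)
      rcases hdich x (hAl x hx) with h | h
      · left
        rw [div_eq_one_iff_eq h0]
        exact h
      · right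
        rw [div_eq_iff h0]
        linear_combination h
    have hconst : z / B (f c z) = z' / B (f c z') := by
      have hT : IsTotallyDisconnected ((fun z => z / B (f c z)) '' A) := by
        apply Set.Countable.isTotallyDisconnected
        refine ((Set.toFinite ({1, -1} : Set ℂ)).subset ?_).countable
        rintro _ ⟨x, hx, rfl⟩
        exact hval x hx
      exact hT _ subset_rfl (hA.image _ hcont) ⟨z, hz, rfl⟩ ⟨z', hz', rfl⟩
    have key : ∀ x ∈ A, (x = B (f c x) ↔ x / B (f c x) = 1) := fun x hx =>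
      (div_eq_one_iff_eq (hB0 x (hAl x hx))).symm
    show decide (z = B (f c z)) = decide (z' = B (f c z'))
    rw [decide_eq_decide, key z hz, key z' hz', hconst]
  · intro z hz
    have he : f c (-z) = f c z := by simp [f]
    show decide (-z = B (f c (-z))) = !decide (z = B (f c z))
    rw [he]
    have h0 := hB0 z hz
    rcases hdich z hz with h | h
    · have h1 : ¬ (-z = B (f c z)) := by
        intro h2
        rw [← h] at h2
        exact hz0 z hz (self_eq_neg.1 h2.symm)
      rw [decide_eq_true h, decide_eq_false h1]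
      rfl
    · have h1 : -z = B (f c z) := by linear_combination -h
      have h2 : ¬ (z = B (f c z)) := by
        intro h3
        rw [← h3] at h1
        exact hz0 z hz (self_eq_neg.1 h1.symm)
      rw [decide_eq_true h1, decide_eq_false h2]
      rfl

/-- DAT. -/
theorem stmt_DAT (hELM : Stmt_ELM) (hBOT : Stmt_BOT) (hLND : Stmt_LND) (hNOI : Stmt_NOI)
    (hSID : Stmt_SID) : Stmt_DAT := by
  intro c hM
  obtain ⟨-, -, -, -, hKc, -, -, h0, -⟩ := hELM c
  obtain ⟨ψ0, hψ0⟩ := hBOT c (h0 hM.fin)
  obtain ⟨ψ, hψ, -⟩ := hLND c ψ0 hM.fin hψ0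
  have hfr : frontier (K c) = K c := by
    rw [hKc.isClosed.frontier_eq, hNOI c hM, Set.sdiff_empty]
  have hc : c ∈ ψ '' sphere 0 1 := by
    rw [hψ.img1, hfr]
    exact P_sub_K hM.fin (c_mem_P c)
  obtain ⟨u, hu, huc⟩ := hc
  have hu1 : ‖u‖ = 1 := by simpa using hu
  obtain ⟨s, hs⟩ := hSID c ψ hψ u hu1 huc
  exact ⟨ψ, u, s, hM, hψ, hu1, huc, hs⟩

end R4C
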