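import Pool.Agent.Work.MP_e3f5d9_al_cx.BOT
import Pool.Agent.Work.MP_e3f5d9_al_cx.BR
import Pool.Agent.Work.MP_e3f5d9_al_cx.CHT
import Pool.Agent.Work.MP_e3f5d9_al_cx.CMB
import Pool.Agent.Work.MP_e3f5d9_al_cx.CONN
import Pool.Agent.Work.MP_e3f5d9_al_cx.DSK
import Pool.Agent.Work.MP_e3f5d9_al_cx.ELM
import Pool.Agent.Work.MP_e3f5d9_al_cx.EXP
import Pool.Agent.Work.MP_e3f5d9_al_cx.HLF
import Pool.Agent.Work.MP_e3f5d9_al_cx.IMG
import Pool.Agent.Work.MP_e3f5d9_al_cx.JZ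
import Pool.Agent.Work.MP_e3f5d9_al_cx.LND
import Pool.Agent.Work.MP_e3f5d9_al_cx.PLF
import Pool.Agent.Work.MP_e3f5d9_al_cx.QL
import Pool.Agent.Work.MP_e3f5d9_al_cx.QLC
import Pool.Agent.Work.MP_e3f5d9_al_cx.QLD
import Pool.Agent.Work.MP_e3f5d9_al_cx.REG
import Pool.Agent.Work.MP_e3f5d9_al_cx.SAM
import Pool.Agent.Work.MP_e3f5d9_al_cx.SHR
import Pool.Agent.Work.MP_e3f5d9_al_cx.SID
import Pool.Agent.Work.MP_e3f5d9_al_cx.SML
import Pool.Agent.Work.MP_e3f5d9_al_cx.SQR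
import Pool.Agent.Work.MP_e3f5d9_al_helper91.RealJ

/-!
# R4C, block FIN: the final theorem
-/

set_option autoImplicit false

open Polynomial unitInterval Topology Metric Filter

namespace R4C

namespace FIN

lemma ksC_iter {c : ℂ} {ψ : ℂ → ℂ} {u : ℂ} {s : ℂ → Bool} (h : Dat c ψ u s) (n : ℕ) (x : P c) :
    ((ksC h).nxt^[n] x).1 = (f c)^[n] x.1 := by
  induction n with
  | zero => rfl
  | succ n ih =>
    rw [Function.iterate_succ_apply', iter_succ, ← ih]
    rfl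

lemma iter_c (c : ℂ) (n : ℕ) : (f c)^[n] c = (f c)^[n + 1] 0 := by
  rw [Function.iterate_succ_apply]
  congr 1
  simp [f]

lemma ksC_side {c : ℂ} {ψ : ℂ → ℂ} {u : ℂ} {s : ℂ → Bool} (h : Dat c ψ u s) (n : ℕ) :
    (ksC h).side ((ksC h).nxt^[n] (ksC h).o) = s ((f c)^[n + 1] 0) := by
  show s ((ksC h).nxt^[n] (ksC h).o).1 = _
  rw [ksC_iter, ← iter_c]
  rfl

/-- The postcritical set has at least three points. -/
lemma card_P {c : ℂ} (h0 : (0 : ℂ) ∉ P c) (hc2 : c ≠ -2) [Fintype (P c)] :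
    3 ≤ Fintype.card (P c) := by
  have hc0 : c ≠ 0 := fun h => h0 (by rw [← h]; exact c_mem_P c)
  have h1 := c_mem_P c
  have h2 := P_fwd h1
  have h3 := P_fwd h2
  have e12 : c ≠ f c c := by
    intro h
    have : c ^ 2 = 0 := by
      have h' : c = c ^ 2 + c := h
      linear_combination -h'
    exact hc0 (by simpa using this)
  have e2 : f c c ≠ 0 := fun h => h0 (h ▸ h2)
  have e13 : c ≠ f c (f c c) := by
    intro h
    have : (f c c) ^ 2 = 0 := by
      have h' : c = (f c c) ^ 2 + c := h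
      linear_combination -h'
    exact e2 (by simpa using this)
  have e23 : f c c ≠ f c (f c c) := by
    intro h
    have h4 : c ^ 2 + c = (c ^ 2 + c) ^ 2 + c := h
    have h5 : c ^ 3 * (c + 2) = 0 := by linear_combination -h4
    rcases mul_eq_zero.1 h5 with h6 | h6
    · exact hc0 (by simpa using h6)
    · exact hc2 (eq_neg_of_add_eq_zero_left h6)
  classical
  have h6 : ({⟨c, h1⟩, ⟨f c c, h2⟩, ⟨f c (f c c), h3⟩} : Finset (P c)).card = 3 := by
    rw [Finset.card_eq_three]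
    exact ⟨_, _, _, fun h => e12 (congrArg Subtype.val h), fun h => e13 (congrArg Subtype.val h),
      fun h => e23 (congrArg Subtype.val h), rfl⟩
  rw [← h6]
  exact Finset.card_le_univ _

/-- The data can be chosen such that the critical value is on the side `true`. -/
lemma exists_dat (hDAT : Stmt_DAT) {c : ℂ} (h : Mis c) :
    ∃ ψ u s, ∃ _ : Dat c ψ u s, s c = true := by
  obtain ⟨ψ, u, s, hD⟩ := hDAT c h
  cases hs : s c
  · refine ⟨ψ, u, fun z => !(s z), ⟨hD.mis, hD.lnd, hD.nrm, hD.val, ?_⟩, ?_⟩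
    · constructor
      · intro A hA hA' z hz z' hz'
        exact congrArg not (hD.side.loc A hA hA' z hz z' hz')
      · intro z hz
        exact congrArg not (hD.side.odd z hz)
    · show (!(s c)) = true
      rw [hs]; rfl
  · exact ⟨ψ, u, s, hD, hs⟩

open FIN in
/-- FIN from the blocks. -/
theorem stmt_FIN_of (hELM : Stmt_ELM) (hDAT : Stmt_DAT) (hEXP : Stmt_EXP) (hCMB : Stmt_CMB)
    (hT : Stmt_T) (hIMG : Stmt_IMG) (hJZ : Stmt_JZ) (hQL : Stmt_QL) (hPER : Stmt_PER) :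
    Stmt_FIN := by
  intro c hfin hren t ht
  constructor
  · intro h
    constructor
    · rintro rfl
      have e : (X ^ 2 + C 0 : ℂ[X]) = RealB.qf 0 := by simp [RealB.qf]
      rw [e] at ht h
      exact RealB.not_ig_zero t ht h
    · rintro rfl
      have e : (X ^ 2 + C (-2) : ℂ[X]) = RealB.qf (-2) := by simp [RealB.qf]
      rw [e] at ht h hfin
      exact RealB.not_ig_neg_two hfin t ht h
  · rintro ⟨hc0, hc2⟩
    have hP : PCF.postCrit (X ^ 2 + C c) = P c := (hELM c).2.2.2.2.2.2.2.2.2.2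
    have hfin' : (P c).Finite := hP ▸ hfin
    have h0 : (0 : ℂ) ∉ P c := fun h => hren (hPER c hfin' h hc0)
    obtain ⟨ψ, u, s, hD, hs⟩ := exists_dat hDAT ⟨hfin', h0⟩
    let _ : Fintype (P c) := hfin'.fintype
    classical
    have hreach : ∀ i, ∃ n, (ksC hD).nxt^[n] (ksC hD).o = i := by
      intro i
      obtain ⟨n, hn, h1⟩ := i.2
      obtain ⟨m, rfl⟩ : ∃ m, n = m + 1 := ⟨n - 1, by omega⟩
      refine ⟨m, Subtype.ext ?_⟩
      rw [ksC_iter, ← h1, ← iter_c]
      rfl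
    have hitin : ∀ i j, (∀ n, (ksC hD).side ((ksC hD).nxt^[n] i) =
        (ksC hD).side ((ksC hD).nxt^[n] j)) → i = j := by
      intro i j h
      apply Subtype.ext
      apply hEXP c ψ u s hD i.1 i.2 j.1 j.2
      intro n
      have h1 := h n
      have h2 : s ((ksC hD).nxt^[n] i).1 = s ((ksC hD).nxt^[n] j).1 := h1
      rwa [ksC_iter, ksC_iter] at h2
    have hcard : 3 ≤ Fintype.card (P c) := card_P h0 hc2
    have hkn : ∀ n, 2 ≤ n → ∃ k j, 0 < j ∧ j < n ∧
        (ksC hD).side ((ksC hD).nxt^[n * k + j - 1] (ksC hD).o) ≠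
          (ksC hD).side ((ksC hD).nxt^[j - 1] (ksC hD).o) := by
      intro n hn
      by_contra hcon
      push Not at hcon
      obtain ⟨m, X, hX⟩ := hJZ c ψ u s hD n hn (by
        intro k j hj hjn
        have h1 := hcon k j hj hjn
        rw [ksC_side, ksC_side] at h1
        rw [show n * k + j - 1 + 1 = n * k + j by omega, show j - 1 + 1 = j by omega] at h1
        exact h1)
      exact hren (hQL c m X hX)
    have hmix := hCMB (P c) (ksC hD) hreach hitin (by omega) hkn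
    have hig := hT (P c) (ksC hD) hreach hitin hcard hs hmix
    obtain ⟨e⟩ := hIMG c ψ u s hD t ht
    exact RealB.ig_of_equiv e.symm hig

end FIN

lemma prf_SHR : Stmt_SHR := stmt_SHR (stmt_CHT stmt_ELM) stmt_BR stmt_BRU (stmt_SML stmt_ELM)

lemma prf_NOI : Stmt_NOI :=
  stmt_NOI stmt_ELM stmt_BR (stmt_SML stmt_ELM) (stmt_CHT stmt_ELM)

lemma prf_SID : Stmt_SID := stmt_SID stmt_SQR

lemma prf_DAT : Stmt_DAT :=
  stmt_DAT stmt_ELM (stmt_BOT stmt_ELM) (stmt_LND stmt_ELM prf_SHR stmt_REG) prf_NOI prf_SID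

lemma prf_HLF : Stmt_HLF := stmt_HLF stmt_ELM prf_NOI

lemma prf_SAM : Stmt_SAM := stmt_SAM stmt_ELM prf_HLF

lemma prf_CON : Stmt_CON := stmt_CON stmt_ELM

lemma prf_EXP : Stmt_EXP := stmt_EXP stmt_ELM prf_SHR stmt_REG prf_HLF

lemma prf_IMG : Stmt_IMG := stmt_IMG prf_NOI prf_SID prf_SAM prf_CON

lemma prf_JZ : Stmt_JZ := stmt_JZ stmt_ELM prf_HLF prf_SHR stmt_REG

lemma prf_QL : Stmt_QL := stmt_QL stmt_DSK (stmt_QLC stmt_PLF stmt_ONE) stmt_QLD

/-- FIN: everything except the growth theorem for kneading groups and the periodic case. -/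
theorem stmt_FIN (hT : Stmt_T) (hPER : Stmt_PER) : Stmt_FIN :=
  FIN.stmt_FIN_of stmt_ELM prf_DAT prf_EXP stmt_CMB hT prf_IMG prf_JZ prf_QL hPER

end R4C
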