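import Pool.Agent.Work.MP_e3f5d9_al_cx.PERD

/-!
# Block PER: a periodic critical point gives a renormalization (helper46)

`n` = exact period of `0`, `U j` = component of the interior of `K` at `f^j 0`, `X` = closure of
`U 0` with the bounded components of its complement.  `X` satisfies `Sml c n X`.
-/

set_option autoImplicit false

open Topology Metric Filter unitInterval

namespace R4C

namespace PER

section

variable {c : ℂ} {n : ℕ} (hK : KF c) (hp : Per c n)

include hK hp

/-- a region that contains a neighbourhood of the boundary of `U 0` -/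
lemma exists_region : ∃ A : Set ℂ, Region c A ∧ ∃ δ : ℝ, 0 < δ ∧
    thickening δ (frontier (U c 0)) ⊆ A := by
  obtain ⟨ρ, hρ, hattr⟩ := attr hp
  obtain ⟨ρ', hρ', hball'⟩ := Metric.isOpen_iff.1 isOpen_interior (0 : ℂ) (zero_int hK hp)
  set r := min ρ ρ' / 2 with hr
  have hmin : 0 < min ρ ρ' := lt_min hρ hρ'
  have hr0 : 0 < r := half_pos hmin
  have hrρ : r < ρ := by have := min_le_left ρ ρ'; rw [hr]; linarith
  have hrρ' : r < ρ' := by have := min_le_right ρ ρ'; rw [hr]; linarith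
  set B : Set ℂ := ⋃ j ∈ Set.Iio n, (f c)^[j] '' ball 0 r with hB
  set B' : Set ℂ := ⋃ j ∈ Set.Iio n, (f c)^[j] '' closedBall 0 r with hB'
  have hBB' : B ⊆ B' := Set.biUnion_mono subset_rfl fun j _ => Set.image_mono ball_subset_closedBall
  have hBo : IsOpen B := isOpen_biUnion fun j _ => iter_open c j _ isOpen_ball
  have hB'c : IsCompact B' := (Set.finite_Iio n).isCompact_biUnion fun j _ =>
    (isCompact_closedBall _ _).image (iter_cont c j)
  have hB'i : B' ⊆ interior (K c) := by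
    intro z hz
    obtain ⟨j, _, y, hy, rfl⟩ := Set.mem_iUnion₂.1 hz
    rw [iter_int hK]
    exact hball' (closedBall_subset_ball hrρ' hy)
  have hBf : ∀ z ∈ B, f c z ∈ B := by
    intro z hz
    obtain ⟨j, hj, y, hy, rfl⟩ := Set.mem_iUnion₂.1 hz
    have hj' : j < n := hj
    rw [← iter_succ]
    rcases Nat.lt_or_ge (j + 1) n with h1 | h1
    · exact Set.mem_iUnion₂.2 ⟨j + 1, h1, y, hy, rfl⟩
    · have h2 : j + 1 = n := by omega
      rw [h2]
      refine Set.mem_iUnion₂.2 ⟨0, (by show 0 < n; omega), (f c)^[n] y, ?_, rfl⟩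
      have hy' : ‖y‖ < r := by simpa using hy
      have h3 := hattr y (hy'.trans hrρ)
      rw [mem_ball_zero_iff]
      linarith [norm_nonneg y]
  have hcrit : ∀ m : ℕ, (f c)^[m] 0 ∈ B := by
    intro m
    induction m with
    | zero =>
      have := hp.two
      exact Set.mem_iUnion₂.2 ⟨0, (by show 0 < n; omega), 0, mem_ball_self hr0, rfl⟩
    | succ m ih => rw [iter_succ]; exact hBf _ ih
  obtain ⟨M, hM⟩ := hK.cpt.isBounded.exists_norm_le
  set R := max (rad c) (M + 1) with hR
  refine ⟨closedBall 0 R \ B, ⟨?_, ?_, ?_⟩, ?_⟩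
  · exact (isCompact_closedBall _ _).diff hBo
  · rintro z ⟨hz1, hz2⟩
    refine ⟨?_, fun h => hz2 (hBf z h)⟩
    rw [mem_closedBall_zero_iff] at hz1 ⊢
    exact hK.bd z 1 R (le_max_left _ _) hz1
  · intro _
    rw [Set.disjoint_left]
    rintro z ⟨m, _, rfl⟩ hz
    exact hz.2 (hcrit m)
  · have hdis : Disjoint (frontier (U c 0)) B' := by
      rw [Set.disjoint_left]
      intro z hz hzB
      exact frontier_U_int hz (hB'i hzB)
    have hcf : IsCompact (frontier (U c 0)) :=
      hK.cpt.of_isClosed_subset isClosed_frontier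
        (frontier_subset_closure.trans (closure_U_K hK 0))
    obtain ⟨δ, hδ, hd⟩ := hdis.exists_thickenings hcf hB'c.isClosed
    refine ⟨min δ 1, lt_min hδ one_pos, fun z hz => ⟨?_, fun hzB => ?_⟩⟩
    · obtain ⟨x, hx, hxz⟩ := mem_thickening_iff.1 hz
      have h1 := hM x (closure_U_K hK 0 (frontier_subset_closure hx))
      have h2 : dist z x < 1 := hxz.trans_le (min_le_right _ _)
      rw [dist_eq_norm] at h2
      rw [mem_closedBall_zero_iff]
      have h3 : ‖z‖ ≤ ‖z - x‖ + ‖x‖ := by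
        have := norm_add_le (z - x) x
        rwa [sub_add_cancel] at this
      have h4 : M + 1 ≤ R := le_max_right _ _
      linarith
    · exact Set.disjoint_left.1 hd (thickening_mono (min_le_left _ _) _ hz)
        (self_subset_thickening hδ _ (hBB' hzB))

omit hK hp in
/-- a boundary point of `Xf 0` is a boundary point of `U 0` -/
lemma near_frontier {x y : ℂ} (hx : x ∈ Xf c 0) (hy : y ∉ Xf c 0)
    (hmin : ∀ x' ∈ Xf c 0, ‖y - x‖ ≤ ‖y - x'‖) : x ∈ frontier (U c 0) := by
  have h1 : x ∉ interior (Xf c 0) := by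
    intro hxi
    obtain ⟨ε, hε, hball⟩ := Metric.isOpen_iff.1 isOpen_interior x hxi
    have hxy : 0 < ‖y - x‖ := by
      rw [norm_pos_iff, sub_ne_zero]
      rintro rfl
      exact hy hx
    set s : ℝ := min (1 / 2) (ε / (2 * ‖y - x‖)) with hs
    have hs0 : 0 < s := lt_min (by norm_num) (by positivity)
    have hs1 : s ≤ 1 / 2 := min_le_left _ _
    have h2 : x + (s : ℂ) * (y - x) ∈ Xf c 0 := by
      apply interior_subset
      apply hball
      rw [mem_ball, dist_eq_norm, add_sub_cancel_left, norm_mul, Complex.norm_real,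
        Real.norm_of_nonneg hs0.le]
      have h3 : s * ‖y - x‖ ≤ ε / (2 * ‖y - x‖) * ‖y - x‖ :=
        mul_le_mul_of_nonneg_right (min_le_right _ _) hxy.le
      have h4 : ε / (2 * ‖y - x‖) * ‖y - x‖ = ε / 2 := by field_simp
      linarith
    have h3 := hmin _ h2
    have h4 : y - (x + (s : ℂ) * (y - x)) = ((1 - s : ℝ) : ℂ) * (y - x) := by
      push_cast
      ring
    rw [h4, norm_mul, Complex.norm_real, Real.norm_of_nonneg (by linarith)] at h3
    nlinarith
  have h2 : x ∈ closure (U c 0) := by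
    by_contra h
    apply h1
    rw [mem_interior]
    exact ⟨_, comp_subset_fill hx, isClosed_closure.isOpen_compl.connectedComponentIn,
      mem_connectedComponentIn h⟩
  rw [(U_open 0).frontier_eq]
  refine ⟨h2, fun h => h1 ?_⟩
  rw [mem_interior]
  exact ⟨U c 0, (subset_closure).trans (cl_sub_Xf 0), U_open 0, h⟩

lemma shr (hS : Stmt_SHR) (hfin : (P c).Finite) : Shr c n (Xf c 0) := by
  obtain ⟨A, hA, δ1, hδ1, hthick⟩ := exists_region hK hp
  obtain ⟨δ2, e, hδ2, he, hlift⟩ := hS c A hfin hA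
  refine ⟨min δ1 δ2, fun k => e (n * k), lt_min hδ1 hδ2, ?_, ?_⟩
  · refine he.comp ?_
    refine tendsto_atTop_mono (fun k => ?_) tendsto_id
    have := hp.two
    show k ≤ n * k
    nlinarith
  · intro k Γ x y hx hy hmin hxy hΓ
    have hxf := near_frontier hx hy hmin
    have hnorm : ∀ t : I, ∀ t' : I, ‖(f c)^[n * k] (Γ t) - (f c)^[n * k] (Γ t')‖ ≤ ‖y - x‖ := by
      intro t t'
      rw [hΓ t, hΓ t']
      have h1 : (1 - ((t : ℝ) : ℂ)) * y + ((t : ℝ) : ℂ) * x -
          ((1 - ((t' : ℝ) : ℂ)) * y + ((t' : ℝ) : ℂ) * x) =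
          (((t' : ℝ) - (t : ℝ) : ℝ) : ℂ) * (y - x) := by
        push_cast
        ring
      rw [h1, norm_mul, Complex.norm_real, Real.norm_eq_abs]
      have h2 : |(t' : ℝ) - (t : ℝ)| ≤ 1 := by
        rw [abs_le]
        constructor <;> linarith [t.2.1, t.2.2, t'.2.1, t'.2.2]
      calc |(t' : ℝ) - (t : ℝ)| * ‖y - x‖ ≤ 1 * ‖y - x‖ :=
            mul_le_mul_of_nonneg_right h2 (norm_nonneg _)
        _ = ‖y - x‖ := one_mul _
    refine hlift (n * k) Γ (fun s => ?_) fun s s' => (hnorm s s').trans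
      (hxy.le.trans (min_le_right _ _))
    apply hthick
    rw [mem_thickening_iff]
    refine ⟨x, hxf, ?_⟩
    have h1 := hnorm s 1
    rw [hΓ 1] at h1
    have h2 : (1 - (((1 : I) : ℝ) : ℂ)) * y + (((1 : I) : ℝ) : ℂ) * x = x := by simp
    rw [h2] at h1
    rw [dist_eq_norm]
    exact h1.trans_lt (hxy.trans_le (min_le_left _ _))

lemma sml {ψ : ℂ → ℂ} (hL : Lnd c ψ) (hS : Stmt_SHR) (hfin : (P c).Finite) :
    Sml c n (Xf c 0) where
  two := hp.two
  cpt := Xf_cpt hK 0
  con := Xf_conn hK hp 0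
  zer := cl_sub_Xf 0 (subset_closure (mem_U hK hp 0))
  inv := by
    intro z hz
    have h1 := Xf_map_iter hK hp 0 n hz
    rwa [Xf_period hp] at h1
  sep := sep hK hp hL
  ful := by
    refine ⟨?_, fill_compl_preconnected (closure_U_cpt hK 0)⟩
    obtain ⟨z, hz, _⟩ := fill_compl_unb (closure_U_cpt hK (c := c) 0) 0
    exact ⟨z, hz⟩
  dis := by
    intro j hj hjn x hx y hy hxy
    have h1 := Xf_map_iter hK hp 0 j hx
    have h2 := Xf_map_iter hK hp 0 j hy
    rw [Nat.zero_add] at h1 h2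
    rw [hxy] at h1
    exact Xf_neg hK hp hL hj hjn h2 h1
  shr := shr hK hp hS hfin

end

end PER

open PER in
theorem stmt_PER (hE : Stmt_ELM) (hB : Stmt_BOT) (hL : Stmt_LND) (hS : Stmt_SHR)
    (hQ : Stmt_QL) : Stmt_PER := by
  intro c hfin h0 hc
  have hK := kf hE c
  obtain ⟨n, hp⟩ := exists_per h0 hc
  have h0K : (0 : ℂ) ∈ K c := interior_subset (zero_int hK hp)
  obtain ⟨ψ, hψ⟩ := hB c h0K
  obtain ⟨ψ', hL', _⟩ := hL c ψ hfin hψ
  exact hQ c n _ (sml hK hp hL' hS hfin)

end R4C
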