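import Pool.Agent.Work.MP_e3f5d9_al_cx.TFIN
import Pool.Agent.Work.MP_e3f5d9_al_cx.FIN
import Pool.Agent.Work.MP_e3f5d9_al_cx.PER

/-!
# COMPLETE: the complete answer
-/

set_option autoImplicit false

namespace R4C

/-- Periodic critical point. -/
theorem theorem_PER : Stmt_PER := by
  have hL : Stmt_LND := stmt_LND stmt_ELM prf_SHR stmt_REG
  exact stmt_PER stmt_ELM (stmt_BOT stmt_ELM) hL prf_SHR prf_QL

/-- The complete answer. -/
theorem theorem_FIN : Stmt_FIN := stmt_FIN stmt_T' theorem_PER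

end R4C
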