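import Pool.Agent.Work.MP_80ff4e_al.Interface3
import Pool.Agent.Work.MP_e3f5d9_al.Defs

/-!
# Complex quadratic polynomials: definitions for the complete answer of MP_e3f5d9_al
-/

set_option autoImplicit false

open Polynomial unitInterval Topology Metric

namespace R4C

/-! ### The final statement -/

/-- An open topological disk in the plane: open, connected, and every component of the complement
is unbounded. -/
def IsDisk (U : Set ℂ) : Prop :=
  IsOpen U ∧ IsConnected U ∧ ∀ z ∉ U, ∃ A : Set ℂ, A ⊆ Uᶜ ∧ z ∈ A ∧ IsPreconnected A ∧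
    ¬ Bornology.IsBounded A

/-- The map `z ^ 2 + c`. -/
def f (c z : ℂ) : ℂ := z ^ 2 + c

/-- The `n`-th iterate of `z ^ 2 + c` maps `U` properly with degree two to `V`: preimages of
compact sets are compact, and every point of `V` has exactly two preimages in `U`, counted with
multiplicity. -/
def ProperDegTwo (c : ℂ) (n : ℕ) (U V : Set ℂ) : Prop :=
  Set.MapsTo (f c)^[n] U V ∧
    (∀ A ⊆ V, IsCompact A → IsCompact (U ∩ (f c)^[n] ⁻¹' A)) ∧
    ∀ v ∈ V, open Classical in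
      ((PCF.itp (X ^ 2 + C c) n - C v).roots.filter (fun z => z ∈ U)).card = 2

/-- `z ^ 2 + c` is renormalizable. -/
def Renormalizable (c : ℂ) : Prop :=
  ∃ n : ℕ, 2 ≤ n ∧ ∃ U V : Set ℂ, IsDisk U ∧ IsDisk V ∧ IsCompact (closure U) ∧ closure U ⊆ V ∧
    0 ∈ U ∧ ProperDegTwo c n U V ∧
    IsConnected {z | z ∈ U ∧ ∀ k : ℕ, (f c)^[n * k] z ∈ U}

/-! ### Basic sets -/

/-- The filled Julia set. -/
def K (c : ℂ) : Set ℂ := {z | ∃ R : ℝ, ∀ n : ℕ, ‖(f c)^[n] z‖ ≤ R}

/-- The postcritical set. -/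
def P (c : ℂ) : Set ℂ := {z | ∃ n : ℕ, 1 ≤ n ∧ (f c)^[n] 0 = z}

/-- Postcritically finite with strictly preperiodic critical point. -/
structure Mis (c : ℂ) : Prop where
  fin : (P c).Finite
  ne : (0 : ℂ) ∉ P c

/-- The escape radius. -/
noncomputable def rad (c : ℂ) : ℝ := 2 + ‖c‖

/-! ### The inverse Boettcher map and the rays -/

/-- `ψ` is the inverse Boettcher map. -/
structure Bot (c : ℂ) (ψ : ℂ → ℂ) : Prop where
  hol : DifferentiableOn ℂ ψ {w | 1 < ‖w‖}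
  inj : Set.InjOn ψ {w | 1 < ‖w‖}
  img : ψ '' {w | 1 < ‖w‖} = (K c)ᶜ
  eqn : ∀ w, 1 < ‖w‖ → ψ (w ^ 2) = f c (ψ w)
  odd : ∀ w, 1 < ‖w‖ → ψ (-w) = -ψ w
  inf : Filter.Tendsto (fun w => ψ w / w) (Bornology.cobounded ℂ) (𝓝 1)

/-- The inverse Boettcher map with its continuous extension to the unit circle. -/
structure Lnd (c : ℂ) (ψ : ℂ → ℂ) : Prop extends Bot c ψ where
  cont : ContinuousOn ψ {w | 1 ≤ ‖w‖}
  eqn1 : ∀ w, 1 ≤ ‖w‖ → ψ (w ^ 2) = f c (ψ w)
  odd1 : ∀ w, 1 ≤ ‖w‖ → ψ (-w) = -ψ w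
  img1 : ψ '' sphere 0 1 = frontier (K c)

/-- The leg: the closed ray with angle `u`, `‖u‖ = 1`, with its landing point `ψ u`. -/
def leg (ψ : ℂ → ℂ) (u : ℂ) : Set ℂ := {z | ∃ t : ℝ, 1 ≤ t ∧ z = ψ (t * u)}

/-- `s` is a side function for the leg `u` of the critical value: it is constant on the connected
sets that do not meet the preimage of the leg, and it is odd. -/
structure SideFn (c : ℂ) (ψ : ℂ → ℂ) (u : ℂ) (s : ℂ → Bool) : Prop where
  loc : ∀ A : Set ℂ, IsPreconnected A → (∀ z ∈ A, f c z ∉ leg ψ u) →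
    ∀ z ∈ A, ∀ z' ∈ A, s z = s z'
  odd : ∀ z, f c z ∉ leg ψ u → s (-z) = !(s z)

/-- The standing data in the preperiodic case: a ray that lands at the critical value, and a side
function. -/
structure Dat (c : ℂ) (ψ : ℂ → ℂ) (u : ℂ) (s : ℂ → Bool) : Prop where
  mis : Mis c
  lnd : Lnd c ψ
  nrm : ‖u‖ = 1
  val : ψ u = c
  side : SideFn c ψ u s

/-- The closed half of the filled Julia set on the side `b`. -/
def half (c : ℂ) (s : ℂ → Bool) (b : Bool) : Set ℂ := {z | z ∈ K c ∧ (z = 0 ∨ s z = b)}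

/-! ### Kneading systems -/

lemma leg_inter_K {c : ℂ} {ψ : ℂ → ℂ} (h : Lnd c ψ) {u z : ℂ} (hu : ‖u‖ = 1) (hz : z ∈ leg ψ u)
    (hK : z ∈ K c) : z = ψ u := by
  obtain ⟨t, ht, rfl⟩ := hz
  rcases ht.lt_or_eq with h1 | h1
  · exfalso
    have h2 : ψ (t * u) ∈ (K c)ᶜ := by
      rw [← h.img]
      refine ⟨_, ?_, rfl⟩
      show 1 < ‖(t : ℂ) * u‖
      rw [norm_mul, hu, mul_one, Complex.norm_real, Real.norm_of_nonneg (by linarith)]
      exact h1
    exact h2 hK
  · rw [← h1]; simp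

lemma iter_succ (c : ℂ) (n : ℕ) (z : ℂ) : (f c)^[n + 1] z = f c ((f c)^[n] z) :=
  Function.iterate_succ_apply' _ _ _

lemma P_fwd {c x : ℂ} (hx : x ∈ P c) : f c x ∈ P c := by
  obtain ⟨n, hn, hx⟩ := hx
  exact ⟨n + 1, by omega, by rw [iter_succ, hx]⟩

lemma c_mem_P (c : ℂ) : c ∈ P c := ⟨1, le_refl _, by simp [f]⟩

lemma P_sub_K {c : ℂ} (hfin : (P c).Finite) : P c ⊆ K c := by
  obtain ⟨R, hR⟩ := (hfin.isCompact.image continuous_norm).bddAbove
  intro x hx
  refine ⟨R, fun n => hR ⟨_, ?_, rfl⟩⟩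
  induction n with
  | zero => exact hx
  | succ n ih => rw [iter_succ]; exact P_fwd ih

lemma side_neg {c : ℂ} {ψ : ℂ → ℂ} {u : ℂ} {s : ℂ → Bool} (h : Dat c ψ u s) {x : ℂ}
    (hx : x ∈ P c) : s (-x) = !(s x) := by
  apply h.side.odd
  intro h1
  have h2 := leg_inter_K h.lnd h.nrm h1 (P_sub_K h.mis.fin (P_fwd hx))
  rw [h.val] at h2
  have h3 : x ^ 2 = 0 := by
    have : x ^ 2 + c = c := h2
    linear_combination this
  have h4 : x = 0 := by simpa using h3
  exact h.mis.ne (h4 ▸ hx)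

/-- The kneading system of a Misiurewicz polynomial on the postcritical set. -/
noncomputable def ksC {c : ℂ} {ψ : ℂ → ℂ} {u : ℂ} {s : ℂ → Bool} (h : Dat c ψ u s) :
    R4.KS (P c) where
  o := ⟨c, c_mem_P c⟩
  nxt := fun x => ⟨f c x.1, P_fwd x.2⟩
  side := fun x => s x.1
  nxt_ne := by
    intro x hx
    have h1 : x.1 ^ 2 + c = c := congrArg Subtype.val hx
    have h3 : x.1 ^ 2 = 0 := by linear_combination h1
    have h4 : x.1 = 0 := by simpa using h3
    exact h.mis.ne (h4 ▸ x.2)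
  inj := by
    intro x y h1 h2
    have h3 : x.1 ^ 2 + c = y.1 ^ 2 + c := congrArg Subtype.val h1
    have h4 : (x.1 - y.1) * (x.1 + y.1) = 0 := by linear_combination h3
    rcases mul_eq_zero.1 h4 with h5 | h5
    · exact Subtype.ext (sub_eq_zero.1 h5)
    · exfalso
      have h6 : x.1 = -y.1 := eq_neg_of_add_eq_zero_left h5
      have h7 := side_neg h y.2
      rw [← h6] at h7
      have h8 : s x.1 = s y.1 := h2
      rw [h8] at h7
      revert h7
      cases s y.1 <;> simp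
  surj := by
    intro y hy
    obtain ⟨n, hn, h1⟩ := y.2
    obtain ⟨m, rfl⟩ : ∃ m, n = m + 1 := ⟨n - 1, by omega⟩
    rcases Nat.eq_zero_or_pos m with h2 | h2
    · exfalso
      subst h2
      apply hy
      apply Subtype.ext
      show y.1 = c
      rw [← h1]; simp [f]
    · exact ⟨⟨(f c)^[m] 0, m, h2, rfl⟩, Subtype.ext (by rw [← h1, iter_succ])⟩

end R4C
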