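import Pool.Agent.Work.MP_e3f5d9_al_cx.CMB
import Pool.Agent.Work.MP_e3f5d9_al.P0

/-!
# The class of the cuts reachable from the base cut is full
-/

set_option autoImplicit false

open Finset

namespace R4C

namespace CMB

variable {L : Type} [Fintype L] [DecidableEq L] {D : R4.KS L}

lemma Hyp.bb_or_RR (h : Hyp D) {A : Finset L} (hA : Reach D A) : A = bb D ∨ RR D A := by
  induction hA with
  | base => exact Or.inl rfl
  | step A s hA hne hne' ih =>
    right
    rcases ih with rfl | ih
    · rw [nm_lp_bb]; exact h.RR_b1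
    · exact ih.next (h.arrow hA hne).1

lemma Hyp.full (h : Hyp D) (hm : D.Mixing (EC D)) : D.Full (EC D) := by
  refine ⟨hm, ?_, ?_, ?_⟩
  · intro A hA t hne
    exact mem_EC.2 (h.arrow (mem_EC.1 hA) hne).2
  · intro A hA B hB
    have hoA := reach_o (mem_EC.1 hA)
    have hoB := reach_o (mem_EC.1 hB)
    have hbase : ∀ X : Finset L, D.o ∉ X → X ⊆ bb D := by
      intro X hX i hi
      simp only [bb, mem_compl, mem_singleton]
      rintro rfl
      exact hX hi
    rcases h.bb_or_RR (mem_EC.1 hA) with rfl | hA'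
    · exact Or.inr (Or.inr (hbase B hoB))
    · rcases h.bb_or_RR (mem_EC.1 hB) with rfl | hB'
      · exact Or.inr (Or.inl (hbase A hoA))
      · rcases h.laminar hA' hB' with h1 | h1 | h1 | h1
        · exact Or.inl h1
        · exact Or.inr (Or.inl h1)
        · exact Or.inr (Or.inr h1)
        · exfalso
          have : D.o ∈ A ∪ B := by rw [h1]; exact mem_univ _
          rcases mem_union.1 this with h2 | h2
          · exact hoA h2
          · exact hoB h2
  · intro i j hij
    obtain ⟨A, hA, h1⟩ := h.RR_sep hij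
    exact ⟨A, mem_EC.2 hA.reach, h1⟩

end CMB

open CMB in
/-- The class of the cuts reachable from the base cut is full. -/
theorem full_EC {L : Type} [Fintype L] [DecidableEq L] (D : R4.KS L)
    (horb : ∀ i, ∃ n, D.nxt^[n] D.o = i)
    (hsep : ∀ i j, (∀ n, D.side (D.nxt^[n] i) = D.side (D.nxt^[n] j)) → i = j)
    (hcard : 2 ≤ Fintype.card L) (hm : D.Mixing (EC D)) : D.Full (EC D) :=
  Hyp.full ⟨horb, hsep, hcard⟩ hm

end R4C
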