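import Pool.Agent.Work.MP_e3f5d9_al_cx.Interface
import Pool.Agent.Work.MP_80ff4e_al_helper39.TR
import Pool.Agent.Work.MP_80ff4e_al_helper10.Acts

/-!
# Block IMG, part 1: spiders and labels
-/

set_option autoImplicit false

open Polynomial unitInterval Topology Metric Filter PCF

namespace R4C

variable {c : ℂ} {ψ : ℂ → ℂ}

/-! ### Basic facts -/

lemma psi_notK (h : Bot c ψ) {w : ℂ} (hw : 1 < ‖w‖) : ψ w ∉ K c := by
  have h1 : ψ w ∈ (K c)ᶜ := by rw [← h.img]; exact ⟨w, hw, rfl⟩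
  exact h1

lemma psi_f (h : Lnd c ψ) {w : ℂ} (hw : 1 ≤ ‖w‖) : f c (ψ w) = ψ (w ^ 2) := (h.eqn1 w hw).symm

lemma f_neg (c z : ℂ) : f c (-z) = f c z := by unfold f; ring

lemma f_eq_iff {c z z' : ℂ} : f c z' = f c z ↔ z' = z ∨ z' = -z := by
  unfold f
  rw [add_left_inj]
  exact sq_eq_sq_iff_eq_or_eq_neg

lemma f_cont (c : ℂ) : Continuous (f c) := by unfold f; fun_prop

lemma f_iter_cont (c : ℂ) (n : ℕ) : Continuous (f c)^[n] := (f_cont c).iterate n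

lemma it_qp (c : ℂ) (n : ℕ) (z : ℂ) : it (X ^ 2 + C c) n z = (f c)^[n] z := by
  unfold it
  congr 1
  ext x
  simp [f]

lemma norm_tu {t : ℝ} {u : ℂ} (hu : ‖u‖ = 1) (ht : 0 ≤ t) : ‖(t : ℂ) * u‖ = t := by
  rw [norm_mul, hu, mul_one, Complex.norm_real, Real.norm_of_nonneg ht]

/-- The next postcritical point. -/
def nx (p : P c) : P c := ⟨f c p.1, P_fwd p.2⟩

/-- The critical value. -/
def ov (c : ℂ) : P c := ⟨c, c_mem_P c⟩

/-! ### Spiders -/

/-- A sequence of spiders, every one is the pull-back of the preceding one, with side functions. -/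
structure Spi (c : ℂ) (ψ : ℂ → ℂ) (s : ℂ → Bool) where
  U : ℕ → P c → ℂ
  S : ℕ → ℂ → Bool
  nrm : ∀ N p, ‖U N p‖ = 1
  val : ∀ N p, ψ (U N p) = p.1
  sq : ∀ N p, U (N + 1) p ^ 2 = U N (nx p)
  side : ∀ N, SideFn c ψ (U N (ov c)) (S N)
  nor : ∀ N, ∀ x ∈ P c, S N x = s x

theorem exists_spi (hNOI : Stmt_NOI) (hSID : Stmt_SID) (hSAM : Stmt_SAM) {u : ℂ} {s : ℂ → Bool}
    (h : Dat c ψ u s) : Nonempty (Spi c ψ s) := by
  classical
  have hK : frontier (K c) = closure (K c) := by rw [frontier, hNOI c h.mis, Set.sdiff_empty]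
  -- the first spider
  have h0 : ∀ p : P c, ∃ v : ℂ, ‖v‖ = 1 ∧ ψ v = p.1 := by
    intro p
    have h1 : p.1 ∈ ψ '' sphere 0 1 := by
      rw [h.lnd.img1, hK]
      exact subset_closure (P_sub_K h.mis.fin p.2)
    obtain ⟨v, hv, h2⟩ := h1
    exact ⟨v, by simpa using hv, h2⟩
  -- the pull-back
  have h1 : ∀ V : {V : P c → ℂ // ∀ p, ‖V p‖ = 1 ∧ ψ (V p) = p.1},
      ∃ W : {V : P c → ℂ // ∀ p, ‖V p‖ = 1 ∧ ψ (V p) = p.1}, ∀ p, W.1 p ^ 2 = V.1 (nx p) := by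
    rintro ⟨V, hV⟩
    have h2 : ∀ p : P c, ∃ w : ℂ, (‖w‖ = 1 ∧ ψ w = p.1) ∧ w ^ 2 = V (nx p) := by
      intro p
      obtain ⟨w, hw⟩ := IsAlgClosed.exists_pow_nat_eq (V (nx p)) (n := 2) (by norm_num)
      have hn : ‖w‖ = 1 := by
        have h3 : ‖w‖ ^ 2 = 1 := by rw [← norm_pow, hw, (hV _).1]
        have h4 := norm_nonneg w
        nlinarith
      have h3 : f c (ψ w) = f c p.1 := by
        rw [psi_f h.lnd hn.ge, hw, (hV _).2]; rfl
      rcases f_eq_iff.1 h3 with h4 | h4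
      · exact ⟨w, ⟨hn, h4⟩, hw⟩
      · refine ⟨-w, ⟨by rwa [norm_neg], ?_⟩, by rw [neg_sq, hw]⟩
        rw [h.lnd.odd1 w hn.ge, h4, neg_neg]
    choose W hW1 hW2 using h2
    exact ⟨⟨W, hW1⟩, hW2⟩
  choose V0 hV0 using h0
  choose nxt hnxt using h1
  let V : ℕ → {V : P c → ℂ // ∀ p, ‖V p‖ = 1 ∧ ψ (V p) = p.1} :=
    fun N => nxt^[N] ⟨V0, hV0⟩
  -- the side functions
  have h2 : ∀ N, ∃ s' : ℂ → Bool, SideFn c ψ ((V N).1 (ov c)) s' ∧ ∀ x ∈ P c, s' x = s x := by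
    intro N
    have hn := ((V N).2 (ov c)).1
    have hv := ((V N).2 (ov c)).2
    obtain ⟨s', hs'⟩ := hSID c ψ h.lnd _ hn hv
    obtain ⟨e, he⟩ := hSAM c ψ u _ s s' h ⟨h.mis, h.lnd, hn, hv, hs'⟩
    refine ⟨fun x => xor e (s' x), ⟨?_, ?_⟩, ?_⟩
    · intro A hA hav z hz z' hz'
      show xor e (s' z) = xor e (s' z')
      rw [hs'.loc A hA hav z hz z' hz']
    · intro z hz
      show xor e (s' (-z)) = !(xor e (s' z))
      rw [hs'.odd z hz]
      cases e <;> cases s' z <;> rfl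
    · intro x hx
      show xor e (s' x) = s x
      rw [he x hx]
      cases e <;> cases s x <;> rfl
  choose S hS1 hS2 using h2
  refine ⟨⟨fun N => (V N).1, S, fun N p => ((V N).2 p).1, fun N p => ((V N).2 p).2, ?_, hS1, hS2⟩⟩
  intro N p
  have h3 : V (N + 1) = nxt (V N) := Function.iterate_succ_apply' _ _ _
  rw [h3]
  exact hnxt (V N) p

variable {s : ℂ → Bool}

/-- The complement of the legs of the spider of level `N`. -/
def Om (sp : Spi c ψ s) (N : ℕ) : Set ℂ := {z | ∀ p, z ∉ leg ψ (sp.U N p)}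

/-- The label of a preimage of level `n` of a point off the legs of the spider of level `N`. -/
def lab (sp : Spi c ψ s) : ℕ → ℕ → ℂ → List Bool
  | _, 0, _ => []
  | N, n + 1, z => sp.S N ((f c)^[n] z) :: lab sp (N + 1) n z

lemma lab_succ (sp : Spi c ψ s) (N n : ℕ) (z : ℂ) :
    lab sp N (n + 1) z = sp.S N ((f c)^[n] z) :: lab sp (N + 1) n z := rfl

lemma lab_length (sp : Spi c ψ s) (n : ℕ) : ∀ (N : ℕ) (z : ℂ), (lab sp N n z).length = n := by
  induction n with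
  | zero => intro _ _; rfl
  | succ n ih => intro N z; rw [lab_succ, List.length_cons, ih]

lemma Om_pre (h : Lnd c ψ) (sp : Spi c ψ s) {N : ℕ} {z : ℂ} (hz : f c z ∈ Om sp N) :
    z ∈ Om sp (N + 1) := by
  intro p hp
  obtain ⟨t, ht, rfl⟩ := hp
  refine hz (nx p) ⟨t ^ 2, by nlinarith, ?_⟩
  have hn : 1 ≤ ‖(t : ℂ) * sp.U (N + 1) p‖ := by
    rw [norm_tu (sp.nrm _ _) (by linarith)]; exact ht
  rw [psi_f h hn, mul_pow, sp.sq]
  push_cast
  rfl

lemma lab_inj (h : Lnd c ψ) (sp : Spi c ψ s) (n : ℕ) : ∀ (N : ℕ) (z z' : ℂ),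
    (f c)^[n] z ∈ Om sp N → (f c)^[n] z' = (f c)^[n] z → lab sp N n z = lab sp N n z' → z = z' := by
  induction n with
  | zero => intro N z z' _ h1 _; exact h1.symm
  | succ n ih =>
    intro N z z' hz hzz hl
    rw [lab_succ, lab_succ, List.cons.injEq] at hl
    rw [iter_succ] at hz hzz
    rw [iter_succ] at hzz
    have h1 : (f c)^[n] z' = (f c)^[n] z := by
      rcases f_eq_iff.1 hzz with h2 | h2
      · exact h2
      · exfalso
        have h3 := (sp.side N).odd _ (hz (ov c))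
        rw [← h2, ← hl.1] at h3
        revert h3
        cases sp.S N ((f c)^[n] z) <;> simp
    exact ih (N + 1) z z' (Om_pre h sp hz) h1 hl.2

lemma lab_surj (h : Lnd c ψ) (sp : Spi c ψ s) (w : List Bool) : ∀ (N : ℕ) (x : ℂ), x ∈ Om sp N →
    ∃ z, (f c)^[w.length] z = x ∧ lab sp N w.length z = w := by
  induction w with
  | nil => intro N x _; exact ⟨x, rfl, rfl⟩
  | cons b w ih =>
    intro N x hx
    obtain ⟨y0, hy0⟩ := IsAlgClosed.exists_pow_nat_eq (x - c) (n := 2) (by norm_num)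
    have h1 : f c y0 = x := by unfold f; rw [hy0]; ring
    obtain ⟨y, hy, hyb⟩ : ∃ y, f c y = x ∧ sp.S N y = b := by
      by_cases hb : sp.S N y0 = b
      · exact ⟨y0, h1, hb⟩
      · refine ⟨-y0, by rw [f_neg, h1], ?_⟩
        have h2 := (sp.side N).odd y0 (by rw [h1]; exact hx (ov c))
        rw [h2]
        revert hb
        cases sp.S N y0 <;> cases b <;> simp
    obtain ⟨z, hz1, hz2⟩ := ih (N + 1) y (Om_pre h sp (by rw [hy]; exact hx))
    refine ⟨z, ?_, ?_⟩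
    · rw [List.length_cons, iter_succ, hz1, hy]
    · rw [List.length_cons, lab_succ, hz1, hyb, hz2]

/-- Paths off the legs keep the labels. -/
lemma lab_const (h : Lnd c ψ) (sp : Spi c ψ s) (n : ℕ) : ∀ (N : ℕ) (Γ : C(I, ℂ)),
    (∀ r, (f c)^[n] (Γ r) ∈ Om sp N) → ∀ r r', lab sp N n (Γ r) = lab sp N n (Γ r') := by
  induction n with
  | zero => intro _ _ _ _ _; rfl
  | succ n ih =>
    intro N Γ hΓ r r'
    have h0 : ∀ r, f c ((f c)^[n] (Γ r)) ∈ Om sp N := fun r => by rw [← iter_succ]; exact hΓ r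
    have h1 : IsPreconnected (Set.range fun r => (f c)^[n] (Γ r)) :=
      isPreconnected_range ((f_iter_cont c n).comp Γ.continuous)
    rw [lab_succ, lab_succ, ih (N + 1) Γ (fun r => Om_pre h sp (h0 r)) r r',
      (sp.side N).loc _ h1 (by rintro _ ⟨r, rfl⟩; exact h0 r (ov c)) _ ⟨r, rfl⟩ _ ⟨r', rfl⟩]

/-! ### Sectors -/

/-- The open sector with half-angle `η` around the ray of `u`, seen in the dynamical plane. -/
def Bx (ψ : ℂ → ℂ) (u : ℂ) (η : ℝ) : Set ℂ :=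
  {z | ∃ ζ : ℂ, 0 < ζ.re ∧ |ζ.im| < η ∧ z = ψ (u * Complex.exp ζ)}

lemma norm_ue {u ζ : ℂ} (hu : ‖u‖ = 1) : ‖u * Complex.exp ζ‖ = Real.exp ζ.re := by
  rw [norm_mul, hu, one_mul, Complex.norm_exp]

lemma one_lt_ue {u ζ : ℂ} (hu : ‖u‖ = 1) (hζ : 0 < ζ.re) : 1 < ‖u * Complex.exp ζ‖ := by
  rw [norm_ue hu]; exact Real.one_lt_exp_iff.2 hζ

lemma ne_zero_of_norm {u : ℂ} (hu : ‖u‖ = 1) : u ≠ 0 := by
  rintro rfl; simp at hu

lemma sq_ue (v ζ : ℂ) : (v * Complex.exp ζ) ^ 2 = v ^ 2 * Complex.exp (2 * ζ) := by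
  rw [mul_pow, ← Complex.exp_nat_mul]; norm_num

/-- The coordinate in a sector is unique. -/
lemma ue_inj (h : Bot c ψ) {u : ℂ} (hu : ‖u‖ = 1) {ζ ζ' : ℂ} (h1 : 0 < ζ.re) (h2 : 0 < ζ'.re)
    (h3 : |ζ.im| < Real.pi) (h4 : |ζ'.im| < Real.pi)
    (he : ψ (u * Complex.exp ζ) = ψ (u * Complex.exp ζ')) : ζ = ζ' := by
  have h5 := h.inj (one_lt_ue hu h1) (one_lt_ue hu h2) he
  have h6 := mul_left_cancel₀ (ne_zero_of_norm hu) h5
  rw [abs_lt] at h3 h4
  exact Complex.exp_inj_of_neg_pi_lt_of_le_pi h3.1 h3.2.le h4.1 h4.2.le h6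

/-- A point of the exterior on a leg. -/
lemma mem_leg_ext (h : Bot c ψ) {v : ℂ} (hv : ‖v‖ = 1) (hvK : ψ v ∈ K c) {w : ℂ}
    (hw : 1 < ‖w‖) (hm : ψ w ∈ leg ψ v) : ∃ t : ℝ, 1 < t ∧ w = t * v := by
  obtain ⟨t, ht, h1⟩ := hm
  have ht1 : 1 < t := by
    rcases ht.lt_or_eq with h2 | h2
    · exact h2
    · exfalso
      rw [← h2] at h1
      apply psi_notK h hw
      rw [h1]
      simpa using hvK
  refine ⟨t, ht1, h.inj hw ?_ h1⟩
  show 1 < ‖(t : ℂ) * v‖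
  rw [norm_tu hv (by linarith)]
  exact ht1

/-- The direction of a point `u exp ζ = t v`. -/
lemma dir_of_eq {u v ζ : ℂ} (hu : ‖u‖ = 1) (hv : ‖v‖ = 1) {t : ℝ} (ht : 1 < t)
    (he : u * Complex.exp ζ = t * v) : v = u * Complex.exp (ζ.im * Complex.I) := by
  have h1 : Real.exp ζ.re = t := by
    have := congrArg norm he
    rw [norm_ue hu, norm_tu hv (by linarith)] at this
    exact this
  have h2 : Complex.exp ζ = (t : ℂ) * Complex.exp (ζ.im * Complex.I) := by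
    rw [← h1, Complex.ofReal_exp, ← Complex.exp_add, Complex.re_add_im]
  rw [h2] at he
  have ht0 : (t : ℂ) ≠ 0 := by exact_mod_cast (by linarith : t ≠ 0)
  apply mul_left_cancel₀ ht0
  rw [← he]; ring

lemma Bx_notK (h : Bot c ψ) {u : ℂ} (hu : ‖u‖ = 1) {η : ℝ} {z : ℂ} (hz : z ∈ Bx ψ u η) :
    z ∉ K c := by
  obtain ⟨ζ, h1, -, rfl⟩ := hz
  exact psi_notK h (one_lt_ue hu h1)

lemma Bx_open (h : Bot c ψ) {u : ℂ} (hu : ‖u‖ = 1) {η : ℝ} (hη : 0 < η) :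
    IsOpen (Bx ψ u η) := by
  set T : Set ℂ := {ζ | 0 < ζ.re ∧ |ζ.im| < η} with hT
  have hTo : IsOpen T := (isOpen_lt continuous_const Complex.continuous_re).inter
    (isOpen_lt (continuous_abs.comp Complex.continuous_im) continuous_const)
  have hTc : Convex ℝ T := by
    have h1 : T = {ζ : ℂ | 0 < ζ.re} ∩ ({ζ | -η < ζ.im} ∩ {ζ | ζ.im < η}) := by
      ext ζ
      constructor
      · rintro ⟨h1, h2⟩; exact ⟨h1, (abs_lt.1 h2).1, (abs_lt.1 h2).2⟩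
      · rintro ⟨h1, h2, h3⟩; exact ⟨h1, abs_lt.2 ⟨h2, h3⟩⟩
    rw [h1]
    exact (convex_halfSpace_re_gt 0).inter
      ((convex_halfSpace_im_gt (-η)).inter (convex_halfSpace_im_lt η))
  have hd : DifferentiableOn ℂ (fun ζ => ψ (u * Complex.exp ζ)) T := by
    apply h.hol.comp (t := {w | 1 < ‖w‖})
    · exact (differentiable_const u |>.mul Complex.differentiable_exp).differentiableOn
    · exact fun ζ hζ => one_lt_ue hu hζ.1
  have h2 : Bx ψ u η = (fun ζ => ψ (u * Complex.exp ζ)) '' T := by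
    ext z
    constructor
    · rintro ⟨ζ, h1, h2, rfl⟩; exact ⟨ζ, ⟨h1, h2⟩, rfl⟩
    · rintro ⟨ζ, ⟨h1, h2⟩, rfl⟩; exact ⟨ζ, h1, h2, rfl⟩
  rcases (hd.analyticOnNhd hTo).is_constant_or_isOpen hTc.isPreconnected with h3 | h3
  · exfalso
    obtain ⟨w, hw⟩ := h3
    have m1 : (1 : ℂ) ∈ T := ⟨by simp, by simpa using hη⟩
    have m2 : (2 : ℂ) ∈ T := ⟨by simp, by simpa using hη⟩
    have h4 := (hw _ m1).trans (hw _ m2).symm
    have h5 := ue_inj h hu (ζ := 1) (ζ' := 2) (by simp) (by simp)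
      (by simpa using Real.pi_pos) (by simpa using Real.pi_pos) h4
    norm_num at h5
  · rw [h2]
    exact h3 T le_rfl hTo

lemma Bx_disj (h : Bot c ψ) {v : ℂ} (hv : ‖v‖ = 1) {η : ℝ} (hη : η ≤ Real.pi / 2) {z : ℂ}
    (h1 : z ∈ Bx ψ v η) (h2 : z ∈ Bx ψ (-v) η) : False := by
  obtain ⟨ζ, a1, a2, rfl⟩ := h1
  obtain ⟨ζ', b1, b2, he⟩ := h2
  have hv' : ‖-v‖ = 1 := by rwa [norm_neg]
  have h5 := h.inj (one_lt_ue hv a1) (one_lt_ue hv' b1) he
  have h6 : Complex.exp ζ = -Complex.exp ζ' := by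
    apply mul_left_cancel₀ (ne_zero_of_norm hv)
    rw [h5]; ring
  have h7 : 0 < (Complex.exp ζ).re := by
    rw [Complex.exp_re]
    rw [abs_lt] at a2
    exact mul_pos (Real.exp_pos _) (Real.cos_pos_of_mem_Ioo ⟨by linarith, by linarith⟩)
  have h8 : 0 < (Complex.exp ζ').re := by
    rw [Complex.exp_re]
    rw [abs_lt] at b2
    exact mul_pos (Real.exp_pos _) (Real.cos_pos_of_mem_Ioo ⟨by linarith, by linarith⟩)
  rw [h6, Complex.neg_re] at h7
  linarith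

/-- Preimages of sectors are sectors. -/
lemma Bx_pre (h : Lnd c ψ) {u v : ℂ} (hv : ‖v‖ = 1) (hvu : v ^ 2 = u) {η : ℝ} {z : ℂ}
    (hz : f c z ∈ Bx ψ u η) : z ∈ Bx ψ v (η / 2) ∨ z ∈ Bx ψ (-v) (η / 2) := by
  obtain ⟨ζ, h1, h2, h3⟩ := hz
  have hre : 0 < (ζ / 2).re := by simpa using h1
  have him : |(ζ / 2).im| < η / 2 := by
    have : (ζ / 2).im = ζ.im / 2 := by simp
    rw [this, abs_div, abs_two]
    linarith
  have h4 : f c (ψ (v * Complex.exp (ζ / 2))) = f c z := by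
    rw [psi_f h (one_lt_ue hv hre).le, sq_ue, hvu, h3]
    congr 3
    ring
  rcases f_eq_iff.1 h4.symm with h5 | h5
  · exact Or.inl ⟨_, hre, him, h5⟩
  · refine Or.inr ⟨_, hre, him, ?_⟩
    rw [h5, ← h.odd1 _ (one_lt_ue hv hre).le]
    congr 1
    ring

end R4C
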