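import Pool.Agent.Work.MP_e3f5d9_al_cx.IMG1

/-!
# Block IMG, part 2: crossing a leg
-/

set_option autoImplicit false

open Polynomial unitInterval Topology Metric Filter PCF

namespace R4C

variable {c : ℂ} {ψ : ℂ → ℂ} {u : ℂ} {s : ℂ → Bool}

section pre

variable {L : Type} [Fintype L] [DecidableEq L] (D : R4.KS L)

lemma pre_some {b : Bool} {j i : L} (h : D.pre b j = some i) : D.nxt i = j ∧ D.side i = b := by
  unfold R4.KS.pre at h
  split_ifs at h with h1
  · rw [Option.some.injEq] at h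
    rw [← h]; exact h1.choose_spec

lemma pre_none {b : Bool} {j : L} (h : D.pre b j = none) (i : L) :
    ¬ (D.nxt i = j ∧ D.side i = b) := by
  unfold R4.KS.pre at h
  split_ifs at h with h1
  exact fun h2 => h1 ⟨i, h2⟩

lemma act_nil (i : L) : D.act i [] = [] := by rw [R4.KS.act]

lemma act_o (b : Bool) (x : List Bool) : D.act D.o (b :: x) = (!b) :: x := by
  rw [R4.KS.act, if_pos rfl]

lemma act_some {b : Bool} {j i : L} (x : List Bool) (hj : j ≠ D.o) (h : D.pre b j = some i) :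
    D.act j (b :: x) = b :: D.act i x := by
  rw [R4.KS.act, if_neg hj, h]

lemma act_none {b : Bool} {j : L} (x : List Bool) (hj : j ≠ D.o) (h : D.pre b j = none) :
    D.act j (b :: x) = b :: x := by
  rw [R4.KS.act, if_neg hj, h]

lemma act_invol (x : List Bool) : ∀ i, D.act i (D.act i x) = x := by
  induction x with
  | nil => intro i; rw [act_nil, act_nil]
  | cons b x ih =>
    intro i
    by_cases hi : i = D.o
    · subst hi; rw [act_o, act_o, Bool.not_not]
    · rcases h : D.pre b i with _ | j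
      · rw [act_none D x hi h, act_none D x hi h]
      · rw [act_some D x hi h, act_some D _ hi h, ih]

/-- The permutation of a letter. -/
noncomputable def actP (i : L) : Equiv.Perm (List Bool) :=
  ⟨D.act i, D.act i, fun x => act_invol D x i, fun x => act_invol D x i⟩

lemma actP_mem (i : L) : actP D i ∈ D.grp := Subgroup.subset_closure ⟨i, fun _ => rfl⟩

end pre

/-! ### Side functions near the rays -/

/-- Points of the sector are off the leg of the critical value unless it is the centre. -/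
lemma sector_off (h : Lnd c ψ) {u v : ℂ} (hu : ‖u‖ = 1) (hv : ‖v‖ = 1) (hvK : ψ v ∈ K c) {ζ : ℂ}
    (hζ : 0 < ζ.re) (hd : v ≠ u * Complex.exp (ζ.im * Complex.I)) :
    ψ (u * Complex.exp ζ) ∉ leg ψ v := by
  intro hm
  obtain ⟨t, ht, he⟩ := mem_leg_ext h.toBot hv hvK (one_lt_ue hu hζ) hm
  exact hd (dir_of_eq hu hv ht he)

lemma val_K (hd : Dat c ψ u s) (sp : Spi c ψ s) (N : ℕ) (p : P c) : ψ (sp.U N p) ∈ K c := by
  rw [sp.val]; exact P_sub_K hd.mis.fin p.2

lemma zero_of_f {z : ℂ} (h : f c z = c) : z = 0 := by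
  have : z ^ 2 = 0 := by
    have h1 : z ^ 2 + c = c := h
    linear_combination h1
  simpa using this

/-- Upper strip: the side is constant on the open half plane bounded by the rays `v`, `-v`. -/
lemma side_upper (hd : Dat c ψ u s) (sp : Spi c ψ s) (N : ℕ) {v : ℂ} (hv : ‖v‖ = 1)
    (hvu : v ^ 2 = sp.U N (ov c)) {ζ ζ' : ℂ} (h1 : 0 < ζ.re) (h2 : 0 < ζ.im) (h3 : ζ.im < Real.pi)
    (h1' : 0 < ζ'.re) (h2' : 0 < ζ'.im) (h3' : ζ'.im < Real.pi) :
    sp.S N (ψ (v * Complex.exp ζ)) = sp.S N (ψ (v * Complex.exp ζ')) := by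
  set T : Set ℂ := {ζ : ℂ | 0 < ζ.re} ∩ ({ζ | 0 < ζ.im} ∩ {ζ | ζ.im < Real.pi}) with hT
  have hTc : Convex ℝ T := (convex_halfSpace_re_gt 0).inter
    ((convex_halfSpace_im_gt 0).inter (convex_halfSpace_im_lt Real.pi))
  have hc : ContinuousOn (fun ζ => ψ (v * Complex.exp ζ)) T := by
    apply hd.lnd.cont.comp (t := {w | 1 ≤ ‖w‖})
    · exact (continuous_const.mul Complex.continuous_exp).continuousOn
    · exact fun ζ hζ => (one_lt_ue hv hζ.1).le
  refine (sp.side N).loc _ (hTc.isPreconnected.image _ hc) ?_ _ ⟨ζ, ⟨h1, h2, h3⟩, rfl⟩ _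
    ⟨ζ', ⟨h1', h2', h3'⟩, rfl⟩
  rintro _ ⟨ξ, ⟨a1, a2, a3⟩, rfl⟩ hm
  replace a1 : 0 < ξ.re := a1
  replace a2 : 0 < ξ.im := a2
  replace a3 : ξ.im < Real.pi := a3
  have hm' : ψ (sp.U N (ov c) * Complex.exp (2 * ξ)) ∈ leg ψ (sp.U N (ov c)) := by
    have h4 : f c (ψ (v * Complex.exp ξ)) = ψ (sp.U N (ov c) * Complex.exp (2 * ξ)) := by
      rw [psi_f hd.lnd (one_lt_ue hv a1).le, sq_ue, hvu]
    rw [← h4]; exact hm
  have hre : 0 < (2 * ξ).re := by simpa using a1
  obtain ⟨t, ht, he⟩ := mem_leg_ext hd.lnd.toBot (sp.nrm N _) (val_K hd sp N _)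
    (one_lt_ue (sp.nrm N _) hre) hm'
  have h5 := dir_of_eq (sp.nrm N _) (sp.nrm N _) ht he
  have h6 : Complex.exp (((2 * ξ).im : ℝ) * Complex.I) = 1 := by
    apply mul_left_cancel₀ (ne_zero_of_norm (sp.nrm N (ov c)))
    rw [← h5, mul_one]
  rw [Complex.exp_eq_one_iff] at h6
  obtain ⟨k, hk⟩ := h6
  have h7 : (2 * ξ).im = k * (2 * Real.pi) := by
    have := congrArg Complex.im hk
    simpa using this
  have h8 : (2 * ξ).im = 2 * ξ.im := by simp
  rw [h8] at h7
  have hpi := Real.pi_pos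
  have h9 : ξ.im = k * Real.pi := by linarith
  have k0 : (0 : ℝ) < k := by
    by_contra hcon
    push Not at hcon
    have := mul_nonpos_of_nonpos_of_nonneg hcon hpi.le
    linarith
  have k1 : (k : ℝ) < 1 := by
    by_contra hcon
    push Not at hcon
    have := mul_le_mul_of_nonneg_right hcon hpi.le
    linarith
  have k0' : 0 < k := by exact_mod_cast k0
  have k1' : k < 1 := by exact_mod_cast k1
  omega

/-- Crossing the preimage of the leg of the critical value changes the side. -/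
lemma side_flip (hd : Dat c ψ u s) (sp : Spi c ψ s) (N : ℕ) {v : ℂ} (hv : ‖v‖ = 1)
    (hvu : v ^ 2 = sp.U N (ov c)) {ζ ζ' : ℂ} (h1 : 0 < ζ.re) (h2 : 0 < ζ.im) (h3 : ζ.im < Real.pi)
    (h1' : 0 < ζ'.re) (h2' : ζ'.im < 0) (h3' : -Real.pi < ζ'.im) :
    sp.S N (ψ (v * Complex.exp ζ')) = !(sp.S N (ψ (v * Complex.exp ζ))) := by
  set ξ : ℂ := ζ' + Real.pi * Complex.I with hξ
  have a1 : ξ.re = ζ'.re := by simp [hξ]
  have a2 : ξ.im = ζ'.im + Real.pi := by simp [hξ]
  have e1 : v * Complex.exp ζ' = -(v * Complex.exp ξ) := by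
    rw [hξ, Complex.exp_add, Complex.exp_pi_mul_I]; ring
  have hre : 0 < ξ.re := by rw [a1]; exact h1'
  have h4 := side_upper hd sp N hv hvu h1 h2 h3 hre (by rw [a2]; linarith) (by rw [a2]; linarith)
  rw [h4, e1, hd.lnd.odd1 _ (one_lt_ue hv hre).le]
  apply (sp.side N).odd
  intro hm
  have hm' : ψ (sp.U N (ov c) * Complex.exp (2 * ξ)) ∈ leg ψ (sp.U N (ov c)) := by
    have h5 : f c (ψ (v * Complex.exp ξ)) = ψ (sp.U N (ov c) * Complex.exp (2 * ξ)) := by
      rw [psi_f hd.lnd (one_lt_ue hv hre).le, sq_ue, hvu]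
    rw [← h5]; exact hm
  have hre2 : 0 < (2 * ξ).re := by simpa using hre
  obtain ⟨t, ht, he⟩ := mem_leg_ext hd.lnd.toBot (sp.nrm N _) (val_K hd sp N _)
    (one_lt_ue (sp.nrm N _) hre2) hm'
  have h5 := dir_of_eq (sp.nrm N _) (sp.nrm N _) ht he
  have h6 : Complex.exp (((2 * ξ).im : ℝ) * Complex.I) = 1 := by
    apply mul_left_cancel₀ (ne_zero_of_norm (sp.nrm N (ov c)))
    rw [← h5, mul_one]
  rw [Complex.exp_eq_one_iff] at h6
  obtain ⟨k, hk⟩ := h6
  have h7 : (2 * ξ).im = k * (2 * Real.pi) := by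
    have := congrArg Complex.im hk
    simpa using this
  have h8 : (2 * ξ).im = 2 * ξ.im := by simp
  rw [h8, a2] at h7
  have hpi := Real.pi_pos
  have h9 : ζ'.im + Real.pi = k * Real.pi := by linarith
  have k0 : (0 : ℝ) < k := by
    by_contra hcon
    push Not at hcon
    have := mul_nonpos_of_nonpos_of_nonneg hcon hpi.le
    linarith
  have k1 : (k : ℝ) < 1 := by
    by_contra hcon
    push Not at hcon
    have := mul_le_mul_of_nonneg_right hcon hpi.le
    linarith
  have k0' : 0 < k := by exact_mod_cast k0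
  have k1' : k < 1 := by exact_mod_cast k1
  omega

/-- The side near the ray that lands at a postcritical point. -/
lemma side_near (hd : Dat c ψ u s) (sp : Spi c ψ s) (N : ℕ) (q : P c) {ζ : ℂ} (hζ : 0 < ζ.re)
    (hoff : ∀ t : ℝ, 0 < t → t ≤ 1 →
      sp.U N (ov c) ≠ sp.U N (nx q) * Complex.exp ((2 * (t * ζ.im) : ℝ) * Complex.I)) :
    sp.S N (ψ (sp.U (N + 1) q * Complex.exp ζ)) = s q.1 := by
  rw [← sp.nor N q.1 q.2]
  have hc : Continuous fun t : I => ψ (sp.U (N + 1) q * Complex.exp ((t : ℝ) * ζ)) := by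
    apply hd.lnd.cont.comp_continuous
    · fun_prop
    · intro t
      show 1 ≤ ‖_‖
      rw [norm_ue (sp.nrm _ _)]
      apply Real.one_le_exp
      have : ((((t : ℝ) : ℂ)) * ζ).re = t * ζ.re := by simp
      rw [this]
      exact mul_nonneg t.2.1 hζ.le
  have h1 := isPreconnected_range hc
  refine (sp.side N).loc _ h1 ?_ _ ⟨1, by simp⟩ _ ⟨0, ?_⟩
  · rintro _ ⟨t, rfl⟩
    rcases eq_or_lt_of_le t.2.1 with h0 | h0
    · have e : ψ (sp.U (N + 1) q * Complex.exp (((t : ℝ) : ℂ) * ζ)) = q.1 := by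
        rw [← h0]; simp [sp.val]
      show f c (ψ (sp.U (N + 1) q * Complex.exp (((t : ℝ) : ℂ) * ζ))) ∉ _
      rw [e]
      intro hm
      have h2 := leg_inter_K hd.lnd (sp.nrm N _) hm (P_sub_K hd.mis.fin (P_fwd q.2))
      rw [sp.val] at h2
      exact hd.mis.ne (zero_of_f h2 ▸ q.2)
    · have hre : 0 < ((((t : ℝ) : ℂ)) * ζ).re := by
        have : ((((t : ℝ) : ℂ)) * ζ).re = t * ζ.re := by simp
        rw [this]; exact mul_pos h0 hζ
      have hre2 : 0 < (2 * ((((t : ℝ) : ℂ)) * ζ)).re := by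
        have : (2 * ((((t : ℝ) : ℂ)) * ζ)).re = 2 * ((((t : ℝ) : ℂ)) * ζ).re := by
          rw [Complex.mul_re]; simp
        rw [this]; linarith
      show f c (ψ (sp.U (N + 1) q * Complex.exp (((t : ℝ) : ℂ) * ζ))) ∉ _
      rw [psi_f hd.lnd (one_lt_ue (sp.nrm _ _) hre).le, sq_ue, sp.sq]
      apply sector_off hd.lnd (sp.nrm N _) (sp.nrm N _) (val_K hd sp N _) hre2
      have e : (2 * ((((t : ℝ) : ℂ)) * ζ)).im = 2 * ((t : ℝ) * ζ.im) := by
        rw [Complex.mul_im]; simp
      rw [e]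
      exact hoff t h0 t.2.2
  · simp [sp.val]

/-! ### The crossing lemma -/

variable [Fintype (P c)] [DecidableEq (P c)]

/-- The effect of crossing the ray `w` on the labels of level `N`. -/
noncomputable def crs (hd : Dat c ψ u s) (sp : Spi c ψ s) (N : ℕ) (w : ℂ) (x : List Bool) :
    List Bool :=
  open Classical in if h : ∃ p, sp.U N p = w then (ksC hd).act h.choose x else x

omit [Fintype (P c)] [DecidableEq (P c)] in
lemma U_inj (sp : Spi c ψ s) {N : ℕ} {p q : P c} (h : sp.U N p = sp.U N q) : p = q :=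
  Subtype.ext (by rw [← sp.val N p, ← sp.val N q, h])

lemma crs_U (hd : Dat c ψ u s) (sp : Spi c ψ s) (N : ℕ) (p : P c) (x : List Bool) :
    crs hd sp N (sp.U N p) x = (ksC hd).act p x := by
  have h : ∃ q, sp.U N q = sp.U N p := ⟨p, rfl⟩
  unfold crs
  rw [dif_pos h, U_inj sp h.choose_spec]

lemma crs_none (hd : Dat c ψ u s) (sp : Spi c ψ s) (N : ℕ) {w : ℂ} (h : ∀ p, sp.U N p ≠ w)
    (x : List Bool) : crs hd sp N w x = x := by
  unfold crs
  rw [dif_neg (by rintro ⟨p, hp⟩; exact h p hp)]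

/-- One step of the recursion of the crossing maps. -/
lemma crs_step (hd : Dat c ψ u s) (sp : Spi c ψ s) (N : ℕ) {v w : ℂ} (hv : ‖v‖ = 1)
    (hvw : v ^ 2 = w) (hw : w ≠ sp.U N (ov c)) {η : ℝ}
    (hs : ∀ p, ∀ θ : ℝ, |θ| < η → sp.U N p = w * Complex.exp (θ * Complex.I) → sp.U N p = w)
    {ζ : ℂ} (h1 : 0 < ζ.re) (h2 : |ζ.im| < η / 2) (x : List Bool) :
    crs hd sp N w (sp.S N (ψ (v * Complex.exp ζ)) :: x) =
      sp.S N (ψ (v * Complex.exp ζ)) :: crs hd sp (N + 1) v x := by
  set b := sp.S N (ψ (v * Complex.exp ζ)) with hb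
  -- the side near a leg of the next spider
  have near : ∀ q, (sp.U N (nx q) = w) → sp.S N (ψ (sp.U (N + 1) q * Complex.exp ζ)) = s q.1 := by
    intro q hq
    apply side_near hd sp N q h1
    intro t ht0 ht1 he
    apply hw
    rw [hq] at he
    refine (hs (ov c) _ ?_ he).symm
    rw [abs_mul, abs_mul, abs_two, abs_of_pos ht0]
    have := mul_le_mul_of_nonneg_right ht1 (abs_nonneg ζ.im)
    linarith
  by_cases hp : ∃ p, sp.U N p = w
  · obtain ⟨p, hp⟩ := hp
    have hpo : p ≠ (ksC hd).o := by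
      intro h; apply hw; rw [← hp, h]; rfl
    rw [← hp, crs_U]
    rcases hpre : (ksC hd).pre b p with _ | q
    · rw [act_none _ x hpo hpre, crs_none]
      intro q hq
      apply pre_none _ hpre q
      have h3 : sp.U N (nx q) = w := by rw [← sp.sq, hq, hvw]
      refine ⟨U_inj sp (by rw [hp]; exact h3), ?_⟩
      show s q.1 = b
      rw [← near q h3, hq]
    · obtain ⟨h3, h4⟩ := pre_some _ hpre
      have h5 : sp.U N (nx q) = w := by rw [← hp]; congr 1
      have h6 : sp.U (N + 1) q = v := by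
        have h7 : sp.U (N + 1) q ^ 2 = v ^ 2 := by rw [sp.sq, h5, hvw]
        rcases sq_eq_sq_iff_eq_or_eq_neg.1 h7 with h8 | h8
        · exact h8
        · exfalso
          have h9 := near q h5
          have h10 : s q.1 = b := h4
          have h11 : -v * Complex.exp ζ = -(v * Complex.exp ζ) := by ring
          rw [h8, h10, h11, hd.lnd.odd1 _ (one_lt_ue hv h1).le, (sp.side N).odd, ← hb] at h9
          · revert h9; cases b <;> simp
          · rw [psi_f hd.lnd (one_lt_ue hv h1).le, sq_ue, hvw]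
            have hre : 0 < (2 * ζ).re := by simpa using h1
            have hwn : ‖w‖ = 1 := by rw [← hvw, norm_pow, hv, one_pow]
            apply sector_off hd.lnd hwn (sp.nrm N _) (val_K hd sp N _) hre
            intro he
            apply hw
            refine (hs (ov c) _ ?_ he).symm
            have : (2 * ζ).im = 2 * ζ.im := by simp
            rw [this, abs_mul, abs_two]
            linarith
      rw [act_some _ x hpo hpre, ← h6, crs_U]
  · push Not at hp
    rw [crs_none hd sp N hp, crs_none]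
    intro q hq
    exact hp (nx q) (by rw [← sp.sq, hq, hvw])

/-- **Crossing lemma.** -/
theorem crossing (hd : Dat c ψ u s) (sp : Spi c ψ s) (n : ℕ) : ∀ (N : ℕ) (w : ℂ) (η : ℝ),
    ‖w‖ = 1 → 0 < η → η ≤ Real.pi / 2 →
    (∀ p, ∀ θ : ℝ, |θ| < η → sp.U N p = w * Complex.exp (θ * Complex.I) → sp.U N p = w) →
    ∀ Γ : C(I, ℂ), (∀ r, (f c)^[n] (Γ r) ∈ Bx ψ w η) → ∀ ζ ζ' : ℂ,
    0 < ζ.re → |ζ.im| < η → ζ.im ≠ 0 → 0 < ζ'.re → |ζ'.im| < η → ζ'.im ≠ 0 →
    (f c)^[n] (Γ 0) = ψ (w * Complex.exp ζ) → (f c)^[n] (Γ 1) = ψ (w * Complex.exp ζ') →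
    ((0 < ζ.im ↔ 0 < ζ'.im) → lab sp N n (Γ 1) = lab sp N n (Γ 0)) ∧
    (¬ (0 < ζ.im ↔ 0 < ζ'.im) → lab sp N n (Γ 1) = crs hd sp N w (lab sp N n (Γ 0))) := by
  induction n with
  | zero =>
    intro N w η hw hη hη2 hs Γ hΓ ζ ζ' _ _ _ _ _ _ _ _
    refine ⟨fun _ => rfl, fun _ => ?_⟩
    show [] = crs hd sp N w []
    by_cases hp : ∃ p, sp.U N p = w
    · obtain ⟨p, rfl⟩ := hp
      rw [crs_U, act_nil]
    · push Not at hp
      rw [crs_none hd sp N hp]
  | succ n ih =>
    intro N w η hw hη hη2 hs Γ hΓ ζ ζ' a1 a2 a3 b1 b2 b3 ha hb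
    have hpi := Real.pi_pos
    have hc : Continuous fun r => (f c)^[n] (Γ r) := (f_iter_cont c n).comp Γ.continuous
    have hf : ∀ r, f c ((f c)^[n] (Γ r)) ∈ Bx ψ w η := fun r => by rw [← iter_succ]; exact hΓ r
    obtain ⟨v0, hv0⟩ := IsAlgClosed.exists_pow_nat_eq w (n := 2) (by norm_num)
    have hv0n : ‖v0‖ = 1 := by
      have h3 : ‖v0‖ ^ 2 = 1 := by rw [← norm_pow, hv0, hw]
      have h4 := norm_nonneg v0
      nlinarith
    have hη' : 0 < η / 2 := by linarith
    -- the lift stays in one of the two sectors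
    obtain ⟨v, hv, hvw, hin⟩ : ∃ v, ‖v‖ = 1 ∧ v ^ 2 = w ∧
        ∀ r, (f c)^[n] (Γ r) ∈ Bx ψ v (η / 2) := by
      have hpc := isPreconnected_range hc
      have hv0n' : ‖-v0‖ = 1 := by rwa [norm_neg]
      have hcov : Set.range (fun r => (f c)^[n] (Γ r)) ⊆ Bx ψ v0 (η / 2) ∪ Bx ψ (-v0) (η / 2) := by
        rintro _ ⟨r, rfl⟩; exact Bx_pre hd.lnd hv0n hv0 (hf r)
      have hor := (isPreconnected_iff_subset_of_disjoint.1 hpc) _ _
        (Bx_open hd.lnd.toBot hv0n hη') (Bx_open hd.lnd.toBot hv0n' hη') hcov (by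
          rw [Set.eq_empty_iff_forall_notMem]
          rintro z ⟨-, h1, h2⟩
          exact Bx_disj hd.lnd.toBot hv0n (by linarith) h1 h2)
      rcases hor with h1 | h1
      · exact ⟨v0, hv0n, hv0, fun r => h1 ⟨r, rfl⟩⟩
      · exact ⟨-v0, hv0n', by rw [neg_sq, hv0], fun r => h1 ⟨r, rfl⟩⟩
    -- coordinates of the end points
    have coord : ∀ r (ξ : ℂ), 0 < ξ.re → |ξ.im| < η → (f c)^[n + 1] (Γ r) =
        ψ (w * Complex.exp ξ) → (f c)^[n] (Γ r) = ψ (v * Complex.exp (ξ / 2)) := by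
      intro r ξ h1 h2 h3
      obtain ⟨ξ', c1, c2, c3⟩ := hin r
      rw [iter_succ, c3, psi_f hd.lnd (one_lt_ue hv c1).le, sq_ue, hvw] at h3
      have him2 : (2 * ξ').im = 2 * ξ'.im := by simp
      have h4 : 2 * ξ' = ξ := by
        apply ue_inj hd.lnd.toBot hw (by simpa using c1) h1 ?_ (by linarith) h3
        rw [him2, abs_mul, abs_two]
        linarith
      rw [c3, ← h4]
      congr 3
      ring
    have ea := coord 0 ζ a1 a2 ha
    have eb := coord 1 ζ' b1 b2 hb
    have him : ∀ ξ : ℂ, (ξ / 2).im = ξ.im / 2 := fun ξ => by simp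
    have hre : ∀ ξ : ℂ, (ξ / 2).re = ξ.re / 2 := fun ξ => by simp
    have habs : ∀ ξ : ℂ, |ξ.im| < η → |(ξ / 2).im| < η / 2 := fun ξ h1 => by
      rw [him, abs_div, abs_two]; linarith
    -- the condition for the next spider
    have hs' : ∀ p, ∀ θ : ℝ, |θ| < η / 2 → sp.U (N + 1) p = v * Complex.exp (θ * Complex.I) →
        sp.U (N + 1) p = v := by
      intro p θ h1 h2
      have h3 : sp.U N (nx p) = w * Complex.exp (((2 * θ : ℝ) : ℂ) * Complex.I) := by
        rw [← sp.sq, h2, sq_ue, hvw]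
        congr 2
        push_cast; ring
      have h4 := hs (nx p) (2 * θ) (by rw [abs_mul, abs_two]; linarith) h3
      rw [h4] at h3
      have h5 : Complex.exp (((2 * θ : ℝ) : ℂ) * Complex.I) = Complex.exp 0 := by
        rw [Complex.exp_zero]
        apply mul_left_cancel₀ (ne_zero_of_norm hw)
        rw [← h3, mul_one]
      rw [abs_lt] at h1
      have h6 := Complex.exp_inj_of_neg_pi_lt_of_le_pi (by simp; linarith) (by simp; linarith)
        (by simp; linarith) (by simp; linarith) h5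
      have h7 : 2 * θ = 0 := by
        have := congrArg Complex.im h6
        simpa using this
      have h8 : θ = 0 := by linarith
      rw [h2, h8]; simp
    have key := ih (N + 1) v (η / 2) hv hη' (by linarith) hs' Γ hin (ζ / 2) (ζ' / 2)
      (by rw [hre]; linarith) (habs ζ a2) (by rw [him]; exact div_ne_zero a3 two_ne_zero)
      (by rw [hre]; linarith) (habs ζ' b2) (by rw [him]; exact div_ne_zero b3 two_ne_zero) ea eb
    have hiff : (0 < (ζ / 2).im ↔ 0 < (ζ' / 2).im) ↔ (0 < ζ.im ↔ 0 < ζ'.im) := by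
      rw [him, him]
      constructor <;> intro h1 <;> constructor <;> intro h2
      · have := h1.1 (by linarith); linarith
      · have := h1.2 (by linarith); linarith
      · have := h1.1 (by linarith); linarith
      · have := h1.2 (by linarith); linarith
    rw [hiff] at key
    rw [abs_lt] at a2 b2
    by_cases hwo : w = sp.U N (ov c)
    · -- the leg of the critical value
      have hvo : v ^ 2 = sp.U N (ov c) := by rw [hvw, hwo]
      have hnone : ∀ q, sp.U (N + 1) q ≠ v := by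
        intro q hq
        have h1 : ov c = nx q := U_inj sp (N := N) (by rw [← sp.sq, hq, hvo])
        have h2 : c = f c q.1 := congrArg Subtype.val h1
        exact hd.mis.ne (zero_of_f h2.symm ▸ q.2)
      have htail : lab sp (N + 1) n (Γ 1) = lab sp (N + 1) n (Γ 0) := by
        by_cases h1 : (0 < ζ.im ↔ 0 < ζ'.im)
        · exact key.1 h1
        · rw [key.2 h1, crs_none hd sp (N + 1) hnone]
      have same : ∀ ξ ξ' : ℂ, 0 < ξ.re → 0 < ξ'.re → -η < ξ.im → ξ.im < η → -η < ξ'.im →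
          ξ'.im < η → ξ.im < 0 → ξ'.im < 0 → sp.S N (ψ (v * Complex.exp (ξ / 2))) =
            sp.S N (ψ (v * Complex.exp (ξ' / 2))) := by
        intro ξ ξ' d1 d2 d3 d4 d5 d6 d7 d8
        have m1 : 0 < (1 + Complex.I : ℂ).re := by simp
        have m2 : 0 < (1 + Complex.I : ℂ).im := by simp
        have m3 : (1 + Complex.I : ℂ).im < Real.pi := by
          simp; linarith [Real.pi_gt_three]
        rw [side_flip hd sp N hv hvo m1 m2 m3 (ζ' := ξ / 2) (by rw [hre]; linarith)
            (by rw [him]; linarith) (by rw [him]; linarith),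
          side_flip hd sp N hv hvo m1 m2 m3 (ζ' := ξ' / 2) (by rw [hre]; linarith)
            (by rw [him]; linarith) (by rw [him]; linarith)]
      rw [lab_succ, lab_succ, htail, ea, eb]
      rcases lt_or_gt_of_ne a3 with a4 | a4 <;> rcases lt_or_gt_of_ne b3 with b4 | b4
      · refine ⟨fun _ => ?_, fun h1 => absurd ⟨fun h => by linarith, fun h => by linarith⟩ h1⟩
        rw [same ζ ζ' a1 b1 a2.1 a2.2 b2.1 b2.2 a4 b4]
      · refine ⟨fun h1 => by have := h1.2 b4; linarith, fun _ => ?_⟩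
        rw [hwo, crs_U]
        have e1 := side_flip hd sp N hv hvo (ζ := ζ' / 2) (ζ' := ζ / 2) (by rw [hre]; linarith)
          (by rw [him]; linarith) (by rw [him]; linarith) (by rw [hre]; linarith)
          (by rw [him]; linarith) (by rw [him]; linarith)
        show _ = (ksC hd).act (ksC hd).o _
        rw [act_o, e1, Bool.not_not]
      · refine ⟨fun h1 => by have := h1.1 a4; linarith, fun _ => ?_⟩
        rw [hwo, crs_U]
        have e1 := side_flip hd sp N hv hvo (ζ := ζ / 2) (ζ' := ζ' / 2) (by rw [hre]; linarith)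
          (by rw [him]; linarith) (by rw [him]; linarith) (by rw [hre]; linarith)
          (by rw [him]; linarith) (by rw [him]; linarith)
        show _ = (ksC hd).act (ksC hd).o _
        rw [act_o, e1]
      · refine ⟨fun _ => ?_, fun h1 => absurd ⟨fun _ => b4, fun _ => a4⟩ h1⟩
        rw [side_upper hd sp N hv hvo (ζ := ζ / 2) (ζ' := ζ' / 2) (by rw [hre]; linarith)
          (by rw [him]; linarith) (by rw [him]; linarith) (by rw [hre]; linarith)
          (by rw [him]; linarith) (by rw [him]; linarith)]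
    · -- the head does not change
      have hhead : sp.S N ((f c)^[n] (Γ 1)) = sp.S N ((f c)^[n] (Γ 0)) := by
        refine (sp.side N).loc _ (isPreconnected_range hc) ?_ _ ⟨1, rfl⟩ _ ⟨0, rfl⟩
        rintro _ ⟨r, rfl⟩
        obtain ⟨ξ, d1, d2, d3⟩ := hf r
        show f c ((f c)^[n] (Γ r)) ∉ _
        rw [d3]
        apply sector_off hd.lnd hw (sp.nrm N _) (val_K hd sp N _) d1
        intro he
        exact hwo (hs (ov c) _ d2 he).symm
      rw [lab_succ, lab_succ, hhead]
      constructor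
      · intro h1; rw [key.1 h1]
      · intro h1
        rw [key.2 h1, ea]
        exact (crs_step hd sp N hv hvw hwo hs (by rw [hre]; linarith)
          (habs ζ (abs_lt.2 a2)) _).symm

end R4C
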