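import Pool.Agent.Work.MP_e3f5d9_al_cx.IMG2

/-!
# Block IMG, part 3: paths act by elements of the group
-/

set_option autoImplicit false

open Polynomial unitInterval Topology Metric Filter PCF

namespace R4C

variable {c : ℂ} {ψ : ℂ → ℂ} {u : ℂ} {s : ℂ → Bool}

/-! ### Legs are closed -/

lemma leg_closed (h : Lnd c ψ) {w : ℂ} (hw : ‖w‖ = 1) : IsClosed (leg ψ w) := by
  -- growth of `ψ`
  obtain ⟨R, hR⟩ : ∃ R : ℝ, ∀ z : ℂ, R < ‖z‖ → ‖z‖ / 2 ≤ ‖ψ z‖ := by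
    have h1 : ∀ᶠ z in Bornology.cobounded ℂ, ‖ψ z / z - 1‖ < 1 / 2 := by
      have := (Metric.tendsto_nhds.1 h.inf) (1 / 2) (by norm_num)
      simpa [dist_eq_norm] using this
    have h2 : ∀ᶠ z : ℂ in Bornology.cobounded ℂ, ‖z‖ / 2 ≤ ‖ψ z‖ := by
      have h3 : ∀ᶠ z : ℂ in Bornology.cobounded ℂ, z ≠ 0 := by
        have : ({0} : Set ℂ)ᶜ ∈ Bornology.cobounded ℂ :=
          Bornology.isBounded_def.1 Bornology.isBounded_singleton
        filter_upwards [this] with z hz using hz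
      filter_upwards [h1, h3] with z hz hz0
      have h4 : 1 - 1 / 2 ≤ ‖ψ z / z‖ := by
        have := norm_sub_norm_le (1 : ℂ) (1 - ψ z / z)
        rw [norm_sub_rev] at hz
        rw [norm_one] at this
        have e : (1 : ℂ) - (1 - ψ z / z) = ψ z / z := by ring
        rw [e] at this
        linarith
      rw [norm_div, le_div_iff₀ (norm_pos_iff.2 hz0)] at h4
      linarith
    have h3 : Bornology.IsBounded {z : ℂ | ‖z‖ / 2 ≤ ‖ψ z‖}ᶜ := Bornology.isBounded_compl_iff.2 h2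
    obtain ⟨R, hR⟩ := (Metric.isBounded_iff_subset_closedBall (0 : ℂ)).1 h3
    refine ⟨R, fun z hz => ?_⟩
    by_contra hcon
    have h4 : z ∈ closedBall (0 : ℂ) R := hR hcon
    rw [mem_closedBall, dist_zero_right] at h4
    linarith
  rw [← isOpen_compl_iff, isOpen_iff_mem_nhds]
  intro z hz
  set T : ℝ := max (max R (2 * (‖z‖ + 1))) 1 with hT
  have hT1 : 1 ≤ T := le_max_right _ _
  have hTR : R ≤ T := (le_max_left _ _).trans (le_max_left _ _)
  have hTz : 2 * (‖z‖ + 1) ≤ T := (le_max_right _ _).trans (le_max_left _ _)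
  set A : Set ℂ := (fun t : ℝ => ψ (t * w)) '' Set.Icc 1 T with hA
  have hAc : IsCompact A := by
    apply isCompact_Icc.image_of_continuousOn
    apply h.cont.comp (t := {w | 1 ≤ ‖w‖})
    · fun_prop
    · intro t ht
      show 1 ≤ ‖_‖
      rw [norm_tu hw (by linarith [ht.1])]
      exact ht.1
  have hzA : z ∉ A := by
    rintro ⟨t, ht, rfl⟩
    exact hz ⟨t, ht.1, rfl⟩
  filter_upwards [hAc.isClosed.isOpen_compl.mem_nhds hzA, ball_mem_nhds z one_pos] with y h1 h2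
  rintro ⟨t, ht, rfl⟩
  apply h1
  refine ⟨t, ⟨ht, ?_⟩, rfl⟩
  by_contra hcon
  push Not at hcon
  have h3 := hR (t * w) (by rw [norm_tu hw (by linarith)]; linarith)
  rw [norm_tu hw (by linarith)] at h3
  rw [mem_ball, dist_eq_norm] at h2
  have h4 := norm_sub_norm_le (ψ (t * w)) z
  linarith

lemma Om_open [Finite (P c)] (h : Lnd c ψ) (sp : Spi c ψ s) (N : ℕ) : IsOpen (Om sp N) := by
  have h1 : Om sp N = ⋂ p, (leg ψ (sp.U N p))ᶜ := by
    ext z; simp [Om]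
  rw [h1]
  exact isOpen_iInter_of_finite fun p => (leg_closed h (sp.nrm N p)).isOpen_compl

lemma Om_av (sp : Spi c ψ s) {N : ℕ} {z : ℂ} (hz : z ∈ Om sp N) : z ∉ P c := by
  intro h
  exact hz ⟨z, h⟩ ⟨1, le_refl _, by simp [sp.val]⟩

/-! ### Good sets -/

variable [Fintype (P c)] [DecidableEq (P c)]

/-- Paths in `W` act on the labels by elements of the group. -/
def Gd (hd : Dat c ψ u s) (sp : Spi c ψ s) (W : Set ℂ) : Prop :=
  ∀ (a b : ℂ) (γ : Path a b), (∀ r, γ r ∈ W) → a ∈ Om sp 0 → b ∈ Om sp 0 →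
    ∃ g ∈ (ksC hd).grp, ∀ n x y, Tr (X ^ 2 + C c) n γ x y → lab sp 0 n y = g (lab sp 0 n x)

omit [Fintype (P c)] [DecidableEq (P c)] in
lemma lab_Om (h : Lnd c ψ) (sp : Spi c ψ s) {a b : ℂ} (γ : Path a b) (hγ : ∀ r, γ r ∈ Om sp 0)
    {n : ℕ} {x y : ℂ} (hT : Tr (X ^ 2 + C c) n γ x y) : lab sp 0 n y = lab sp 0 n x := by
  obtain ⟨Γ, hΓ⟩ := hT
  have h1 := lab_const h sp n 0 Γ.toContinuousMap (fun r => by
    show (f c)^[n] (Γ r) ∈ Om sp 0
    rw [← it_qp, hΓ]; exact hγ r) 1 0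
  have e1 : Γ.toContinuousMap 1 = y := Γ.target
  have e0 : Γ.toContinuousMap 0 = x := Γ.source
  rwa [e1, e0] at h1

lemma gd_Om (hd : Dat c ψ u s) (sp : Spi c ψ s) : Gd hd sp (Om sp 0) := by
  intro a b γ hγ _ _
  exact ⟨1, Subgroup.one_mem _, fun n x y h => lab_Om hd.lnd sp γ hγ h⟩

omit [Fintype (P c)] [DecidableEq (P c)] in
/-- Isolation of the rays of a spider. -/
lemma exists_eta [Finite (P c)] (sp : Spi c ψ s) (N : ℕ) (w : ℂ) :
    ∃ η : ℝ, 0 < η ∧ η ≤ Real.pi / 2 ∧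
    ∀ q, ∀ θ : ℝ, |θ| < η → sp.U N q = w * Complex.exp (θ * Complex.I) → sp.U N q = w := by
  have h1 : ∀ᶠ θ : ℝ in 𝓝 0, ∀ q, sp.U N q = w * Complex.exp (θ * Complex.I) →
      sp.U N q = w := by
    rw [eventually_all]
    intro q
    by_cases hq : sp.U N q = w
    · exact Eventually.of_forall fun _ _ => hq
    · have hc : Continuous fun θ : ℝ => w * Complex.exp (θ * Complex.I) := by fun_prop
      have h2 : ∀ᶠ θ : ℝ in 𝓝 0, w * Complex.exp (θ * Complex.I) ≠ sp.U N q := by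
        apply hc.continuousAt.eventually_ne
        simpa using (Ne.symm hq)
      filter_upwards [h2] with θ hθ h3
      exact absurd h3.symm hθ
  obtain ⟨ε, hε, h2⟩ := Metric.eventually_nhds_iff.1 h1
  refine ⟨min ε (Real.pi / 2), lt_min hε (by positivity), min_le_right _ _, fun q θ hθ => ?_⟩
  exact h2 (by rw [Real.dist_eq, sub_zero]; exact hθ.trans_le (min_le_left _ _)) q

omit [Fintype (P c)] [DecidableEq (P c)] in
/-- Points off the centre of an isolated sector are off the legs. -/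
lemma off_centre (hd : Dat c ψ u s) (sp : Spi c ψ s) {w : ℂ} (hw : ‖w‖ = 1) {η : ℝ}
    (hη : η ≤ Real.pi / 2)
    (hs : ∀ q, ∀ θ : ℝ, |θ| < η → sp.U 0 q = w * Complex.exp (θ * Complex.I) → sp.U 0 q = w)
    {ζ : ℂ} (h1 : 0 < ζ.re) (h2 : |ζ.im| < η) (h3 : ζ.im ≠ 0) :
    ψ (w * Complex.exp ζ) ∈ Om sp 0 := by
  intro q hq
  obtain ⟨t, ht, he⟩ := mem_leg_ext hd.lnd.toBot (sp.nrm 0 q) (val_K hd sp 0 q)
    (one_lt_ue hw h1) hq
  have h4 := dir_of_eq hw (sp.nrm 0 q) ht he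
  have h5 := hs q ζ.im h2 h4
  rw [h5] at h4
  have h6 : Complex.exp ((ζ.im : ℂ) * Complex.I) = Complex.exp 0 := by
    rw [Complex.exp_zero]
    apply mul_left_cancel₀ (ne_zero_of_norm hw)
    rw [← h4, mul_one]
  have hpi := Real.pi_pos
  rw [abs_lt] at h2
  have h7 := Complex.exp_inj_of_neg_pi_lt_of_le_pi (by simp; linarith) (by simp; linarith)
    (by simp; linarith) (by simp; linarith) h6
  apply h3
  have := congrArg Complex.im h7
  simpa using this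

lemma gd_Bx (hd : Dat c ψ u s) (sp : Spi c ψ s) (p : P c) {η : ℝ} (hη0 : 0 < η)
    (hη : η ≤ Real.pi / 2)
    (hs : ∀ q, ∀ θ : ℝ, |θ| < η → sp.U 0 q = sp.U 0 p * Complex.exp (θ * Complex.I) →
      sp.U 0 q = sp.U 0 p) : Gd hd sp (Bx ψ (sp.U 0 p) η) := by
  intro a b γ hγ ha hb
  have hcoord : ∀ z ∈ Bx ψ (sp.U 0 p) η, z ∈ Om sp 0 → ∃ ζ : ℂ, 0 < ζ.re ∧ |ζ.im| < η ∧
      ζ.im ≠ 0 ∧ z = ψ (sp.U 0 p * Complex.exp ζ) := by
    rintro z ⟨ζ, h1, h2, rfl⟩ hz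
    refine ⟨ζ, h1, h2, fun h3 => hz p ⟨Real.exp ζ.re, Real.one_le_exp h1.le, ?_⟩, rfl⟩
    congr 1
    have : ζ = (ζ.re : ℂ) := by apply Complex.ext <;> simp [h3]
    rw [Complex.ofReal_exp, ← this, mul_comm]
  have ha' : a ∈ Bx ψ (sp.U 0 p) η := by have := hγ 0; rwa [γ.source] at this
  have hb' : b ∈ Bx ψ (sp.U 0 p) η := by have := hγ 1; rwa [γ.target] at this
  obtain ⟨ζ, a1, a2, a3, a4⟩ := hcoord a ha' ha
  obtain ⟨ζ', b1, b2, b3, b4⟩ := hcoord b hb' hb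
  have key : ∀ n x y, Tr (X ^ 2 + C c) n γ x y →
      ((0 < ζ.im ↔ 0 < ζ'.im) → lab sp 0 n y = lab sp 0 n x) ∧
      (¬ (0 < ζ.im ↔ 0 < ζ'.im) → lab sp 0 n y = (ksC hd).act p (lab sp 0 n x)) := by
    rintro n x y ⟨Γ, hΓ⟩
    have hΓ' : ∀ r, (f c)^[n] (Γ.toContinuousMap r) = γ r := fun r => by
      rw [← it_qp]; exact hΓ r
    have e1 : Γ.toContinuousMap 1 = y := Γ.target
    have e0 : Γ.toContinuousMap 0 = x := Γ.source
    have h1 := crossing hd sp n 0 (sp.U 0 p) η (sp.nrm 0 p) hη0 hη hs Γ.toContinuousMap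
      (fun r => by rw [hΓ']; exact hγ r) ζ ζ' a1 a2 a3 b1 b2 b3
      (by rw [hΓ', γ.source, a4]) (by rw [hΓ', γ.target, b4])
    rw [e1, e0, crs_U] at h1
    exact h1
  by_cases hside : (0 < ζ.im ↔ 0 < ζ'.im)
  · exact ⟨1, Subgroup.one_mem _, fun n x y h => (key n x y h).1 hside⟩
  · exact ⟨actP (ksC hd) p, actP_mem _ p, fun n x y h => (key n x y h).2 hside⟩

omit [Fintype (P c)] [DecidableEq (P c)] in
/-- A point outside the postcritical set on a leg. -/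
lemma on_leg (sp : Spi c ψ s) {q : ℂ} (hq : q ∉ P c) (h : q ∉ Om sp 0) :
    ∃ p, ∃ ζ : ℂ, 0 < ζ.re ∧ ζ.im = 0 ∧ q = ψ (sp.U 0 p * Complex.exp ζ) := by
  unfold Om at h
  simp only [Set.mem_ofPred_eq, not_forall, not_not] at h
  obtain ⟨p, t, ht, rfl⟩ := h
  have ht1 : 1 < t := by
    rcases ht.lt_or_eq with h1 | h1
    · exact h1
    · exfalso
      apply hq
      rw [← h1]
      simp [sp.val]
  refine ⟨p, (Real.log t : ℂ), ?_, by simp, ?_⟩
  · rw [Complex.ofReal_re]; exact Real.log_pos ht1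
  · rw [← Complex.ofReal_exp, Real.exp_log (by linarith), mul_comm]

lemma exists_good (hd : Dat c ψ u s) (sp : Spi c ψ s) {q : ℂ} (hq : q ∉ P c) :
    ∃ W : Set ℂ, IsOpen W ∧ q ∈ W ∧ Gd hd sp W ∧ ∀ z ∈ W, z ∉ P c := by
  by_cases h : q ∈ Om sp 0
  · exact ⟨Om sp 0, Om_open hd.lnd sp 0, h, gd_Om hd sp, fun z hz => Om_av sp hz⟩
  · obtain ⟨p, ζ, h1, h2, rfl⟩ := on_leg sp hq h
    obtain ⟨η, e1, e2, e3⟩ := exists_eta sp 0 (sp.U 0 p)
    refine ⟨Bx ψ (sp.U 0 p) η, Bx_open hd.lnd.toBot (sp.nrm 0 p) e1, ⟨ζ, h1, ?_, rfl⟩,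
      gd_Bx hd sp p e1 e2 e3, fun z hz hP => ?_⟩
    · rw [h2, abs_zero]; exact e1
    · exact Bx_notK hd.lnd.toBot (sp.nrm 0 p) hz (P_sub_K hd.mis.fin hP)

omit [DecidableEq (P c)] in
lemma exists_Om_near (hd : Dat c ψ u s) (sp : Spi c ψ s) {q : ℂ} (hq : q ∉ P c) {O : Set ℂ}
    (hO : IsOpen O) (hqO : q ∈ O) : ∃ y ∈ O, y ∈ Om sp 0 := by
  by_cases h : q ∈ Om sp 0
  · exact ⟨q, hqO, h⟩
  · obtain ⟨p, ζ, h1, h2, rfl⟩ := on_leg sp hq h
    obtain ⟨η, e1, e2, e3⟩ := exists_eta sp 0 (sp.U 0 p)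
    have hc : Continuous fun r : ℝ => ψ (sp.U 0 p * Complex.exp (ζ + r * Complex.I)) := by
      apply hd.lnd.cont.comp_continuous (by fun_prop)
      intro r
      show 1 ≤ ‖_‖
      rw [norm_ue (sp.nrm 0 p)]
      apply Real.one_le_exp
      simpa using h1.le
    have h3 : ∀ᶠ r : ℝ in 𝓝 0, ψ (sp.U 0 p * Complex.exp (ζ + r * Complex.I)) ∈ O := by
      apply hc.continuousAt.eventually_mem
      apply hO.mem_nhds
      simpa using hqO
    obtain ⟨ε, hε, h4⟩ := Metric.eventually_nhds_iff.1 h3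
    set r : ℝ := min ε η / 2 with hr
    have hr0 : 0 < r := by rw [hr]; have := lt_min hε e1; linarith
    have hrε : r < ε := by rw [hr]; have := lt_min hε e1; have := min_le_left ε η; linarith
    have hrη : r < η := by rw [hr]; have := lt_min hε e1; have := min_le_right ε η; linarith
    refine ⟨_, h4 (y := r) (by rw [Real.dist_eq, sub_zero, abs_of_pos hr0]; exact hrε), ?_⟩
    apply off_centre hd sp (sp.nrm 0 p) e2 e3
    · simpa using h1
    · simp only [Complex.add_im, Complex.mul_im, Complex.ofReal_re, Complex.I_im, mul_one,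
        Complex.ofReal_im, Complex.I_re, mul_zero, add_zero, h2, zero_add]
      rw [abs_of_pos hr0]; exact hrη
    · simp only [Complex.add_im, Complex.mul_im, Complex.ofReal_re, Complex.I_im, mul_one,
        Complex.ofReal_im, Complex.I_re, mul_zero, add_zero, h2, zero_add]
      exact hr0.ne'

/-! ### Paths -/

/-- The affine map of the unit interval with given end points. -/
def cJ (a b r : I) : I :=
  ⟨(1 - (r : ℝ)) * a + (r : ℝ) * b, by
    have h1 := a.2.1; have h2 := b.2.1; have h3 := r.2.1; have h4 := r.2.2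
    have h5 := a.2.2; have h6 := b.2.2
    constructor
    · exact add_nonneg (mul_nonneg (by linarith) h1) (mul_nonneg h3 h2)
    · nlinarith [mul_nonneg (sub_nonneg.2 h4) (sub_nonneg.2 h5), mul_nonneg h3 (sub_nonneg.2 h6)]⟩

/-- The part of a path between two parameters. -/
noncomputable def sbp (γ : C(I, ℂ)) (a b : I) : Path (γ a) (γ b) where
  toFun r := γ (cJ a b r)
  continuous_toFun := by
    apply γ.continuous.comp
    unfold cJ
    fun_prop
  source' := by congr 1; apply Subtype.ext; simp [cJ]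
  target' := by congr 1; apply Subtype.ext; simp [cJ]

lemma sbp_apply (γ : C(I, ℂ)) (a b r : I) : sbp γ a b r = γ (cJ a b r) := rfl

lemma cJ_mem {a b : I} (hab : a ≤ b) (r : I) : cJ a b r ∈ Set.Icc a b := by
  have h1 : (a : ℝ) ≤ b := hab
  have h3 := r.2.1; have h4 := r.2.2
  constructor
  · show (a : ℝ) ≤ (1 - (r : ℝ)) * a + (r : ℝ) * b
    nlinarith [mul_nonneg h3 (sub_nonneg.2 h1)]
  · show (1 - (r : ℝ)) * a + (r : ℝ) * b ≤ (b : ℝ)
    nlinarith [mul_nonneg (sub_nonneg.2 h4) (sub_nonneg.2 h1)]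

/-- A straight segment. -/
noncomputable def sgm (a b : ℂ) : Path a b where
  toFun r := (1 - ((r : ℝ) : ℂ)) * a + ((r : ℝ) : ℂ) * b
  continuous_toFun := by fun_prop
  source' := by simp
  target' := by simp

lemma sgm_mem {a b : ℂ} {B : Set ℂ} (hB : Convex ℝ B) (ha : a ∈ B) (hb : b ∈ B) (r : I) :
    sgm a b r ∈ B := by
  have h3 := hB ha hb (sub_nonneg.2 r.2.2) r.2.1 (by ring)
  have h4 : (1 - (r : ℝ)) • a + (r : ℝ) • b = sgm a b r := by
    show _ = (1 - ((r : ℝ) : ℂ)) * a + ((r : ℝ) : ℂ) * b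
    simp [Complex.real_smul]
  rwa [h4] at h3

lemma trans_mem {a b d : ℂ} {γ : Path a b} {δ : Path b d} {W : Set ℂ} (h1 : ∀ r, γ r ∈ W)
    (h2 : ∀ r, δ r ∈ W) (r : I) : (γ.trans δ) r ∈ W := by
  rw [Path.trans_apply]
  split_ifs
  · exact h1 _
  · exact h2 _

omit [DecidableEq (P c)] in
/-- A short detour to a point off the legs. -/
lemma exists_detour (hd : Dat c ψ u s) (sp : Spi c ψ s) {q : ℂ} (hq : q ∉ P c) {O : Set ℂ}
    (hO : IsOpen O) (hqO : q ∈ O) : ∃ y ∈ Om sp 0, ∃ δ : Path q y, ∀ r, δ r ∈ O := by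
  obtain ⟨ε, hε, hB⟩ := Metric.isOpen_iff.1 hO q hqO
  obtain ⟨y, hy, hyO⟩ := exists_Om_near hd sp hq isOpen_ball (mem_ball_self hε)
  exact ⟨y, hyO, sgm q y, fun r => hB (sgm_mem (convex_ball q ε) (mem_ball_self hε) hy r)⟩

/-- **Every path outside the postcritical set acts by an element of the group.** -/
theorem path_acts (hA : Adm (X ^ 2 + C c) (P c)) (hd : Dat c ψ u s) (sp : Spi c ψ s) {a b : ℂ}
    (γ : Path a b) (hγ : Av (P c) γ) (ha : a ∈ Om sp 0) (hb : b ∈ Om sp 0) :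
    ∃ g ∈ (ksC hd).grp, ∀ n x y, Tr (X ^ 2 + C c) n γ x y →
      lab sp 0 n y = g (lab sp 0 n x) := by
  set G : C(I, ℂ) := γ.toContinuousMap with hG
  have hGγ : ∀ r, G r = γ r := fun r => rfl
  choose W W1 W2 W3 W4 using fun r : I => exists_good hd sp (hγ r)
  obtain ⟨t, t0, tm, ⟨m, tend⟩, tc⟩ := exists_monotone_Icc_subset_open_cover_unitInterval
    (c := fun r => G ⁻¹' W r) (fun r => (W1 r).preimage G.continuous)
    (fun r _ => Set.mem_iUnion.2 ⟨r, W2 r⟩)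
  have key : ∀ k : ℕ, ∀ V : Set ℂ, IsOpen V → Gd hd sp V → (∀ z ∈ V, z ∉ P c) → G (t k) ∈ V →
      ∀ y ∈ Om sp 0, ∀ δ : Path (G (t k)) y, (∀ r, δ r ∈ V) → ∃ g ∈ (ksC hd).grp,
        ∀ (n : ℕ) (Γ : C(I, ℂ)), (∀ r, it (X ^ 2 + C c) n (Γ r) = G r) → ∀ z',
          Tr (X ^ 2 + C c) n δ (Γ (t k)) z' → lab sp 0 n z' = g (lab sp 0 n (Γ 0)) := by
    intro k
    induction k with
    | zero =>
      intro V _ hV _ _ y hy δ hδ
      obtain ⟨g, hg, h1⟩ := hV _ _ δ hδ (by rw [t0, hGγ, γ.source]; exact ha) hy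
      refine ⟨g, hg, fun n Γ _ z' hz' => ?_⟩
      rw [h1 n _ _ hz', t0]
    | succ k ih =>
      intro V hVo hV hVP hmem y' hy' δ' hδ'
      obtain ⟨i, hi⟩ := tc k
      have htk : t k ≤ t (k + 1) := tm (Nat.le_succ k)
      have m1 : G (t k) ∈ W i := hi ⟨le_refl _, htk⟩
      have m2 : G (t (k + 1)) ∈ W i := hi ⟨htk, le_refl _⟩
      obtain ⟨y, hy, δ, hδ⟩ := exists_detour hd sp (hγ (t k)) (W1 i) m1
      obtain ⟨y'', hy'', δ'', hδ''⟩ := exists_detour hd sp (hγ (t (k + 1)))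
        ((W1 i).inter hVo) ⟨m2, hmem⟩
      obtain ⟨g1, hg1, h1⟩ := ih (W i) (W1 i) (W3 i) (W4 i) m1 y hy δ hδ
      have hsub : ∀ r, sbp G (t k) (t (k + 1)) r ∈ W i := fun r => hi (cJ_mem htk r)
      obtain ⟨g2, hg2, h2⟩ := W3 i _ _ (δ.symm.trans ((sbp G (t k) (t (k + 1))).trans δ''))
        (trans_mem (fun r => hδ _) (trans_mem hsub fun r => (hδ'' r).1)) hy hy''
      obtain ⟨g3, hg3, h3⟩ := hV _ _ (δ''.symm.trans δ')
        (trans_mem (fun r => (hδ'' _).2) hδ') hy'' hy'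
      refine ⟨g3 * (g2 * g1), mul_mem hg3 (mul_mem hg2 hg1), fun n Γ hΓ z' hz' => ?_⟩
      obtain ⟨z1, hz1⟩ := tr_exists hA n δ (fun r => W4 i _ (hδ r)) (Γ (t k)) (hΓ _)
      obtain ⟨z2, hz2⟩ := tr_exists hA n δ'' (fun r => W4 i _ (hδ'' r).1) (Γ (t (k + 1))) (hΓ _)
      have hs : Tr (X ^ 2 + C c) n (sbp G (t k) (t (k + 1))) (Γ (t k)) (Γ (t (k + 1))) :=
        ⟨sbp Γ (t k) (t (k + 1)), fun r => hΓ _⟩
      have e1 := h1 n Γ hΓ z1 hz1
      have e2 := h2 n z1 z2 (tr_trans (tr_symm hz1) (tr_trans hs hz2))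
      have e3 := h3 n z2 z' (tr_trans (tr_symm hz2) hz')
      rw [e3, e2, e1]
      rfl
  obtain ⟨V, V1, V2, V3, V4⟩ := exists_good hd sp (hγ (t m))
  have htm : t m = 1 := tend m le_rfl
  have hbm : G (t m) ∈ Om sp 0 := by rw [htm, hGγ, γ.target]; exact hb
  obtain ⟨g, hg, h1⟩ := key m V V1 V3 V4 V2 (G (t m)) hbm (Path.refl _) (fun r => V2)
  refine ⟨g, hg, ?_⟩
  rintro n x y ⟨Γ, hΓ⟩
  have e1 : Γ.toContinuousMap (t m) = y := by rw [htm]; exact Γ.target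
  have e0 : Γ.toContinuousMap 0 = x := Γ.source
  have h2 := h1 n Γ.toContinuousMap hΓ (Γ.toContinuousMap (t m)) (tr_refl (hΓ _))
  rwa [e1, e0] at h2

/-- For every letter there is a loop that acts as this letter. -/
theorem loop_letter (hCON : Stmt_CON) (hd : Dat c ψ u s) (sp : Spi c ψ s) (p : P c) {a : ℂ}
    (ha : a ∈ Om sp 0) : ∃ γ : Path a a, Av (P c) γ ∧ ∀ n x y, Tr (X ^ 2 + C c) n γ x y →
      lab sp 0 n y = (ksC hd).act p (lab sp 0 n x) := by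
  classical
  have hOm : IsConnected (Om sp 0) := by
    have h1 := hCON c ψ hd.lnd (Finset.univ.image (sp.U 0))
      (by intro w hw; obtain ⟨q, -, rfl⟩ := Finset.mem_image.1 hw; exact sp.nrm 0 q)
      (by
        intro w hw w' hw' he
        obtain ⟨q, -, rfl⟩ := Finset.mem_image.1 hw
        obtain ⟨q', -, rfl⟩ := Finset.mem_image.1 hw'
        rw [sp.val, sp.val] at he
        rw [Subtype.ext he])
    have h2 : (⋃ w ∈ Finset.univ.image (sp.U 0), leg ψ w)ᶜ = Om sp 0 := by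
      ext z
      constructor
      · intro hz q hq
        exact hz (Set.mem_biUnion (Finset.mem_image_of_mem _ (Finset.mem_univ q)) hq)
      · intro hz hm
        obtain ⟨w, hw, hzw⟩ := Set.mem_iUnion₂.1 hm
        obtain ⟨q, -, rfl⟩ := Finset.mem_image.1 hw
        exact hz q hzw
    rwa [h2] at h1
  have hpc : IsPathConnected (Om sp 0) :=
    (Om_open hd.lnd sp 0).isConnected_iff_isPathConnected.1 hOm
  obtain ⟨η, e1, e2, e3⟩ := exists_eta sp 0 (sp.U 0 p)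
  have hpi := Real.pi_pos
  -- the arc
  set ζ : I → ℂ := fun r => 1 + ((2 * (r : ℝ) - 1) * (η / 2) : ℝ) * Complex.I with hζ
  have hζre : ∀ r, (ζ r).re = 1 := fun r => by simp [hζ]
  have hζim : ∀ r, (ζ r).im = (2 * (r : ℝ) - 1) * (η / 2) := fun r => by
    simp only [hζ, Complex.add_im, Complex.one_im, Complex.im_ofReal_mul, Complex.I_im, mul_one,
      zero_add]
  have hζc : Continuous ζ := by rw [hζ]; fun_prop
  have habs : ∀ r, |(ζ r).im| < η := by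
    intro r
    rw [hζim, abs_lt]
    have h1 := r.2.1; have h2 := r.2.2
    constructor <;> nlinarith
  let arc : Path (ψ (sp.U 0 p * Complex.exp (ζ 0))) (ψ (sp.U 0 p * Complex.exp (ζ 1))) :=
    { toFun := fun r => ψ (sp.U 0 p * Complex.exp (ζ r))
      continuous_toFun := by
        apply hd.lnd.cont.comp_continuous (by fun_prop)
        intro r
        show 1 ≤ ‖_‖
        rw [norm_ue (sp.nrm 0 p), hζre]
        exact Real.one_le_exp zero_le_one
      source' := rfl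
      target' := rfl }
  have harc : ∀ r, arc r = ψ (sp.U 0 p * Complex.exp (ζ r)) := fun r => rfl
  have i0 : (ζ 0).im < 0 := by rw [hζim]; simp; exact e1
  have i1 : 0 < (ζ 1).im := by rw [hζim]; simp; linarith
  have m0 : ψ (sp.U 0 p * Complex.exp (ζ 0)) ∈ Om sp 0 :=
    off_centre hd sp (sp.nrm 0 p) e2 e3 (by rw [hζre]; exact one_pos) (habs 0) i0.ne
  have m1 : ψ (sp.U 0 p * Complex.exp (ζ 1)) ∈ Om sp 0 :=
    off_centre hd sp (sp.nrm 0 p) e2 e3 (by rw [hζre]; exact one_pos) (habs 1) i1.ne'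
  obtain ⟨γ0, h0⟩ := hpc.joinedIn _ ha _ m0
  obtain ⟨γ1, h1⟩ := hpc.joinedIn _ m1 _ ha
  have hbx : ∀ r, arc r ∈ Bx ψ (sp.U 0 p) η := fun r =>
    ⟨ζ r, by rw [hζre]; exact one_pos, habs r, rfl⟩
  refine ⟨(γ0.trans arc).trans γ1, ?_, ?_⟩
  · intro r
    apply trans_mem (W := (P c)ᶜ) (trans_mem ?_ ?_) ?_ r
    · exact fun r => Om_av sp (h0 r)
    · exact fun r hP => Bx_notK hd.lnd.toBot (sp.nrm 0 p) (hbx r) (P_sub_K hd.mis.fin hP)
    · exact fun r => Om_av sp (h1 r)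
  · intro n x y hT
    obtain ⟨z, h2, h3⟩ := tr_trans_iff.1 hT
    obtain ⟨z', h4, h5⟩ := tr_trans_iff.1 h2
    rw [lab_Om hd.lnd sp γ1 h1 h3]
    rw [← lab_Om hd.lnd sp γ0 h0 h4]
    obtain ⟨Γ, hΓ⟩ := h5
    have hΓ' : ∀ r, (f c)^[n] (Γ.toContinuousMap r) = arc r := fun r => by
      rw [← it_qp]; exact hΓ r
    have q1 : Γ.toContinuousMap 1 = z := Γ.target
    have q0 : Γ.toContinuousMap 0 = z' := Γ.source
    have h6 := (crossing hd sp n 0 (sp.U 0 p) η (sp.nrm 0 p) e1 e2 e3 Γ.toContinuousMap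
      (fun r => by rw [hΓ']; exact hbx r) (ζ 0) (ζ 1) (by rw [hζre]; exact one_pos) (habs 0)
      i0.ne (by rw [hζre]; exact one_pos) (habs 1) i1.ne' (by rw [hΓ', harc])
      (by rw [hΓ', harc])).2 (fun h => by have := h.2 i1; linarith)
    rw [q1, q0, crs_U] at h6
    exact h6

end R4C
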