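import Pool.Agent.Work.MP_e3f5d9_al_cx.Defs
import Pool.Agent.Work.MP_e3f5d9_al.Interface

/-!
# Interface of the complex identification (R4C)

One `Prop` per block, see `BLUEPRINT.md`.
-/

set_option autoImplicit false

open Polynomial unitInterval Topology Metric Filter

namespace R4C

/-! ### Analysis -/

/-- ELM: elementary facts. -/
def Stmt_ELM : Prop := ∀ c : ℂ,
  (∀ z, rad c ≤ ‖z‖ → 2 * ‖z‖ ≤ ‖f c z‖) ∧
  (∀ z, ‖f c z‖ ≤ rad c → ‖z‖ ≤ rad c) ∧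
  (∀ z (n : ℕ) (R : ℝ), rad c ≤ R → ‖(f c)^[n] z‖ ≤ R → ‖z‖ ≤ R) ∧
  (K c = {z | ∀ n, ‖(f c)^[n] z‖ ≤ rad c}) ∧
  IsCompact (K c) ∧
  (∀ z, f c z ∈ K c ↔ z ∈ K c) ∧
  (∀ z, -z ∈ K c ↔ z ∈ K c) ∧
  ((P c).Finite → 0 ∈ K c) ∧
  (∀ z ∉ K c, Tendsto (fun n => ‖(f c)^[n] z‖) atTop atTop) ∧
  (∀ (n : ℕ) z, PCF.it (X ^ 2 + C c) n z = (f c)^[n] z) ∧
  PCF.postCrit (X ^ 2 + C c) = P c

/-- PLF: (non-unique) lifts of paths through critical values. -/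
def Stmt_PLF : Prop := ∀ (c : ℂ) (N : ℕ) (γ : C(I, ℂ)) (z : ℂ), (f c)^[N] z = γ 0 →
  ∃ Γ : C(I, ℂ), Γ 0 = z ∧ ∀ s, (f c)^[N] (Γ s) = γ s

/-- ONE: lifts of short paths under one step are short. -/
def Stmt_ONE : Prop := ∀ (c : ℂ) (Γ : C(I, ℂ)) (δ : ℝ), 0 < δ →
  (∀ s s', ‖f c (Γ s) - f c (Γ s')‖ ≤ δ) → ∀ s s', ‖Γ s - Γ s'‖ ≤ 6 * Real.sqrt δ

/-- A solution of the functional equation on the ball of radius `r`. -/
def PsiEq (c : ℂ) (Ψ : ℂ → ℂ) (r : ℝ) : Prop :=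
  DifferentiableOn ℂ Ψ (ball 0 r) ∧ Ψ 0 = 1 ∧ ∀ u ∈ ball (0 : ℂ) r, Ψ u ^ 2 = Ψ (u ^ 2) - c * u ^ 2

/-- BOT1: the local solution. -/
def Stmt_BOT1 : Prop := ∀ c : ℂ, ∃ r : ℝ, 0 < r ∧ r < 1 ∧ ∃ Ψ, PsiEq c Ψ r

/-- BOT2: extension to the unit disc. -/
def Stmt_BOT2 : Prop := ∀ c : ℂ, 0 ∈ K c → (∃ r : ℝ, 0 < r ∧ r < 1 ∧ ∃ Ψ, PsiEq c Ψ r) →
  ∃ Ψ, PsiEq c Ψ 1

/-- BOT3: the properties of `ψ`. -/
def Stmt_BOT3 : Prop := ∀ (c : ℂ) (Ψ : ℂ → ℂ), 0 ∈ K c → PsiEq c Ψ 1 →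
  Bot c (fun w => w * Ψ w⁻¹)

/-- BOT: the inverse Boettcher map. -/
def Stmt_BOT : Prop := ∀ c : ℂ, 0 ∈ K c → ∃ ψ, Bot c ψ

/-- BR: branched inverse branches of `f^N` on a convex set with at most one postcritical point. -/
def Stmt_BR : Prop := ∀ (c a : ℂ) (W : Set ℂ), (P c).Finite → IsOpen W → Convex ℝ W → a ∈ W →
  (0 ∈ P c → Disjoint (P c) W) → (∀ p ∈ P c, p ∈ W → p = a) →
  ∀ (N : ℕ) (z w : ℂ), a + w ^ 2 ∈ W → (f c)^[N] z = a + w ^ 2 →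
    ∃ s : ℂ → ℂ, DifferentiableOn ℂ s {x | a + x ^ 2 ∈ W} ∧
      (∀ x, a + x ^ 2 ∈ W → (f c)^[N] (s x) = a + x ^ 2) ∧ s w = z

/-- BRU: unbranched inverse branches. -/
def Stmt_BRU : Prop := ∀ (c : ℂ) (W : Set ℂ), IsOpen W → Convex ℝ W → Disjoint (P c) W →
  ∀ (N : ℕ) (z w : ℂ), w ∈ W → (f c)^[N] z = w →
    ∃ s : ℂ → ℂ, DifferentiableOn ℂ s W ∧ (∀ x ∈ W, (f c)^[N] (s x) = x) ∧ s w = z

/-- SML: inverse branches of high level on a connected set that leaves `K` are nearly constant. -/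
def Stmt_SML : Prop := ∀ (c : ℂ) (D A : Set ℂ) (g : ℂ → ℂ), IsOpen D → IsPreconnected D →
  ContinuousOn g D → Bornology.IsBounded (g '' D) → (∃ w ∈ D, g w ∉ K c) → A ⊆ D → IsCompact A →
  ∀ ε : ℝ, 0 < ε → ∃ N0 : ℕ, ∀ N, N0 ≤ N → ∀ s : ℂ → ℂ, DifferentiableOn ℂ s D →
    (∀ w ∈ D, (f c)^[N] (s w) = g w) → ∀ w ∈ A, ∀ w' ∈ A, ‖s w - s w'‖ < ε

/-- CHT: every point has a convex neighbourhood that leaves `K` and contains no other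
postcritical point. -/
def Stmt_CHT : Prop := ∀ (c a : ℂ), (P c).Finite → ∃ W : Set ℂ, IsOpen W ∧ Convex ℝ W ∧ a ∈ W ∧
  Bornology.IsBounded W ∧ (∃ z ∈ W, z ∉ K c) ∧ ∀ p ∈ P c, p ∈ W → p = a

/-- `A` is a compact region on which the inverse branches are controlled. -/
def Region (c : ℂ) (A : Set ℂ) : Prop :=
  IsCompact A ∧ (∀ z, f c z ∈ A → z ∈ A) ∧ (0 ∈ P c → Disjoint (P c) A)

/-- SHR: uniform shrinking of the lifts of short paths (helper96: no rate is needed). -/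
def Stmt_SHR : Prop := ∀ (c : ℂ) (A : Set ℂ), (P c).Finite → Region c A →
  ∃ (δ : ℝ) (e : ℕ → ℝ), 0 < δ ∧ Tendsto e atTop (𝓝 0) ∧ ∀ (N : ℕ) (Γ : C(I, ℂ)),
    (∀ s, (f c)^[N] (Γ s) ∈ A) → (∀ s s', ‖(f c)^[N] (Γ s) - (f c)^[N] (Γ s')‖ ≤ δ) →
    ∀ s s', ‖Γ s - Γ s'‖ ≤ e N

/-- REG: regions exist. -/
def Stmt_REG : Prop := ∀ (c : ℂ) (R : ℝ), (P c).Finite → ∃ A, Region c A ∧
  closedBall 0 R ∩ closure (K c)ᶜ ⊆ A ∧ (Mis c → closedBall 0 R ⊆ A)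

/-- LND: all rays land, continuously. -/
def Stmt_LND : Prop := ∀ (c : ℂ) (ψ : ℂ → ℂ), (P c).Finite → Bot c ψ →
  ∃ ψ', Lnd c ψ' ∧ ∀ w, 1 < ‖w‖ → ψ' w = ψ w

/-- NOI: the filled Julia set has no interior. -/
def Stmt_NOI : Prop := ∀ c : ℂ, Mis c → interior (K c) = ∅

/-! ### Topology of the rays -/

/-- SQR: a continuous square root of `z - ψ u` off the leg of `u`. -/
def Stmt_SQR : Prop := ∀ (c : ℂ) (ψ : ℂ → ℂ), Lnd c ψ → ∀ u : ℂ, ‖u‖ = 1 →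
  ∃ B : ℂ → ℂ, ContinuousOn B (leg ψ u)ᶜ ∧ ∀ z ∉ leg ψ u, B z ^ 2 = z - ψ u

/-- NSQ: there is no continuous square root of `z - p` on a punctured disc. -/
def Stmt_NSQ : Prop := ∀ (p : ℂ) (r : ℝ), 0 < r → ¬ ∃ B : ℂ → ℂ,
  ContinuousOn B (ball p r \ {p}) ∧ ∀ z ∈ ball p r, z ≠ p → B z ^ 2 = z - p

/-- SID: side functions exist. -/
def Stmt_SID : Prop := ∀ (c : ℂ) (ψ : ℂ → ℂ), Lnd c ψ → ∀ u : ℂ, ‖u‖ = 1 → ψ u = c →
  ∃ s, SideFn c ψ u s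

/-- DAT: the standing data exist. -/
def Stmt_DAT : Prop := ∀ c : ℂ, Mis c → ∃ ψ u s, Dat c ψ u s

/-- HLF: the filled Julia set and its closed halves. -/
def Stmt_HLF : Prop := ∀ (c : ℂ) (ψ : ℂ → ℂ) (u : ℂ) (s : ℂ → Bool), Dat c ψ u s →
  IsConnected (K c) ∧ IsPathConnected (K c) ∧ IsConnected (K c)ᶜ ∧ closure (K c)ᶜ = Set.univ ∧
  (∀ b, IsCompact (half c s b) ∧ IsConnected (half c s b) ∧ 0 ∈ half c s b ∧
    Set.InjOn (f c) (half c s b) ∧ f c '' half c s b = K c ∧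
    ∀ z, -z ∈ half c s b ↔ z ∈ half c s (!b)) ∧
  ∀ z ∈ K c, z ≠ 0 → s (-z) = !(s z)

/-- SAM: the sides of the postcritical points do not depend on the ray that lands at the
critical value. -/
def Stmt_SAM : Prop := ∀ (c : ℂ) (ψ : ℂ → ℂ) (u u' : ℂ) (s s' : ℂ → Bool), Dat c ψ u s →
  Dat c ψ u' s' → ∃ e : Bool, ∀ x ∈ P c, s' x = xor e (s x)

/-- CON: the complement of finitely many legs with different landing points is connected. -/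
def Stmt_CON : Prop := ∀ (c : ℂ) (ψ : ℂ → ℂ), Lnd c ψ → ∀ F : Finset ℂ, (∀ u ∈ F, ‖u‖ = 1) →
  (∀ u ∈ F, ∀ v ∈ F, ψ u = ψ v → u = v) → IsConnected (⋃ u ∈ F, leg ψ u)ᶜ

/-- EXP: different postcritical points have different itineraries. -/
def Stmt_EXP : Prop := ∀ (c : ℂ) (ψ : ℂ → ℂ) (u : ℂ) (s : ℂ → Bool), Dat c ψ u s →
  ∀ x ∈ P c, ∀ y ∈ P c, (∀ n, s ((f c)^[n] x) = s ((f c)^[n] y)) → x = y

/-- IMG: the iterated monodromy group is the group of the kneading system. -/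
def Stmt_IMG : Prop := ∀ (c : ℂ) (ψ : ℂ → ℂ) (u : ℂ) (s : ℂ → Bool) (h : Dat c ψ u s)
  [Fintype (P c)] [DecidableEq (P c)] (t : ℂ), t ∉ PCF.postCrit (X ^ 2 + C c) →
  Nonempty (PCF.IMG (X ^ 2 + C c) t ≃* (ksC h).grp)

/-! ### Combinatorics -/

section comb

variable {L : Type} [Fintype L] [DecidableEq L] (D : R4.KS L)

/-- The cuts that are reachable from `{o}ᶜ` by non-trivial arrows. -/
inductive Reach : Finset L → Prop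
  | base : Reach ({D.o} : Finset L)ᶜ
  | step (A : Finset L) (s : Bool) : Reach A → (D.lp s A).Nonempty →
      (D.lp s A) ≠ Finset.univ → Reach (D.nm (D.lp s A))

/-- The class of the reachable cuts. -/
noncomputable def EC : Finset (Finset L) :=
  open Classical in Finset.univ.filter fun A => Reach D A

end comb

/-- CMB: a kneading system with a non-renormalizable kneading sequence is mixing. -/
def Stmt_CMB : Prop := ∀ (L : Type) [Fintype L] [DecidableEq L] (D : R4.KS L),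
  (∀ i, ∃ n, D.nxt^[n] D.o = i) →
  (∀ i j, (∀ n, D.side (D.nxt^[n] i) = D.side (D.nxt^[n] j)) → i = j) →
  2 ≤ Fintype.card L →
  (∀ n, 2 ≤ n → ∃ k j, 0 < j ∧ j < n ∧
    D.side (D.nxt^[n * k + j - 1] D.o) ≠ D.side (D.nxt^[j - 1] D.o)) →
  D.Mixing (EC D)

/-- T: the general theorem on kneading groups (helper81, helper82, helper92). -/
def Stmt_T : Prop := ∀ (L : Type) [Fintype L] [DecidableEq L] (D : R4.KS L),
  (∀ i, ∃ n, D.nxt^[n] D.o = i) →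
  (∀ i j, (∀ n, D.side (D.nxt^[n] i) = D.side (D.nxt^[n] j)) → i = j) →
  3 ≤ Fintype.card L → D.side D.o = true → D.Mixing (EC D) → R4.IntermediateGrowth D.grp

/-! ### Renormalization -/

/-- Every point of the complement lies in an unbounded connected subset of the complement. -/
def Cof (U : Set ℂ) : Prop := ∀ z ∉ U, ∃ A : Set ℂ, A ⊆ Uᶜ ∧ z ∈ A ∧ IsPreconnected A ∧
  ¬ Bornology.IsBounded A

/-- DSK: facts on disks. -/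
def Stmt_DSK : Prop :=
  (∀ U V : Set ℂ, Cof U → Cof V → Cof (U ∩ V)) ∧
  (∀ (c : ℂ) (n : ℕ) (V : Set ℂ), IsOpen V → Cof V → Cof ((f c)^[n] ⁻¹' V)) ∧
  (∀ (U : Set ℂ) (z : ℂ), IsOpen U → Cof U → z ∈ U → IsDisk (connectedComponentIn U z)) ∧
  (∀ X : Set ℂ, IsCompact X → IsConnected X → IsConnected Xᶜ → ∃ W : ℝ → Set ℂ,
    (∀ r, 0 < r → IsDisk (W r) ∧ thickening r X ⊆ W r ∧ Bornology.IsBounded (W r)) ∧
    (∀ r r', 0 < r → r < r' → closure (W r) ⊆ W r') ∧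
    ∀ ε : ℝ, 0 < ε → ∃ δ, 0 < δ ∧ W δ ⊆ thickening ε X)

/-- The component of `0` in the preimage of `W` under the `m`-th iterate. -/
def cmp (c : ℂ) (m : ℕ) (W : Set ℂ) : Set ℂ := connectedComponentIn ((f c)^[m] ⁻¹' W) 0

/-- The lifts of short segments from a point to a nearest point of `X` shrink. -/
def Shr (c : ℂ) (n : ℕ) (X : Set ℂ) : Prop :=
  ∃ (δ : ℝ) (e : ℕ → ℝ), 0 < δ ∧ Tendsto e atTop (𝓝 0) ∧ ∀ (k : ℕ) (Γ : C(I, ℂ)) (x y : ℂ),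
    x ∈ X → y ∉ X → (∀ x' ∈ X, ‖y - x‖ ≤ ‖y - x'‖) → ‖y - x‖ < δ →
    (∀ t : I, (f c)^[n * k] (Γ t) = (1 - ((t : ℝ) : ℂ)) * y + ((t : ℝ) : ℂ) * x) →
    ∀ t t', ‖Γ t - Γ t'‖ ≤ e k

/-- The standing hypotheses on the small Julia set `X` of period `n`. -/
structure Sml (c : ℂ) (n : ℕ) (X : Set ℂ) : Prop where
  two : 2 ≤ n
  cpt : IsCompact X
  con : IsConnected X
  zer : (0 : ℂ) ∈ X
  inv : Set.MapsTo (f c)^[n] X X
  sep : ∃ ε : ℝ, 0 < ε ∧ ∀ z, (f c)^[n] z ∈ X → z ∉ X → ∀ x ∈ X, ε ≤ ‖z - x‖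
  ful : IsConnected Xᶜ
  dis : ∀ j, 0 < j → j < n → ∀ x ∈ X, ∀ y ∈ X, (f c)^[j] x ≠ -(f c)^[j] y
  shr : Shr c n X

/-- QLC: control of the components of the preimages of small neighbourhoods. -/
def Stmt_QLC : Prop := ∀ (c : ℂ) (n : ℕ) (X : Set ℂ), Sml c n X →
  (∀ ε : ℝ, 0 < ε → ∃ δ, 0 < δ ∧ ∀ k, cmp c (n * k) (thickening δ X) ⊆ thickening ε X) ∧
  (∃ δ0 : ℝ, 0 < δ0 ∧ ∀ ε : ℝ, 0 < ε → ∃ k0, ∀ k, k0 ≤ k →
    cmp c (n * k) (thickening δ0 X) ⊆ thickening ε X) ∧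
  (∃ δ0 : ℝ, 0 < δ0 ∧ ∀ z, (∀ k, (f c)^[n * k] z ∈ thickening δ0 X) → z ∈ X)

/-- QLD: the degree. -/
def Stmt_QLD : Prop := ∀ (c : ℂ) (n : ℕ) (X : Set ℂ), Sml c n X →
  ∃ ε : ℝ, 0 < ε ∧ ∀ V, IsDisk V → X ⊆ V → cmp c n V ⊆ thickening ε X →
    ProperDegTwo c n (cmp c n V) V

/-- QL: quadratic-like restrictions. -/
def Stmt_QL : Prop := ∀ (c : ℂ) (n : ℕ) (X : Set ℂ), Sml c n X → Renormalizable c

/-- JZ: a renormalizable kneading sequence gives a small Julia set. -/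
def Stmt_JZ : Prop := ∀ (c : ℂ) (ψ : ℂ → ℂ) (u : ℂ) (s : ℂ → Bool), Dat c ψ u s → ∀ n, 2 ≤ n →
  (∀ k j, 0 < j → j < n → s ((f c)^[n * k + j] 0) = s ((f c)^[j] 0)) → ∃ m X, Sml c m X

/-- PER: periodic critical point. -/
def Stmt_PER : Prop := ∀ c : ℂ, (P c).Finite → 0 ∈ P c → c ≠ 0 → Renormalizable c

/-- FIN: the final theorem. -/
def Stmt_FIN : Prop := ∀ c : ℂ, (PCF.postCrit (X ^ 2 + C c)).Finite → ¬ Renormalizable c →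
  ∀ t, t ∉ PCF.postCrit (X ^ 2 + C c) →
    (R4.IntermediateGrowth (PCF.IMG (X ^ 2 + C c) t) ↔ c ≠ 0 ∧ c ≠ -2)

end R4C
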