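import Pool.Agent.Work.MP_e3f5d9_al_cx.Interface

/-!
# Block JZ (helper58): a renormalizable kneading sequence gives a small Julia set
-/

set_option autoImplicit false

open Polynomial unitInterval Topology Metric Filter

namespace R4C

namespace JZ

/-! ### Nested intersections -/

lemma conn_iInter (Y : ℕ → Set ℂ) (hanti : Antitone Y) (hc : ∀ n, IsCompact (Y n))
    (hconn : ∀ n, IsPreconnected (Y n)) : IsPreconnected (⋂ n, Y n) := by
  rw [isPreconnected_closed_iff]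
  intro t t' ht ht' hsub h1 h2
  by_contra hne
  have hcl : IsCompact (⋂ n, Y n) := by
    refine (hc 0).of_isClosed_subset (isClosed_iInter fun n => (hc n).isClosed) ?_
    exact Set.iInter_subset _ 0
  have hd : Disjoint ((⋂ n, Y n) ∩ t) ((⋂ n, Y n) ∩ t') := by
    rw [Set.disjoint_left]
    rintro x ⟨hx, hx1⟩ ⟨-, hx2⟩
    exact hne ⟨x, hx, hx1, hx2⟩
  obtain ⟨U, V, hU, hV, hsU, hsV, hUV⟩ :=
    SeparatedNhds.of_isCompact_isCompact (hcl.inter_right ht) (hcl.inter_right ht') hd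
  have hcov : ∀ x ∈ ⋂ n, Y n, U ∪ V ∈ 𝓝 x := by
    intro x hx
    refine (hU.union hV).mem_nhds ?_
    rcases hsub hx with h | h
    · exact Or.inl (hsU ⟨hx, h⟩)
    · exact Or.inr (hsV ⟨hx, h⟩)
  obtain ⟨n, hn⟩ := exists_subset_nhds_of_isCompact (V := Y) hanti.directed_ge hc hcov
  obtain ⟨x, hx, hxt⟩ := h1
  obtain ⟨y, hy, hyt⟩ := h2
  obtain ⟨z, -, hzU, hzV⟩ := hconn n U V hU hV hn
    ⟨x, Set.mem_iInter.1 hx n, hsU ⟨hx, hxt⟩⟩ ⟨y, Set.mem_iInter.1 hy n, hsV ⟨hy, hyt⟩⟩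
  exact Set.disjoint_left.1 hUV hzU hzV

/-! ### Combinatorics of the symbols -/

section comb

variable {ν : ℕ → Bool} {m j : ℕ}

lemma per_m (h1 : ∀ t, t % m ≠ 0 → ν t = ν (t % m)) (hj : 0 < j) (hjm : j < m)
    (h2 : ∀ i, 1 ≤ i → (i + j) % m ≠ 0 → ν i = ν ((i + j) % m)) (i : ℕ) (hi : 1 ≤ i) :
    ν (i + m) = ν i := by
  by_cases h0 : i % m = 0
  · have e1 : (i + j) % m = j := by
      rw [Nat.add_mod, h0, zero_add, Nat.mod_mod, Nat.mod_eq_of_lt hjm]
    have e2 : (i + m + j) % m = j := by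
      rw [show i + m + j = i + j + m by ring, Nat.add_mod_right, e1]
    rw [h2 i hi (by omega), h2 (i + m) (by omega) (by omega), e1, e2]
  · rw [h1 i h0, h1 (i + m) (by rwa [Nat.add_mod_right]), Nat.add_mod_right]

lemma per_mul {p : ℕ} (h : ∀ i, 1 ≤ i → ν (i + p) = ν i) (q i : ℕ) (hi : 1 ≤ i) :
    ν (i + p * q) = ν i := by
  induction q with
  | zero => simp
  | succ q ih => rw [show i + p * (q + 1) = (i + p * q) + p by ring, h _ (by omega), ih]

lemma per_j (h1 : ∀ t, t % m ≠ 0 → ν t = ν (t % m)) (hj : 0 < j) (hjm : j < m)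
    (h2 : ∀ i, 1 ≤ i → (i + j) % m ≠ 0 → ν i = ν ((i + j) % m)) (i : ℕ) (hi : 1 ≤ i) :
    ν (i + j) = ν i := by
  have step : ∀ i, 1 ≤ i → (i + j) % m ≠ 0 → ν (i + j) = ν i := by
    intro i hi h0
    rw [h2 i hi h0, h1 (i + j) h0]
  by_cases h0 : (i + j) % m = 0
  · have hex : ∃ N, 1 ≤ N ∧ (j * N) % m = 0 := ⟨m, by omega, by simp⟩
    classical
    obtain ⟨hN1, hN⟩ := Nat.find_spec hex
    set N := Nat.find hex with hNd
    have hmin : ∀ k, 1 ≤ k → k < N → (j * k) % m ≠ 0 := by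
      intro k hk hkN h
      exact Nat.find_min hex hkN ⟨hk, h⟩
    have hind : ∀ k, 1 ≤ k → k ≤ N → ν (i + j * k) = ν (i + j) := by
      intro k hk
      induction k, hk using Nat.le_induction with
      | base => intro _; rw [mul_one]
      | succ k hk ih =>
        intro hkN
        rw [← ih (by omega), show i + j * (k + 1) = (i + j * k) + j by ring]
        apply step _ (by omega)
        have e : (i + j * k + j) % m = (j * k) % m := by
          rw [show i + j * k + j = j * k + (i + j) by ring, Nat.add_mod, h0, add_zero, Nat.mod_mod]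
        rw [e]
        exact hmin k hk (by omega)
    rw [← hind N hN1 le_rfl]
    obtain ⟨q, hq⟩ := Nat.dvd_of_mod_eq_zero hN
    rw [hq]
    exact per_mul (fun i hi => per_m h1 hj hjm h2 i hi) q i hi
  · exact step i hi h0

lemma per_gcd (h1 : ∀ t, t % m ≠ 0 → ν t = ν (t % m)) (hj : 0 < j) (hjm : j < m)
    (h2 : ∀ i, 1 ≤ i → (i + j) % m ≠ 0 → ν i = ν ((i + j) % m)) (i : ℕ) (hi : 1 ≤ i) :
    ν (i + Nat.gcd j m) = ν i := by
  have hg : Nat.gcd j m < m := lt_of_le_of_lt (Nat.gcd_le_left m hj) hjm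
  obtain ⟨a, -, ha⟩ := Nat.exists_mul_mod_eq_gcd hg
  have e : j * a = Nat.gcd j m + m * (j * a / m) := by
    conv_lhs => rw [← Nat.mod_add_div (j * a) m, ha]
  have e1 := per_mul (fun i hi => per_m h1 hj hjm h2 i hi) (j * a / m) (i + Nat.gcd j m)
    (by omega)
  have e2 := per_mul (fun i hi => per_j h1 hj hjm h2 i hi) a i hi
  rw [e, ← add_assoc, e1] at e2
  exact e2

end comb

/-! ### The set -/

section

variable {c : ℂ} {ψ : ℂ → ℂ} {u : ℂ} {s : ℂ → Bool}

/-- the symbols of the critical orbit -/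
def nu (c : ℂ) (s : ℂ → Bool) (i : ℕ) : Bool := s ((f c)^[i] 0)

/-- the approximations of the small Julia set and its images -/
def Y (c : ℂ) (s : ℂ → Bool) (m a n : ℕ) : Set ℂ :=
  {z | z ∈ K c ∧ ∀ t < n, (t + a) % m ≠ 0 → (f c)^[t] z ∈ half c s (nu c s ((t + a) % m))}

/-- the small Julia set -/
def XX (c : ℂ) (s : ℂ → Bool) (m : ℕ) : Set ℂ :=
  {z | z ∈ K c ∧ ∀ t, t % m ≠ 0 → (f c)^[t] z ∈ half c s (nu c s (t % m))}

lemma XX_eq (m : ℕ) : XX c s m = ⋂ n, Y c s m 0 n := by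
  ext z
  rw [Set.mem_iInter]
  constructor
  · rintro ⟨h1, h2⟩ n
    exact ⟨h1, fun t _ ht => h2 t ht⟩
  · intro h
    exact ⟨(h 0).1, fun t ht => (h (t + 1)).2 t (by omega) ht⟩

lemma Y_anti (m a : ℕ) : Antitone (Y c s m a) := by
  intro n n' h z hz
  exact ⟨hz.1, fun t ht => hz.2 t (by omega)⟩

lemma half_sub (b : Bool) : half c s b ⊆ K c := fun _ h => h.1

lemma cont_f (c : ℂ) : Continuous (f c) := by
  unfold f; fun_prop

lemma cont_it (c : ℂ) (n : ℕ) : Continuous ((f c)^[n]) := (cont_f c).iterate n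

lemma R_conn (hb : ∀ b, IsCompact (half c s b) ∧ IsConnected (half c s b) ∧ 0 ∈ half c s b ∧
    Set.InjOn (f c) (half c s b) ∧ f c '' half c s b = K c ∧
    ∀ z, -z ∈ half c s b ↔ z ∈ half c s (!b)) (b : Bool) {Q : Set ℂ} (hQ : IsPreconnected Q)
    (hK : Q ⊆ K c) : IsPreconnected {z | z ∈ half c s b ∧ f c z ∈ Q} := by
  obtain ⟨h1, -, -, h4, h5, -⟩ := hb b
  have : CompactSpace (half c s b) := isCompact_iff_compactSpace.1 h1
  let g : half c s b → ℂ := fun z => f c z.1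
  have hg : Continuous g := (cont_f c).comp continuous_subtype_val
  have hinj : Function.Injective g := fun x y h => Subtype.ext (h4 x.2 y.2 h)
  have hcl : IsClosedMap g := hg.isClosedMap
  have hr : Q ⊆ Set.range g := by
    intro y hy
    have h6 : y ∈ f c '' half c s b := by rw [h5]; exact hK hy
    obtain ⟨x, hx, rfl⟩ := h6
    exact ⟨⟨x, hx⟩, rfl⟩
  have h7 := hQ.preimage_of_isClosedMap hinj hcl hr
  have h8 : {z | z ∈ half c s b ∧ f c z ∈ Q} = Subtype.val '' (g ⁻¹' Q) := by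
    ext z
    constructor
    · rintro ⟨hz, hz2⟩
      exact ⟨⟨z, hz⟩, hz2, rfl⟩
    · rintro ⟨x, hx, rfl⟩
      exact ⟨x.2, hx⟩
  rw [h8]
  exact h7.image _ continuous_subtype_val.continuousOn

lemma Y_closed (hK : IsCompact (K c)) (hb : ∀ b, IsCompact (half c s b)) (m a n : ℕ) :
    IsCompact (Y c s m a n) := by
  have h1 : Y c s m a n = K c ∩ ⋂ t : ℕ, ⋂ (_ : t < n), ⋂ (_ : (t + a) % m ≠ 0),
      (f c)^[t] ⁻¹' half c s (nu c s ((t + a) % m)) := by
    ext z
    simp only [Y, Set.mem_ofPred_eq, Set.mem_inter_iff, Set.mem_iInter, Set.mem_preimage]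
  rw [h1]
  refine hK.inter_right (isClosed_iInter fun t => isClosed_iInter fun _ => isClosed_iInter
    fun _ => (hb _).isClosed.preimage (cont_it c t))

lemma it_succ' (n : ℕ) (z : ℂ) : (f c)^[n + 1] z = (f c)^[n] (f c z) :=
  Function.iterate_succ_apply _ _ _

lemma it_K (hfK : ∀ z, f c z ∈ K c ↔ z ∈ K c) (n : ℕ) (z : ℂ) :
    (f c)^[n] z ∈ K c ↔ z ∈ K c := by
  induction n generalizing z with
  | zero => simp
  | succ n ih => rw [it_succ', ih, hfK]

lemma zero_Y (hfK : ∀ z, f c z ∈ K c ↔ z ∈ K c) (h0 : (0 : ℂ) ∈ K c) {m : ℕ}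
    (hν : ∀ t, t % m ≠ 0 → nu c s t = nu c s (t % m)) {t : ℕ} (ht : t % m ≠ 0) :
    (f c)^[t] 0 ∈ half c s (nu c s (t % m)) :=
  ⟨(it_K hfK t 0).2 h0, Or.inr (hν t ht)⟩

lemma Y_conn (hfK : ∀ z, f c z ∈ K c ↔ z ∈ K c) (h0 : (0 : ℂ) ∈ K c)
    (hKc : IsPreconnected (K c))
    (hb : ∀ b, IsCompact (half c s b) ∧ IsConnected (half c s b) ∧ 0 ∈ half c s b ∧
    Set.InjOn (f c) (half c s b) ∧ f c '' half c s b = K c ∧
    ∀ z, -z ∈ half c s b ↔ z ∈ half c s (!b)) {m : ℕ}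
    (hν : ∀ t, t % m ≠ 0 → nu c s t = nu c s (t % m)) (n : ℕ) :
    ∀ a, IsPreconnected (Y c s m a n) := by
  induction n with
  | zero =>
    intro a
    have : Y c s m a 0 = K c := by
      ext z
      exact ⟨fun h => h.1, fun h => ⟨h, fun t ht => absurd ht (by omega)⟩⟩
    rw [this]
    exact hKc
  | succ n ih =>
    intro a
    have hsub : Y c s m (a + 1) n ⊆ K c := fun z hz => hz.1
    have hmem : ∀ z, z ∈ Y c s m a (n + 1) ↔ z ∈ K c ∧
        (a % m ≠ 0 → z ∈ half c s (nu c s (a % m))) ∧ f c z ∈ Y c s m (a + 1) n := by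
      intro z
      constructor
      · rintro ⟨h1, h2⟩
        refine ⟨h1, fun ha => ?_, (hfK z).2 h1, fun t ht ht2 => ?_⟩
        · have := h2 0 (by omega) (by rwa [zero_add])
          rwa [zero_add] at this
        · have e : t + 1 + a = t + (a + 1) := by ring
          have := h2 (t + 1) (by omega) (by rwa [e])
          rwa [it_succ', e] at this
      · rintro ⟨h1, h2, h3⟩
        refine ⟨h1, fun t ht ht2 => ?_⟩
        rcases Nat.eq_zero_or_pos t with rfl | h4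
        · rw [zero_add] at ht2 ⊢
          exact h2 ht2
        · obtain ⟨t', rfl⟩ : ∃ t', t = t' + 1 := ⟨t - 1, by omega⟩
          have e : t' + 1 + a = t' + (a + 1) := by ring
          rw [it_succ', e]
          rw [e] at ht2
          exact h3.2 t' (by omega) ht2
    by_cases ha : a % m = 0
    · have h1 : Y c s m a (n + 1) = {z | z ∈ half c s true ∧ f c z ∈ Y c s m (a + 1) n} ∪
          {z | z ∈ half c s false ∧ f c z ∈ Y c s m (a + 1) n} := by
        ext z
        rw [hmem]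
        constructor
        · rintro ⟨h2, -, h3⟩
          cases hz : s z
          · exact Or.inr ⟨⟨h2, Or.inr hz⟩, h3⟩
          · exact Or.inl ⟨⟨h2, Or.inr hz⟩, h3⟩
        · rintro (⟨h2, h3⟩ | ⟨h2, h3⟩)
          · exact ⟨h2.1, fun h => absurd ha h, h3⟩
          · exact ⟨h2.1, fun h => absurd ha h, h3⟩
      have h2 : f c 0 ∈ Y c s m (a + 1) n := by
        refine ⟨(hfK 0).2 h0, fun t _ ht => ?_⟩
        have e : (t + (a + 1)) % m = (t + 1) % m := by
          rw [show t + (a + 1) = (t + 1) + a by ring, Nat.add_mod, ha, add_zero, Nat.mod_mod]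
        rw [e] at ht ⊢
        rw [← it_succ']
        exact zero_Y hfK h0 hν ht
      rw [h1]
      exact IsPreconnected.union 0 ⟨(hb true).2.2.1, h2⟩ ⟨(hb false).2.2.1, h2⟩
        (R_conn hb true (ih (a + 1)) hsub) (R_conn hb false (ih (a + 1)) hsub)
    · have h1 : Y c s m a (n + 1) =
          {z | z ∈ half c s (nu c s (a % m)) ∧ f c z ∈ Y c s m (a + 1) n} := by
        ext z
        rw [hmem]
        constructor
        · rintro ⟨-, h2, h3⟩
          exact ⟨h2 ha, h3⟩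
        · rintro ⟨h2, h3⟩
          exact ⟨h2.1, fun _ => h2, h3⟩
      rw [h1]
      exact R_conn hb _ (ih (a + 1)) hsub

lemma not_const (hD : Dat c ψ u s)
    (hb : ∀ b, Set.InjOn (f c) (half c s b)) (h : ∀ i, 1 ≤ i → nu c s i = nu c s 1) : False := by
  have hsub : P c ⊆ half c s (nu c s 1) := by
    intro x hx
    refine ⟨P_sub_K hD.mis.fin hx, Or.inr ?_⟩
    obtain ⟨n, hn, rfl⟩ := hx
    exact h n hn
  have : Finite (P c) := hD.mis.fin.to_subtype
  let g : P c → P c := fun x => ⟨f c x.1, P_fwd x.2⟩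
  have hg : Function.Injective g := by
    intro x y hxy
    exact Subtype.ext (hb _ (hsub x.2) (hsub y.2) (congrArg Subtype.val hxy))
  obtain ⟨x, hx⟩ := Finite.surjective_of_injective hg ⟨c, c_mem_P c⟩
  have h1 : x.1 ^ 2 + c = c := congrArg Subtype.val hx
  have h3 : x.1 ^ 2 = 0 := by linear_combination h1
  have h4 : x.1 = 0 := by simpa using h3
  exact hD.mis.ne (h4 ▸ x.2)

lemma not_zero (hD : Dat c ψ u s) (hb : ∀ b, Set.InjOn (f c) (half c s b)) {m : ℕ}
    (hν : ∀ t, t % m ≠ 0 → nu c s t = nu c s (t % m))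
    (hmin : ∀ d, 2 ≤ d → d < m → ¬ ∀ t, t % d ≠ 0 → nu c s t = nu c s (t % d)) {j : ℕ}
    (hj : 0 < j) (hjm : j < m) {x : ℂ} (hx : x ∈ XX c s m) : (f c)^[j] x ≠ 0 := by
  intro h0
  have h2 : ∀ i, 1 ≤ i → (i + j) % m ≠ 0 → nu c s i = nu c s ((i + j) % m) := by
    intro i hi hm
    have h3 := hx.2 (i + j) hm
    rw [Function.iterate_add_apply, h0] at h3
    rcases h3.2 with h4 | h4
    · exact absurd (show (0 : ℂ) ∈ P c from ⟨i, hi, h4⟩) hD.mis.ne
    · exact h4
  have h3 := fun i hi => per_gcd hν hj hjm h2 i hi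
  set d := Nat.gcd j m with hd
  have hdm : d < m := lt_of_le_of_lt (Nat.gcd_le_left m hj) hjm
  have hd1 : 1 ≤ d := Nat.gcd_pos_of_pos_left m hj
  rcases Nat.lt_or_ge d 2 with h4 | h4
  · have h5 : d = 1 := by omega
    rw [h5] at h3
    apply not_const hD hb
    intro i hi
    have h6 := per_mul h3 (i - 1) 1 le_rfl
    rwa [one_mul, show 1 + (i - 1) = i by omega] at h6
  · refine hmin d h4 hdm fun t ht => ?_
    have h6 := per_mul h3 (t / d) (t % d) (by omega)
    rwa [Nat.mod_add_div] at h6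

end

end JZ

open JZ in
theorem stmt_JZ (hE : Stmt_ELM) (hH : Stmt_HLF) (hS : Stmt_SHR) (hR : Stmt_REG) : Stmt_JZ := by
  intro c ψ u s hD n hn hren
  classical
  obtain ⟨-, -, -, hKr, hKcpt, hfK, -, h0, -⟩ := hE c
  have h0 : (0 : ℂ) ∈ K c := h0 hD.mis.fin
  obtain ⟨hKc, -, hKcc, hKcl, hb, -⟩ := hH c ψ u s hD
  have hinj : ∀ b, Set.InjOn (f c) (half c s b) := fun b => (hb b).2.2.2.1
  have hex : ∃ m, 2 ≤ m ∧ ∀ t, t % m ≠ 0 → nu c s t = nu c s (t % m) := by
    refine ⟨n, hn, fun t ht => ?_⟩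
    have h1 := hren (t / n) (t % n) (Nat.pos_of_ne_zero ht) (Nat.mod_lt _ (by omega))
    rw [Nat.div_add_mod] at h1
    exact h1
  obtain ⟨hm, hν⟩ := Nat.find_spec hex
  have hmin : ∀ d, 2 ≤ d → d < Nat.find hex → ¬ ∀ t, t % d ≠ 0 → nu c s t = nu c s (t % d) :=
    fun d h1 h2 h3 => Nat.find_min hex h2 ⟨h1, h3⟩
  set m := Nat.find hex with hmdef
  clear_value m
  have hX0 : (0 : ℂ) ∈ XX c s m := ⟨h0, fun t ht => zero_Y hfK h0 hν ht⟩
  have hXK : XX c s m ⊆ K c := fun z hz => hz.1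
  have hXc : IsCompact (XX c s m) := by
    rw [XX_eq]
    refine hKcpt.of_isClosed_subset (isClosed_iInter fun k =>
      (Y_closed hKcpt (fun b => (hb b).1) m 0 k).isClosed) ?_
    intro z hz
    exact (Set.mem_iInter.1 hz 0).1
  have hnz : ∀ j, 0 < j → j < m → ∀ x ∈ XX c s m, (f c)^[j] x ≠ 0 := fun j hj hjm x hx =>
    not_zero hD hinj hν hmin hj hjm hx
  have hXh : ∀ j, 0 < j → j < m → ∀ x ∈ XX c s m, (f c)^[j] x ∈ half c s (nu c s j) := by
    intro j hj hjm x hx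
    have h1 := hx.2 j (by rw [Nat.mod_eq_of_lt hjm]; omega)
    rwa [Nat.mod_eq_of_lt hjm] at h1
  have hnot : ∀ (b : Bool) (z : ℂ), z ∈ half c s b → z ∈ half c s (!b) → z = 0 := by
    rintro b z ⟨-, h1⟩ ⟨-, h2⟩
    rcases h1 with h1 | h1
    · exact h1
    · rcases h2 with h2 | h2
      · exact h2
      · rw [h1] at h2
        cases b <;> simp at h2
  refine ⟨m, XX c s m, hm, hXc, ⟨⟨0, hX0⟩, ?_⟩, hX0, ?_, ?_, ?_, ?_, ?_⟩
  · rw [XX_eq]
    exact conn_iInter _ (Y_anti m 0) (fun k => Y_closed hKcpt (fun b => (hb b).1) m 0 k)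
      (fun k => Y_conn hfK h0 hKc.isPreconnected hb hν k 0)
  · intro z hz
    refine ⟨(it_K hfK m z).2 hz.1, fun t ht => ?_⟩
    have h1 := hz.2 (t + m) (by rwa [Nat.add_mod_right])
    rwa [Function.iterate_add_apply, Nat.add_mod_right] at h1
  · -- separation
    let Z : ℕ → Set ℂ := fun j => {z | z ∈ K c ∧ (f c)^[j] z ∈ half c s (!(nu c s j)) ∧
      (f c)^[m] z ∈ XX c s m}
    have hZc : ∀ j, IsCompact (Z j) := by
      intro j
      exact hKcpt.inter_right (((hb _).1.isClosed.preimage (cont_it c j)).inter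
        (hXc.isClosed.preimage (cont_it c m)))
    have hZ : IsCompact (⋃ j ∈ Finset.Ico 1 m, Z j) :=
      (Finset.Ico 1 m).isCompact_biUnion fun j _ => hZc j
    have hdis : Disjoint (XX c s m) (⋃ j ∈ Finset.Ico 1 m, Z j) := by
      rw [Set.disjoint_left]
      intro x hx hx2
      rw [Set.mem_iUnion₂] at hx2
      obtain ⟨j, hj, hxj⟩ := hx2
      rw [Finset.mem_Ico] at hj
      exact hnz j (by omega) hj.2 x hx (hnot _ _ (hXh j (by omega) hj.2 x hx) hxj.2.1)
    obtain ⟨δ, hδ, hd⟩ := hdis.exists_thickenings hXc hZ.isClosed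
    refine ⟨δ, hδ, fun z hz hzX x hx => ?_⟩
    by_contra hlt
    push Not at hlt
    have hzK : z ∈ K c := (it_K hfK m z).1 hz.1
    have hzZ : z ∈ ⋃ j ∈ Finset.Ico 1 m, Z j := by
      have h1 : ∃ t, t % m ≠ 0 ∧ (f c)^[t] z ∉ half c s (nu c s (t % m)) := by
        by_contra hall
        push Not at hall
        exact hzX ⟨hzK, hall⟩
      obtain ⟨t, ht, hzt⟩ := h1
      have htm : t < m := by
        by_contra hge
        push Not at hge
        apply hzt
        have h2 := hz.2 (t - m) (by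
          rw [← Nat.add_mod_right, Nat.sub_add_cancel hge]; exact ht)
        rw [← Function.iterate_add_apply, Nat.sub_add_cancel hge, ← Nat.add_mod_right (t - m),
          Nat.sub_add_cancel hge] at h2
        exact h2
      rw [Nat.mod_eq_of_lt htm] at ht hzt
      rw [Set.mem_iUnion₂]
      refine ⟨t, Finset.mem_Ico.2 ⟨by omega, htm⟩, hzK, ⟨(it_K hfK t z).2 hzK, Or.inr ?_⟩, hz⟩
      have h3 : s ((f c)^[t] z) ≠ nu c s t := fun h => hzt ⟨(it_K hfK t z).2 hzK, Or.inr h⟩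
      revert h3
      cases s ((f c)^[t] z) <;> cases nu c s t <;> simp
    have h1 : z ∈ thickening δ (XX c s m) := by
      rw [mem_thickening_iff]
      exact ⟨x, hx, by rwa [dist_eq_norm]⟩
    exact Set.disjoint_left.1 hd h1 (self_subset_thickening hδ _ hzZ)
  · -- full
    refine hKcc.subset_closure (Set.compl_subset_compl.2 hXK) ?_
    rw [hKcl]
    exact Set.subset_univ _
  · -- disjoint
    intro j hj hjm x hx y hy h
    have h1 := hXh j hj hjm x hx
    have h2 := hXh j hj hjm y hy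
    rw [h] at h1
    have h3 := ((hb _).2.2.2.2.2 _).1 h1
    exact hnz j hj hjm y hy (hnot _ _ h2 h3)
  · -- shrinking
    obtain ⟨A, hA, -, hA2⟩ := hR c (rad c + 2) hD.mis.fin
    obtain ⟨δ, e, hδ, he, hsh⟩ := hS c A hD.mis.fin hA
    refine ⟨min δ 1, fun k => e (m * k), lt_min hδ one_pos, ?_, ?_⟩
    · exact he.comp (tendsto_atTop_mono (fun k => Nat.le_mul_of_pos_left k (by omega)) tendsto_id)
    · intro k Γ x y hx _ _ hxy hΓ t t'
      have hxr : ‖x‖ ≤ rad c := by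
        have h1 := hXK hx
        rw [hKr] at h1
        simpa using h1 0
      have hxy1 : ‖y - x‖ < δ := lt_of_lt_of_le hxy (min_le_left _ _)
      have hxy2 : ‖y - x‖ < 1 := lt_of_lt_of_le hxy (min_le_right _ _)
      refine hsh (m * k) Γ (fun r => ?_) (fun r r' => ?_) t t'
      · apply hA2 hD.mis
        rw [hΓ r, mem_closedBall_zero_iff]
        have e1 : (1 - ((r : ℝ) : ℂ)) * y + ((r : ℝ) : ℂ) * x =
            x + (1 - ((r : ℝ) : ℂ)) * (y - x) := by ring
        rw [e1]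
        have h2 : ‖(1 - ((r : ℝ) : ℂ))‖ ≤ 1 := by
          have h3 : (1 - ((r : ℝ) : ℂ)) = ((1 - (r : ℝ) : ℝ) : ℂ) := by push_cast; ring
          rw [h3, Complex.norm_real, Real.norm_of_nonneg (by linarith [r.2.2])]
          linarith [r.2.1]
        calc ‖x + (1 - ((r : ℝ) : ℂ)) * (y - x)‖ ≤ ‖x‖ + ‖(1 - ((r : ℝ) : ℂ)) * (y - x)‖ :=
              norm_add_le _ _
          _ = ‖x‖ + ‖(1 - ((r : ℝ) : ℂ))‖ * ‖y - x‖ := by rw [norm_mul]
          _ ≤ rad c + 1 * 1 := by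
              gcongr
          _ ≤ rad c + 2 := by linarith
      · rw [hΓ r, hΓ r']
        have e1 : (1 - ((r : ℝ) : ℂ)) * y + ((r : ℝ) : ℂ) * x -
            ((1 - ((r' : ℝ) : ℂ)) * y + ((r' : ℝ) : ℂ) * x) =
            (((r' : ℝ) - (r : ℝ) : ℝ) : ℂ) * (y - x) := by push_cast; ring
        rw [e1, norm_mul, Complex.norm_real]
        have h2 : ‖(r' : ℝ) - (r : ℝ)‖ ≤ 1 := by
          rw [Real.norm_eq_abs, abs_le]
          constructor <;> linarith [r.2.1, r.2.2, r'.2.1, r'.2.2]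
        calc ‖(r' : ℝ) - (r : ℝ)‖ * ‖y - x‖ ≤ 1 * δ := by
              gcongr
          _ = δ := one_mul δ

end R4C
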