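import Pool.Agent.Work.MP_e3f5d9_al_cx.Interface

/-!
# Block PER, part A: planar topology (helper46)

Continuous square roots of `z - p` on compact sets, symmetric connected sets, and filled sets.
-/

set_option autoImplicit false

open Topology Metric Filter

namespace R4C

namespace PER

/-! ### Square roots -/

/-- `z - p` has a continuous square root on `Y`. -/
def HasSqrt (Y : Set ℂ) (p : ℂ) : Prop :=
  ∃ B : ℂ → ℂ, ContinuousOn B Y ∧ ∀ z ∈ Y, B z ^ 2 = z - p

lemma sqrt_factor {Y : Set ℂ} {g : ℂ → ℂ} (hg : ContinuousOn g Y) (h : ∀ z ∈ Y, ‖g z‖ < 1) :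
    ∃ B : ℂ → ℂ, ContinuousOn B Y ∧ ∀ z ∈ Y, B z ^ 2 = 1 + g z := by
  refine ⟨fun z => Complex.exp (Complex.log (1 + g z) / 2), ?_, ?_⟩
  · refine Complex.continuous_exp.comp_continuousOn ?_
    refine ContinuousOn.div_const ?_ _
    exact ContinuousOn.clog (continuousOn_const.add hg)
      fun z hz => Complex.mem_slitPlane_of_norm_lt_one (h z hz)
  · intro z hz
    have h1 : 1 + g z ≠ 0 := Complex.slitPlane_ne_zero (Complex.mem_slitPlane_of_norm_lt_one (h z hz))
    rw [← Complex.exp_nat_mul]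
    rw [show ((2 : ℕ) : ℂ) * (Complex.log (1 + g z) / 2) = Complex.log (1 + g z) by
      push_cast; ring]
    exact Complex.exp_log h1

lemma hasSqrt_step {Y : Set ℂ} {p p' : ℂ} (h : ∀ z ∈ Y, ‖p' - p‖ < ‖z - p'‖)
    (hp : HasSqrt Y p') : HasSqrt Y p := by
  obtain ⟨B, hB, hB2⟩ := hp
  have hne : ∀ z ∈ Y, z - p' ≠ 0 := by
    intro z hz h0
    have := h z hz
    rw [h0, norm_zero] at this
    exact absurd this (not_lt.2 (norm_nonneg _))
  obtain ⟨D, hD, hD2⟩ := sqrt_factor (Y := Y) (g := fun z => (p' - p) / (z - p'))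
    (ContinuousOn.div continuousOn_const (by fun_prop) hne) (by
      intro z hz
      rw [norm_div, div_lt_one (norm_pos_iff.2 (hne z hz))]
      exact h z hz)
  refine ⟨fun z => B z * D z, hB.mul hD, fun z hz => ?_⟩
  have h1 := hne z hz
  rw [mul_pow, hB2 z hz, hD2 z hz]
  field_simp
  ring

lemma hasSqrt_far {Y : Set ℂ} {p : ℂ} (h : ∀ z ∈ Y, ‖z‖ < ‖p‖) : HasSqrt Y p := by
  rcases Y.eq_empty_or_nonempty with hY | ⟨z0, hz0⟩
  · subst hY
    exact ⟨fun _ => 0, continuousOn_empty _, fun z hz => absurd hz (Set.notMem_empty z)⟩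
  have hp : p ≠ 0 := by
    intro h0
    have := h z0 hz0
    rw [h0, norm_zero] at this
    exact absurd this (not_lt.2 (norm_nonneg _))
  obtain ⟨D, hD, hD2⟩ := sqrt_factor (Y := Y) (g := fun z => -z / p) (by fun_prop) (by
      intro z hz
      rw [norm_div, norm_neg, div_lt_one (norm_pos_iff.2 hp)]
      exact h z hz)
  refine ⟨fun z => Complex.exp (Complex.log (-p) / 2) * D z, continuousOn_const.mul hD,
    fun z hz => ?_⟩
  rw [mul_pow, hD2 z hz, ← Complex.exp_nat_mul]
  rw [show ((2 : ℕ) : ℂ) * (Complex.log (-p) / 2) = Complex.log (-p) by push_cast; ring]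
  rw [Complex.exp_log (neg_ne_zero.2 hp)]
  field_simp
  ring

lemma hasSqrt_conn {Y T : Set ℂ} (hY : IsClosed Y) (hT : IsPreconnected T) (hd : T ⊆ Yᶜ)
    {p q : ℂ} (hp : p ∈ T) (hq : q ∈ T) (h : HasSqrt Y q) : HasSqrt Y p := by
  have key : ∀ x ∈ T, ∀ y ∈ T, (HasSqrt Y x ↔ HasSqrt Y y) := by
    intro x hx y hy
    refine hT.induction₂' (fun x y => (HasSqrt Y x ↔ HasSqrt Y y)) ?_ ?_ hx hy
    · intro x hx
      have h1 : Yᶜ ∈ 𝓝 x := hY.isOpen_compl.mem_nhds (hd hx)
      obtain ⟨ε, hε, hball⟩ := Metric.mem_nhds_iff.1 h1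
      have h2 : ball x (ε / 2) ∈ 𝓝 x := ball_mem_nhds x (half_pos hε)
      refine mem_nhdsWithin_of_mem_nhds ?_
      filter_upwards [h2] with y hy
      have hfar : ∀ z ∈ Y, ε ≤ ‖z - x‖ := by
        intro z hz
        by_contra hlt
        exact hball (mem_ball_iff_norm.2 (not_le.1 hlt)) hz
      have hxy : ‖y - x‖ < ε / 2 := mem_ball_iff_norm.1 hy
      have hfar' : ∀ z ∈ Y, ε / 2 < ‖z - y‖ := by
        intro z hz
        have h3 := hfar z hz
        have h4 : ‖z - x‖ ≤ ‖z - y‖ + ‖y - x‖ := by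
          have := norm_add_le (z - y) (y - x)
          rwa [sub_add_sub_cancel] at this
        linarith
      have h5 : HasSqrt Y x → HasSqrt Y y := hasSqrt_step fun z hz => by
        rw [norm_sub_rev]
        linarith [hfar z hz]
      have h6 : HasSqrt Y y → HasSqrt Y x := hasSqrt_step fun z hz => by
        linarith [hfar' z hz]
      exact ⟨⟨h5, h6⟩, ⟨h6, h5⟩⟩
    · intro x y z _ _ _ hxy hyz
      exact hxy.trans hyz
  exact (key p hp q hq).2 h

/-- a point that can be joined to infinity off `Y` -/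
lemma hasSqrt_unb {Y T : Set ℂ} (hY : IsCompact Y) (hT : IsPreconnected T) (hd : T ⊆ Yᶜ)
    (hunb : ∀ M : ℝ, ∃ z ∈ T, M < ‖z‖) {p : ℂ} (hp : p ∈ T) : HasSqrt Y p := by
  obtain ⟨M, hM⟩ := hY.isBounded.exists_norm_le
  obtain ⟨q, hq, hMq⟩ := hunb M
  exact hasSqrt_conn hY.isClosed hT hd hp hq (hasSqrt_far fun z hz => (hM z hz).trans_lt hMq)

/-- **The symmetric set lemma**: a compact connected symmetric set separates `0` from infinity. -/
lemma sym_contra {R T : Set ℂ} (hR : IsCompact R) (hconn : IsConnected R)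
    (hsym : ∀ z ∈ R, -z ∈ R) (hT : IsPreconnected T) (hd : T ⊆ Rᶜ) (h0 : (0 : ℂ) ∈ T)
    (hunb : ∀ M : ℝ, ∃ z ∈ T, M < ‖z‖) : False := by
  obtain ⟨B, hB, hB2⟩ := hasSqrt_unb hR hT hd hunb h0
  have hR0 : (0 : ℂ) ∉ R := hd h0
  have hne : ∀ z ∈ R, B z ≠ 0 := by
    intro z hz h1
    have h2 := hB2 z hz
    rw [h1, sub_zero] at h2
    have h3 : z = 0 := by rw [← h2]; ring
    exact hR0 (h3 ▸ hz)
  have hI : Complex.I ^ 2 = -1 := Complex.I_sq
  have h1 : ContinuousOn (fun z => B (-z)) R := hB.comp continuousOn_neg hsym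
  have h2 : ContinuousOn (fun z => Complex.I * B z) R := continuousOn_const.mul hB
  obtain ⟨z, hz⟩ := hconn.nonempty
  have hz' := hsym z hz
  rcases hconn.isPreconnected.eq_or_eq_neg_of_sq_eq h1 h2 (by
      intro w hw
      simp only [Pi.pow_apply]
      rw [hB2 _ (hsym w hw), mul_pow, hB2 w hw, hI]
      ring) (fun {w} hw => mul_ne_zero Complex.I_ne_zero (hne w hw)) with h3 | h3
  · have h4 : B (-z) = Complex.I * B z := h3 hz
    have h5 : B (- -z) = Complex.I * B (-z) := h3 hz'
    rw [neg_neg, h4, ← mul_assoc, ← pow_two, hI] at h5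
    apply hne z hz
    linear_combination h5 / 2
  · have h4 : B (-z) = -(Complex.I * B z) := h3 hz
    have h5 : B (- -z) = -(Complex.I * B (-z)) := h3 hz'
    rw [neg_neg, h4] at h5
    apply hne z hz
    linear_combination h5 / 2 + (B z / 2) * hI

/-! ### Components and filled sets -/

lemma comp_frontier {U : Set ℂ} (hU : IsOpen U) (z : ℂ) :
    frontier (connectedComponentIn U z) ⊆ Uᶜ := by
  intro x hx hxU
  have hopen := hU.connectedComponentIn (x := z)
  rw [hopen.frontier_eq] at hx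
  have h1 : connectedComponentIn U x ∈ 𝓝 x :=
    (hU.connectedComponentIn (x := x)).mem_nhds (mem_connectedComponentIn hxU)
  obtain ⟨y, hy1, hy2⟩ := mem_closure_iff_nhds.1 hx.1 _ h1
  have h2 := connectedComponentIn_eq hy1
  have h3 := connectedComponentIn_eq hy2
  apply hx.2
  rw [h3, ← h2]
  exact mem_connectedComponentIn hxU

/-- The filled set: the points in `Y` and in the bounded components of the complement. -/
def fill (Y : Set ℂ) : Set ℂ := {z | Bornology.IsBounded (connectedComponentIn Yᶜ z)}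

lemma subset_fill (Y : Set ℂ) : Y ⊆ fill Y := by
  intro z hz
  show Bornology.IsBounded (connectedComponentIn Yᶜ z)
  have h1 : z ∉ Yᶜ := fun h => h hz
  rw [connectedComponentIn_eq_empty h1]
  exact Bornology.isBounded_empty

lemma far_preconnected (R : ℝ) : IsPreconnected {z : ℂ | R < ‖z‖} := by
  rcases lt_or_ge R 0 with hR | hR
  · have : {z : ℂ | R < ‖z‖} = Set.univ := by
      ext z
      refine ⟨fun _ => Set.mem_univ _, fun _ => ?_⟩
      exact hR.trans_le (norm_nonneg z)
    rw [this]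
    exact isPreconnected_univ
  · have h1 : {z : ℂ | R < ‖z‖} =
        (fun x : ℝ × ℝ => ((x.1 : ℂ)) * Complex.exp (x.2 * Complex.I)) '' (Set.Ioi R ×ˢ Set.univ) := by
      ext z
      constructor
      · intro hz
        refine ⟨(‖z‖, Complex.arg z), ⟨hz, Set.mem_univ _⟩, ?_⟩
        exact Complex.norm_mul_exp_arg_mul_I z
      · rintro ⟨⟨r, θ⟩, ⟨hr, _⟩, rfl⟩
        have hr' : R < r := hr
        show R < ‖((r : ℂ)) * Complex.exp (θ * Complex.I)‖
        rw [norm_mul, Complex.norm_exp_ofReal_mul_I, mul_one, Complex.norm_real,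
          Real.norm_of_nonneg (hR.trans hr'.le)]
        exact hr'
    rw [h1]
    refine IsPreconnected.image (isPreconnected_Ioi.prod isPreconnected_univ) _ ?_
    fun_prop

lemma exists_far (M R : ℝ) : ∃ z : ℂ, R < ‖z‖ ∧ M < ‖z‖ := by
  refine ⟨((|M| + |R| + 1 : ℝ) : ℂ), ?_⟩
  have h1 : ‖((|M| + |R| + 1 : ℝ) : ℂ)‖ = |M| + |R| + 1 := by
    rw [Complex.norm_real, Real.norm_of_nonneg (by positivity)]
  rw [h1]
  constructor
  · linarith [le_abs_self R, abs_nonneg M]
  · linarith [le_abs_self M, abs_nonneg R]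

/-- the complement of the filled set is the unbounded component -/
lemma fill_compl {Y : Set ℂ} {R : ℝ} (hR : ∀ z ∈ Y, ‖z‖ ≤ R) {w : ℂ} (hw : R < ‖w‖) :
    (fill Y)ᶜ = connectedComponentIn Yᶜ w := by
  have hE : {z : ℂ | R < ‖z‖} ⊆ Yᶜ := fun z hz hzY => absurd (hR z hzY) (not_le.2 hz)
  have hEw : {z : ℂ | R < ‖z‖} ⊆ connectedComponentIn Yᶜ w :=
    (far_preconnected R).subset_connectedComponentIn hw hE
  ext z
  constructor
  · intro hz
    have h1 : ¬ Bornology.IsBounded (connectedComponentIn Yᶜ z) := hz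
    have h2 : ∃ y ∈ connectedComponentIn Yᶜ z, R < ‖y‖ := by
      by_contra hcon
      push Not at hcon
      exact h1 (isBounded_iff_forall_norm_le.2 ⟨R, hcon⟩)
    obtain ⟨y, hy, hRy⟩ := h2
    have h3 := connectedComponentIn_eq hy
    have h4 := connectedComponentIn_eq (hEw hRy)
    rw [h4, ← h3]
    refine mem_connectedComponentIn ?_
    by_contra h5
    rw [connectedComponentIn_eq_empty h5] at hy
    exact hy
  · intro hz hb
    have h1 : Bornology.IsBounded (connectedComponentIn Yᶜ z) := hb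
    rw [← connectedComponentIn_eq hz] at h1
    obtain ⟨M, hM⟩ := h1.exists_norm_le
    obtain ⟨y, hy1, hy2⟩ := exists_far M R
    exact absurd (hM y (hEw hy1)) (not_le.2 hy2)

section fill

variable {Y : Set ℂ}

lemma exists_bound (hY : IsCompact Y) : ∃ R : ℝ, ∀ z ∈ Y, ‖z‖ ≤ R := hY.isBounded.exists_norm_le

lemma fill_compl_preconnected (hY : IsCompact Y) : IsPreconnected (fill Y)ᶜ := by
  obtain ⟨R, hR⟩ := exists_bound hY
  obtain ⟨w, hw, _⟩ := exists_far R R
  rw [fill_compl hR hw]
  exact isPreconnected_connectedComponentIn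

lemma fill_compl_unb (hY : IsCompact Y) (M : ℝ) : ∃ z ∈ (fill Y)ᶜ, M < ‖z‖ := by
  obtain ⟨R, hR⟩ := exists_bound hY
  obtain ⟨w, hw, hw2⟩ := exists_far M R
  refine ⟨w, ?_, hw2⟩
  rw [fill_compl hR hw]
  exact mem_connectedComponentIn fun h => absurd (hR w h) (not_le.2 hw)

lemma fill_isCompact (hY : IsCompact Y) : IsCompact (fill Y) := by
  obtain ⟨R, hR⟩ := exists_bound hY
  obtain ⟨w, hw, _⟩ := exists_far R R
  refine Metric.isCompact_of_isClosed_isBounded ?_ ?_
  · rw [← isOpen_compl_iff, fill_compl hR hw]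
    exact hY.isClosed.isOpen_compl.connectedComponentIn
  · refine isBounded_iff_forall_norm_le.2 ⟨R, fun z hz => ?_⟩
    by_contra hlt
    have h1 : z ∈ (fill Y)ᶜ := by
      rw [fill_compl hR (not_le.1 hlt)]
      exact mem_connectedComponentIn fun h => hlt (hR z h)
    exact h1 hz

lemma closure_comp (hY : IsClosed Y) (z : ℂ) :
    closure (connectedComponentIn Yᶜ z) ⊆ connectedComponentIn Yᶜ z ∪ Y := by
  intro x hx
  by_cases h : x ∈ connectedComponentIn Yᶜ z
  · exact Or.inl h
  · right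
    have h1 : x ∈ frontier (connectedComponentIn Yᶜ z) := by
      rw [(hY.isOpen_compl.connectedComponentIn).frontier_eq]
      exact ⟨hx, h⟩
    exact not_not.1 (comp_frontier hY.isOpen_compl z h1)

lemma comp_subset_fill {z : ℂ} (hz : z ∈ fill Y) : connectedComponentIn Yᶜ z ⊆ fill Y := by
  intro x hx
  show Bornology.IsBounded (connectedComponentIn Yᶜ x)
  rw [← connectedComponentIn_eq hx]
  exact hz

lemma fill_isConnected (hY : IsCompact Y) (hc : IsConnected Y) : IsConnected (fill Y) := by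
  obtain ⟨y0, hy0⟩ := hc.nonempty
  refine ⟨⟨y0, subset_fill Y hy0⟩, ?_⟩
  refine isPreconnected_of_forall y0 fun z hz => ?_
  by_cases hzY : z ∈ Y
  · exact ⟨Y, subset_fill Y, hy0, hzY, hc.isPreconnected⟩
  · refine ⟨closure (connectedComponentIn Yᶜ z) ∪ Y, ?_, Or.inr hy0,
      Or.inl (subset_closure (mem_connectedComponentIn hzY)), ?_⟩
    · rintro x (hx | hx)
      · rcases closure_comp hY.isClosed z hx with h | h
        · exact comp_subset_fill hz h
        · exact subset_fill Y h
      · exact subset_fill Y hx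
    · have h1 : (closure (connectedComponentIn Yᶜ z) ∩ Y).Nonempty := by
        by_contra hemp
        have h2 : closure (connectedComponentIn Yᶜ z) ⊆ connectedComponentIn Yᶜ z := by
          intro x hx
          rcases closure_comp hY.isClosed z hx with h | h
          · exact h
          · exact absurd ⟨x, hx, h⟩ hemp
        have h3 : IsClopen (connectedComponentIn Yᶜ z) :=
          ⟨isClosed_of_closure_subset h2, hY.isClosed.isOpen_compl.connectedComponentIn⟩
        rcases isClopen_iff.1 h3 with h4 | h4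
        · have := mem_connectedComponentIn (F := Yᶜ) (x := z) hzY
          rw [h4] at this
          exact this
        · have h5 : y0 ∈ connectedComponentIn Yᶜ z := by rw [h4]; exact Set.mem_univ _
          exact connectedComponentIn_subset _ _ h5 hy0
      obtain ⟨x, hx1, hx2⟩ := h1
      exact IsPreconnected.union x hx1 hx2 (isPreconnected_connectedComponentIn.closure)
        hc.isPreconnected

end fill

end PER

end R4C
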