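import Pool.Agent.Work.MP_e3f5d9_al_cx.PERA

/-!
# Block PER, part B: the components of the interior of `K` on the critical cycle (helper46)
-/

set_option autoImplicit false

open Topology Metric Filter

namespace R4C

namespace PER

/-! ### The map -/

lemma hasDerivAt_f (c z : ℂ) : HasDerivAt (f c) (2 * z) z := by
  have h : HasDerivAt (fun x : ℂ => x ^ 2 + c) (2 * z) z := by
    simpa using (hasDerivAt_pow 2 z).add_const c
  exact h

lemma f_diff (c : ℂ) : Differentiable ℂ (f c) := fun z => (hasDerivAt_f c z).differentiableAt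

lemma f_cont (c : ℂ) : Continuous (f c) := (f_diff c).continuous

lemma iter_diff (c : ℂ) (n : ℕ) : Differentiable ℂ ((f c)^[n]) := by
  induction n with
  | zero => exact differentiable_id
  | succ n ih => rw [Function.iterate_succ']; exact (f_diff c).comp ih

lemma iter_cont (c : ℂ) (n : ℕ) : Continuous ((f c)^[n]) := (iter_diff c n).continuous

lemma f_neg (c z : ℂ) : f c (-z) = f c z := by simp [f]

lemma f_eq {c z w : ℂ} (h : f c z = f c w) : z = w ∨ z = -w := by
  have h1 : (z - w) * (z + w) = 0 := by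
    have : z ^ 2 + c = w ^ 2 + c := h
    linear_combination this
  rcases mul_eq_zero.1 h1 with h2 | h2
  · exact Or.inl (sub_eq_zero.1 h2)
  · exact Or.inr (eq_neg_of_add_eq_zero_left h2)

lemma f_surj (c y : ℂ) : ∃ z, f c z = y := by
  obtain ⟨z, hz⟩ := IsAlgClosed.exists_pow_nat_eq (y - c) (n := 2) two_pos
  exact ⟨z, by simp [f, hz]⟩

lemma f_open (c : ℂ) : IsOpenMap (f c) := by
  have h := AnalyticOnNhd.is_constant_or_isOpenMap (g := f c)
    (fun z _ => (f_diff c).analyticAt z)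
  rcases h with ⟨w, hw⟩ | h
  · exfalso
    have h0 := hw 0
    have h1 := hw 1
    rw [← h1] at h0
    simp [f] at h0
  · exact h

lemma iter_open (c : ℂ) (n : ℕ) : IsOpenMap ((f c)^[n]) := by
  induction n with
  | zero => exact IsOpenMap.id
  | succ n ih => rw [Function.iterate_succ']; exact (f_open c).comp ih

lemma iter_deriv_zero (c : ℂ) {n : ℕ} (hn : 1 ≤ n) : HasDerivAt ((f c)^[n]) 0 0 := by
  obtain ⟨m, rfl⟩ : ∃ m, n = m + 1 := ⟨n - 1, by omega⟩
  rw [Function.iterate_succ]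
  have h1 := (iter_diff c m (f c 0)).hasDerivAt
  have h2 := hasDerivAt_f c 0
  have h3 := h1.comp 0 h2
  simpa using h3

/-! ### The filled Julia set -/

/-- the facts on `K` that we use -/
structure KF (c : ℂ) : Prop where
  cpt : IsCompact (K c)
  inv : ∀ z, f c z ∈ K c ↔ z ∈ K c
  neg : ∀ z, -z ∈ K c ↔ z ∈ K c
  rad : K c = {z | ∀ n, ‖(f c)^[n] z‖ ≤ rad c}
  inf : ∀ z ∉ K c, Tendsto (fun n => ‖(f c)^[n] z‖) atTop atTop
  bd : ∀ z (n : ℕ) (R : ℝ), R4C.rad c ≤ R → ‖(f c)^[n] z‖ ≤ R → ‖z‖ ≤ R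

lemma kf (h : Stmt_ELM) (c : ℂ) : KF c := by
  obtain ⟨_, _, h3, h4, h5, h6, h7, _, h9, _⟩ := h c
  exact ⟨h5, h6, h7, h4, h9, h3⟩

section

variable {c : ℂ} (hK : KF c)

include hK

lemma int_iff (z : ℂ) : f c z ∈ interior (K c) ↔ z ∈ interior (K c) := by
  constructor
  · intro h
    have h1 : f c ⁻¹' interior (K c) ⊆ interior (K c) := by
      refine interior_maximal ?_ (isOpen_interior.preimage (f_cont c))
      intro w hw
      exact (hK.inv w).1 (interior_subset hw)
    exact h1 h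
  · intro h
    have h1 : f c '' interior (K c) ⊆ interior (K c) := by
      refine interior_maximal ?_ (f_open c _ isOpen_interior)
      rintro _ ⟨w, hw, rfl⟩
      exact (hK.inv w).2 (interior_subset hw)
    exact h1 ⟨z, h, rfl⟩

lemma neg_int (z : ℂ) (h : z ∈ interior (K c)) : -z ∈ interior (K c) := by
  rw [← int_iff hK, f_neg, int_iff hK]
  exact h

lemma iter_int (n : ℕ) (z : ℂ) : (f c)^[n] z ∈ interior (K c) ↔ z ∈ interior (K c) := by
  induction n with
  | zero => rfl
  | succ n ih => rw [iter_succ, int_iff hK, ih]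

/-- the maximum principle -/
lemma max_K {W : Set ℂ} (hW : Bornology.IsBounded W) (hf : frontier W ⊆ K c) : W ⊆ K c := by
  intro z hz
  rw [hK.rad]
  intro n
  refine Complex.norm_le_of_forall_mem_frontier_norm_le hW
    (iter_diff c n).diffContOnCl (fun w hw => ?_) (subset_closure hz)
  have h1 := hf hw
  rw [hK.rad] at h1
  exact h1 n

end

/-! ### The cycle -/

/-- the critical point is periodic with exact period `n ≥ 2` -/
structure Per (c : ℂ) (n : ℕ) : Prop where
  two : 2 ≤ n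
  zero : (f c)^[n] 0 = 0
  ne : ∀ j, 0 < j → j < n → (f c)^[j] 0 ≠ 0

lemma exists_per {c : ℂ} (h0 : (0 : ℂ) ∈ P c) (hc : c ≠ 0) : ∃ n, Per c n := by
  classical
  have h0' : ∃ n, 1 ≤ n ∧ (f c)^[n] 0 = 0 := h0
  refine ⟨Nat.find h0', ?_, (Nat.find_spec h0').2, fun j hj hj2 h1 => Nat.find_min h0' hj2 ⟨hj, h1⟩⟩
  have h1 := Nat.find_spec h0'
  rcases Nat.lt_or_ge (Nat.find h0') 2 with h2 | h2
  · exfalso
    have h3 : Nat.find h0' = 1 := by omega
    rw [h3] at h1
    apply hc
    simpa [f] using h1.2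
  · exact h2

/-- the component of the interior of `K` at the `j`-th image of the critical point -/
def U (c : ℂ) (j : ℕ) : Set ℂ := connectedComponentIn (interior (K c)) ((f c)^[j] 0)

section

variable {c : ℂ} {n : ℕ} (hK : KF c) (hp : Per c n)

include hp in
/-- superattraction -/
lemma attr : ∃ ρ : ℝ, 0 < ρ ∧ ∀ z, ‖z‖ < ρ → ‖(f c)^[n] z‖ ≤ ‖z‖ / 2 := by
  have h1 := (iter_deriv_zero c (n := n) (by have := hp.two; omega)).isLittleO
  have h2 := h1.def (half_pos one_pos)
  obtain ⟨ρ, hρ, h3⟩ := Metric.eventually_nhds_iff.1 h2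
  refine ⟨ρ, hρ, fun z hz => ?_⟩
  have h4 := h3 (y := z) (by rwa [dist_zero_right])
  rw [hp.zero] at h4
  simp only [sub_zero, smul_zero] at h4
  linarith

include hK hp

lemma zero_int : (0 : ℂ) ∈ interior (K c) := by
  obtain ⟨ρ, hρ, h1⟩ := attr hp
  rw [mem_interior]
  refine ⟨ball 0 ρ, fun z hz => ?_, isOpen_ball, mem_ball_self hρ⟩
  have hz' : ‖z‖ < ρ := by simpa using hz
  by_contra hzK
  have h2 := hK.inf z hzK
  have h3 : ∀ k : ℕ, ‖(f c)^[n * k] z‖ < ρ := by
    intro k
    induction k with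
    | zero => simpa using hz'
    | succ k ih =>
      rw [Nat.mul_succ, Nat.add_comm, Function.iterate_add_apply]
      have := h1 _ ih
      linarith [norm_nonneg ((f c)^[n * k] z)]
  have h4 : Tendsto (fun k : ℕ => n * k) atTop atTop := by
    refine tendsto_atTop_mono (fun k => ?_) tendsto_id
    have := hp.two
    show k ≤ n * k
    nlinarith
  obtain ⟨k, hk⟩ := ((h2.comp h4).eventually_ge_atTop ρ).exists
  exact absurd (h3 k) (not_lt.2 hk)

lemma crit_int (j : ℕ) : (f c)^[j] 0 ∈ interior (K c) := (iter_int hK j 0).2 (zero_int hK hp)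

lemma mem_U (j : ℕ) : (f c)^[j] 0 ∈ U c j := mem_connectedComponentIn (crit_int hK hp j)

omit hK in
lemma U_period (j : ℕ) : U c (j + n) = U c j := by
  unfold U
  rw [Function.iterate_add_apply, hp.zero]

omit hK hp in
lemma U_open (j : ℕ) : IsOpen (U c j) := isOpen_interior.connectedComponentIn

omit hK hp in
lemma U_int (j : ℕ) : U c j ⊆ interior (K c) := connectedComponentIn_subset _ _

omit hK hp in
lemma U_K (j : ℕ) : U c j ⊆ K c := (U_int j).trans interior_subset

omit hK hp in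
lemma U_pre (j : ℕ) : IsPreconnected (U c j) := isPreconnected_connectedComponentIn

lemma U_conn (j : ℕ) : IsConnected (U c j) := ⟨⟨_, mem_U hK hp j⟩, U_pre j⟩

omit hp in
lemma closure_U_K (j : ℕ) : closure (U c j) ⊆ K c :=
  closure_minimal (U_K j) hK.cpt.isClosed

omit hp in
lemma closure_U_cpt (j : ℕ) : IsCompact (closure (U c j)) :=
  hK.cpt.of_isClosed_subset isClosed_closure (closure_U_K hK j)

omit hK hp in
lemma closure_U_int {j : ℕ} {z : ℂ} (hz : z ∈ closure (U c j)) (hi : z ∈ interior (K c)) :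
    z ∈ U c j := by
  by_contra h
  have h1 : z ∈ frontier (U c j) := by
    rw [(U_open j).frontier_eq]
    exact ⟨hz, h⟩
  exact comp_frontier isOpen_interior _ h1 hi

omit hK hp in
lemma frontier_U_int {j : ℕ} {z : ℂ} (hz : z ∈ frontier (U c j)) : z ∉ interior (K c) :=
  comp_frontier isOpen_interior _ hz

lemma map_U (j : ℕ) : f c '' U c j ⊆ U c (j + 1) := by
  refine ((U_pre j).image _ (f_cont c).continuousOn).subset_connectedComponentIn ?_ ?_
  · exact ⟨_, mem_U hK hp j, (iter_succ c j 0).symm⟩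
  · rintro _ ⟨w, hw, rfl⟩
    exact (int_iff hK w).2 (U_int j hw)

lemma surj_U (j : ℕ) : U c (j + 1) ⊆ f c '' U c j := by
  refine (U_pre (j + 1)).subset_left_of_subset_union (f_open c _ (U_open j))
    (v := (f c '' closure (U c j))ᶜ)
    ((closure_U_cpt hK j).image (f_cont c)).isClosed.isOpen_compl ?_ ?_ ?_
  · rw [Set.disjoint_compl_right_iff_subset]
    exact Set.image_mono subset_closure
  · intro y hy
    by_cases h : y ∈ f c '' closure (U c j)
    · left
      obtain ⟨x, hx, rfl⟩ := h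
      exact ⟨x, closure_U_int hx ((int_iff hK x).1 (U_int _ hy)), rfl⟩
    · exact Or.inr h
  · exact ⟨_, mem_U hK hp (j + 1), _, mem_U hK hp j, (iter_succ c j 0).symm⟩

lemma map_clU (j : ℕ) {z : ℂ} (hz : z ∈ closure (U c j)) : f c z ∈ closure (U c (j + 1)) :=
  closure_mono (map_U hK hp j) (image_closure_subset_closure_image (f_cont c) ⟨z, hz, rfl⟩)

lemma surj_clU (j : ℕ) {y : ℂ} (hy : y ∈ closure (U c (j + 1))) :
    ∃ z ∈ closure (U c j), f c z = y := by
  have h1 : closure (U c (j + 1)) ⊆ f c '' closure (U c j) :=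
    closure_minimal ((surj_U hK hp j).trans (Set.image_mono subset_closure))
      ((closure_U_cpt hK j).image (f_cont c)).isClosed
  exact h1 hy

lemma surj_frU (j : ℕ) {y : ℂ} (hy : y ∈ frontier (U c (j + 1))) :
    ∃ z ∈ frontier (U c j), f c z = y := by
  rw [(U_open _).frontier_eq] at hy
  obtain ⟨z, hz, rfl⟩ := surj_clU hK hp j hy.1
  refine ⟨z, ?_, rfl⟩
  rw [(U_open _).frontier_eq]
  exact ⟨hz, fun h => hy.2 (map_U hK hp j ⟨z, h, rfl⟩)⟩

lemma map_clU_iter (j m : ℕ) {z : ℂ} (hz : z ∈ closure (U c j)) :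
    (f c)^[m] z ∈ closure (U c (j + m)) := by
  induction m with
  | zero => exact hz
  | succ m ih => rw [iter_succ]; exact map_clU hK hp (j + m) ih

lemma surj_frU_iter (j m : ℕ) {y : ℂ} (hy : y ∈ frontier (U c (j + m))) :
    ∃ z ∈ frontier (U c j), (f c)^[m] z = y := by
  induction m generalizing y with
  | zero => exact ⟨y, hy, rfl⟩
  | succ m ih =>
    obtain ⟨w, hw, rfl⟩ := surj_frU hK hp (j + m) hy
    obtain ⟨z, hz, rfl⟩ := ih hw
    exact ⟨z, hz, iter_succ c m z⟩

lemma neg_U0 {z : ℂ} (hz : z ∈ U c 0) : -z ∈ U c 0 := by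
  have h1 : (fun z => -z) '' U c 0 ⊆ U c 0 := by
    refine ((U_pre 0).image _ continuous_neg.continuousOn).subset_connectedComponentIn ?_ ?_
    · exact ⟨0, mem_U hK hp 0, by simp⟩
    · rintro _ ⟨w, hw, rfl⟩
      exact neg_int hK w (U_int 0 hw)
  exact h1 ⟨z, hz, rfl⟩

lemma neg_clU0 {z : ℂ} (hz : z ∈ closure (U c 0)) : -z ∈ closure (U c 0) := by
  have h1 : (fun z => -z) '' closure (U c 0) ⊆ closure (U c 0) := by
    refine (image_closure_subset_closure_image continuous_neg).trans (closure_mono ?_)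
    rintro _ ⟨w, hw, rfl⟩
    exact neg_U0 hK hp hw
  exact h1 ⟨z, hz, rfl⟩

lemma neg_frU0 {z : ℂ} (hz : z ∈ frontier (U c 0)) : -z ∈ frontier (U c 0) := by
  rw [(U_open _).frontier_eq] at hz ⊢
  refine ⟨neg_clU0 hK hp hz.1, fun h => hz.2 ?_⟩
  have := neg_U0 hK hp h
  rwa [neg_neg] at this

/-- the Schwarz lemma: there is only one periodic point in `U 0` -/
lemma crit_notin {j : ℕ} (hj : 0 < j) (hjn : j < n) : (f c)^[j] 0 ∉ U c 0 := by
  intro hmem
  obtain ⟨ρ, hρ, hattr⟩ := attr hp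
  set g := (f c)^[n] with hg
  have hgU : ∀ k, ∀ z ∈ U c 0, (g^[k]) z ∈ U c 0 := by
    intro k z hz
    induction k with
    | zero => exact hz
    | succ k ih =>
      rw [Function.iterate_succ_apply']
      have h1 : ∀ m, ∀ w ∈ U c 0, (f c)^[m] w ∈ U c m := by
        intro m w hw
        induction m with
        | zero => exact hw
        | succ m ihm => rw [iter_succ]; exact map_U hK hp m ⟨_, ihm, rfl⟩
      have h2 := h1 n _ ih
      have h3 := U_period hp 0
      rw [Nat.zero_add] at h3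
      rwa [h3] at h2
  have hgdiff : Differentiable ℂ g := iter_diff c n
  obtain ⟨M, hM⟩ := hK.cpt.isBounded.exists_norm_le
  have hM0 : 0 ≤ M := (norm_nonneg _).trans (hM 0 (interior_subset (zero_int hK hp)))
  let u : Set ℂ := ⋃ k : ℕ, (g^[k]) ⁻¹' ball 0 ρ
  let v : Set ℂ := {z | z ∈ U c 0 ∧ ∀ k : ℕ, ρ ≤ ‖(g^[k]) z‖}
  have hu : IsOpen u := isOpen_iUnion fun k => isOpen_ball.preimage (hgdiff.continuous.iterate k)
  have hv : IsOpen v := by
    rw [Metric.isOpen_iff]
    rintro z ⟨hz, hzk⟩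
    obtain ⟨r, hr, hball⟩ := Metric.isOpen_iff.1 (U_open (c := c) 0) z hz
    refine ⟨min r (ρ * r / (4 * (M + 1))), by positivity, fun z' hz' => ?_⟩
    have hz'r : z' ∈ ball z r := ball_subset_ball (min_le_left _ _) hz'
    have hz'd : dist z' z < ρ * r / (4 * (M + 1)) := lt_of_lt_of_le hz' (min_le_right _ _)
    refine ⟨hball hz'r, fun k => ?_⟩
    by_contra hlt
    have hd : ∀ m : ℕ, dist ((g^[m]) z') ((g^[m]) z) ≤ ρ / 2 := by
      intro m
      have h1 := Complex.dist_le_div_mul_dist_of_mapsTo_ball (f := g^[m]) (c := z) (R₁ := r)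
        (R₂ := 2 * M) ((hgdiff.iterate m).differentiableOn) (by
          intro w hw
          have h2 := hM _ (U_K 0 (hgU m w (hball hw)))
          have h3 := hM _ (U_K 0 (hgU m z hz))
          rw [mem_closedBall, dist_eq_norm]
          exact (norm_sub_le _ _).trans (by linarith)) hz'r
      refine h1.trans ?_
      have h4 : 2 * M / r * dist z' z ≤ 2 * M / r * (ρ * r / (4 * (M + 1))) :=
        mul_le_mul_of_nonneg_left hz'd.le (by positivity)
      refine h4.trans ?_
      have h5 : 2 * M / r * (ρ * r / (4 * (M + 1))) = ρ / 2 * (M / (M + 1)) := by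
        field_simp
        ring
      rw [h5]
      have h6 : M / (M + 1) ≤ 1 := by
        rw [div_le_one (by linarith)]
        linarith
      nlinarith
    have h7 : ‖(g^[k + 1]) z'‖ ≤ ‖(g^[k]) z'‖ / 2 := by
      rw [Function.iterate_succ_apply']
      exact hattr _ (not_le.1 hlt)
    have h8 := hd (k + 1)
    have h9 := hzk (k + 1)
    rw [dist_eq_norm] at h8
    have h10 : ‖(g^[k + 1]) z‖ ≤ ‖(g^[k + 1]) z' - (g^[k + 1]) z‖ + ‖(g^[k + 1]) z'‖ := by
      have := norm_sub_le ((g^[k + 1]) z') ((g^[k + 1]) z' - (g^[k + 1]) z)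
      rw [sub_sub_cancel] at this
      linarith
    have h11 := not_le.1 hlt
    linarith
  have hsub : U c 0 ⊆ u := by
    refine (U_pre 0).subset_left_of_subset_union hu hv ?_ ?_ ?_
    · rw [Set.disjoint_left]
      intro z hz hzv
      obtain ⟨k, hk⟩ := Set.mem_iUnion.1 hz
      have h1 : ‖(g^[k]) z‖ < ρ := by simpa using hk
      exact absurd (hzv.2 k) (not_le.2 h1)
    · intro z hz
      by_cases h : z ∈ u
      · exact Or.inl h
      · right
        refine ⟨hz, fun k => ?_⟩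
        by_contra hlt
        exact h (Set.mem_iUnion.2 ⟨k, by simpa using hlt⟩)
    · exact ⟨0, mem_U hK hp 0, Set.mem_iUnion.2 ⟨0, by simpa using hρ⟩⟩
  obtain ⟨k, hk⟩ := Set.mem_iUnion.1 (hsub hmem)
  have hfix : g ((f c)^[j] 0) = (f c)^[j] 0 := by
    rw [hg, ← Function.iterate_add_apply, Nat.add_comm, Function.iterate_add_apply, hp.zero]
  have hfixk : (g^[k]) ((f c)^[j] 0) = (f c)^[j] 0 := Function.iterate_fixed hfix k
  have h1 : ‖(f c)^[j] 0‖ < ρ := by
    have h2 : (g^[k]) ((f c)^[j] 0) ∈ ball (0 : ℂ) ρ := hk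
    rw [hfixk] at h2
    simpa using h2
  have h2 := hattr _ h1
  rw [hfix] at h2
  have h3 : ‖(f c)^[j] 0‖ ≤ 0 := by linarith
  exact hp.ne j hj hjn (norm_le_zero_iff.1 h3)

lemma disj_U0 {j : ℕ} (hj : 0 < j) (hjn : j < n) {z : ℂ} (h0 : z ∈ U c 0) (hz : z ∈ U c j) :
    False := by
  have h1 := connectedComponentIn_eq h0
  have h2 := connectedComponentIn_eq hz
  apply crit_notin hK hp hj hjn
  have h3 := mem_U hK hp j
  unfold U at h3 ⊢
  rw [h1, ← h2]
  exact h3

lemma disj_U1 {j : ℕ} (hj : 0 < j) (hjn : j < n) {z : ℂ} (h0 : z ∈ U c 1) (hz : z ∈ U c (j + 1)) :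
    False := by
  have h1 : ∀ (i m : ℕ) (w : ℂ), w ∈ U c i → (f c)^[m] w ∈ U c (i + m) := by
    intro i m w hw
    induction m with
    | zero => exact hw
    | succ m ihm => rw [iter_succ]; exact map_U hK hp (i + m) ⟨_, ihm, rfl⟩
  have h2 := h1 1 (n - 1) z h0
  have h3 := h1 (j + 1) (n - 1) z hz
  have hn := hp.two
  rw [show 1 + (n - 1) = 0 + n by omega, U_period hp] at h2
  rw [show j + 1 + (n - 1) = j + n by omega, U_period hp] at h3
  exact disj_U0 hK hp hj hjn h2 h3

end

end PER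

end R4C
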