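import Pool.Agent.Work.MP_e3f5d9_al_cx.PERB

/-!
# Block PER, part C: the closures of the components do not touch their negatives (helper46)
-/

set_option autoImplicit false

open Topology Metric Filter

namespace R4C

namespace PER

lemma meet_frontier {S V : Set ℂ} (hS : IsPreconnected S) (hV : IsOpen V) (h1 : (S ∩ V).Nonempty)
    (h2 : (S ∩ Vᶜ).Nonempty) : (S ∩ frontier V).Nonempty := by
  by_contra hcon
  have h3 : ∀ x ∈ S, x ∈ closure V → x ∈ V := by
    intro x hx hxc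
    by_contra hxV
    exact hcon ⟨x, hx, by rw [hV.frontier_eq]; exact ⟨hxc, hxV⟩⟩
  obtain ⟨y, hy, hyV⟩ := h2
  obtain ⟨z, _, hz1, hz2⟩ := hS V (closure V)ᶜ hV isClosed_closure.isOpen_compl
    (fun x hx => by
      by_cases h : x ∈ closure V
      · exact Or.inl (h3 x hx h)
      · exact Or.inr h) h1 ⟨y, hy, fun h => hyV (h3 y hy h)⟩
  exact hz2 (subset_closure hz1)

section leg

variable {c : ℂ} {ψ : ℂ → ℂ} (hL : Lnd c ψ) {u : ℂ} (hu : ‖u‖ = 1)

include hL hu

lemma norm_tu {t : ℝ} (ht : 1 ≤ t) : ‖(t : ℂ) * u‖ = t := by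
  have _ := hL
  rw [norm_mul, hu, mul_one, Complex.norm_real, Real.norm_of_nonneg (by linarith)]

lemma leg_curve_cont : ContinuousOn (fun t : ℝ => ψ (t * u)) (Set.Ici 1) := by
  refine hL.cont.comp (by fun_prop) fun t ht => ?_
  show 1 ≤ ‖(t : ℂ) * u‖
  rw [norm_tu hL hu ht]
  exact ht

lemma leg_eq : leg ψ u = (fun t : ℝ => ψ (t * u)) '' Set.Ici 1 := by
  have _ := hL
  have _ := hu
  ext z
  constructor
  · rintro ⟨t, ht, rfl⟩
    exact ⟨t, ht, rfl⟩
  · rintro ⟨t, ht, rfl⟩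
    exact ⟨t, ht, rfl⟩

lemma leg_pre : IsPreconnected (leg ψ u) := by
  rw [leg_eq hL hu]
  exact isPreconnected_Ici.image _ (leg_curve_cont hL hu)

lemma leg_far (M : ℝ) : ∃ T : ℝ, 1 ≤ T ∧ ∀ t : ℝ, T ≤ t → M < ‖ψ (t * u)‖ := by
  have h1 : ∀ᶠ w in Bornology.cobounded ℂ, ‖ψ w / w - 1‖ < 1 / 2 := by
    have h2 := Metric.tendsto_nhds.1 hL.inf (1 / 2) (by norm_num)
    filter_upwards [h2] with w hw
    rwa [dist_eq_norm] at hw
  rw [← comap_norm_atTop, eventually_comap, eventually_atTop] at h1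
  obtain ⟨a, ha⟩ := h1
  refine ⟨max 1 (max a (2 * |M| + 1)), le_max_left _ _, fun t ht => ?_⟩
  have ht1 : 1 ≤ t := (le_max_left _ _).trans ht
  have hta : a ≤ t := (le_max_left _ _).trans ((le_max_right _ _).trans ht)
  have htM : 2 * |M| + 1 ≤ t := (le_max_right _ _).trans ((le_max_right _ _).trans ht)
  have h3 := ha t hta ((t : ℂ) * u) (norm_tu hL hu ht1)
  have h4 : (t : ℂ) * u ≠ 0 := by
    rw [← norm_pos_iff, norm_tu hL hu ht1]
    linarith
  have h5 : 1 / 2 < ‖ψ (t * u) / (t * u)‖ := by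
    have := norm_sub_norm_le (1 : ℂ) (1 - ψ (t * u) / (t * u))
    rw [sub_sub_cancel, norm_one, norm_sub_rev] at this
    linarith
  rw [norm_div, norm_tu hL hu ht1, lt_div_iff₀ (by linarith)] at h5
  linarith [le_abs_self M]

lemma leg_unb (M : ℝ) : ∃ z ∈ leg ψ u, M < ‖z‖ := by
  obtain ⟨T, hT, h⟩ := leg_far hL hu M
  exact ⟨_, ⟨T, hT, rfl⟩, h T le_rfl⟩

lemma leg_closed : IsClosed (leg ψ u) := by
  refine isClosed_of_closure_subset fun z hz => ?_
  obtain ⟨T, hT, h⟩ := leg_far hL hu (‖z‖ + 1)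
  have h1 : leg ψ u ⊆ (fun t : ℝ => ψ (t * u)) '' Set.Icc 1 T ∪ {w | ‖z‖ + 1 ≤ ‖w‖} := by
    rintro w ⟨t, ht, rfl⟩
    rcases le_total t T with h2 | h2
    · exact Or.inl ⟨t, ⟨ht, h2⟩, rfl⟩
    · exact Or.inr (h t h2).le
  have h2 : IsClosed ((fun t : ℝ => ψ (t * u)) '' Set.Icc 1 T ∪ {w : ℂ | ‖z‖ + 1 ≤ ‖w‖}) := by
    refine IsClosed.union ?_ (isClosed_le continuous_const continuous_norm)
    exact (isCompact_Icc.image_of_continuousOn
      ((leg_curve_cont hL hu).mono Set.Icc_subset_Ici_self)).isClosed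
  rcases closure_minimal h1 h2 hz with h3 | h3
  · obtain ⟨t, ht, rfl⟩ := h3
    exact ⟨t, ht.1, rfl⟩
  · have h4 : ‖z‖ + 1 ≤ ‖z‖ := h3
    linarith

lemma leg_base : ψ u ∈ leg ψ u := by
  have _ := hL
  have _ := hu
  exact ⟨1, le_rfl, by simp⟩

end leg

section

variable {c : ℂ} {n : ℕ} (hK : KF c) (hp : Per c n)

include hK hp

lemma exists_frontier (t : ℂ) : ∃ x ∈ frontier (U c 0), x ≠ t ∧ x ≠ -t := by
  have hcount : ({t, -t} : Set ℂ).Countable := (Set.toFinite _).countable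
  have h1 : IsPreconnected ({t, -t} : Set ℂ)ᶜ :=
    (hcount.isConnected_compl_of_one_lt_rank (by simp)).isPreconnected
  have h2 : (({t, -t} : Set ℂ)ᶜ ∩ U c 0).Nonempty := by
    obtain ⟨z, hz1, hz2⟩ := (hcount.dense_compl ℂ).inter_open_nonempty _ (U_open 0)
      ⟨_, mem_U hK hp 0⟩
    exact ⟨z, hz2, hz1⟩
  have h3 : (({t, -t} : Set ℂ)ᶜ ∩ (U c 0)ᶜ).Nonempty := by
    obtain ⟨M, hM⟩ := hK.cpt.isBounded.exists_norm_le
    obtain ⟨z, hz1, hz2⟩ := exists_far M ‖t‖
    refine ⟨z, ?_, fun h => absurd (hM z (U_K 0 h)) (not_le.2 hz2)⟩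
    simp only [Set.mem_compl_iff, Set.mem_insert_iff, Set.mem_singleton_iff, not_or]
    constructor
    · rintro rfl
      exact lt_irrefl _ hz1
    · intro h
      rw [h, norm_neg] at hz1
      exact lt_irrefl _ hz1
  obtain ⟨x, hx1, hx2⟩ := meet_frontier h1 (U_open 0) h2 h3
  simp only [Set.mem_compl_iff, Set.mem_insert_iff, Set.mem_singleton_iff, not_or] at hx1
  exact ⟨x, hx2, hx1.1, hx1.2⟩

/-- an accessible boundary point of `U 0` -/
lemma access (t : ℂ) : ∃ (x : ℂ) (A : Set ℂ), x ∈ frontier (U c 0) ∧ x ≠ t ∧ x ≠ -t ∧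
    IsCompact A ∧ IsPreconnected A ∧ 0 ∈ A ∧ x ∈ A ∧ A ⊆ U c 0 ∪ {x} := by
  obtain ⟨x1, hx1, hxt, hxt'⟩ := exists_frontier hK hp t
  set ρ := min (dist x1 t) (dist x1 (-t)) with hρ
  have hρ0 : 0 < ρ := lt_min (dist_pos.2 hxt) (dist_pos.2 hxt')
  obtain ⟨q, hq, hq1⟩ := Metric.mem_closure_iff.1 (frontier_subset_closure hx1) (ρ / 2)
    (half_pos hρ0)
  have hcf : IsCompact (frontier (U c 0)) :=
    hK.cpt.of_isClosed_subset isClosed_frontier
      (frontier_subset_closure.trans (closure_U_K hK 0))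
  obtain ⟨x, hx, hdx⟩ := hcf.exists_infDist_eq_dist ⟨x1, hx1⟩ q
  have h1 : dist q x < ρ / 2 := by
    rw [← hdx]
    refine (infDist_le_dist_of_mem hx1).trans_lt ?_
    rw [dist_comm]
    exact hq1
  have hxx1 : dist x1 x < ρ := by
    have := dist_triangle x1 q x
    linarith
  have hball : ball q (dist q x) ⊆ U c 0 := by
    by_contra hnot
    obtain ⟨y, hy1, hy2⟩ := Set.not_subset.1 hnot
    have hpos : 0 < dist q x := dist_nonneg.trans_lt (by rwa [mem_ball'] at hy1)
    obtain ⟨y', hy1', hy2'⟩ := meet_frontier (isPreconnected_ball (x := q) (r := dist q x))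
      (U_open 0) ⟨q, mem_ball_self hpos, hq⟩ ⟨y, hy1, hy2⟩
    have h2 : dist q x ≤ dist q y' := by
      rw [← hdx]
      exact infDist_le_dist_of_mem hy2'
    rw [mem_ball'] at hy1'
    linarith
  have hpc : IsPathConnected (U c 0) :=
    (U_open 0).isConnected_iff_isPathConnected.1 (U_conn hK hp 0)
  obtain ⟨γ, hγ⟩ := hpc.joinedIn 0 (mem_U hK hp 0) q hq
  refine ⟨x, Set.range γ ∪ (fun s : ℝ => q + (s : ℂ) * (x - q)) '' Set.Icc 0 1, hx, ?_, ?_, ?_, ?_,
    ?_, ?_, ?_⟩
  · rintro rfl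
    exact absurd hxx1 (not_lt.2 (min_le_left _ _))
  · rintro rfl
    exact absurd hxx1 (not_lt.2 (min_le_right _ _))
  · exact (isCompact_range γ.continuous).union (isCompact_Icc.image (by fun_prop))
  · refine IsPreconnected.union q ⟨1, γ.target⟩ ⟨0, ⟨le_rfl, zero_le_one⟩, by simp⟩
      (isPreconnected_range γ.continuous) (isPreconnected_Icc.image _ (by fun_prop))
  · exact Or.inl ⟨0, γ.source⟩
  · exact Or.inr ⟨1, ⟨zero_le_one, le_rfl⟩, by simp⟩
  · rintro y (⟨s, rfl⟩ | ⟨s, hs, rfl⟩)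
    · exact Or.inl (hγ s)
    · rcases hs.2.lt_or_eq with h2 | h2
      · left
        rcases eq_or_ne q x with h3 | h3
        · simp only [h3, sub_self, mul_zero, add_zero]
          exact h3 ▸ hq
        · apply hball
          rw [mem_ball', dist_eq_norm, dist_eq_norm]
          have h4 : q - (q + (s : ℂ) * (x - q)) = (s : ℂ) * (q - x) := by ring
          show ‖q - (q + (s : ℂ) * (x - q))‖ < ‖q - x‖
          rw [h4, norm_mul, Complex.norm_real, Real.norm_of_nonneg hs.1]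
          have h5 : 0 < ‖q - x‖ := norm_pos_iff.2 (sub_ne_zero.2 h3)
          nlinarith
      · right
        simp [h2]

/-- **The core**: the closure of `U j`, `0 < j < n`, does not meet its negative. -/
lemma core {ψ : ℂ → ℂ} (hL : Lnd c ψ) {j : ℕ} (hj : 0 < j) (hjn : j < n) {t : ℂ}
    (ht : t ∈ closure (U c j)) (ht' : -t ∈ closure (U c j)) : False := by
  obtain ⟨x, A, hx, hxt, hxt', hAc, hAp, h0A, hxA, hAU⟩ := access hK hp t
  have hxK : x ∈ K c := closure_U_K hK 0 (frontier_subset_closure hx)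
  have hxi : x ∉ interior (K c) := frontier_U_int hx
  have hxf : x ∈ frontier (K c) := ⟨subset_closure hxK, hxi⟩
  rw [← hL.img1] at hxf
  obtain ⟨u, hu, rfl⟩ := hxf
  have hu' : ‖u‖ = 1 := by simpa using hu
  have hlegK : ∀ z ∈ leg ψ u, z ∈ K c → z = ψ u := fun z hz hzK => leg_inter_K hL hu' hz hzK
  -- the closed set `T`
  set T : Set ℂ := A ∪ leg ψ u with hT
  have hTc : IsClosed T := hAc.isClosed.union (leg_closed hL hu')
  have hTp : IsPreconnected T :=
    IsPreconnected.union (ψ u) hxA (leg_base hL hu') hAp (leg_pre hL hu')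
  have hTU : ∀ z ∈ closure (U c j), z ∈ T → z = ψ u := by
    rintro z hz (h1 | h1)
    · rcases hAU h1 with h2 | h2
      · exfalso
        have h3 : z ∈ U c j := closure_U_int hz (U_int 0 h2)
        exact disj_U0 hK hp hj hjn h2 h3
      · exact h2
    · exact hlegK z h1 (closure_U_K hK j hz)
  have hTU' : ∀ z, -z ∈ closure (U c j) → z ∈ T → z = ψ u := by
    rintro z hz (h1 | h1)
    · rcases hAU h1 with h2 | h2
      · exfalso
        have h3 : -z ∈ U c 0 := neg_U0 hK hp h2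
        have h4 : -z ∈ U c j := closure_U_int hz (U_int 0 h3)
        exact disj_U0 hK hp hj hjn h3 h4
      · exact h2
    · exact hlegK z h1 ((hK.neg z).1 (closure_U_K hK j hz))
  have htT : t ∉ T := fun h => hxt (hTU t ht h).symm
  have htT' : -t ∉ T := fun h => hxt' (hTU (-t) ht' h).symm
  obtain ⟨ε1, hε1, hb1⟩ := Metric.isOpen_iff.1 hTc.isOpen_compl t htT
  obtain ⟨ε2, hε2, hb2⟩ := Metric.isOpen_iff.1 hTc.isOpen_compl (-t) htT'
  set ε := min ε1 ε2 / 2 with hε
  have hε0 : 0 < ε := half_pos (lt_min hε1 hε2)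
  have hB1 : closedBall t ε ⊆ Tᶜ := (closedBall_subset_ball (by
    have := min_le_left ε1 ε2
    have := lt_min hε1 hε2
    rw [hε]; linarith)).trans hb1
  have hB2 : closedBall (-t) ε ⊆ Tᶜ := (closedBall_subset_ball (by
    have := min_le_right ε1 ε2
    have := lt_min hε1 hε2
    rw [hε]; linarith)).trans hb2
  obtain ⟨a, ha, hat⟩ := Metric.mem_closure_iff.1 ht ε hε0
  obtain ⟨b, hb, hbt⟩ := Metric.mem_closure_iff.1 ht' ε hε0
  have hpc : IsPathConnected (U c j) :=
    (U_open j).isConnected_iff_isPathConnected.1 (U_conn hK hp j)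
  obtain ⟨γ, hγ⟩ := hpc.joinedIn a ha b hb
  have haB : a ∈ closedBall t ε := by rw [mem_closedBall']; exact hat.le
  have hbB : b ∈ closedBall (-t) ε := by rw [mem_closedBall']; exact hbt.le
  have hnB : ∀ z, z ∈ closedBall t ε ↔ -z ∈ closedBall (-t) ε := by
    intro z
    rw [mem_closedBall, mem_closedBall, dist_neg_neg]
  -- the symmetric set
  set R : Set ℂ := ((Set.range γ ∪ closedBall t ε) ∪ closedBall (-t) ε) ∪
    (fun z => -z) '' Set.range γ with hR
  refine sym_contra (R := R) (T := T) ?_ ?_ ?_ hTp ?_ (Or.inl h0A) ?_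
  · exact (((isCompact_range γ.continuous).union (isCompact_closedBall _ _)).union
      (isCompact_closedBall _ _)).union ((isCompact_range γ.continuous).image continuous_neg)
  · refine ⟨⟨a, Or.inl (Or.inl (Or.inr haB))⟩, ?_⟩
    refine IsPreconnected.union (-a) (Or.inr ((hnB a).1 haB)) ⟨a, ⟨0, γ.source⟩, rfl⟩ ?_
      ((isPreconnected_range γ.continuous).image _ continuous_neg.continuousOn)
    refine IsPreconnected.union b (Or.inl ⟨1, γ.target⟩) hbB ?_ isPreconnected_closedBall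
    exact IsPreconnected.union a ⟨0, γ.source⟩ haB (isPreconnected_range γ.continuous)
      isPreconnected_closedBall
  · rintro z (((h | h) | h) | ⟨y, hy, rfl⟩)
    · exact Or.inr ⟨z, h, rfl⟩
    · exact Or.inl (Or.inr ((hnB z).1 h))
    · refine Or.inl (Or.inl (Or.inr ((hnB (-z)).2 ?_)))
      rwa [neg_neg]
    · rw [neg_neg]
      exact Or.inl (Or.inl (Or.inl hy))
  · rintro z hzT (((⟨s, rfl⟩ | h) | h) | ⟨y, ⟨s, rfl⟩, rfl⟩)
    · have h1 := hTU _ (subset_closure (hγ s)) hzT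
      exact hxi (h1 ▸ U_int j (hγ s))
    · exact hB1 h hzT
    · exact hB2 h hzT
    · have h1 := hTU' (-(γ s)) (by rw [neg_neg]; exact subset_closure (hγ s)) hzT
      exact hxi (h1 ▸ neg_int hK _ (U_int j (hγ s)))
  · intro M
    obtain ⟨z, hz, hM⟩ := leg_unb hL hu' M
    exact ⟨z, Or.inr hz, hM⟩

/-- the critical value is outside of the filled closures -/
lemma c_notin {ψ : ℂ → ℂ} (hL : Lnd c ψ) {j : ℕ} (hj : 0 < j) (hjn : j < n) :
    c ∉ fill (closure (U c (j + 1))) := by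
  intro hc
  have hc1 : (f c)^[1] 0 = c := by simp [f]
  have hcU : c ∈ U c 1 := by
    have := mem_U hK hp 1
    rwa [hc1] at this
  have hcC : c ∉ closure (U c (j + 1)) := fun h =>
    disj_U1 hK hp hj hjn hcU (closure_U_int h (U_int 1 hcU))
  set W := connectedComponentIn (closure (U c (j + 1)))ᶜ c with hW
  have hWb : Bornology.IsBounded W := hc
  have hWf : frontier W ⊆ closure (U c (j + 1)) := by
    intro z hz
    exact not_not.1 (comp_frontier isClosed_closure.isOpen_compl c hz)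
  have hWK : W ⊆ K c := max_K hK hWb (hWf.trans (closure_U_K hK (j + 1)))
  have hWo : IsOpen W := isClosed_closure.isOpen_compl.connectedComponentIn
  have hWU : W ⊆ U c 1 := by
    unfold U
    rw [hc1]
    exact isPreconnected_connectedComponentIn.subset_connectedComponentIn
      (mem_connectedComponentIn hcC) (interior_maximal hWK hWo)
  have hUW : U c 1 ⊆ W := by
    refine (U_pre 1).subset_connectedComponentIn hcU ?_
    intro z hz h
    exact disj_U1 hK hp hj hjn hz (closure_U_int h (U_int 1 hz))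
  have hWU1 : W = U c 1 := Set.Subset.antisymm hWU hUW
  rw [hWU1] at hWf
  have hn := hp.two
  have hfr : ∀ y ∈ frontier (U c 0), y ∈ closure (U c j) := by
    intro y hy
    have h1 : U c (1 + (n - 1)) = U c 0 := by
      rw [show 1 + (n - 1) = 0 + n by omega, U_period hp]
    rw [← h1] at hy
    obtain ⟨z, hz, rfl⟩ := surj_frU_iter hK hp 1 (n - 1) hy
    have h2 := map_clU_iter hK hp (j + 1) (n - 1) (hWf hz)
    rwa [show j + 1 + (n - 1) = j + n by omega, U_period hp] at h2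
  obtain ⟨x, hx, _⟩ := exists_frontier hK hp 0
  exact core hK hp hL hj hjn (hfr x hx) (hfr (-x) (neg_frU0 hK hp hx))

end

end PER

end R4C
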