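import Pool.Agent.Work.MP_e3f5d9_al_cx.PERC

/-!
# Block PER, part D: the small Julia set (helper46)
-/

set_option autoImplicit false

open Topology Metric Filter

namespace R4C

namespace PER

section

variable {c : ℂ}

/-- the image of a filled set -/
lemma fill_map {Y Y' : Set ℂ} (hY : IsCompact Y) (hY' : IsCompact Y')
    (h : ∀ z ∈ Y, f c z ∈ Y') {z : ℂ} (hz : z ∈ fill Y) : f c z ∈ fill Y' := by
  by_contra hnot
  have hzY : z ∉ Y := fun h1 => hnot (subset_fill Y' (h z h1))
  set O : Set ℂ := (fill Y')ᶜ with hO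
  have hOo : IsOpen O := (fill_isCompact hY').isClosed.isOpen_compl
  set W := connectedComponentIn Yᶜ z with hW
  have hWb : Bornology.IsBounded W := hz
  have hWo : IsOpen W := hY.isClosed.isOpen_compl.connectedComponentIn
  set S := W ∩ f c ⁻¹' O with hS
  have hSo : IsOpen S := hWo.inter (hOo.preimage (f_cont c))
  have hScl : closure S ⊆ closure W := closure_mono Set.inter_subset_left
  have hSc : IsCompact (closure S) :=
    Metric.isCompact_of_isClosed_isBounded isClosed_closure ((hWb.closure).subset hScl)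
  have hsub : O ⊆ f c '' S := by
    refine (fill_compl_preconnected hY').subset_left_of_subset_union (f_open c _ hSo)
      (v := (f c '' closure S)ᶜ) (hSc.image (f_cont c)).isClosed.isOpen_compl ?_ ?_ ?_
    · rw [Set.disjoint_compl_right_iff_subset]
      exact Set.image_mono subset_closure
    · intro y hy
      by_cases h1 : y ∈ f c '' closure S
      · left
        obtain ⟨s, hs, rfl⟩ := h1
        refine ⟨s, ⟨?_, hy⟩, rfl⟩
        rcases closure_comp hY.isClosed z (hScl hs) with h2 | h2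
        · exact h2
        · exact absurd (subset_fill Y' (h s h2)) hy
      · exact Or.inr h1
    · exact ⟨f c z, hnot, z, ⟨mem_connectedComponentIn hzY, hnot⟩, rfl⟩
  have hb : Bornology.IsBounded O :=
    ((hSc.image (f_cont c)).isBounded).subset (hsub.trans (Set.image_mono subset_closure))
  obtain ⟨M, hM⟩ := hb.exists_norm_le
  obtain ⟨y, hy, hMy⟩ := fill_compl_unb hY' M
  exact absurd (hM y hy) (not_le.2 hMy)

end

/-- the filled closure of `U j` -/
def Xf (c : ℂ) (j : ℕ) : Set ℂ := fill (closure (U c j))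

section

variable {c : ℂ} {n : ℕ} (hK : KF c) (hp : Per c n)

include hK hp

omit hp in
lemma Xf_cpt (j : ℕ) : IsCompact (Xf c j) := fill_isCompact (closure_U_cpt hK j)

lemma Xf_conn (j : ℕ) : IsConnected (Xf c j) :=
  fill_isConnected (closure_U_cpt hK j) (U_conn hK hp j).closure

omit hK in
lemma Xf_period (j : ℕ) : Xf c (j + n) = Xf c j := by
  unfold Xf
  rw [U_period hp]

lemma Xf_map (j : ℕ) {z : ℂ} (hz : z ∈ Xf c j) : f c z ∈ Xf c (j + 1) :=
  fill_map (closure_U_cpt hK j) (closure_U_cpt hK (j + 1)) (fun _ hw => map_clU hK hp j hw) hz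

lemma Xf_map_iter (j m : ℕ) {z : ℂ} (hz : z ∈ Xf c j) : (f c)^[m] z ∈ Xf c (j + m) := by
  induction m with
  | zero => exact hz
  | succ m ih => rw [iter_succ]; exact Xf_map hK hp (j + m) ih

omit hK hp in
lemma cl_sub_Xf (j : ℕ) : closure (U c j) ⊆ Xf c j := subset_fill _

variable {ψ : ℂ → ℂ} (hL : Lnd c ψ)

include hL

/-- the inverse branch on `Xf (j + 1)` -/
lemma exists_branch {j : ℕ} (hj : 0 < j) (hjn : j < n) : ∃ B : ℂ → ℂ,
    ContinuousOn B (Xf c (j + 1)) ∧ (∀ y ∈ Xf c (j + 1), B y ^ 2 = y - c) ∧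
      ∀ z ∈ Xf c j, B (f c z) = z := by
  have hc := c_notin hK hp hL hj hjn
  have hcC := closure_U_cpt hK (j + 1)
  obtain ⟨B, hB, hB2⟩ := hasSqrt_unb (Y := Xf c (j + 1)) (T := (Xf c (j + 1))ᶜ)
    (Xf_cpt hK (j + 1)) (fill_compl_preconnected hcC) subset_rfl (fill_compl_unb hcC) (p := c) hc
  have h0 : ∀ z ∈ Xf c j, z ≠ 0 := by
    rintro z hz rfl
    have := Xf_map hK hp j hz
    rw [show f c 0 = c by simp [f]] at this
    exact hc this
  have h1 : ContinuousOn (fun z => B (f c z)) (Xf c j) :=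
    hB.comp (f_cont c).continuousOn fun z hz => Xf_map hK hp j hz
  rcases (Xf_conn hK hp j).isPreconnected.eq_or_eq_neg_of_sq_eq h1
    (g := fun z => z) continuousOn_id (by
      intro z hz
      simp only [Pi.pow_apply]
      rw [hB2 _ (Xf_map hK hp j hz)]
      simp [f]) (fun {z} hz => h0 z hz) with h2 | h2
  · exact ⟨B, hB, hB2, fun z hz => h2 hz⟩
  · refine ⟨fun y => -B y, hB.neg, fun y hy => ?_, fun z hz => ?_⟩
    · rw [neg_sq, hB2 y hy]
    · have h3 : B (f c z) = -z := h2 hz
      show -B (f c z) = z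
      rw [h3, neg_neg]

lemma Xf_neg {j : ℕ} (hj : 0 < j) (hjn : j < n) {z : ℂ} (hz : z ∈ Xf c j) (hz' : -z ∈ Xf c j) :
    False := by
  obtain ⟨B, _, _, hBf⟩ := exists_branch hK hp hL hj hjn
  have h1 := hBf z hz
  have h2 := hBf (-z) hz'
  rw [f_neg, h1] at h2
  have h3 : z = 0 := by
    have : z + z = 0 := by nth_rewrite 1 [h2]; ring
    linear_combination this / 2
  have h4 := Xf_map hK hp j hz
  rw [h3, show f c 0 = c by simp [f]] at h4
  exact c_notin hK hp hL hj hjn h4

omit hL in
lemma pull_zero {w : ℂ} (h : f c w ∈ Xf c 1) : w ∈ Xf c 0 := by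
  by_contra hw
  have hC0 := closure_U_cpt hK 0
  have h1 : IsPreconnected (f c '' (Xf c 0)ᶜ) :=
    (fill_compl_preconnected hC0).image _ (f_cont c).continuousOn
  have h2 : f c '' (Xf c 0)ᶜ ⊆ (closure (U c 1))ᶜ := by
    rintro _ ⟨z, hz, rfl⟩ hmem
    obtain ⟨y, hy, hyz⟩ := surj_clU hK hp 0 hmem
    rcases f_eq hyz with h3 | h3
    · exact hz (cl_sub_Xf 0 (h3 ▸ hy))
    · apply hz
      apply cl_sub_Xf 0
      have := neg_clU0 hK hp hy
      rwa [h3, neg_neg] at this
  have h3 : f c '' (Xf c 0)ᶜ ⊆ connectedComponentIn (closure (U c 1))ᶜ (f c w) :=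
    h1.subset_connectedComponentIn ⟨w, hw, rfl⟩ h2
  have h4 : Bornology.IsBounded (connectedComponentIn (closure (U c 1))ᶜ (f c w)) := h
  obtain ⟨M, hM⟩ := (h4.subset h3).exists_norm_le
  obtain ⟨z, hz, hzM⟩ := fill_compl_unb hC0 (max (rad c) M)
  have h5 := hK.bd z 1 (max (rad c) M) (le_max_left _ _)
    ((hM (f c z) ⟨z, hz, rfl⟩).trans (le_max_right _ _))
  linarith

lemma pull_pos {j : ℕ} (hj : 0 < j) (hjn : j < n) {w : ℂ} (h : f c w ∈ Xf c (j + 1)) :
    w ∈ Xf c j ∨ -w ∈ Xf c j := by
  obtain ⟨B, hB, hB2, hBf⟩ := exists_branch hK hp hL hj hjn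
  have hcC := closure_U_cpt hK (j + 1)
  by_cases hcl : f c w ∈ closure (U c (j + 1))
  · obtain ⟨y, hy, hyw⟩ := surj_clU hK hp j hcl
    rcases f_eq hyw with h3 | h3
    · exact Or.inl (cl_sub_Xf j (h3 ▸ hy))
    · exact Or.inr (cl_sub_Xf j (h3 ▸ hy))
  · set W := connectedComponentIn (closure (U c (j + 1)))ᶜ (f c w) with hW
    have hwW : f c w ∈ W := mem_connectedComponentIn hcl
    have hWo : IsOpen W := isClosed_closure.isOpen_compl.connectedComponentIn
    have hWX : W ⊆ Xf c (j + 1) := comp_subset_fill h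
    have hWcl : closure W ⊆ W ∪ closure (U c (j + 1)) := closure_comp isClosed_closure _
    have hWclX : closure W ⊆ Xf c (j + 1) :=
      hWcl.trans (Set.union_subset hWX (cl_sub_Xf _))
    have hWc : IsCompact (closure W) :=
      (Xf_cpt hK (j + 1)).of_isClosed_subset isClosed_closure hWclX
    have hWdis : ∀ y ∈ W, y ∉ closure (U c (j + 1)) := fun y hy =>
      connectedComponentIn_subset _ _ hy
    have hc : c ∉ Xf c (j + 1) := c_notin hK hp hL hj hjn
    -- the point `w' = ± w` with `B (f w') = w'`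
    set w' := B (f c w) with hw'
    have hw'2 : w' ^ 2 = w ^ 2 := by
      rw [hw', hB2 _ h]
      simp [f]
    have hfw' : f c w' = f c w := by
      show w' ^ 2 + c = w ^ 2 + c
      rw [hw'2]
    suffices hmain : w' ∈ Xf c j by
      rcases sq_eq_sq_iff_eq_or_eq_neg.1 hw'2 with h3 | h3
      · exact Or.inl (h3 ▸ hmain)
      · exact Or.inr (h3 ▸ hmain)
    set V : Set ℂ := {v | f c v ∈ W ∧ B (f c v) = v} with hV
    have hw'V : w' ∈ V := ⟨by rw [hfw']; exact hwW, by rw [hfw']⟩
    have hVo : IsOpen V := by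
      rw [isOpen_iff_mem_nhds]
      rintro v ⟨hv1, hv2⟩
      have hv0 : v ≠ 0 := by
        rintro rfl
        apply hc
        have := hWX hv1
        rwa [show f c 0 = c by simp [f]] at this
      have hN : f c ⁻¹' W ∈ 𝓝 v := (hWo.preimage (f_cont c)).mem_nhds hv1
      have hcont : ContinuousAt (fun z => B (f c z) + z) v := by
        refine ContinuousAt.add ?_ continuousAt_id
        have h5 : ContinuousAt B (f c v) :=
          (hB.mono hWX).continuousAt (hWo.mem_nhds hv1)
        exact ContinuousAt.comp h5 (f_cont c).continuousAt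
      have hne : B (f c v) + v ≠ 0 := by
        rw [hv2]
        intro h6
        exact hv0 (by linear_combination h6 / 2)
      have hev := hcont.eventually_ne hne
      filter_upwards [hN, hev] with z hz1 hz2
      refine ⟨hz1, ?_⟩
      have h7 : B (f c z) ^ 2 = z ^ 2 := by
        rw [hB2 _ (hWX hz1)]
        simp [f]
      rcases sq_eq_sq_iff_eq_or_eq_neg.1 h7 with h8 | h8
      · exact h8
      · exfalso
        apply hz2
        rw [h8]
        ring
    have hVB : V ⊆ B '' closure W := by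
      rintro v ⟨hv1, hv2⟩
      exact ⟨f c v, subset_closure hv1, hv2⟩
    have hBc : IsCompact (B '' closure W) := hWc.image_of_continuousOn (hB.mono hWclX)
    have hVcl : closure V ⊆ V ∪ closure (U c j) := by
      refine (closure_minimal hVB hBc.isClosed).trans ?_
      rintro _ ⟨y, hy, rfl⟩
      have hfy : f c (B y) = y := by
        show B y ^ 2 + c = y
        rw [hB2 y (hWclX hy)]
        ring
      rcases hWcl hy with h3 | h3
      · left
        exact ⟨by rw [hfy]; exact h3, by rw [hfy]⟩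
      · right
        obtain ⟨z, hz, hzy⟩ := surj_clU hK hp j h3
        rw [← hzy, hBf z (cl_sub_Xf j hz)]
        exact hz
    have hw'C : w' ∉ closure (U c j) := fun h3 => by
      have h4 := map_clU hK hp j h3
      rw [hfw'] at h4
      exact hcl h4
    have hM : connectedComponentIn (closure (U c j))ᶜ w' ⊆ V := by
      refine isPreconnected_connectedComponentIn.subset_left_of_subset_union hVo
        (v := (closure V)ᶜ) isClosed_closure.isOpen_compl ?_ ?_ ?_
      · rw [Set.disjoint_compl_right_iff_subset]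
        exact subset_closure
      · intro m hm
        by_cases h3 : m ∈ closure V
        · rcases hVcl h3 with h4 | h4
          · exact Or.inl h4
          · exact absurd h4 (connectedComponentIn_subset _ _ hm)
        · exact Or.inr h3
      · exact ⟨w', mem_connectedComponentIn hw'C, hw'V⟩
    show Bornology.IsBounded (connectedComponentIn (closure (U c j))ᶜ w')
    exact (hBc.isBounded).subset (hM.trans hVB)

/-- the preimages of the small Julia set -/
lemma pull {z : ℂ} (hz : (f c)^[n] z ∈ Xf c 0) : z ∈ Xf c 0 ∨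
    ∃ j, 0 < j ∧ j < n ∧ -((f c)^[j] z) ∈ Xf c j := by
  by_contra hcon
  push Not at hcon
  obtain ⟨hz0, hcon⟩ := hcon
  have h1 : ∀ m, m ≤ n → (f c)^[n - m] z ∈ Xf c (n - m) := by
    intro m
    induction m with
    | zero =>
      intro _
      rw [Nat.sub_zero]
      have := Xf_period hp 0 (c := c)
      rw [Nat.zero_add] at this
      rw [this]
      exact hz
    | succ m ih =>
      intro hm
      have h2 := ih (by omega)
      rw [show n - m = (n - (m + 1)) + 1 by omega, iter_succ] at h2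
      rcases Nat.eq_zero_or_pos (n - (m + 1)) with h3 | h3
      · rw [h3] at h2 ⊢
        exact pull_zero hK hp h2
      · rcases pull_pos hK hp hL h3 (by omega) h2 with h4 | h4
        · exact h4
        · exact absurd h4 (hcon _ h3 (by omega))
  have h2 := h1 n le_rfl
  rw [Nat.sub_self] at h2
  exact hz0 h2

lemma sep : ∃ ε : ℝ, 0 < ε ∧ ∀ z, (f c)^[n] z ∈ Xf c 0 → z ∉ Xf c 0 → ∀ x ∈ Xf c 0,
    ε ≤ ‖z - x‖ := by
  set Z : Set ℂ := ⋃ j ∈ Set.Ioo 0 n, {z | -((f c)^[j] z) ∈ Xf c j} with hZ
  have hZc : IsClosed Z := by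
    refine (Set.finite_Ioo 0 n).isClosed_biUnion fun j _ => ?_
    exact (Xf_cpt hK j).isClosed.preimage (iter_cont c j).neg
  have hdis : Disjoint (Xf c 0) Z := by
    rw [Set.disjoint_left]
    intro x hx hxZ
    obtain ⟨j, hj, hxj⟩ := Set.mem_iUnion₂.1 hxZ
    have h1 := Xf_map_iter hK hp 0 j hx
    rw [Nat.zero_add] at h1
    exact Xf_neg hK hp hL hj.1 hj.2 h1 hxj
  obtain ⟨δ, hδ, hd⟩ := hdis.exists_thickenings (Xf_cpt hK 0) hZc
  refine ⟨δ, hδ, fun z hz hz' x hx => ?_⟩
  rcases pull hK hp hL hz with h1 | ⟨j, hj, hjn, hzj⟩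
  · exact absurd h1 hz'
  · by_contra hlt
    have h2 : z ∈ Z := Set.mem_iUnion₂.2 ⟨j, ⟨hj, hjn⟩, hzj⟩
    have h3 : z ∈ thickening δ (Xf c 0) := by
      rw [mem_thickening_iff]
      exact ⟨x, hx, by rw [dist_eq_norm]; exact not_le.1 hlt⟩
    exact Set.disjoint_left.1 hd h3 (self_subset_thickening hδ _ h2)

end

end PER

end R4C
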