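import Pool.Agent.Work.MP_e3f5d9_al_cx.Interface

/-!
# Block SQR: a continuous square root off a leg
-/

set_option autoImplicit false

open unitInterval Topology Metric Filter

namespace R4C

namespace SQR

/-- the curve `τ ψ (u / τ)` with the value `u` at `0` -/
noncomputable def h (ψ : ℂ → ℂ) (u : ℂ) (t : I) : ℂ :=
  if t = 0 then u else (t : ℂ) * ψ (u / (t : ℂ))

lemma coe_ne {t : I} (ht : t ≠ 0) : ((t : ℝ) : ℂ) ≠ 0 := by
  intro h1
  apply ht
  apply Subtype.ext
  exact_mod_cast h1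

lemma norm_div {u : ℂ} (hu : ‖u‖ = 1) (t : I) : ‖u / ((t : ℝ) : ℂ)‖ = (t : ℝ)⁻¹ := by
  rw [_root_.norm_div, hu, Complex.norm_real, Real.norm_of_nonneg t.2.1, one_div]

lemma one_le {u : ℂ} (hu : ‖u‖ = 1) {t : I} (ht : t ≠ 0) : 1 ≤ ‖u / ((t : ℝ) : ℂ)‖ := by
  rw [norm_div hu]
  have h1 : 0 < (t : ℝ) := lt_of_le_of_ne t.2.1 (fun h => ht (Subtype.ext h.symm))
  exact (one_le_inv₀ h1).2 t.2.2

lemma cont_h {c : ℂ} {ψ : ℂ → ℂ} (L : Lnd c ψ) {u : ℂ} (hu : ‖u‖ = 1) : Continuous (h ψ u) := by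
  rw [continuous_iff_continuousAt]
  intro t
  by_cases ht : t = 0
  · subst ht
    rw [continuousAt_iff_punctured_nhds]
    have h0 : h ψ u 0 = u := by simp [h]
    rw [h0]
    have h1 : Tendsto (fun s : I => u / ((s : ℝ) : ℂ)) (𝓝[≠] 0) (Bornology.cobounded ℂ) := by
      rw [← tendsto_norm_atTop_iff_cobounded]
      have h2 : (fun s : I => ‖u / ((s : ℝ) : ℂ)‖) = fun s : I => (s : ℝ)⁻¹ := by
        funext s
        exact norm_div hu s
      rw [h2]
      have h3 : Tendsto (fun s : I => (s : ℝ)) (𝓝[≠] 0) (𝓝[>] 0) := by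
        refine tendsto_nhdsWithin_iff.2 ⟨?_, ?_⟩
        · exact (continuous_subtype_val.tendsto (0 : I)).mono_left nhdsWithin_le_nhds
        · filter_upwards [self_mem_nhdsWithin] with s hs
          exact lt_of_le_of_ne s.2.1 (fun h => hs (Subtype.ext h.symm))
      exact tendsto_inv_nhdsGT_zero.comp h3
    have h4 := (L.inf.comp h1).const_mul u
    rw [mul_one] at h4
    refine h4.congr' ?_
    filter_upwards [self_mem_nhdsWithin] with s hs
    have hs' : s ≠ 0 := hs
    have h5 := coe_ne hs'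
    have h6 : u ≠ 0 := by
      intro h7
      rw [h7, norm_zero] at hu
      exact zero_ne_one hu
    simp only [Function.comp, h, if_neg hs']
    field_simp
  · have h1 : ContinuousOn (fun s : I => ((s : ℝ) : ℂ) * ψ (u / ((s : ℝ) : ℂ))) {s | s ≠ 0} := by
      refine ContinuousOn.mul (by fun_prop) ?_
      refine L.cont.comp ?_ (fun s hs => one_le hu hs)
      refine ContinuousOn.div continuousOn_const (by fun_prop) (fun s hs => coe_ne hs)
    have h2 : {s : I | s ≠ 0} ∈ 𝓝 t := isOpen_ne.mem_nhds ht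
    refine (h1.continuousAt h2).congr ?_
    filter_upwards [h2] with s hs
    have hs' : s ≠ 0 := hs
    simp [h, hs']

end SQR

open SQR in
theorem stmt_SQR : Stmt_SQR := by
  intro c ψ L u hu
  have hu0 : u ≠ 0 := by
    intro h7
    rw [h7, norm_zero] at hu
    exact zero_ne_one hu
  have hne : ∀ (t : I) (z : ((leg ψ u)ᶜ : Set ℂ)), ((t : ℝ) : ℂ) * z.1 - h ψ u t ≠ 0 := by
    intro t z
    by_cases ht : t = 0
    · subst ht
      simpa [h] using hu0
    · have h1 := coe_ne ht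
      have h2 : z.1 ≠ ψ (u / ((t : ℝ) : ℂ)) := by
        intro h3
        apply z.2
        refine ⟨(t : ℝ)⁻¹, ?_, ?_⟩
        · have := one_le hu ht
          rwa [norm_div hu] at this
        · rw [h3]
          congr 1
          push_cast
          field_simp
      simp only [h, if_neg ht]
      rw [← mul_sub]
      exact mul_ne_zero h1 (sub_ne_zero.2 h2)
  let H : C(I × ((leg ψ u)ᶜ : Set ℂ), {z : ℂ // z ≠ 0}) :=
    ⟨fun x => ⟨((x.1 : ℝ) : ℂ) * x.2.1 - h ψ u x.1, hne x.1 x.2⟩, by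
      refine Continuous.subtype_mk ?_ _
      have := cont_h L hu
      fun_prop⟩
  let f0 : C(((leg ψ u)ᶜ : Set ℂ), ℂ) := ContinuousMap.const _ (Complex.log (-u))
  have H0 : ∀ a, H (0, a) = (fun z : ℂ => (⟨_, z.exp_ne_zero⟩ : {z : ℂ // z ≠ 0})) (f0 a) := by
    intro a
    apply Subtype.ext
    show ((0 : I) : ℂ) * a.1 - h ψ u 0 = Complex.exp (Complex.log (-u))
    rw [Complex.exp_log (neg_ne_zero.2 hu0)]
    simp [h]
  let G := Complex.isCoveringMap_exp.liftHomotopy H f0 H0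
  have hG : ∀ z : ((leg ψ u)ᶜ : Set ℂ), Complex.exp (G (1, z)) = z.1 - ψ u := by
    intro z
    have h1 := congrFun (Complex.isCoveringMap_exp.liftHomotopy_lifts H f0 H0) (1, z)
    have h2 := congrArg Subtype.val h1
    have h3 : Complex.exp (G (1, z)) = ((1 : I) : ℂ) * z.1 - h ψ u 1 := h2
    rw [h3]
    simp [h]
  classical
  refine ⟨fun z => if hz : z ∈ (leg ψ u)ᶜ then Complex.exp (G (1, ⟨z, hz⟩) / 2) else 0, ?_, ?_⟩
  · rw [continuousOn_iff_continuous_domRestrict]
    have h1 : ((leg ψ u)ᶜ : Set ℂ).domRestrict (fun z => if hz : z ∈ (leg ψ u)ᶜ then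
        Complex.exp (G (1, ⟨z, hz⟩) / 2) else 0) = fun z => Complex.exp (G (1, z) / 2) := by
      funext z
      simp only [Set.domRestrict_apply]
      rw [dif_pos z.2]
    rw [h1]
    have := G.continuous
    fun_prop
  · intro z hz
    have hz' : z ∈ (leg ψ u)ᶜ := hz
    simp only [dif_pos hz']
    rw [← Complex.exp_nat_mul]
    have h1 : ((2 : ℕ) : ℂ) * (G (1, ⟨z, hz'⟩) / 2) = G (1, ⟨z, hz'⟩) := by
      push_cast
      ring
    rw [h1]
    exact hG ⟨z, hz'⟩

end R4C
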