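import Pool.Agent.Work.MP_e3f5d9_al_cx.FULL
import Pool.Agent.Work.MP_e3f5d9_al.FOG
import Pool.Agent.Work.MP_e3f5d9_al.Main

/-!
# TASM: the theorem T from the subexponential upper bound
-/

set_option autoImplicit false

namespace R4C

/-- The upper bound for full classes. -/
def Stmt_SUB : Prop := ∀ (L : Type) [Fintype L] [DecidableEq L] (D : R4.KS L),
  (∀ i, ∃ n, D.nxt^[n] D.o = i) →
  (∀ i j, (∀ n, D.side (D.nxt^[n] i) = D.side (D.nxt^[n] j)) → i = j) →
  3 ≤ Fintype.card L → D.side D.o = true → ∀ E : Finset (Finset L), D.Full E → R4.SubexpGam D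

/-- T from the upper bound. -/
theorem stmt_T (hsub : Stmt_SUB) : Stmt_T := by
  intro L _ _ D horb hsep hcard hside hmix
  have hfull := full_EC D horb hsep (by omega) hmix
  exact R4.b10 D (R4.b1 D) (hsub L D horb hsep hcard hside _ hfull)
    (R4.superpoly D (R4.fog D horb hcard _ hmix))

end R4C
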