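import Pool.Agent.Work.MP_e3f5d9_al_cx.TASM
import Pool.Agent.Work.MP_e3f5d9_al.TF

/-!
# TFIN: the theorem T
-/

set_option autoImplicit false

namespace R4C

/-- The upper bound for full classes. -/
theorem stmt_SUB : Stmt_SUB := fun _ _ _ D horb _ _ hside E hE =>
  R4.subexp_full D E hE hside horb

/-- The theorem T on kneading groups. -/
theorem stmt_T' : Stmt_T := stmt_T stmt_SUB

end R4C
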